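import Pool.Agent.NegLim.Circuit

/-!
# Abstract form of the lower bound, and substitution of constants and variables in circuits
-/

namespace Pool.Agent.NegLim

open Finset
open scoped BigOperators

set_option linter.unusedSectionVars false

section

variable {V : Type} [Fintype V] [DecidableEq V] {Y : Type} [Fintype Y] [Nonempty Y]
  (cw : Y → Finset V)

/-- The sets containing some `cw y`. -/
def upFam : Set (Finset V) := {x | ∃ y, cw y ⊆ x}

lemma upFam_prob (M n N : ℕ) (hn : 2 * n ≤ M + 1) (hN : ∀ y, N ≤ (cw y).card) :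
    (nz M ^ n) (ind (upFam cw)) ∅ ≤ (Fintype.card Y : ℝ) * (1 / 2) ^ N := by
  classical
  have h1 : ind (upFam cw) ≤ ∑ y : Y, ind {x | cw y ⊆ x} := by
    intro x
    rw [Finset.sum_apply]
    have hnn : ∀ y ∈ (univ : Finset Y), 0 ≤ ind {x | cw y ⊆ x} x :=
      fun a _ => ind_nonneg _ _
    by_cases hx : x ∈ upFam cw
    · rw [ind_of_mem hx]
      obtain ⟨y, hy⟩ := hx
      have := Finset.single_le_sum hnn (mem_univ y)
      rwa [ind_of_mem (show x ∈ {x | cw y ⊆ x} from hy)] at this
    · rw [ind_of_notMem hx]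
      exact Finset.sum_nonneg hnn
  have h2 := nz_pow_mono M n h1 ∅
  rw [map_sum, Finset.sum_apply] at h2
  refine h2.trans ?_
  have hM : (0 : ℝ) < (M : ℝ) + 1 := by positivity
  have hn' : 2 * (n : ℝ) ≤ (M : ℝ) + 1 := by exact_mod_cast hn
  have h3 : ∀ y ∈ (univ : Finset Y),
      (nz M ^ n) (ind {x | cw y ⊆ x}) ∅ ≤ (1 / 2 : ℝ) ^ N := by
    intro y _
    have h4 := nz_pow_contains M (cw y) n (by linarith [Nat.cast_nonneg (α := ℝ) n])
    refine h4.trans ?_
    have h5 : ((n : ℝ) / ((M : ℝ) + 1)) ^ (cw y).card ≤ (1 / 2 : ℝ) ^ (cw y).card := by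
      apply pow_le_pow_left₀ (by positivity)
      rw [div_le_iff₀ hM]
      linarith
    exact h5.trans (pow_le_pow_of_le_one (by norm_num) (by norm_num) (hN y))
  refine (Finset.sum_le_sum h3).trans ?_
  rw [Finset.sum_const, nsmul_eq_mul, Finset.card_univ]

/-- **Abstract main theorem.** -/
theorem main_abstract (q w M k r N : ℕ) (hw : 1 ≤ w) (hM : 8 * w * (M + 1) ≤ q)
    (hsp : Spread cw w (q : ℝ)) (hN : ∀ y, N ≤ (cw y).card)
    (hk : (Fintype.card V + 1) ^ (2 * w) * 2 ^ w ≤ 2 ^ k)
    (hr : 2 * (k * r) ≤ M + 1) (hY : 4 * Fintype.card Y ≤ 2 ^ N)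
    (C : Circuit V) {T : ℕ} (out : Fin T → Wire V) (h : (Fin T → Bool) → Bool)
    (hC : ∀ x : V → Bool, h (fun i => C.val x (out i)) = true ↔
      ∃ y : Y, ∀ v ∈ cw y, x v = true)
    (hT : 2 * ((T + 1) * 2 ^ C.negs) ≤ r) :
    2 ^ w ≤ 8 * ((T + 1) * 2 ^ C.negs) * C.size := by
  classical
  obtain ⟨J, _, g, hJ, hg, hdet⟩ := circuit_family C out
  have hqpos : 0 < q := lt_of_lt_of_le (by positivity) hM
  have hq0 : (0 : ℝ) < q := by exact_mod_cast hqpos
  have hr0 : 1 ≤ r := by
    have : 1 ≤ (T + 1) * 2 ^ C.negs := Nat.mul_pos (by omega) (by positivity)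
    omega
  have hk1 : 1 ≤ k := by
    by_contra h0
    have h1 : k = 0 := by omega
    rw [h1, pow_zero] at hk
    have h2 : 2 ≤ 2 ^ w := by
      calc 2 = 2 ^ 1 := by norm_num
        _ ≤ 2 ^ w := Nat.pow_le_pow_right (by norm_num) hw
    have h3 : 1 ≤ (Fintype.card V + 1) ^ (2 * w) := Nat.one_le_pow _ _ (by omega)
    nlinarith
  have hkw : ((Fintype.card V : ℝ) + 1) ^ (2 * w) * (1 / 2 : ℝ) ^ k ≤ (1 / 2 : ℝ) ^ w := by
    have h1 : ((Fintype.card V : ℝ) + 1) ^ (2 * w) * 2 ^ w ≤ 2 ^ k := by exact_mod_cast hk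
    have h2 : (1 / 2 : ℝ) ^ k = 1 / 2 ^ k := by rw [one_div, inv_pow, one_div]
    have h3 : (1 / 2 : ℝ) ^ w = 1 / 2 ^ w := by rw [one_div, inv_pow, one_div]
    rw [h2, h3, mul_one_div, div_le_div_iff₀ (by positivity) (by positivity)]
    linarith
  have hM' : 8 * (w : ℝ) * ((M : ℝ) + 1) ≤ q := by exact_mod_cast hM
  have hdet' : ∀ x x' : Finset V, (∀ j, x ∈ g j ↔ x' ∈ g j) →
      (x ∈ upFam cw ↔ x' ∈ upFam cw) := by
    have hch : ∀ x : Finset V, x ∈ upFam cw ↔
        h (fun i => C.val (chi x) (out i)) = true := by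
      intro x
      rw [hC (chi x)]
      unfold upFam
      rw [Set.mem_ofPred_eq]
      refine exists_congr fun a => ?_
      simp [chi, Finset.subset_iff]
    intro x x' hj
    rw [hch, hch, hdet x x' hj]
  have hγ : ∀ i < r, (nz M ^ (k * i)) (ind (upFam cw)) ∅ ≤ 1 / 4 := by
    intro i hi
    have h1 : k * i ≤ k * r := Nat.mul_le_mul_left k hi.le
    refine (upFam_prob cw M (k * i) N (by omega) hN).trans ?_
    have h2 : (4 : ℝ) * (Fintype.card Y : ℝ) ≤ 2 ^ N := by exact_mod_cast hY
    have h3 : (1 / 2 : ℝ) ^ N = 1 / 2 ^ N := by rw [one_div, inv_pow, one_div]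
    rw [h3, mul_one_div, div_le_div_iff₀ (by positivity) (by norm_num)]
    linarith
  have hfin := many_monotone cw M k w q hq0 hk1 hw hM' hsp hkw (upFam cw)
    (fun x y => ⟨y, subset_union_right⟩) r (1 / 4) hγ g hg hdet'
  set A : ℕ := (T + 1) * 2 ^ C.negs with hA
  have hJA : (Fintype.card J : ℝ) ≤ A := by
    have : Fintype.card J ≤ A := by omega
    exact_mod_cast this
  have hs : ((C.size - C.negs : ℕ) : ℝ) ≤ C.size := by
    exact_mod_cast Nat.sub_le _ _
  have hrA : 2 * (A : ℝ) ≤ r := by exact_mod_cast hT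
  have hr1 : (1 : ℝ) ≤ r := by exact_mod_cast hr0
  set e : ℝ := (1 / 2 : ℝ) ^ w with he
  have he0 : 0 < e := by positivity
  have h1 : (Fintype.card J : ℝ) * (1 + r * (((C.size - C.negs : ℕ) : ℝ) * (2 * e)))
      ≤ A * (1 + r * ((C.size : ℝ) * (2 * e))) := by
    apply mul_le_mul hJA _ (by positivity) (by positivity)
    have : (r : ℝ) * (((C.size - C.negs : ℕ) : ℝ) * (2 * e)) ≤ r * ((C.size : ℝ) * (2 * e)) := by
      apply mul_le_mul_of_nonneg_left _ (by positivity)
      exact mul_le_mul_of_nonneg_right hs (by positivity)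
    linarith
  have h2 : (r : ℝ) * (1 - 1 / 4) ≤ A * (1 + r * ((C.size : ℝ) * (2 * e))) := hfin.trans h1
  have h3 : (1 : ℝ) / 4 ≤ A * ((C.size : ℝ) * (2 * e)) := by
    have : (r : ℝ) * (1 / 4) ≤ r * (A * ((C.size : ℝ) * (2 * e))) := by nlinarith
    exact le_of_mul_le_mul_left this (by linarith)
  have h4 : (2 : ℝ) ^ w ≤ 8 * A * C.size := by
    have h5 : e * 2 ^ w = 1 := by rw [he, ← mul_pow]; norm_num
    have h6 : (2 : ℝ) ^ w * (1 / 4) ≤ 2 ^ w * (A * ((C.size : ℝ) * (2 * e))) :=
      mul_le_mul_of_nonneg_left h3 (by positivity)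
    have h7 : (2 : ℝ) ^ w * (A * ((C.size : ℝ) * (2 * e))) = 2 * A * C.size := by
      calc (2 : ℝ) ^ w * (A * ((C.size : ℝ) * (2 * e))) = 2 * A * C.size * (e * 2 ^ w) := by ring
        _ = _ := by rw [h5, mul_one]
    rw [h7] at h6
    linarith
  exact_mod_cast h4

end

section subst

variable {V W : Type}

/-- A simple wire: a variable or a constant. -/
inductive Lit (W : Type) : Type
  | var (v : W) : Lit W
  | const (b : Bool) : Lit W

/-- The wire of a simple wire. -/
def Lit.wire : Lit W → Wire W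
  | .var v => .var v
  | .const b => .const b

/-- Its value. -/
def Lit.val (x : W → Bool) : Lit W → Bool
  | .var v => x v
  | .const b => b

/-- Substitution in a wire. -/
def Wire.subst (σ : V → Lit W) : Wire V → Wire W
  | .var v => (σ v).wire
  | .const b => .const b
  | .gate i => .gate i

/-- Substitution in a gate. -/
def Gate.subst (σ : V → Lit W) : Gate V → Gate W
  | .and a b => .and (a.subst σ) (b.subst σ)
  | .or a b => .or (a.subst σ) (b.subst σ)
  | .not a => .not (a.subst σ)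

lemma Wire.subst_val (σ : V → Lit W) (x : W → Bool) (vals : List Bool) (a : Wire V) :
    (a.subst σ).val x vals = a.val (fun v => (σ v).val x) vals := by
  cases a with
  | var v => simp only [Wire.subst, Wire.val]; cases σ v <;> rfl
  | const b => rfl
  | gate i => rfl

lemma Gate.subst_val (σ : V → Lit W) (x : W → Bool) (vals : List Bool) (g : Gate V) :
    (g.subst σ).val x vals = g.val (fun v => (σ v).val x) vals := by
  cases g <;> simp [Gate.subst, Gate.val, Wire.subst_val]

lemma gateVals_subst (σ : V → Lit W) (x : W → Bool) (C : Circuit V) (vals : List Bool) :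
    gateVals x (C.map (Gate.subst σ)) vals = gateVals (fun v => (σ v).val x) C vals := by
  induction C generalizing vals with
  | nil => rfl
  | cons g C ih => simp only [List.map_cons, gateVals, Gate.subst_val]; exact ih _

lemma Circuit.subst_val (σ : V → Lit W) (x : W → Bool) (C : Circuit V) (a : Wire V) :
    Circuit.val (C.map (Gate.subst σ)) x (a.subst σ) = Circuit.val C (fun v => (σ v).val x) a := by
  unfold Circuit.val
  rw [gateVals_subst, Wire.subst_val]

lemma Circuit.subst_size (σ : V → Lit W) (C : Circuit V) :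
    Circuit.size (C.map (Gate.subst σ)) = Circuit.size C := by simp [Circuit.size]

lemma Circuit.subst_negs (σ : V → Lit W) (C : Circuit V) :
    Circuit.negs (C.map (Gate.subst σ)) = Circuit.negs C := by
  unfold Circuit.negs
  rw [List.countP_map]
  congr 1
  funext g
  cases g <;> rfl

end subst

end Pool.Agent.NegLim
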