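import Pool.Agent.Lib.PolyTime.PF

/-!
# The language: the polynomial function, as a predicate of the polynomial-time calculus on
inputs padded to exponential length
-/

namespace Pool.Agent.NegLim.Lang

open Finset Pool.Agent.PolyTime

open Classical in
/-- The `b`-th root of `n`, rounded down (for `n ≥ 1`). -/
noncomputable def rt (b n : ℕ) : ℕ := ((range n).filter (fun t => (t + 1) ^ b ≤ n)).card

/-- `p` is prime. -/
def IsPr (p : ℕ) : Prop := 2 ≤ p ∧ ∀ d < p, p % d = 0 → d = 1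

open Classical in
/-- The greatest prime which is at most `X`. -/
noncomputable def gp (X : ℕ) : ℕ :=
  ∑ p ∈ range (X + 1), if IsPr p ∧ ∀ p' < X + 1, p < p' → ¬ IsPr p' then p else 0

/-- `P` is a power of `q`. -/
def IsPow (q P : ℕ) : Prop := P ≠ 0 ∧ ∀ d < P + 1, P % d = 0 → d = 1 ∨ d % q = 0

open Classical in
/-- `q ^ j` if it is less than `S`. -/
noncomputable def pw (q S j : ℕ) : ℕ :=
  ∑ P ∈ range S, if IsPow q P ∧ ((range P).filter (fun P' => IsPow q P')).card = j then P else 0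

/-- Digit number `j` of `s` in base `q`. -/
noncomputable def dig (q S s j : ℕ) : ℕ := s / pw q S j % q

/-- Some polynomial with `c` coefficients modulo `q` has its graph over the points
`0, ..., N - 1` inside the set given by `bit`. -/
def Acc (c N q S : ℕ) (bit : ℕ → Bool) : Prop :=
  ∃ u < S, ∀ i < N, ∃ s < S, dig q S s 0 = 0 ∧
    (∀ j < c, dig q S s (j + 1) = (dig q S s j * i + dig q S u j) % q) ∧
    bit (i * q + dig q S s c) = true

open Classical in
/-- The number of leading `true`s. -/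
noncomputable def lead (y : List Bool) : ℕ :=
  ((range y.length).filter (fun i => ∀ j < i + 1, y.getD j false = true)).card

/-- The length of the word encoded by `y`. -/
noncomputable def wlen (y : List Bool) : ℕ := y.length - lead y - 1

/-- The bits of the word encoded by `y`. -/
noncomputable def wbit (y : List Bool) (i : ℕ) : Bool := y.getD (lead y + 1 + i) false

/-- The language, on padded inputs. -/
def PLang (a b : ℕ) (y : List Bool) : Prop :=
  Acc (2 * rt b (wlen y) ^ a) (rt b (wlen y) ^ (a + 1)) (gp (wlen y / rt b (wlen y) ^ (a + 1)))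
    y.length (wbit y)

variable {α : Type} [Ctx α]

lemma PD.imp {P Q : List Bool → α → Prop} (hP : PD P) (hQ : PD Q) :
    PD (fun x a => P x a → Q x a) :=
  (hP.not.or hQ).congr fun x a => by
    by_cases h : P x a <;> simp [h]

lemma pf_rt (b : ℕ) {A : List Bool → α → ℕ} (hA : PF A) : PF (fun x a => rt b (A x a)) := by
  classical
  have h := PF.count (P := fun x (p : α × ℕ) => (p.2 + 1) ^ b ≤ A x p.1) hA
    (PD.le ((PF.snd.add (PF.const 1)).pow b) hA.fst)
  refine h.congr fun x a => ?_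
  unfold rt
  congr

lemma pd_isPr {A : List Bool → α → ℕ} (hA : PF A) : PD (fun x a => IsPr (A x a)) :=
  (PD.le (PF.const 2) hA).and (PD.forall_lt hA
    (P := fun x (p : α × ℕ) => A x p.1 % p.2 = 0 → p.2 = 1)
    (PD.imp (PD.eq (hA.fst.mod PF.snd) (PF.const 0)) (PD.eq PF.snd (PF.const 1))))

lemma pf_gp {A : List Bool → α → ℕ} (hA : PF A) : PF (fun x a => gp (A x a)) := by
  classical
  have h1 : PD (fun x (p : α × ℕ) => ∀ p' < A x p.1 + 1, p.2 < p' → ¬ IsPr p') :=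
    PD.forall_lt (P := fun x (r : (α × ℕ) × ℕ) => r.1.2 < r.2 → ¬ IsPr r.2)
      (hA.fst.add (PF.const 1)) (PD.imp (PD.lt PF.snd.fst PF.snd) (pd_isPr PF.snd).not)
  have h2 : PF (fun x (p : α × ℕ) =>
      if IsPr p.2 ∧ ∀ p' < A x p.1 + 1, p.2 < p' → ¬ IsPr p' then p.2 else 0) :=
    PF.ite ((pd_isPr PF.snd).and h1) PF.snd (PF.const 0)
  refine (PF.sum (hA.add (PF.const 1)) h2).congr fun x a => ?_
  unfold gp
  refine Finset.sum_congr rfl fun p _ => ?_
  congr

lemma pd_isPow {Q P : List Bool → α → ℕ} (hQ : PF Q) (hP : PF P) :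
    PD (fun x a => IsPow (Q x a) (P x a)) :=
  hP.ne_zero.and (PD.forall_lt (P := fun x (p : α × ℕ) => P x p.1 % p.2 = 0 →
      p.2 = 1 ∨ p.2 % Q x p.1 = 0) (hP.add (PF.const 1))
    (PD.imp (PD.eq (hP.fst.mod PF.snd) (PF.const 0))
      ((PD.eq PF.snd (PF.const 1)).or (PD.eq (PF.snd.mod hQ.fst) (PF.const 0)))))

lemma pf_pw {Q S J : List Bool → α → ℕ} (hQ : PF Q) (hS : PF S) (hJ : PF J) :
    PF (fun x a => pw (Q x a) (S x a) (J x a)) := by
  classical
  have h0 : PF (fun x (p : α × ℕ) => ((range p.2).filter (fun P' => IsPow (Q x p.1) P')).card) :=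
    PF.count (P := fun x (r : (α × ℕ) × ℕ) => IsPow (Q x r.1.1) r.2) PF.snd
      (pd_isPow hQ.fst.fst PF.snd)
  have h1 : PF (fun x (p : α × ℕ) =>
      if IsPow (Q x p.1) p.2 ∧ ((range p.2).filter (fun P' => IsPow (Q x p.1) P')).card = J x p.1
        then p.2 else 0) :=
    PF.ite ((pd_isPow hQ.fst PF.snd).and (PD.eq h0 hJ.fst)) PF.snd (PF.const 0)
  refine (PF.sum hS h1).congr fun x a => ?_
  unfold pw
  refine Finset.sum_congr rfl fun p _ => ?_
  congr

lemma pf_dig {Q S U J : List Bool → α → ℕ} (hQ : PF Q) (hS : PF S) (hU : PF U) (hJ : PF J) :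
    PF (fun x a => dig (Q x a) (S x a) (U x a) (J x a)) :=
  (hU.div (pf_pw hQ hS hJ)).mod hQ

lemma pf_lead : PF (fun y (_ : α) => lead y) := by
  classical
  have h := PF.count (P := fun x (p : α × ℕ) => ∀ j < p.2 + 1, x.getD j false = true)
    (PF.len (α := α))
    (PD.forall_lt (P := fun x (r : (α × ℕ) × ℕ) => x.getD r.2 false = true)
      (PF.snd.add (PF.const 1)) (PD.bit PF.snd))
  refine h.congr fun x a => ?_
  unfold lead
  congr

lemma pf_wlen : PF (fun y (_ : α) => wlen y) :=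
  (PF.len.sub pf_lead).sub (PF.const 1)

lemma pd_wbit {A : List Bool → α → ℕ} (hA : PF A) : PD (fun y a => wbit y (A y a) = true) :=
  PD.bit ((pf_lead.add (PF.const 1)).add hA)

lemma pd_acc {C N Q S : List Bool → α → ℕ} (hC : PF C) (hN : PF N) (hQ : PF Q) (hS : PF S) :
    PD (fun y a => Acc (C y a) (N y a) (Q y a) (S y a) (wbit y)) := by
  -- contexts: α, u, i, s, j
  have hu : PF (fun (_ : List Bool) (r : ((α × ℕ) × ℕ) × ℕ) => r.1.1.2) := PF.snd.fst.fst
  have hi : PF (fun (_ : List Bool) (r : ((α × ℕ) × ℕ) × ℕ) => r.1.2) := PF.snd.fst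
  have hs : PF (fun (_ : List Bool) (r : ((α × ℕ) × ℕ) × ℕ) => r.2) := PF.snd
  have hQ3 : PF (fun y (r : ((α × ℕ) × ℕ) × ℕ) => Q y r.1.1.1) := hQ.fst.fst.fst
  have hS3 : PF (fun y (r : ((α × ℕ) × ℕ) × ℕ) => S y r.1.1.1) := hS.fst.fst.fst
  have hC3 : PF (fun y (r : ((α × ℕ) × ℕ) × ℕ) => C y r.1.1.1) := hC.fst.fst.fst
  have c1 : PD (fun y (r : ((α × ℕ) × ℕ) × ℕ) => dig (Q y r.1.1.1) (S y r.1.1.1) r.2 0 = 0) :=
    PD.eq (pf_dig hQ3 hS3 hs (PF.const 0)) (PF.const 0)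
  have c2 : PD (fun y (r : ((α × ℕ) × ℕ) × ℕ) => ∀ j < C y r.1.1.1,
      dig (Q y r.1.1.1) (S y r.1.1.1) r.2 (j + 1)
        = (dig (Q y r.1.1.1) (S y r.1.1.1) r.2 j * r.1.2
            + dig (Q y r.1.1.1) (S y r.1.1.1) r.1.1.2 j) % Q y r.1.1.1) :=
    PD.forall_lt (P := fun y (t : (((α × ℕ) × ℕ) × ℕ) × ℕ) =>
      dig (Q y t.1.1.1.1) (S y t.1.1.1.1) t.1.2 (t.2 + 1)
        = (dig (Q y t.1.1.1.1) (S y t.1.1.1.1) t.1.2 t.2 * t.1.1.2
            + dig (Q y t.1.1.1.1) (S y t.1.1.1.1) t.1.1.1.2 t.2) % Q y t.1.1.1.1) hC3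
      (PD.eq (pf_dig hQ3.fst hS3.fst hs.fst (PF.snd.add (PF.const 1)))
        ((((pf_dig hQ3.fst hS3.fst hs.fst PF.snd).mul hi.fst).add
          (pf_dig hQ3.fst hS3.fst hu.fst PF.snd)).mod hQ3.fst))
  have c3 : PD (fun y (r : ((α × ℕ) × ℕ) × ℕ) =>
      wbit y (r.1.2 * Q y r.1.1.1 + dig (Q y r.1.1.1) (S y r.1.1.1) r.2 (C y r.1.1.1)) = true) :=
    pd_wbit ((hi.mul hQ3).add (pf_dig hQ3 hS3 hs hC3))
  have d1 := PD.exists_lt (B := fun y (r : (α × ℕ) × ℕ) => S y r.1.1)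
    (P := fun y (r : ((α × ℕ) × ℕ) × ℕ) => dig (Q y r.1.1.1) (S y r.1.1.1) r.2 0 = 0 ∧
      (∀ j < C y r.1.1.1, dig (Q y r.1.1.1) (S y r.1.1.1) r.2 (j + 1)
        = (dig (Q y r.1.1.1) (S y r.1.1.1) r.2 j * r.1.2
            + dig (Q y r.1.1.1) (S y r.1.1.1) r.1.1.2 j) % Q y r.1.1.1) ∧
      wbit y (r.1.2 * Q y r.1.1.1 + dig (Q y r.1.1.1) (S y r.1.1.1) r.2 (C y r.1.1.1)) = true)
    hS.fst.fst (c1.and (c2.and c3))
  have d2 := PD.forall_lt (B := fun y (r : α × ℕ) => N y r.1) hN.fst d1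
  have d3 := PD.exists_lt (B := fun y (r : α) => S y r) hS d2
  exact d3

theorem pd_plang (a b : ℕ) : PD (fun y (_ : α) => PLang a b y) := by
  have hr : PF (fun y (_ : α) => rt b (wlen y)) := pf_rt b pf_wlen
  exact pd_acc ((PF.const 2).mul (hr.pow a)) (hr.pow (a + 1))
    (pf_gp (pf_wlen.div (hr.pow (a + 1)))) PF.len

open Classical in
theorem plang_polyTime (a b : ℕ) : Nonempty (Turing.TM2ComputableInPolyTime
    (id : List Bool → List Bool) (id : List Bool → List Bool)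
    (fun y => [decide (PLang a b y)])) := by
  apply PFBits.polyTime
  refine ⟨fun _ => 1, fun w _ => if PLang a b w then 1 else 0, PF.const 1, ?_, ?_⟩
  · exact PF.ite (P := fun w (_ : Unit × ℕ) => PLang a b w) (pd_plang a b) (PF.const 1) (PF.const 0)
  · intro w
    by_cases h : PLang a b w <;> simp [h]

end Pool.Agent.NegLim.Lang
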