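import Pool.Agent.NegLim.Circuit

/-!
# The polynomial function
-/

namespace Pool.Agent.NegLim

open Finset
open scoped BigOperators

set_option linter.unusedSectionVars false

/-- The value at the point `i` of the polynomial over `ZMod q` with coefficients `a`. -/
def pval {q c : ℕ} (a : Fin c → ZMod q) (i : ℕ) : ZMod q := ∑ j : Fin c, a j * (i : ZMod q) ^ (j : ℕ)

variable {q : ℕ} [Fact q.Prime] {c N : ℕ}

/-- The graph of a polynomial on the points `0, ..., N - 1`. -/
def graph (N : ℕ) (a : Fin c → ZMod q) : Finset (Fin N × ZMod q) :=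
  univ.image (fun i : Fin N => (i, pval a (i : ℕ)))

lemma mem_graph {a : Fin c → ZMod q} {p : Fin N × ZMod q} :
    p ∈ graph N a ↔ p.2 = pval a (p.1 : ℕ) := by
  unfold graph
  rw [mem_image]
  constructor
  · rintro ⟨i, _, rfl⟩; rfl
  · intro h
    exact ⟨p.1, mem_univ _, by rw [← h]⟩

lemma card_graph (a : Fin c → ZMod q) : (graph N a).card = N := by
  unfold graph
  rw [card_image_of_injective _ (fun i j h => (Prod.ext_iff.mp h).1), Finset.card_univ,
    Fintype.card_fin]

lemma graph_subset_iff {a : Fin c → ZMod q} {x : Finset (Fin N × ZMod q)} :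
    graph N a ⊆ x ↔ ∀ i : Fin N, (i, pval a (i : ℕ)) ∈ x := by
  constructor
  · intro h i
    exact h (mem_graph.mpr rfl)
  · intro h p hp
    have h1 := mem_graph.mp hp
    have h2 := h p.1
    rw [← h1] at h2
    exact h2

/-- Interpolation. -/
lemma pval_inj (hNq : N ≤ q) {I : Finset (Fin N)} (hI : I.card = c) {a b : Fin c → ZMod q}
    (h : ∀ i ∈ I, pval a (i : ℕ) = pval b (i : ℕ)) : a = b := by
  classical
  let e := (I.equivFinOfCardEq hI).symm
  have hf : Function.Injective (fun k : Fin c => (((e k).val : ℕ) : ZMod q)) := by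
    intro k l hkl
    simp only at hkl
    have h1 : ((e k).val : ℕ) < q := lt_of_lt_of_le (e k).val.isLt hNq
    have h2 : ((e l).val : ℕ) < q := lt_of_lt_of_le (e l).val.isLt hNq
    have h3 := (ZMod.natCast_eq_natCast_iff' _ _ _).mp hkl
    rw [Nat.mod_eq_of_lt h1, Nat.mod_eq_of_lt h2] at h3
    exact e.injective (Subtype.ext (Fin.ext h3))
  have hv : (fun j => a j - b j) = 0 := by
    apply Matrix.eq_zero_of_forall_index_sum_pow_mul_eq_zero hf
    intro k
    have h1 := h (e k).val (e k).property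
    unfold pval at h1
    have h2 : ∑ j : Fin c, (((e k).val : ℕ) : ZMod q) ^ (j : ℕ) * (a j - b j)
        = ∑ j : Fin c, a j * (((e k).val : ℕ) : ZMod q) ^ (j : ℕ)
          - ∑ j : Fin c, b j * (((e k).val : ℕ) : ZMod q) ^ (j : ℕ) := by
      rw [← Finset.sum_sub_distrib]
      exact Finset.sum_congr rfl fun j _ => by ring
    rw [h2, h1, sub_self]
  funext j
  have := congrFun hv j
  simp only [Pi.zero_apply] at this
  exact sub_eq_zero.mp this

/-- The graphs of random polynomials are spread. -/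
lemma spread_graph (w : ℕ) (hN : 2 * w ≤ N) (hNq : N ≤ q) :
    Spread (fun a : Fin (2 * w) → ZMod q => graph N a) w (q : ℝ) := by
  classical
  intro T hT
  have hq : (0 : ℝ) < q := by exact_mod_cast (Fact.out : q.Prime).pos
  rw [Fintype.expect_eq_sum_div_card, Finset.sum_boole, Fintype.card_fun, Fintype.card_fin,
    ZMod.card]
  set G := univ.filter (fun a : Fin (2 * w) → ZMod q => T ⊆ graph N a) with hG
  have key : G.card * q ^ T.card ≤ q ^ (2 * w) := by
    by_cases hinj : Set.InjOn Prod.fst (T : Set (Fin N × ZMod q))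
    · set I := T.image Prod.fst with hI
      have hIc : I.card = T.card := card_image_of_injOn hinj
      obtain ⟨I', hI1, _, hI2⟩ := Finset.exists_subsuperset_card_eq (subset_univ I)
        (n := 2 * w) (by omega) (by rw [Finset.card_univ, Fintype.card_fin]; exact hN)
      have hcard : G.card ≤ q ^ (2 * w - T.card) := by
        have h1 : G.card ≤ (univ : Finset (↥(I' \ I) → ZMod q)).card := by
          apply Finset.card_le_card_of_injOn
            (fun a => fun i : ↥(I' \ I) => pval a ((i.val : Fin N) : ℕ))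
          · intro a _; exact mem_univ _
          · intro a ha b hb hab
            have ha' : T ⊆ graph N a := by simpa [hG] using ha
            have hb' : T ⊆ graph N b := by simpa [hG] using hb
            apply pval_inj hNq hI2
            intro i hi
            by_cases hiI : i ∈ I
            · rw [hI, mem_image] at hiI
              obtain ⟨p, hp, rfl⟩ := hiI
              rw [← mem_graph.mp (ha' hp), ← mem_graph.mp (hb' hp)]
            · exact congrFun hab ⟨i, mem_sdiff.mpr ⟨hi, hiI⟩⟩
        rw [Finset.card_univ, Fintype.card_fun, ZMod.card, Fintype.card_coe,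
          Finset.card_sdiff_of_subset hI1, hI2, hIc] at h1
        exact h1
      calc G.card * q ^ T.card ≤ q ^ (2 * w - T.card) * q ^ T.card :=
            Nat.mul_le_mul_right _ hcard
        _ = q ^ (2 * w) := by rw [← pow_add]; congr 1; omega
    · have : G = ∅ := by
        rw [Finset.eq_empty_iff_forall_notMem]
        intro a ha
        apply hinj
        intro p hp p' hp' hpp
        have ha' : T ⊆ graph N a := by simpa [hG] using ha
        have h1 := mem_graph.mp (ha' hp)
        have h2 := mem_graph.mp (ha' hp')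
        apply Prod.ext hpp
        rw [h1, h2, hpp]
      rw [this]; simp
  have key' : (G.card : ℝ) * (q : ℝ) ^ T.card ≤ (q : ℝ) ^ (2 * w) := by exact_mod_cast key
  rw [one_div, inv_pow, inv_eq_one_div]
  push_cast
  rw [div_le_div_iff₀ (by positivity) (by positivity), one_mul]
  exact key'

/-- The sets at which the polynomial function is true. -/
def polySet (q c N : ℕ) [Fact q.Prime] : Set (Finset (Fin N × ZMod q)) :=
  {x | ∃ a : Fin c → ZMod q, graph N a ⊆ x}

lemma polySet_prob (M n : ℕ) (hn : 2 * n ≤ M + 1) :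
    (nz M ^ n) (ind (polySet q c N)) ∅ ≤ (q : ℝ) ^ c * (1 / 2) ^ N := by
  classical
  have h1 : ind (polySet q c N) ≤ ∑ a : Fin c → ZMod q, ind {x | graph N a ⊆ x} := by
    intro x
    rw [Finset.sum_apply]
    have hnn : ∀ a ∈ (univ : Finset (Fin c → ZMod q)), 0 ≤ ind {x | graph N a ⊆ x} x :=
      fun a _ => ind_nonneg _ _
    by_cases hx : x ∈ polySet q c N
    · rw [ind_of_mem hx]
      obtain ⟨a, ha⟩ := hx
      have := Finset.single_le_sum hnn (mem_univ a)
      rwa [ind_of_mem (show x ∈ {x | graph N a ⊆ x} from ha)] at this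
    · rw [ind_of_notMem hx]
      exact Finset.sum_nonneg hnn
  have h2 := nz_pow_mono M n h1 ∅
  rw [map_sum, Finset.sum_apply] at h2
  refine h2.trans ?_
  have hM : (0 : ℝ) < (M : ℝ) + 1 := by positivity
  have hn' : 2 * (n : ℝ) ≤ (M : ℝ) + 1 := by exact_mod_cast hn
  have h3 : ∀ a ∈ (univ : Finset (Fin c → ZMod q)),
      (nz M ^ n) (ind {x | graph N a ⊆ x}) ∅ ≤ (1 / 2 : ℝ) ^ N := by
    intro a _
    have h4 := nz_pow_contains M (graph N a) n (by linarith [Nat.cast_nonneg (α := ℝ) n])
    rw [card_graph] at h4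
    refine h4.trans (pow_le_pow_left₀ (by positivity) ?_ _)
    rw [div_le_iff₀ hM]
    linarith
  refine (Finset.sum_le_sum h3).trans ?_
  rw [Finset.sum_const, nsmul_eq_mul, Finset.card_univ, Fintype.card_fun, ZMod.card,
    Fintype.card_fin]
  push_cast
  exact le_rfl

/-- **Main theorem, explicit parameters.** Let `F` be the polynomial function: `F x` is true if
for some polynomial of degree less than `2w` over `ZMod q` the variables `(i, P(i))`,
`i = 0, ..., N - 1`, are all true. If a circuit with `T` outputs, followed by an arbitrary Boolean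
function `h`, computes `F`, then it has many NOT gates or many outputs or many gates. -/
theorem main_explicit (w M k r : ℕ) (hw : 1 ≤ w) (hN : 2 * w ≤ N) (hNq : N ≤ q)
    (hM : 8 * w * (M + 1) ≤ q) (hk : (N * q + 1) ^ (2 * w) * 2 ^ w ≤ 2 ^ k)
    (hr : 2 * (k * r) ≤ M + 1) (hqN : 4 * q ^ (2 * w) ≤ 2 ^ N)
    (C : Circuit (Fin N × ZMod q)) {T : ℕ} (out : Fin T → Wire (Fin N × ZMod q))
    (h : (Fin T → Bool) → Bool)
    (hC : ∀ x : Fin N × ZMod q → Bool, h (fun i => C.val x (out i)) = true ↔
      ∃ a : Fin (2 * w) → ZMod q, ∀ i : Fin N, x (i, pval a (i : ℕ)) = true)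
    (hT : 2 * ((T + 1) * 2 ^ C.negs) ≤ r) :
    2 ^ w ≤ 8 * ((T + 1) * 2 ^ C.negs) * C.size := by
  classical
  obtain ⟨J, _, g, hJ, hg, hdet⟩ := circuit_family C out
  have hq0 : (0 : ℝ) < q := by exact_mod_cast (Fact.out : q.Prime).pos
  have hr0 : 1 ≤ r := by
    have : 1 ≤ (T + 1) * 2 ^ C.negs := Nat.mul_pos (by omega) (by positivity)
    omega
  have hk1 : 1 ≤ k := by
    by_contra h0
    have h1 : k = 0 := by omega
    rw [h1, pow_zero] at hk
    have h2 : 2 ≤ 2 ^ w := by
      calc 2 = 2 ^ 1 := by norm_num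
        _ ≤ 2 ^ w := Nat.pow_le_pow_right (by norm_num) hw
    have h3 : 1 ≤ (N * q + 1) ^ (2 * w) := Nat.one_le_pow _ _ (by omega)
    nlinarith
  have hcard : Fintype.card (Fin N × ZMod q) = N * q := by
    rw [Fintype.card_prod, Fintype.card_fin, ZMod.card]
  have hkw : ((Fintype.card (Fin N × ZMod q) : ℝ) + 1) ^ (2 * w) * (1 / 2 : ℝ) ^ k
      ≤ (1 / 2 : ℝ) ^ w := by
    rw [hcard]
    have h1 : (((N * q : ℕ) : ℝ) + 1) ^ (2 * w) * 2 ^ w ≤ 2 ^ k := by exact_mod_cast hk
    have h2 : (1 / 2 : ℝ) ^ k = 1 / 2 ^ k := by rw [one_div, inv_pow, one_div]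
    have h3 : (1 / 2 : ℝ) ^ w = 1 / 2 ^ w := by rw [one_div, inv_pow, one_div]
    rw [h2, h3, mul_one_div, div_le_div_iff₀ (by positivity) (by positivity)]
    linarith
  have hM' : 8 * (w : ℝ) * ((M : ℝ) + 1) ≤ q := by exact_mod_cast hM
  have hdet' : ∀ x x' : Finset (Fin N × ZMod q), (∀ j, x ∈ g j ↔ x' ∈ g j) →
      (x ∈ polySet q (2 * w) N ↔ x' ∈ polySet q (2 * w) N) := by
    have hch : ∀ x : Finset (Fin N × ZMod q), x ∈ polySet q (2 * w) N ↔
        h (fun i => C.val (chi x) (out i)) = true := by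
      intro x
      rw [hC (chi x)]
      unfold polySet
      rw [Set.mem_ofPred_eq]
      refine exists_congr fun a => ?_
      rw [graph_subset_iff]
      refine forall_congr' fun i => ?_
      simp [chi]
    intro x x' hj
    rw [hch, hch, hdet x x' hj]
  have hγ : ∀ i < r, (nz M ^ (k * i)) (ind (polySet q (2 * w) N)) ∅ ≤ 1 / 4 := by
    intro i hi
    have h1 : k * i ≤ k * r := Nat.mul_le_mul_left k hi.le
    refine (polySet_prob M (k * i) (by omega)).trans ?_
    have h2 : (4 : ℝ) * (q : ℝ) ^ (2 * w) ≤ 2 ^ N := by exact_mod_cast hqN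
    have h3 : (1 / 2 : ℝ) ^ N = 1 / 2 ^ N := by rw [one_div, inv_pow, one_div]
    rw [h3, mul_one_div, div_le_div_iff₀ (by positivity) (by norm_num)]
    linarith
  have hfin := many_monotone (fun a : Fin (2 * w) → ZMod q => graph N a) M k w q hq0 hk1 hw hM'
    (spread_graph w hN hNq) hkw (polySet q (2 * w) N)
    (fun x a => ⟨a, subset_union_right⟩) r (1 / 4) hγ g hg hdet'
  set A : ℕ := (T + 1) * 2 ^ C.negs with hA
  have hJA : (Fintype.card J : ℝ) ≤ A := by
    have : Fintype.card J ≤ A := by omega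
    exact_mod_cast this
  have hs : ((C.size - C.negs : ℕ) : ℝ) ≤ C.size := by
    exact_mod_cast Nat.sub_le _ _
  have hrA : 2 * (A : ℝ) ≤ r := by exact_mod_cast hT
  have hr1 : (1 : ℝ) ≤ r := by exact_mod_cast hr0
  set e : ℝ := (1 / 2 : ℝ) ^ w with he
  have he0 : 0 < e := by positivity
  have h1 : (Fintype.card J : ℝ) * (1 + r * (((C.size - C.negs : ℕ) : ℝ) * (2 * e)))
      ≤ A * (1 + r * ((C.size : ℝ) * (2 * e))) := by
    apply mul_le_mul hJA _ (by positivity) (by positivity)
    have : (r : ℝ) * (((C.size - C.negs : ℕ) : ℝ) * (2 * e)) ≤ r * ((C.size : ℝ) * (2 * e)) := by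
      apply mul_le_mul_of_nonneg_left _ (by positivity)
      exact mul_le_mul_of_nonneg_right hs (by positivity)
    linarith
  have h2 : (r : ℝ) * (1 - 1 / 4) ≤ A * (1 + r * ((C.size : ℝ) * (2 * e))) := hfin.trans h1
  have h3 : (1 : ℝ) / 4 ≤ A * ((C.size : ℝ) * (2 * e)) := by
    have : (r : ℝ) * (1 / 4) ≤ r * (A * ((C.size : ℝ) * (2 * e))) := by nlinarith
    exact le_of_mul_le_mul_left this (by linarith)
  have h4 : (2 : ℝ) ^ w ≤ 8 * A * C.size := by
    have h5 : e * 2 ^ w = 1 := by rw [he, ← mul_pow]; norm_num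
    have h6 : (2 : ℝ) ^ w * (1 / 4) ≤ 2 ^ w * (A * ((C.size : ℝ) * (2 * e))) :=
      mul_le_mul_of_nonneg_left h3 (by positivity)
    have h7 : (2 : ℝ) ^ w * (A * ((C.size : ℝ) * (2 * e))) = 2 * A * C.size := by
      calc (2 : ℝ) ^ w * (A * ((C.size : ℝ) * (2 * e))) = 2 * A * C.size * (e * 2 ^ w) := by ring
        _ = _ := by rw [h5, mul_one]
    rw [h7] at h6
    linarith
  exact_mod_cast h4

end Pool.Agent.NegLim
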