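import Pool.Agent.NegLim.LangPF
import Pool.Agent.NegLim.Poly

/-!
# The language: meaning of the predicate
-/

namespace Pool.Agent.NegLim.Lang

open Finset

lemma isPr_iff (p : ℕ) : IsPr p ↔ p.Prime := by
  unfold IsPr
  rw [Nat.prime_def_lt]
  constructor
  · rintro ⟨h1, h2⟩
    exact ⟨h1, fun m hm hd => h2 m hm (Nat.mod_eq_zero_of_dvd hd)⟩
  · rintro ⟨h1, h2⟩
    exact ⟨h1, fun m hm hd => h2 m hm (Nat.dvd_of_mod_eq_zero hd)⟩

lemma gp_spec (X : ℕ) (hX : 2 ≤ X) : (gp X).Prime ∧ gp X ≤ X ∧ X < 2 * gp X := by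
  classical
  obtain ⟨p, hp, hp1, hp2⟩ := Nat.exists_prime_lt_and_le_two_mul (X / 2) (by omega)
  have hpX : p ≤ X := by omega
  set s := (range (X + 1)).filter Nat.Prime with hs
  have hne : s.Nonempty := ⟨p, by rw [hs, mem_filter, mem_range]; exact ⟨by omega, hp⟩⟩
  set g := s.max' hne with hg
  have hgs : g ∈ s := s.max'_mem hne
  have hgle : ∀ p' ∈ s, p' ≤ g := fun p' hp' => s.le_max' p' hp'
  rw [hs, mem_filter, mem_range] at hgs
  have hgp : gp X = g := by
    unfold gp
    have h1 : ∀ p' ∈ range (X + 1), (if IsPr p' ∧ ∀ p'' < X + 1, p' < p'' → ¬ IsPr p'' then p' else 0)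
        = if p' = g then p' else 0 := by
      intro p' hp'
      rw [mem_range] at hp'
      by_cases h : p' = g
      · rw [if_pos h, if_pos]
        refine ⟨(isPr_iff p').mpr (by rw [h]; exact hgs.2), ?_⟩
        intro p'' hp'' hlt hpr
        have := hgle p'' (by rw [hs, mem_filter, mem_range]; exact ⟨hp'', (isPr_iff p'').mp hpr⟩)
        omega
      · rw [if_neg h, if_neg]
        rintro ⟨h1, h2⟩
        have h3 := hgle p' (by rw [hs, mem_filter, mem_range]; exact ⟨hp', (isPr_iff p').mp h1⟩)
        exact h2 g hgs.1 (by omega) ((isPr_iff g).mpr hgs.2)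
    rw [Finset.sum_congr rfl h1, Finset.sum_ite_eq' , if_pos (mem_range.mpr hgs.1)]
  have hpg : p ≤ g := hgle p (by rw [hs, mem_filter, mem_range]; exact ⟨by omega, hp⟩)
  rw [hgp]
  exact ⟨hgs.2, by omega, by omega⟩

lemma isPow_iff {q : ℕ} (hq : q.Prime) (P : ℕ) : IsPow q P ↔ ∃ j, P = q ^ j := by
  constructor
  · rintro ⟨h0, h⟩
    refine ⟨_, Nat.eq_prime_pow_of_unique_prime_dvd h0 ?_⟩
    intro d hd hdP
    have hle : d < P + 1 := Nat.lt_succ_of_le (Nat.le_of_dvd (Nat.pos_of_ne_zero h0) hdP)
    rcases h d hle (Nat.mod_eq_zero_of_dvd hdP) with h1 | h1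
    · exact absurd h1 hd.one_lt.ne'
    · have h2 : q ∣ d := Nat.dvd_of_mod_eq_zero h1
      exact ((Nat.prime_dvd_prime_iff_eq hq hd).mp h2).symm
  · rintro ⟨j, rfl⟩
    refine ⟨pow_ne_zero _ hq.ne_zero, ?_⟩
    intro d _ hd
    obtain ⟨i, _, rfl⟩ := (Nat.dvd_prime_pow hq).mp (Nat.dvd_of_mod_eq_zero hd)
    rcases Nat.eq_zero_or_pos i with h | h
    · left; rw [h, pow_zero]
    · right
      exact Nat.mod_eq_zero_of_dvd (dvd_pow_self q (by omega))

lemma count_pow {q : ℕ} (hq : q.Prime) (j : ℕ) [DecidablePred (fun P' => IsPow q P')] :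
    ((range (q ^ j)).filter (fun P' => IsPow q P')).card = j := by
  have h : (range (q ^ j)).filter (fun P' => IsPow q P') = (range j).image (fun i => q ^ i) := by
    ext P
    rw [mem_filter, mem_range, isPow_iff hq, mem_image]
    constructor
    · rintro ⟨h1, i, rfl⟩
      exact ⟨i, mem_range.mpr ((Nat.pow_lt_pow_iff_right hq.one_lt).mp h1), rfl⟩
    · rintro ⟨i, hi, rfl⟩
      exact ⟨Nat.pow_lt_pow_right hq.one_lt (mem_range.mp hi), i, rfl⟩
  rw [h, card_image_of_injective _ (Nat.pow_right_injective hq.two_le), card_range]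

lemma pw_eq {q S j : ℕ} (hq : q.Prime) (hS : q ^ j < S) : pw q S j = q ^ j := by
  classical
  unfold pw
  have h1 : ∀ P ∈ range S, (if IsPow q P ∧ ((range P).filter (fun P' => IsPow q P')).card = j
      then P else 0) = if P = q ^ j then P else 0 := by
    intro P _
    by_cases h : P = q ^ j
    · rw [if_pos h, if_pos]
      rw [h]
      refine ⟨(isPow_iff hq _).mpr ⟨j, rfl⟩, ?_⟩
      exact count_pow hq j
    · rw [if_neg h, if_neg]
      rintro ⟨h1, h2⟩
      obtain ⟨i, rfl⟩ := (isPow_iff hq _).mp h1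
      have h3 := count_pow hq i
      rw [h2] at h3
      exact h (by rw [h3])
  rw [Finset.sum_congr rfl h1, Finset.sum_ite_eq', if_pos (mem_range.mpr hS)]

lemma exists_digits (q : ℕ) (hq : 1 ≤ q) (f : ℕ → ℕ) (hf : ∀ j, f j < q) (m : ℕ) :
    ∃ s < q ^ m, ∀ j < m, s / q ^ j % q = f j := by
  induction m with
  | zero => exact ⟨0, by simp, by simp⟩
  | succ m ih =>
    obtain ⟨s, hs, hd⟩ := ih
    refine ⟨s + f m * q ^ m, ?_, ?_⟩
    · calc s + f m * q ^ m < q ^ m + f m * q ^ m := by omega
        _ = (f m + 1) * q ^ m := by ring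
        _ ≤ q * q ^ m := Nat.mul_le_mul_right _ (hf m)
        _ = q ^ (m + 1) := by ring
    · intro j hj
      rcases Nat.lt_succ_iff_lt_or_eq.mp hj with h | h
      · obtain ⟨d, rfl⟩ := Nat.exists_eq_add_of_lt h
        have e : s + f (j + d + 1) * q ^ (j + d + 1) = s + (f (j + d + 1) * q ^ d * q) * q ^ j := by
          ring
        rw [e, Nat.add_mul_div_right _ _ (by positivity), Nat.add_mul_mod_self_right]
        exact hd j h
      · subst h
        rw [Nat.add_mul_div_right _ _ (by positivity), Nat.div_eq_of_lt hs, zero_add,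
          Nat.mod_eq_of_lt (hf j)]

/-- Horner's rule. -/
def hor (q i : ℕ) (u : ℕ → ℕ) : ℕ → ℕ
  | 0 => 0
  | j + 1 => (hor q i u j * i + u j) % q

lemma hor_lt {q : ℕ} (hq : 1 ≤ q) (i : ℕ) (u : ℕ → ℕ) (j : ℕ) : hor q i u j < q := by
  cases j with
  | zero => exact hq
  | succ j => exact Nat.mod_lt _ hq

lemma acc_iff_hor {c N q S : ℕ} (hq : q.Prime) (hS : q ^ (c + 1) ≤ S) (bit : ℕ → Bool) :
    Acc c N q S bit ↔ ∃ f : ℕ → ℕ, (∀ j, f j < q) ∧
      ∀ i < N, bit (i * q + hor q i f c) = true := by
  have hpw : ∀ j ≤ c, pw q S j = q ^ j := by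
    intro j hj
    apply pw_eq hq
    exact lt_of_lt_of_le (Nat.pow_lt_pow_right hq.one_lt (by omega)) hS
  have hdig : ∀ s, ∀ j ≤ c, dig q S s j = s / q ^ j % q := by
    intro s j hj
    unfold dig
    rw [hpw j hj]
  have hcong : ∀ (i : ℕ) (f g : ℕ → ℕ) (j : ℕ), j ≤ c → (∀ t < c, f t = g t) →
      hor q i f j = hor q i g j := by
    intro i f g j
    induction j with
    | zero => intro _ _; rfl
    | succ j ih =>
      intro hj h
      simp only [hor]
      rw [ih (by omega) h, h j (by omega)]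
  constructor
  · rintro ⟨u, _, h⟩
    refine ⟨fun j => u / q ^ j % q, fun j => Nat.mod_lt _ hq.pos, ?_⟩
    intro i hi
    obtain ⟨s, _, h0, h1, h2⟩ := h i hi
    have key : ∀ j ≤ c, dig q S s j = hor q i (fun j => u / q ^ j % q) j := by
      intro j
      induction j with
      | zero => intro _; rw [h0]; rfl
      | succ j ih =>
        intro hj
        rw [h1 j (by omega), ih (by omega), hdig u j (by omega)]
        rfl
    rw [← key c le_rfl]
    exact h2
  · rintro ⟨f, hf, h⟩
    obtain ⟨u, hu, hud⟩ := exists_digits q hq.one_lt.le f hf c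
    have hle : q ^ c ≤ S := (Nat.pow_le_pow_right hq.pos (by omega)).trans hS
    refine ⟨u, lt_of_lt_of_le hu hle, ?_⟩
    intro i hi
    obtain ⟨s, hs, hsd⟩ := exists_digits q hq.one_lt.le (fun j => hor q i f j)
      (fun j => hor_lt hq.one_lt.le i f j) (c + 1)
    refine ⟨s, lt_of_lt_of_le hs hS, ?_, ?_, ?_⟩
    · rw [hdig s 0 (by omega), hsd 0 (by omega)]
      rfl
    · intro j hj
      rw [hdig s (j + 1) hj, hdig s j hj.le, hdig u j hj.le, hsd (j + 1) (by omega),
        hsd j (by omega), hud j hj]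
      rfl
    · rw [hdig s c le_rfl, hsd c (by omega)]
      exact h i hi

lemma hor_cast (q i : ℕ) (f : ℕ → ℕ) (c : ℕ) :
    ((hor q i f c : ℕ) : ZMod q) = ∑ j ∈ range c, (f j : ZMod q) * (i : ZMod q) ^ (c - 1 - j) := by
  induction c with
  | zero => simp [hor]
  | succ c ih =>
    simp only [hor]
    rw [ZMod.natCast_mod, Nat.cast_add, Nat.cast_mul, ih, Finset.sum_range_succ, Finset.sum_mul]
    congr 1
    · refine Finset.sum_congr rfl fun j hj => ?_
      rw [mem_range] at hj
      rw [mul_assoc, ← pow_succ]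
      congr 2
      omega
    · simp

theorem acc_iff {c N q S : ℕ} [Fact q.Prime] (hS : q ^ (c + 1) ≤ S) (bit : ℕ → Bool) :
    Acc c N q S bit ↔ ∃ a : Fin c → ZMod q, ∀ i < N, bit (i * q + (pval a i).val) = true := by
  have hq : q.Prime := Fact.out
  rw [acc_iff_hor hq hS]
  have hval : ∀ (f : ℕ → ℕ) (i : ℕ),
      hor q i f c = (pval (fun j : Fin c => ((f (c - 1 - j) : ℕ) : ZMod q)) i).val := by
    intro f i
    have h1 := hor_cast q i f c
    rw [← Finset.sum_range_reflect] at h1
    have h2 : pval (fun j : Fin c => ((f (c - 1 - j) : ℕ) : ZMod q)) i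
        = ((hor q i f c : ℕ) : ZMod q) := by
      rw [h1]
      unfold pval
      rw [Finset.sum_range]
      refine Finset.sum_congr rfl fun j _ => ?_
      congr 2
      have := j.isLt
      omega
    rw [h2, ZMod.val_cast_of_lt (hor_lt hq.one_lt.le i f c)]
  constructor
  · rintro ⟨f, _, h⟩
    refine ⟨fun j : Fin c => ((f (c - 1 - j) : ℕ) : ZMod q), ?_⟩
    intro i hi
    rw [← hval]
    exact h i hi
  · rintro ⟨a, h⟩
    let f : ℕ → ℕ := fun j => if hj : c - 1 - j < c then (a ⟨c - 1 - j, hj⟩).val else 0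
    refine ⟨f, ?_, ?_⟩
    · intro j
      simp only [f]
      split_ifs
      · exact ZMod.val_lt _
      · exact hq.pos
    · intro i hi
      rw [hval]
      have : (fun j : Fin c => ((f (c - 1 - j) : ℕ) : ZMod q)) = a := by
        funext j
        have hj := j.isLt
        have e : c - 1 - (c - 1 - (j : ℕ)) = j := by omega
        simp only [f]
        rw [dif_pos (by omega)]
        have e2 : (⟨c - 1 - (c - 1 - (j : ℕ)), by omega⟩ : Fin c) = j := Fin.ext e
        rw [e2, ZMod.natCast_val, ZMod.cast_id', id]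
      rw [this]
      exact h i hi

/-! ### Padding -/

/-- The padded input. -/
def pad (x : List Bool) : List Bool := List.replicate (2 ^ x.length) true ++ false :: x

lemma lead_pad (x : List Bool) : lead (pad x) = 2 ^ x.length := by
  classical
  unfold lead
  have h : (range (pad x).length).filter (fun i => ∀ j < i + 1, (pad x).getD j false = true)
      = range (2 ^ x.length) := by
    ext i
    rw [mem_filter, mem_range, mem_range]
    have hlen : (pad x).length = 2 ^ x.length + (x.length + 1) := by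
      unfold pad; simp
    constructor
    · rintro ⟨_, h2⟩
      by_contra h3
      have h4 := h2 (2 ^ x.length) (by omega)
      unfold pad at h4
      rw [List.getD_append_right _ _ _ _ (by simp)] at h4
      simp at h4
    · intro hi
      refine ⟨by omega, ?_⟩
      intro j hj
      unfold pad
      rw [List.getD_append _ _ _ _ (by simp; omega)]
      rw [List.getD_eq_getElem _ _ (by simp; omega), List.getElem_replicate]
  convert congrArg Finset.card h
  simp

lemma wlen_pad (x : List Bool) : wlen (pad x) = x.length := by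
  unfold wlen
  rw [lead_pad]
  unfold pad
  simp only [List.length_append, List.length_replicate, List.length_cons]
  omega

lemma wbit_pad (x : List Bool) (i : ℕ) : wbit (pad x) i = x.getD i false := by
  unfold wbit
  rw [lead_pad]
  unfold pad
  rw [List.getD_append_right _ _ _ _ (by simp; omega)]
  have : 2 ^ x.length + 1 + i - (List.replicate (2 ^ x.length) true).length = i + 1 := by
    rw [List.length_replicate]; omega
  rw [this, List.getD_cons_succ]

lemma length_pad (x : List Bool) : (pad x).length = 2 ^ x.length + (x.length + 1) := by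
  unfold pad; simp

end Pool.Agent.NegLim.Lang
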