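import Pool.Agent.Lib.PolyTime.FPT
import Pool.Agent.Lib.PolyTime.PF
import Pool.Agent.NegLim.LangSem

/-!
# Languages decidable in time `O(2^n)`
-/

namespace Pool.Agent.NegLim

open Turing

/-- The language with characteristic function `L` is decided by a Turing machine (Mathlib's
`FinTM2`) in time `t n` on words of length `n`. -/
def DecidableInTime (L : List Bool → Bool) (t : ℕ → ℕ) : Prop :=
  ∃ M : TM2ComputableAux Bool Bool, ∀ x : List Bool,
    Nonempty (TM2OutputsInTime M.tm (x.map M.inputAlphabet.invFun)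
      (some ([L x].map M.outputAlphabet.invFun)) (t x.length))

end Pool.Agent.NegLim

namespace Pool.Agent.NegLim.Lang

open Turing Function Pool.Agent.PolyTime

/-- The machine of a program. -/
def auxOf (p : Prog) : TM2ComputableAux Bool Bool :=
  { tm := p.toTM, inputAlphabet := Equiv.refl _, outputAlphabet := Equiv.refl _ }

theorem outIn_of_run (p : Prog) {x y : List Bool} {t : ℕ}
    (hrun : Run p (Prog.inSt x) (Prog.outSt y) t) : OutIn (auxOf p) x y (t + 1) := by
  have hs := Prog.sim (R := max p.maxReg 1) (L := p.size) p.toTM.m hrun 0 p.size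
    (Prog.regsLt_mono (by omega) (Prog.regsLt_maxReg p)) (by omega) (by
      intro l _ hl
      show (if ((Fin.ofNat (p.size + 1) l : Fin (p.size + 1)) : ℕ) < p.size then _ else _) = _
      rw [Prog.ofNat_val (by omega), if_pos (by omega)])
  refine ⟨⟨⟨t + 1, ?_⟩, le_rfl⟩⟩
  have e1 : initList p.toTM x = Prog.cfg (max p.maxReg 1) p.size 0 (Prog.inSt x) := by
    refine Prog.initList_eq p.toTM x (fun k : Fin (max p.maxReg 1 + 1) => Prog.inSt x k) ?_ ?_
    · show Prog.inSt x ((Fin.ofNat (max p.maxReg 1 + 1) 0 : Fin (max p.maxReg 1 + 1)) : ℕ) = x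
      rw [Prog.ofNat_val (by omega)]
      simp [Prog.inSt]
    · intro (k : Fin (max p.maxReg 1 + 1)) hk
      show Prog.inSt x (k : ℕ) = []
      have : (k : ℕ) ≠ 0 := by
        intro h0
        apply hk
        apply Fin.ext
        rw [h0]
        exact (Prog.ofNat_val (by omega)).symm
      unfold Prog.inSt
      rw [update_of_ne this]
  have e2 : haltList p.toTM y =
        (⟨none, none, fun k : Fin (max p.maxReg 1 + 1) => Prog.outSt y k⟩ :
          Prog.MCfg (max p.maxReg 1) p.size) := by
    refine Prog.haltList_eq p.toTM y (fun k : Fin (max p.maxReg 1 + 1) => Prog.outSt y k) ?_ ?_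
    · show Prog.outSt y ((Fin.ofNat (max p.maxReg 1 + 1) 1 : Fin (max p.maxReg 1 + 1)) : ℕ) = y
      rw [Prog.ofNat_val (by omega)]
      simp [Prog.outSt]
    · intro (k : Fin (max p.maxReg 1 + 1)) hk
      show Prog.outSt y (k : ℕ) = []
      have : (k : ℕ) ≠ 1 := by
        intro h0
        apply hk
        apply Fin.ext
        rw [h0]
        exact (Prog.ofNat_val (by omega)).symm
      unfold Prog.outSt
      rw [update_of_ne this]
  have hfin : TM2.step p.toTM.m (Prog.cfg (max p.maxReg 1) p.size p.size (Prog.outSt y)) =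
      some (⟨none, none, fun k : Fin (max p.maxReg 1 + 1) => Prog.outSt y k⟩ :
          Prog.MCfg (max p.maxReg 1) p.size) := by
    have : p.toTM.m (Fin.ofNat _ p.size) = TM2.Stmt.halt := by
      exact if_neg (by rw [Prog.ofNat_val (by omega)]; exact lt_irrefl _)
    show some (TM2.stepAux (p.toTM.m (Fin.ofNat _ p.size)) none _) = _
    rw [this]
    rfl
  have key : (flip bind (TM2.step p.toTM.m))^[t + 1]
      (some (Prog.cfg (max p.maxReg 1) p.size 0 (Prog.inSt x))) =
      some (⟨none, none, fun k : Fin (max p.maxReg 1 + 1) => Prog.outSt y k⟩ :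
          Prog.MCfg (max p.maxReg 1) p.size) :=
    hs.trans (Prog.Steps.one hfin)
  have e3 : (List.map (Equiv.refl Bool).invFun (id x)) = x := List.map_id x
  have e4 : (List.map (Equiv.refl Bool).invFun (id y)) = y := List.map_id _
  have g1 : initList p.toTM (List.map (Equiv.refl Bool).invFun (id x)) =
      Prog.cfg (max p.maxReg 1) p.size 0 (Prog.inSt x) := (congrArg (initList p.toTM) e3).trans e1
  have g2 : haltList p.toTM (List.map (Equiv.refl Bool).invFun (id y)) =
      (⟨none, none, fun k : Fin (max p.maxReg 1 + 1) => Prog.outSt y k⟩ :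
          Prog.MCfg (max p.maxReg 1) p.size) := (congrArg (haltList p.toTM) e4).trans e2
  exact (congrArg (fun c => (flip bind (TM2.step p.toTM.m))^[t + 1] (some c)) g1).trans
    (key.trans (congrArg some g2.symm))

/-! ### The padding program -/

/-- Double the unary number on stack 3, using the stacks 4 and 5. -/
def dbl : Prog := .seq (copyU 3 4 5) (.seq (moveU 4 3) (moveU 5 3))

theorem dbl_exec (m : ℕ) (s : St) (h3 : s 3 = un m) (h4 : s 4 = []) (h5 : s 5 = []) :
    Exec dbl s (update s 3 (un (2 * m))) (10 * m + 3) := by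
  have e1 := copyU_exec (k := 3) (k' := 4) (k'' := 5) (by omega) (by omega) (by omega) m s h3
  rw [h4, h5, List.append_nil] at e1
  have e2 := moveU_exec (k := 4) (k' := 3) (by omega) m
    (update (update (update s 3 []) 4 (un m)) 5 (un m)) (by simp)
  have e3 := moveU_exec (k := 5) (k' := 3) (by omega) m
    (update (update (update (update (update s 3 []) 4 (un m)) 5 (un m)) 4 []) 3
      (un m ++ (update (update (update s 3 []) 4 (un m)) 5 (un m)) 3)) (by simp)
  refine ((e1.seq (e2.seq e3)).of_eq ?_).mono (by omega)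
  funext j
  by_cases hj3 : j = 3
  · subst hj3
    simp [two_mul]
  · by_cases hj5 : j = 5
    · subst hj5; simp [h5]
    · by_cases hj4 : j = 4
      · subst hj4; simp [h4]
      · simp [hj3, hj4, hj5]

/-- Move the input to stack 2, doubling stack 3 for every symbol. -/
def loopA : Prog := .loop 0 (.seq (.ite 0 (.seq (.pop 0) (.push 2 true))
  (.seq (.pop 0) (.push 2 false)) .skip) dbl)

theorem loopA_exec : ∀ (l : List Bool) (m : ℕ) (s : St), s 0 = l → s 3 = un m → s 4 = [] →
    s 5 = [] → Exec loopA s (update (update (update s 0 []) 2 (l.reverse ++ s 2)) 3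
      (un (2 ^ l.length * m))) (10 * ((2 ^ l.length - 1) * m) + 7 * l.length + 1)
  | [], m, s, h0, h3, h4, h5 => by
      have : update (update (update s 0 []) 2 (([] : List Bool).reverse ++ s 2)) 3
          (un (2 ^ ([] : List Bool).length * m)) = s := by
        funext j
        by_cases hj3 : j = 3
        · subst hj3; simp [h3]
        · by_cases hj2 : j = 2
          · subst hj2; simp
          · by_cases hj0 : j = 0
            · subst hj0; simp [h0]
            · simp [hj3, hj2, hj0]
      rw [this]
      exact (Exec.loop_nil h0).mono (by omega)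
  | a :: l, m, s, h0, h3, h4, h5 => by
      have key : Exec (.ite 0 (.seq (.pop 0) (.push 2 true)) (.seq (.pop 0) (.push 2 false))
          .skip) s (update (update s 0 l) 2 (a :: s 2)) 3 := by
        have e1 := Exec.pop 0 s
        rw [h0] at e1
        have e2 := Exec.push 2 a (update s 0 l)
        rw [update_of_ne (by omega : (2 : ℕ) ≠ 0)] at e2
        cases a
        · exact Exec.ite_false (by rw [h0]; rfl) (e1.seq e2)
        · exact Exec.ite_true (by rw [h0]; rfl) (e1.seq e2)
      have e2 := dbl_exec m (update (update s 0 l) 2 (a :: s 2)) (by simp [h3]) (by simp [h4])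
        (by simp [h5])
      have e3 := loopA_exec l (2 * m)
        (update (update (update s 0 l) 2 (a :: s 2)) 3 (un (2 * m)))
        (by simp) (by simp) (by simp [h4]) (by simp [h5])
      have e4 := Exec.loop_cons (by rw [h0]; simp) (key.seq e2) e3
      refine (e4.of_eq ?_).mono ?_
      · funext j
        by_cases hj3 : j = 3
        · subst hj3
          simp only [update_self, List.length_cons]
          congr 1
          ring
        · by_cases hj2 : j = 2
          · subst hj2; simp
          · by_cases hj0 : j = 0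
            · subst hj0; simp
            · simp [hj3, hj2, hj0]
      · simp only [List.length_cons]
        have hP : 1 ≤ 2 ^ l.length := Nat.one_le_two_pow
        obtain ⟨Q, hQ⟩ := Nat.exists_eq_add_of_le hP
        have h6 : 2 ^ l.length - 1 = Q := by omega
        have h7 : 2 ^ (l.length + 1) - 1 = 2 * Q + 1 := by rw [pow_succ]; omega
        rw [h6, h7]
        have h8 : Q * (2 * m) = 2 * (Q * m) := by ring
        have h9 : (2 * Q + 1) * m = 2 * (Q * m) + m := by ring
        rw [h8, h9]
        omega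

/-- The padding program. -/
def padP : Prog := .seq (.push 3 true) (.seq loopA (.seq (moveD 2 1)
  (.seq (.push 1 false) (moveU 3 1))))

theorem padP_exec (x : List Bool) :
    Exec padP (Prog.inSt x) (Prog.outSt (pad x)) (13 * 2 ^ x.length + 11 * x.length + 6) := by
  have e1 := Exec.push 3 true (Prog.inSt x)
  have h3 : Prog.inSt x 3 = [] := by simp [Prog.inSt]
  rw [h3] at e1
  have e2 := loopA_exec x 1 (update (Prog.inSt x) 3 [true]) (by simp [Prog.inSt]) (by simp)
    (by simp [Prog.inSt]) (by simp [Prog.inSt])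
  have h2 : update (Prog.inSt x) 3 [true] 2 = [] := by simp [Prog.inSt]
  rw [h2, List.append_nil, mul_one, mul_one] at e2
  set s2 : St := update (update (update (update (Prog.inSt x) 3 [true]) 0 []) 2 x.reverse) 3
    (un (2 ^ x.length)) with hs2
  have e3 := moveD_exec (k := 2) (k' := 1) (by omega) x.reverse s2 (by simp [hs2])
  have h1 : s2 1 = [] := by simp [hs2, Prog.inSt]
  rw [List.reverse_reverse, h1, List.append_nil, List.length_reverse] at e3
  set s3 : St := update (update s2 2 []) 1 x with hs3
  have e4 := Exec.push 1 false s3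
  have h13 : s3 1 = x := by simp [hs3]
  rw [h13] at e4
  set s4 : St := update s3 1 (false :: x) with hs4
  have e5 := moveU_exec (k := 3) (k' := 1) (by omega) (2 ^ x.length) s4
    (by simp [hs4, hs3, hs2])
  have h14 : s4 1 = false :: x := by simp [hs4]
  rw [h14] at e5
  refine ((e1.seq (e2.seq (e3.seq (e4.seq e5)))).of_eq ?_).mono ?_
  · funext j
    by_cases hj1 : j = 1
    · subst hj1
      simp [Prog.outSt, pad]
    · by_cases hj3 : j = 3
      · subst hj3
        simp [Prog.outSt]
      · by_cases hj2 : j = 2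
        · subst hj2; simp [Prog.outSt, hs4, hs3]
        · by_cases hj0 : j = 0
          · subst hj0; simp [Prog.outSt, hs4, hs3, hs2]
          · simp [Prog.outSt, hs4, hs3, hs2, Prog.inSt, hj1, hj3, hj2, hj0]
  · have hP : 1 ≤ 2 ^ x.length := Nat.one_le_two_pow
    omega

theorem pad_outIn : ∃ M : TM2ComputableAux Bool Bool, ∀ x : List Bool,
    OutIn M x (pad x) (24 * 2 ^ x.length + 7) := by
  refine ⟨auxOf padP, fun x => ?_⟩
  obtain ⟨t, ht, hrun⟩ := padP_exec x
  refine (outIn_of_run padP hrun).mono ?_
  have : x.length < 2 ^ x.length := Nat.lt_two_pow_self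
  omega

open Classical in
/-- The language, decided in time `2^(O(n))`. -/
theorem plang_exp (a b : ℕ) : ∃ (M : TM2ComputableAux Bool Bool) (C e : ℕ), ∀ x : List Bool,
    OutIn M x [decide (PLang a b (pad x))] (C * (2 ^ x.length) ^ e) := by
  obtain ⟨M1, hM1⟩ := pad_outIn
  obtain ⟨P⟩ := plang_polyTime a b
  let M2 : TM2ComputableAux Bool Bool :=
    { tm := P.tm, inputAlphabet := P.inputAlphabet, outputAlphabet := P.outputAlphabet }
  -- a monomial bound for the polynomial
  obtain ⟨C, e, hCe⟩ : ∃ C e : ℕ, ∀ n, 1 ≤ n → P.time.eval n ≤ C * n ^ e := by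
    refine ⟨∑ i ∈ Finset.range (P.time.natDegree + 1), P.time.coeff i, P.time.natDegree, ?_⟩
    intro n hn
    rw [Polynomial.eval_eq_sum_range, Finset.sum_mul]
    refine Finset.sum_le_sum fun i hi => ?_
    apply Nat.mul_le_mul_left
    exact Nat.pow_le_pow_right hn (by rw [Finset.mem_range] at hi; omega)
  refine ⟨compAux M1 M2, 37 + C * 3 ^ e, e + 1, fun x => ?_⟩
  have hy : OutIn M2 (pad x) [decide (PLang a b (pad x))] (P.time.eval (pad x).length) :=
    ⟨P.outputsFun (pad x)⟩
  refine (OutIn.comp (hM1 x) hy).mono ?_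
  have hlt : x.length < 2 ^ x.length := Nat.lt_two_pow_self
  have hP : 1 ≤ 2 ^ x.length := Nat.one_le_two_pow
  have hlen := length_pad x
  set p := 2 ^ x.length with hp
  have h1 : (pad x).length ≤ 3 * p := by omega
  have h2 : P.time.eval (pad x).length ≤ C * (3 * p) ^ e :=
    (hCe _ (by omega)).trans (Nat.mul_le_mul_left _ (Nat.pow_le_pow_left h1 e))
  have h3 : C * (3 * p) ^ e ≤ C * 3 ^ e * p ^ (e + 1) := by
    rw [mul_pow, ← mul_assoc]
    exact Nat.mul_le_mul_left _ (Nat.pow_le_pow_right hP (by omega))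
  have h4 : p ≤ p ^ (e + 1) := by
    calc p = p ^ 1 := (pow_one p).symm
      _ ≤ p ^ (e + 1) := Nat.pow_le_pow_right hP (by omega)
  calc 24 * p + 7 + 2 * ((pad x).length + 1) + P.time.eval (pad x).length
      ≤ 37 * p + C * 3 ^ e * p ^ (e + 1) := by omega
    _ ≤ 37 * p ^ (e + 1) + C * 3 ^ e * p ^ (e + 1) := by omega
    _ = (37 + C * 3 ^ e) * p ^ (e + 1) := by ring

lemma pow_le_two_pow (e : ℕ) : ∃ C : ℕ, ∀ n : ℕ, n ^ e ≤ C * 2 ^ n := by
  rcases Nat.eq_zero_or_pos e with h | h
  · subst h
    exact ⟨1, fun n => by rw [pow_zero, one_mul]; exact Nat.one_le_two_pow⟩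
  · refine ⟨e ^ e, fun n => ?_⟩
    have h1 : n ≤ e * 2 ^ (n / e) := by
      have h2 : n / e < 2 ^ (n / e) := Nat.lt_two_pow_self
      have h3 : n < e * (n / e + 1) := Nat.lt_mul_div_succ n h
      exact h3.le.trans (Nat.mul_le_mul_left e h2)
    calc n ^ e ≤ (e * 2 ^ (n / e)) ^ e := Nat.pow_le_pow_left h1 e
      _ = e ^ e * 2 ^ (n / e * e) := by rw [mul_pow, ← pow_mul]
      _ ≤ e ^ e * 2 ^ n := by
        apply Nat.mul_le_mul_left
        exact Nat.pow_le_pow_right (by norm_num) (Nat.div_mul_le_self n e)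

lemma take_polyTime (d : ℕ) : Nonempty (TM2ComputableInPolyTime (id : List Bool → List Bool)
    (id : List Bool → List Bool) (fun x : List Bool => x.take (x.length / d))) := by
  apply PFBits.polyTime
  refine ⟨fun x => x.length / d, fun x i => (x.getD i false).toNat,
    PF.len.div (PF.const d), PF.inp PF.snd, ?_⟩
  intro x
  apply List.ext_getElem
  · simp only [List.length_take, List.length_map, List.length_range]
    exact min_eq_left (Nat.div_le_self _ _)
  · intro i h1 h2
    simp only [List.length_map, List.length_range] at h2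
    have h3 : i < x.length := lt_of_lt_of_le h2 (Nat.div_le_self _ _)
    simp only [List.getElem_take, List.getElem_map, List.getElem_range]
    rw [List.getD_eq_getElem _ _ h3]
    cases x[i] <;> simp

open Classical in
/-- The language. -/
noncomputable def lang (a b d : ℕ) (x : List Bool) : Bool :=
  decide (PLang a b (pad (x.take (x.length / d))))

open Classical in
lemma lang_eq_true_iff (a b d : ℕ) (x : List Bool) :
    lang a b d x = true ↔ PLang a b (pad (x.take (x.length / d))) := by
  unfold lang
  exact decide_eq_true_iff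

theorem lang_time (a b : ℕ) : ∃ d : ℕ, 1 ≤ d ∧ ∃ c : ℕ,
    DecidableInTime (lang a b d) (fun n => c * 2 ^ n) := by
  obtain ⟨M2, C, e, hM2⟩ := plang_exp a b
  refine ⟨e + 1, by omega, ?_⟩
  obtain ⟨P⟩ := take_polyTime (e + 1)
  let M1 : TM2ComputableAux Bool Bool :=
    { tm := P.tm, inputAlphabet := P.inputAlphabet, outputAlphabet := P.outputAlphabet }
  obtain ⟨C1, e1, hCe⟩ : ∃ C e : ℕ, ∀ n, 1 ≤ n → P.time.eval n ≤ C * n ^ e := by
    refine ⟨∑ i ∈ Finset.range (P.time.natDegree + 1), P.time.coeff i, P.time.natDegree, ?_⟩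
    intro n hn
    rw [Polynomial.eval_eq_sum_range, Finset.sum_mul]
    refine Finset.sum_le_sum fun i hi => ?_
    apply Nat.mul_le_mul_left
    exact Nat.pow_le_pow_right hn (by rw [Finset.mem_range] at hi; omega)
  obtain ⟨C2, hC2⟩ := pow_le_two_pow e1
  refine ⟨C1 * C2 * 2 + 4 + C, compAux M1 M2, fun x => ?_⟩
  have hy : OutIn M1 x (x.take (x.length / (e + 1))) (P.time.eval x.length) :=
    ⟨P.outputsFun x⟩
  refine ((OutIn.comp hy (hM2 (x.take (x.length / (e + 1))))).mono ?_ :
    OutIn (compAux M1 M2) x [lang a b (e + 1) x] _)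
  set n := x.length with hn
  have hlen : (x.take (n / (e + 1))).length = n / (e + 1) := by
    rw [List.length_take]
    exact min_eq_left (Nat.div_le_self _ _)
  rw [hlen]
  have hlt : n < 2 ^ n := Nat.lt_two_pow_self
  have h1 : P.time.eval n ≤ C1 * C2 * 2 * 2 ^ n := by
    calc P.time.eval n ≤ P.time.eval (n + 1) := PolyTime.eval_mono _ (Nat.le_succ n)
      _ ≤ C1 * (n + 1) ^ e1 := hCe _ (by omega)
      _ ≤ C1 * (C2 * 2 ^ (n + 1)) := Nat.mul_le_mul_left _ (hC2 (n + 1))
      _ = C1 * C2 * 2 * 2 ^ n := by ring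
  have h2 : C * (2 ^ (n / (e + 1))) ^ e ≤ C * 2 ^ n := by
    apply Nat.mul_le_mul_left
    rw [← pow_mul]
    apply Nat.pow_le_pow_right (by norm_num)
    calc n / (e + 1) * e ≤ n / (e + 1) * (e + 1) := Nat.mul_le_mul_left _ (by omega)
      _ ≤ n := Nat.div_mul_le_self _ _
  have h3 : n / (e + 1) ≤ n := Nat.div_le_self _ _
  have h4 : (C1 * C2 * 2 + 4 + C) * 2 ^ n = C1 * C2 * 2 * 2 ^ n + 4 * 2 ^ n + C * 2 ^ n := by ring
  show _ ≤ (C1 * C2 * 2 + 4 + C) * 2 ^ n
  rw [h4]
  omega

end Pool.Agent.NegLim.Lang
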