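import Pool.Agent.NegLim.NPDefs
import Pool.Agent.NegLim.LangSem

/-!
# A language in NP: words containing the graph of a low-degree polynomial
-/

namespace Pool.Agent.NegLim.NPL

open Finset Pool.Agent.PolyTime Pool.Agent.NegLim.Lang

open Classical in
/-- The length of the first word of a pair. -/
noncomputable def plen (y : List Bool) : ℕ :=
  ((range y.length).filter (fun i => ∀ j < i + 1, y.getD (2 * j) false = true)).card

/-- The bits of the first word of a pair. -/
def xbit (y : List Bool) (i : ℕ) : Bool := y.getD (2 * i + 1) false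

/-- The bits of the second word of a pair. -/
noncomputable def sbit (y : List Bool) (i : ℕ) : Bool := y.getD (2 * plen y + 1 + i) false

open Classical in
/-- The number of powers of two which are at most `n + 1`. -/
noncomputable def lgc (n : ℕ) : ℕ := ((range (n + 2)).filter (fun P => IsPow 2 P)).card

/-- The basic parameter. -/
noncomputable def RR (n : ℕ) : ℕ := 2 ^ 12 * lgc n ^ 2

open Classical in
/-- The number encoded in block `t` of length `q`. -/
noncomputable def tval (wb : ℕ → Bool) (q t : ℕ) : ℕ :=
  ((range q).filter (fun v => wb (t * q + v) = true)).card % q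

/-- The certificate `wb` shows that `xb` contains the graph of a polynomial with `c`
coefficients modulo `q` over the points `0, ..., N - 1`. -/
def VAcc (c N q : ℕ) (xb wb : ℕ → Bool) : Prop :=
  ∀ i < N, tval wb q (c + i * (c + 1)) = 0 ∧
    (∀ j < c, tval wb q (c + i * (c + 1) + (j + 1))
      = (tval wb q (c + i * (c + 1) + j) * i + tval wb q j) % q) ∧
    xb (i * q + tval wb q (c + i * (c + 1) + c)) = true

/-- The verifier. -/
def Ver (a : ℕ) (y : List Bool) : Prop :=
  VAcc (2 * RR (plen y) ^ a) (RR (plen y) ^ (a + 1)) (gp (plen y / RR (plen y) ^ (a + 1)))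
    (xbit y) (sbit y)

/-! ### The verifier runs in polynomial time -/

variable {α : Type} [Ctx α]

lemma pf_plen : PF (fun y (_ : α) => plen y) := by
  classical
  have h := PF.count (P := fun x (p : α × ℕ) => ∀ j < p.2 + 1, x.getD (2 * j) false = true)
    (PF.len (α := α))
    (PD.forall_lt (P := fun x (r : (α × ℕ) × ℕ) => x.getD (2 * r.2) false = true)
      (PF.snd.add (PF.const 1)) (PD.bit ((PF.const 2).mul PF.snd)))
  refine h.congr fun x a => ?_
  unfold plen
  congr

lemma pf_lgc {A : List Bool → α → ℕ} (hA : PF A) : PF (fun x a => lgc (A x a)) := by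
  classical
  have h := PF.count (P := fun _ (p : α × ℕ) => IsPow 2 p.2) (hA.add (PF.const 2))
    (pd_isPow (PF.const 2) PF.snd)
  refine h.congr fun x a => ?_
  unfold lgc
  congr

lemma pf_RR {A : List Bool → α → ℕ} (hA : PF A) : PF (fun x a => RR (A x a)) :=
  (PF.const (2 ^ 12)).mul ((pf_lgc hA).pow 2)

lemma pd_xbit {A : List Bool → α → ℕ} (hA : PF A) : PD (fun y a => xbit y (A y a) = true) :=
  PD.bit (((PF.const 2).mul hA).add (PF.const 1))

lemma pd_sbit {A : List Bool → α → ℕ} (hA : PF A) : PD (fun y a => sbit y (A y a) = true) :=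
  PD.bit ((((PF.const 2).mul pf_plen).add (PF.const 1)).add hA)

lemma pf_tval {Q T : List Bool → α → ℕ} (hQ : PF Q) (hT : PF T) :
    PF (fun y a => tval (sbit y) (Q y a) (T y a)) := by
  classical
  have h := PF.count (P := fun y (p : α × ℕ) => sbit y (T y p.1 * Q y p.1 + p.2) = true) hQ
    (pd_sbit ((hT.fst.mul hQ.fst).add PF.snd))
  refine (h.mod hQ).congr fun y a => ?_
  unfold tval
  congr

lemma pd_vacc {C N Q : List Bool → α → ℕ} (hC : PF C) (hN : PF N) (hQ : PF Q) :
    PD (fun y a => VAcc (C y a) (N y a) (Q y a) (xbit y) (sbit y)) := by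
  -- contexts: α, i, j
  have hi : PF (fun (_ : List Bool) (r : α × ℕ) => r.2) := PF.snd
  have hC1 : PF (fun y (r : α × ℕ) => C y r.1) := hC.fst
  have hQ1 : PF (fun y (r : α × ℕ) => Q y r.1) := hQ.fst
  have hb : PF (fun y (r : α × ℕ) => C y r.1 + r.2 * (C y r.1 + 1)) :=
    hC1.add (hi.mul (hC1.add (PF.const 1)))
  have c1 : PD (fun y (r : α × ℕ) => tval (sbit y) (Q y r.1) (C y r.1 + r.2 * (C y r.1 + 1)) = 0) :=
    PD.eq (pf_tval hQ1 hb) (PF.const 0)
  have c2 : PD (fun y (r : α × ℕ) => ∀ j < C y r.1,
      tval (sbit y) (Q y r.1) (C y r.1 + r.2 * (C y r.1 + 1) + (j + 1))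
        = (tval (sbit y) (Q y r.1) (C y r.1 + r.2 * (C y r.1 + 1) + j) * r.2
            + tval (sbit y) (Q y r.1) j) % Q y r.1) :=
    PD.forall_lt (P := fun y (t : (α × ℕ) × ℕ) =>
      tval (sbit y) (Q y t.1.1) (C y t.1.1 + t.1.2 * (C y t.1.1 + 1) + (t.2 + 1))
        = (tval (sbit y) (Q y t.1.1) (C y t.1.1 + t.1.2 * (C y t.1.1 + 1) + t.2) * t.1.2
            + tval (sbit y) (Q y t.1.1) t.2) % Q y t.1.1) hC1
      (PD.eq (pf_tval hQ1.fst (hb.fst.add (PF.snd.add (PF.const 1))))
        ((((pf_tval hQ1.fst (hb.fst.add PF.snd)).mul hi.fst).add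
          (pf_tval hQ1.fst PF.snd)).mod hQ1.fst))
  have c3 : PD (fun y (r : α × ℕ) =>
      xbit y (r.2 * Q y r.1 + tval (sbit y) (Q y r.1) (C y r.1 + r.2 * (C y r.1 + 1) + C y r.1))
        = true) :=
    pd_xbit ((hi.mul hQ1).add (pf_tval hQ1 (hb.add hC1)))
  exact PD.forall_lt (B := fun y (r : α) => N y r)
    (P := fun y (r : α × ℕ) => tval (sbit y) (Q y r.1) (C y r.1 + r.2 * (C y r.1 + 1)) = 0 ∧
      (∀ j < C y r.1,
      tval (sbit y) (Q y r.1) (C y r.1 + r.2 * (C y r.1 + 1) + (j + 1))
        = (tval (sbit y) (Q y r.1) (C y r.1 + r.2 * (C y r.1 + 1) + j) * r.2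
            + tval (sbit y) (Q y r.1) j) % Q y r.1) ∧
      xbit y (r.2 * Q y r.1 + tval (sbit y) (Q y r.1) (C y r.1 + r.2 * (C y r.1 + 1) + C y r.1))
        = true) hN (c1.and (c2.and c3))

theorem pd_ver (a : ℕ) : PD (fun y (_ : α) => Ver a y) := by
  have hr : PF (fun y (_ : α) => RR (plen y)) := pf_RR pf_plen
  exact pd_vacc ((PF.const 2).mul (hr.pow a)) (hr.pow (a + 1))
    (pf_gp (pf_plen.div (hr.pow (a + 1))))

open Classical in
theorem ver_polyTime (a : ℕ) : Nonempty (Turing.TM2ComputableInPolyTime
    (id : List Bool → List Bool) (id : List Bool → List Bool)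
    (fun y => [decide (Ver a y)])) := by
  apply PFBits.polyTime
  refine ⟨fun _ => 1, fun w _ => if Ver a w then 1 else 0, PF.const 1, ?_, ?_⟩
  · exact PF.ite (P := fun w (_ : Unit × ℕ) => Ver a w) (pd_ver a) (PF.const 1) (PF.const 0)
  · intro w
    by_cases h : Ver a w <;> simp [h]

/-! ### Pairs -/

lemma length_pairWord (x w : List Bool) :
    (pairWord x w).length = 2 * x.length + (w.length + 1) := by
  unfold pairWord
  rw [List.length_append, List.length_flatMap, List.length_cons]
  simp [mul_comm]

lemma pairWord_getD_even (x w : List Bool) (j : ℕ) (hj : j < x.length) :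
    (pairWord x w).getD (2 * j) false = true := by
  induction x generalizing j with
  | nil => simp at hj
  | cons b x ih =>
    cases j with
    | zero => simp [pairWord]
    | succ j =>
      have h1 := ih j (by simpa using hj)
      have h2 : pairWord (b :: x) w = true :: b :: pairWord x w := by simp [pairWord]
      rw [h2, show 2 * (j + 1) = 2 * j + 1 + 1 from by ring, List.getD_cons_succ,
        List.getD_cons_succ]
      exact h1

lemma pairWord_getD_odd (x w : List Bool) (j : ℕ) (hj : j < x.length) :
    (pairWord x w).getD (2 * j + 1) false = x.getD j false := by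
  induction x generalizing j with
  | nil => simp at hj
  | cons b x ih =>
    have h2 : pairWord (b :: x) w = true :: b :: pairWord x w := by simp [pairWord]
    cases j with
    | zero => simp [pairWord]
    | succ j =>
      have h1 := ih j (by simpa using hj)
      rw [h2, show 2 * (j + 1) + 1 = 2 * j + 1 + 1 + 1 from by ring, List.getD_cons_succ,
        List.getD_cons_succ, List.getD_cons_succ]
      exact h1

lemma pairWord_getD_second (x w : List Bool) (i : ℕ) :
    (pairWord x w).getD (2 * x.length + i) false = (false :: w).getD i false := by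
  induction x with
  | nil => simp [pairWord]
  | cons b x ih =>
    have h2 : pairWord (b :: x) w = true :: b :: pairWord x w := by simp [pairWord]
    rw [h2, List.length_cons, show 2 * (x.length + 1) + i = 2 * x.length + i + 1 + 1 from by ring,
      List.getD_cons_succ, List.getD_cons_succ]
    exact ih

lemma plen_pair (x w : List Bool) : plen (pairWord x w) = x.length := by
  classical
  unfold plen
  have h : (range (pairWord x w).length).filter
      (fun i => ∀ j < i + 1, (pairWord x w).getD (2 * j) false = true) = range x.length := by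
    ext i
    rw [mem_filter, mem_range, mem_range, length_pairWord]
    constructor
    · rintro ⟨_, h2⟩
      by_contra h3
      have h4 := h2 x.length (by omega)
      have h5 := pairWord_getD_second x w 0
      rw [add_zero] at h5
      rw [h5] at h4
      simp at h4
    · intro hi
      exact ⟨by omega, fun j hj => pairWord_getD_even x w j (by omega)⟩
  convert congrArg Finset.card h
  simp

lemma sbit_pair (x w : List Bool) (i : ℕ) : sbit (pairWord x w) i = w.getD i false := by
  unfold sbit
  rw [plen_pair, show 2 * x.length + 1 + i = 2 * x.length + (i + 1) from by ring,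
    pairWord_getD_second, List.getD_cons_succ]

lemma xbit_pair (x w : List Bool) (i : ℕ) (hi : i < x.length) :
    xbit (pairWord x w) i = x.getD i false := pairWord_getD_odd x w i hi

end Pool.Agent.NegLim.NPL
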