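import Pool.Agent.NegLim.EMain

/-!
# Average-case hardness of a language in exponential time: final form
-/

namespace Pool.Agent.NegLim.Lang

open Finset
open scoped BigOperators

lemma flips_nonneg {V : Type} [Fintype V] [DecidableEq V] (C : Circuit V) : 0 ≤ C.flips := by
  unfold Circuit.flips
  exact Finset.expect_nonneg fun π _ => Nat.cast_nonneg _

lemma sum_filter_le_one {X : Type} [Fintype X] (μ : X → ℝ) (h0 : ∀ x, 0 ≤ μ x)
    (h1 : ∑ x, μ x = 1) (p : X → Prop) [DecidablePred p] :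
    ∑ x ∈ univ.filter p, μ x ≤ 1 := by
  rw [← h1]
  exact sum_le_sum_of_subset_of_nonneg (filter_subset _ _) fun x _ _ => h0 x

/-- The real asymptotics, part 1: the size bound. -/
lemma size_ok (a b d n R l : ℕ) (δ : ℝ) (hδ : 0 < δ) (hδ1 : δ ≤ 1)
    (hR1 : 1 ≤ R) (ha : δ * b < a)
    (hRb : n < d * (R + 1) ^ b) (hd : 1 ≤ d)
    (hRK : ((d : ℝ) * 2 ^ b) ^ (1 / ((a : ℝ) - δ * b)) ≤ R) (hl : 2 * l + 3 ≤ R)
    (hnl : n ≤ 2 ^ l) (s r T : ℕ) (hs : (s : ℝ) ≤ 2 ^ ((n : ℝ) ^ δ)) (hT : T ≤ r) (hr : r ≤ n) :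
    4 * r * (s + T) ≤ 4 ^ (R ^ a) := by
  have hη : 0 < (a : ℝ) - δ * b := by linarith
  have hR0 : (0 : ℝ) < R := by exact_mod_cast hR1
  have ha1 : 1 ≤ a := by
    rcases Nat.eq_zero_or_pos a with h | h
    · exfalso
      rw [h] at ha
      have : 0 ≤ δ * (b : ℝ) := by positivity
      push_cast at ha
      linarith
    · exact h
  have hC0 : (0 : ℝ) < (d : ℝ) * 2 ^ b := by
    have : (0 : ℝ) < d := by exact_mod_cast hd
    positivity
  -- n ≤ d 2^b R^b
  have hn1 : (n : ℝ) ≤ (d * 2 ^ b) * (R : ℝ) ^ b := by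
    have h1 : (n : ℝ) ≤ (d : ℝ) * ((R : ℝ) + 1) ^ b := by exact_mod_cast hRb.le
    have h2 : ((R : ℝ) + 1) ^ b ≤ (2 * R) ^ b := by
      apply pow_le_pow_left₀ (by positivity)
      have : (1 : ℝ) ≤ R := by exact_mod_cast hR1
      linarith
    calc (n : ℝ) ≤ (d : ℝ) * ((R : ℝ) + 1) ^ b := h1
      _ ≤ d * (2 * R) ^ b := by
          apply mul_le_mul_of_nonneg_left h2 (by positivity)
      _ = (d * 2 ^ b) * (R : ℝ) ^ b := by rw [mul_pow]; ring
  have hnδ : (n : ℝ) ^ δ ≤ (R : ℝ) ^ a := by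
    calc (n : ℝ) ^ δ ≤ ((d * 2 ^ b) * (R : ℝ) ^ b) ^ δ :=
          Real.rpow_le_rpow (by positivity) hn1 hδ.le
      _ = (d * 2 ^ b : ℝ) ^ δ * ((R : ℝ) ^ b) ^ δ := Real.mul_rpow hC0.le (by positivity)
      _ ≤ (R : ℝ) ^ ((a : ℝ) - δ * b) * (R : ℝ) ^ (δ * b) := by
          apply mul_le_mul
          · calc (d * 2 ^ b : ℝ) ^ δ ≤ (d * 2 ^ b : ℝ) ^ (1 : ℝ) := by
                  apply Real.rpow_le_rpow_of_exponent_le _ hδ1
                  have h1 : (1 : ℝ) ≤ d := by exact_mod_cast hd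
                  have h2 : (1 : ℝ) ≤ 2 ^ b := one_le_pow₀ (by norm_num)
                  nlinarith
              _ = ((d * 2 ^ b : ℝ) ^ (1 / ((a : ℝ) - δ * b))) ^ ((a : ℝ) - δ * b) := by
                  rw [← Real.rpow_mul hC0.le]
                  congr 1
                  field_simp
              _ ≤ (R : ℝ) ^ ((a : ℝ) - δ * b) :=
                  Real.rpow_le_rpow (by positivity) hRK hη.le
          · apply le_of_eq
            rw [← Real.rpow_natCast, ← Real.rpow_mul hR0.le]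
            congr 1
            ring
          · positivity
          · positivity
      _ = (R : ℝ) ^ a := by
          rw [← Real.rpow_add hR0, ← Real.rpow_natCast]
          congr 1
          ring
  have hRa : R ≤ R ^ a := by
    calc R = R ^ 1 := (pow_one R).symm
      _ ≤ R ^ a := Nat.pow_le_pow_right hR1 ha1
  have hs2 : s ≤ 2 ^ (R ^ a) := by
    have h1 : (s : ℝ) ≤ 2 ^ ((R : ℝ) ^ a) :=
      hs.trans (Real.rpow_le_rpow_of_exponent_le (by norm_num) hnδ)
    have h2 : (2 : ℝ) ^ ((R : ℝ) ^ a) = ((2 ^ (R ^ a) : ℕ) : ℝ) := by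
      rw [show ((R : ℝ) ^ a) = ((R ^ a : ℕ) : ℝ) by push_cast; rfl, Real.rpow_natCast]
      push_cast
      rfl
    rw [h2] at h1
    exact_mod_cast h1
  have hr2 : r ≤ 2 ^ l := hr.trans hnl
  have h5 : s + T ≤ 2 * (2 ^ (R ^ a) * 2 ^ l) := by
    have h6 : s ≤ 2 ^ (R ^ a) * 2 ^ l := hs2.trans (Nat.le_mul_of_pos_right _ (by positivity))
    have h7 : T ≤ 2 ^ (R ^ a) * 2 ^ l :=
      (hT.trans hr2).trans (Nat.le_mul_of_pos_left _ (by positivity))
    omega
  calc 4 * r * (s + T) ≤ 4 * 2 ^ l * (2 * (2 ^ (R ^ a) * 2 ^ l)) :=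
        Nat.mul_le_mul (Nat.mul_le_mul_left 4 hr2) h5
    _ = 2 ^ (2 * l + 3 + R ^ a) := by
        have e : 2 * l + 3 + R ^ a = l + l + 3 + R ^ a := by omega
        rw [e, pow_add, pow_add, pow_add]
        ring
    _ ≤ 2 ^ (2 * R ^ a) := Nat.pow_le_pow_right (by norm_num) (by omega)
    _ = 4 ^ (R ^ a) := by rw [pow_mul]; norm_num

/-- The real asymptotics, part 2: the advantage. -/
lemma adv_ok (a b d n R r : ℕ) (γ : ℝ) (hγ : (2 * a + 3 : ℝ) ≤ γ * b) (hγ0 : 0 ≤ γ)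
    (hR1 : 1 ≤ R) (hRb : R ^ b ≤ n) (h4d : 4 * d ≤ R) (hr1 : 1 ≤ r)
    (hn : n ≤ 8 * d * R ^ (2 * a + 2) * r) :
    (1 : ℝ) / (2 * r) ≤ (n : ℝ) ^ (γ - 1) := by
  have hR0 : (0 : ℝ) < R := by exact_mod_cast hR1
  have hn0 : (0 : ℝ) < n := by
    have : 1 ≤ n := le_trans (Nat.one_le_pow _ _ hR1) hRb
    exact_mod_cast this
  have hr0 : (0 : ℝ) < r := by exact_mod_cast hr1
  have h1 : ((4 * d : ℕ) : ℝ) * (R : ℝ) ^ (2 * a + 2) ≤ (n : ℝ) ^ γ := by
    calc ((4 * d : ℕ) : ℝ) * (R : ℝ) ^ (2 * a + 2) ≤ (R : ℝ) * (R : ℝ) ^ (2 * a + 2) := by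
          apply mul_le_mul_of_nonneg_right _ (by positivity)
          exact_mod_cast h4d
      _ = (R : ℝ) ^ ((2 * a + 3 : ℕ) : ℝ) := by rw [Real.rpow_natCast]; ring
      _ ≤ (R : ℝ) ^ (γ * b) := by
          apply Real.rpow_le_rpow_of_exponent_le (by exact_mod_cast hR1)
          push_cast
          exact hγ
      _ = ((R : ℝ) ^ b) ^ γ := by
          rw [← Real.rpow_natCast, ← Real.rpow_mul hR0.le]
          congr 1
          ring
      _ ≤ (n : ℝ) ^ γ := by
          apply Real.rpow_le_rpow (by positivity) _ hγ0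
          exact_mod_cast hRb
  have h2 : (n : ℝ) ≤ 8 * d * (R : ℝ) ^ (2 * a + 2) * r := by exact_mod_cast hn
  rw [Real.rpow_sub hn0, Real.rpow_one, div_le_div_iff₀ (by positivity) hn0]
  push_cast at h1
  nlinarith

lemma acc_mono {c N q S : ℕ} {bit bit' : ℕ → Bool} (h : ∀ i, bit i = true → bit' i = true)
    (ha : Acc c N q S bit) : Acc c N q S bit' := by
  obtain ⟨u, hu, h1⟩ := ha
  refine ⟨u, hu, fun i hi => ?_⟩
  obtain ⟨s, hs, h2, h3, h4⟩ := h1 i hi
  exact ⟨s, hs, h2, h3, h _ h4⟩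

/-- The language is monotone on the words of each length. -/
lemma lang_mono (a b d n : ℕ) : Monotone fun x : Fin n → Bool => lang a b d (List.ofFn x) := by
  intro x y hxy
  rw [Bool.le_iff_imp]
  simp only
  intro hx
  rw [lang_eq_true_iff] at hx ⊢
  unfold PLang at hx ⊢
  have h1 : ∀ z : Fin n → Bool, ((List.ofFn z).take ((List.ofFn z).length / d)).length =
      min (n / d) n := by
    intro z
    rw [List.length_take, List.length_ofFn]
  rw [wlen_pad, length_pad, h1] at hx ⊢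
  refine acc_mono (fun i hi => ?_) hx
  rw [wbit_pad] at hi ⊢
  by_cases hlt : i < min (n / d) n
  · rw [List.getD_eq_getElem _ _ (by rw [h1]; exact hlt), List.getElem_take, List.getElem_ofFn]
      at hi ⊢
    exact (Bool.le_iff_imp.mp (hxy _)) hi
  · rw [List.getD_eq_default _ _ (by rw [h1]; omega)] at hi
    exact absurd hi (by simp)

open Classical in
/-- Average-case hardness of a language in time `O(2 ^ n)`. -/
theorem e_main (δ ε : ℝ) (hδ : 0 < δ) (hε : 0 < ε) :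
    ∃ L : List Bool → Bool, (∃ c : ℕ, DecidableInTime L (fun n => c * 2 ^ n)) ∧
      (∀ n : ℕ, Monotone fun x : Fin n → Bool => L (List.ofFn x)) ∧
      ∃ n₀ : ℕ, ∀ n ≥ n₀, ∃ μ : (Fin n → Bool) → ℝ, (∀ x, 0 ≤ μ x) ∧ ∑ x, μ x = 1 ∧
        ∀ (T : ℕ) (C : Circuit (Fin n)) (out : Fin T → Wire (Fin n)) (g : (Fin T → Bool) → Bool),
          (C.size : ℝ) ≤ 2 ^ ((n : ℝ) ^ δ) →
          ∑ x with g (fun i => C.val x (out i)) = L (List.ofFn x), μ x
            ≤ 1 / 2 + (T + 1) * (C.flips + 1) * (n : ℝ) ^ (2 * δ - 1 + ε) := by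
  rcases le_or_gt 1 (2 * δ + ε) with hcase | hcase
  · -- the trivial case
    obtain ⟨d, hd1, c, hc⟩ := lang_time 1 1
    refine ⟨_, ⟨c, hc⟩, lang_mono 1 1 d, 1, fun n hn => ⟨fun x => if x = fun _ => true then 1 else 0,
      fun x => ?_, ?_, ?_⟩⟩
    · show (0 : ℝ) ≤ if x = fun _ => true then 1 else 0
      by_cases h : x = fun _ => true
      · rw [if_pos h]; norm_num
      · rw [if_neg h]
    · rw [sum_ite_eq']
      rw [if_pos (mem_univ _)]
    · intro T C out g _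
      have h1 : (1 : ℝ) ≤ (n : ℝ) ^ (2 * δ - 1 + ε) := by
        apply Real.one_le_rpow
        · exact_mod_cast hn
        · linarith
      have h2 : (0 : ℝ) ≤ C.flips := flips_nonneg C
      have h3 : (1 : ℝ) ≤ ((T : ℝ) + 1) * (C.flips + 1) := by
        have h4 : (0 : ℝ) ≤ T := Nat.cast_nonneg T
        nlinarith
      have h4 : (1 : ℝ) ≤ ((T : ℝ) + 1) * (C.flips + 1) * (n : ℝ) ^ (2 * δ - 1 + ε) := by
        nlinarith
      refine le_trans (sum_filter_le_one _ ?_ ?_ _) (by linarith)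
      · intro x
        show (0 : ℝ) ≤ if x = fun _ => true then 1 else 0
        by_cases h : x = fun _ => true
        · rw [if_pos h]; norm_num
        · rw [if_neg h]
      · rw [sum_ite_eq']
        rw [if_pos (mem_univ _)]
  · -- the main case
    set b := ⌈5 / ε⌉₊ + 1 with hb
    set a := ⌊δ * b⌋₊ + 1 with ha
    have hεb : 5 < ε * b := by
      have h1 : 5 / ε ≤ (⌈5 / ε⌉₊ : ℝ) := Nat.le_ceil _
      have h2 : 5 ≤ ε * (⌈5 / ε⌉₊ : ℝ) := by
        rw [div_le_iff₀ hε] at h1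
        linarith
      rw [hb]
      push_cast
      linarith
    have ha1 : δ * b < a := by
      rw [ha]
      push_cast
      exact Nat.lt_floor_add_one _
    have ha2 : (a : ℝ) ≤ δ * b + 1 := by
      have h1 : (⌊δ * b⌋₊ : ℝ) ≤ δ * b := Nat.floor_le (by positivity)
      rw [ha]
      push_cast
      linarith
    have hb0 : (0 : ℝ) < b := by rw [hb]; positivity
    have hb1 : 1 ≤ b := by omega
    have hab : 2 * a + 4 ≤ b := by
      have h1 : 2 * (a : ℝ) + 4 < b + 1 := by nlinarith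
      have h2 : 2 * a + 4 < b + 1 := by exact_mod_cast h1
      omega
    obtain ⟨d, hd1, c, hc⟩ := lang_time a b
    set K := 2 ^ 12 + 4 * d + ⌈((d : ℝ) * 2 ^ b) ^ (1 / ((a : ℝ) - δ * b))⌉₊ with hK
    obtain ⟨n1, hn1⟩ := root_large b d K hb1 hd1
    refine ⟨_, ⟨c, hc⟩, lang_mono a b d, n1, fun n hn => ?_⟩
    have hlarge := hn1 n hn
    set l := Nat.log 2 (n + 1) + 1 with hl
    have hl1 : 1 ≤ l := by omega
    have hl2 : l ≤ l ^ 2 := by
      calc l = l * 1 := (mul_one l).symm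
        _ ≤ l * l := Nat.mul_le_mul_left l hl1
        _ = l ^ 2 := (sq l).symm
    have hl3 : 1 ≤ l ^ 2 := hl1.trans hl2
    have hRK : K ≤ rt b (n / d) := (Nat.le_mul_of_pos_right K hl3).trans hlarge
    have hlarge2 : 2 ^ 12 * l ^ 2 ≤ rt b (n / d) := by
      refine le_trans (Nat.mul_le_mul_right _ ?_) hlarge
      rw [hK]
      omega
    obtain ⟨M, L, k, r, q, hqp, hq, hNq, hS, hw, h2w, hNleq, hM, hL, hk, hLkr, hr1, hY, hnr, hrn⟩ :=
      lang_numbers a b d n hab hd1 hlarge2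
    obtain ⟨μ, hμ0, hμ1, hμ⟩ := lang_avg a b d n M L k r q hqp hq hNq hS hw h2w hNleq hM hL hk
      hLkr hr1 hY
    obtain ⟨hRb1, hRb2⟩ := rt_spec b (n / d) hb1
    set R := rt b (n / d) with hR
    have hR1 : 1 ≤ R := by
      have : 1 ≤ K := by rw [hK]; omega
      omega
    have hadv : (1 : ℝ) / (2 * r) ≤ (n : ℝ) ^ ((2 * δ + ε) - 1) :=
      adv_ok a b d n R r (2 * δ + ε) (by nlinarith) (by linarith) hR1
        (hRb1.trans (Nat.div_le_self n d)) (by rw [hK] at hRK; omega) hr1 hnr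
    have he : 2 * δ + ε - 1 = 2 * δ - 1 + ε := by ring
    rw [he] at hadv
    refine ⟨μ, hμ0, hμ1, ?_⟩
    intro T C out g hsz
    have h2 : (0 : ℝ) ≤ C.flips := flips_nonneg C
    have hT0 : (0 : ℝ) ≤ T := Nat.cast_nonneg T
    have hr0 : (0 : ℝ) < r := by exact_mod_cast hr1
    have hmain : ((T : ℝ) + 1) * (C.flips + 1) * (1 / (2 * r)) ≤
        ((T : ℝ) + 1) * (C.flips + 1) * (n : ℝ) ^ (2 * δ - 1 + ε) :=
      mul_le_mul_of_nonneg_left hadv (by positivity)
    rcases le_or_gt T r with hTr | hTr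
    · have h3 := hμ T C out g (size_ok a b d n R l δ hδ (by linarith) hR1 ha1
        (by
          have h4 : n < d * (n / d + 1) := Nat.lt_mul_div_succ n hd1
          exact lt_of_lt_of_le h4 (Nat.mul_le_mul_left d hRb2))
        hd1
        (by
          have h4 : ⌈((d : ℝ) * 2 ^ b) ^ (1 / ((a : ℝ) - δ * b))⌉₊ ≤ R := by
            rw [hK] at hRK
            omega
          exact (Nat.le_ceil _).trans (by exact_mod_cast h4))
        (by
          have h5 : 2 ^ 12 * l ≤ R := (Nat.mul_le_mul_left _ hl2).trans hlarge2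
          omega)
        ((Nat.le_succ n).trans (Nat.lt_pow_succ_log_self (by norm_num) _).le)
        C.size r T hsz hTr hrn)
      refine h3.trans ?_
      have h4 : ((T : ℝ) + 1) * (C.flips + 1) / (2 * r)
          = ((T : ℝ) + 1) * (C.flips + 1) * (1 / (2 * r)) := by ring
      rw [h4]
      linarith
    · refine le_trans (sum_filter_le_one μ hμ0 hμ1 _) ?_
      have h5 : (1 : ℝ) / 2 ≤ ((T : ℝ) + 1) * (C.flips + 1) * (1 / (2 * r)) := by
        have h6 : (r : ℝ) ≤ T := by exact_mod_cast hTr.le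
        have h7 : (1 : ℝ) / 2 = r * (1 / (2 * r)) := by field_simp
        rw [h7]
        apply mul_le_mul_of_nonneg_right _ (by positivity)
        nlinarith
      linarith

end Pool.Agent.NegLim.Lang
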