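import Pool.Agent.NegLim.NPHard
import Pool.Agent.NegLim.EFinal

/-!
# A language in NP, hard on average for circuits of quasi-polynomial size with few flips
-/

namespace Pool.Agent.NegLim.NPL

open Finset Pool.Agent.NegLim.Lang
open scoped BigOperators

lemma lgc_eq (n : ℕ) : lgc n = Nat.log 2 (n + 1) + 1 := by
  classical
  unfold lgc
  have h : (range (n + 2)).filter (fun P => IsPow 2 P)
      = (range (Nat.log 2 (n + 1) + 1)).image (fun i => 2 ^ i) := by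
    ext P
    rw [mem_filter, mem_range, isPow_iff Nat.prime_two, mem_image]
    constructor
    · rintro ⟨h1, i, rfl⟩
      refine ⟨i, mem_range.mpr ?_, rfl⟩
      have := Nat.le_log_of_pow_le (b := 2) (by norm_num) (show 2 ^ i ≤ n + 1 by omega)
      omega
    · rintro ⟨i, hi, rfl⟩
      refine ⟨?_, i, rfl⟩
      have h1 : i ≤ Nat.log 2 (n + 1) := by
        have := mem_range.mp hi
        omega
      have h2 : 2 ^ i ≤ 2 ^ Nat.log 2 (n + 1) := Nat.pow_le_pow_right (by norm_num) h1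
      have h3 := Nat.pow_log_le_self 2 (show n + 1 ≠ 0 by omega)
      omega
  calc _ = ((range (Nat.log 2 (n + 1) + 1)).image (fun i => 2 ^ i)).card := by
        rw [← h]
    _ = Nat.log 2 (n + 1) + 1 := by
        rw [card_image_of_injective _ (Nat.pow_right_injective (le_refl 2)), card_range]

lemma RR_large (e K : ℕ) : ∃ n1 : ℕ, ∀ n ≥ n1, RR n ^ e ≤ n ∧ K ≤ Nat.log 2 n := by
  obtain ⟨C, hC⟩ := pow_le_two_pow (2 * e + 1)
  set B := 4 * (2 ^ (12 * e) * C) + 2 + K with hB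
  refine ⟨2 ^ B, fun n hn => ⟨?_, ?_⟩⟩
  · unfold RR
    rw [lgc_eq]
    set l := Nat.log 2 (n + 1) + 1 with hl
    have hlB : B < l := by
      have h1 : B ≤ Nat.log 2 (n + 1) := Nat.le_log_of_pow_le (by norm_num) (by omega)
      omega
    have hl1 : 1 ≤ l := by omega
    have h2l : 2 ^ (l - 1) ≤ n + 1 := by
      have : l - 1 = Nat.log 2 (n + 1) := by omega
      rw [this]
      exact Nat.pow_log_le_self 2 (by omega)
    have h6 : 4 * (2 ^ (12 * e) * l ^ (2 * e)) ≤ 2 ^ l := by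
      have h7 : 4 * (2 ^ (12 * e) * l ^ (2 * e)) * l ≤ 2 ^ l * l := by
        calc 4 * (2 ^ (12 * e) * l ^ (2 * e)) * l
            = 4 * 2 ^ (12 * e) * l ^ (2 * e + 1) := by rw [pow_succ]; ring
          _ ≤ 4 * 2 ^ (12 * e) * (C * 2 ^ l) := Nat.mul_le_mul_left _ (hC l)
          _ = 4 * (2 ^ (12 * e) * C) * 2 ^ l := by ring
          _ ≤ l * 2 ^ l := Nat.mul_le_mul_right _ (by omega)
          _ = 2 ^ l * l := mul_comm _ _
      exact Nat.le_of_mul_le_mul_right h7 hl1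
    have h7 : 2 ^ l = 2 * 2 ^ (l - 1) := by
      obtain ⟨t, ht⟩ : ∃ t, l = t + 1 := ⟨l - 1, by omega⟩
      rw [ht, Nat.add_sub_cancel, pow_succ]; ring
    have h8 : 2 ^ 1 ≤ 2 ^ (l - 1) := Nat.pow_le_pow_right (by norm_num) (by omega)
    have h9 : (2 ^ 12 * l ^ 2) ^ e = 2 ^ (12 * e) * l ^ (2 * e) := by
      rw [mul_pow, ← pow_mul, ← pow_mul]
    rw [h9]
    omega
  · exact (Nat.le_log_of_pow_le (by norm_num)
      ((Nat.pow_le_pow_right (by norm_num) (by omega)).trans hn))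

lemma flips_le_card {V : Type} [Fintype V] [DecidableEq V] (C : Circuit V) :
    C.flips ≤ Fintype.card V := by
  unfold Circuit.flips
  have hne : Nonempty (V ≃ Fin (Fintype.card V)) := ⟨Fintype.equivFin V⟩
  refine Finset.expect_le (univ_nonempty) fun π _ => ?_
  have h : ((range (Fintype.card V)).filter
      (fun k => C.notVals (stage π k) ≠ C.notVals (stage π (k + 1)))).card ≤ Fintype.card V := by
    refine (card_filter_le _ _).trans ?_
    rw [card_range]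
  exact_mod_cast h

lemma log_bounds {n : ℕ} (hn : 4 ≤ n) :
    Real.logb 2 n ≤ ((Nat.log 2 (n + 1) + 1 : ℕ) : ℝ) ∧
    ((Nat.log 2 (n + 1) + 1 : ℕ) : ℝ) ≤ 2 * Real.logb 2 n := by
  have hn0 : (0 : ℝ) < n := by
    have : 0 < n := by omega
    exact_mod_cast this
  constructor
  · have h1 : n < 2 ^ (Nat.log 2 (n + 1) + 1) := by
      have := Nat.lt_pow_succ_log_self (b := 2) (by norm_num) (n + 1)
      have h3 : Nat.succ (Nat.log 2 (n + 1)) = Nat.log 2 (n + 1) + 1 := rfl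
      rw [← h3]
      omega
    have h2 : (n : ℝ) ≤ 2 ^ (Nat.log 2 (n + 1) + 1) := by exact_mod_cast h1.le
    calc Real.logb 2 n ≤ Real.logb 2 (2 ^ (Nat.log 2 (n + 1) + 1)) :=
          Real.logb_le_logb_of_le (by norm_num) hn0 h2
      _ = ((Nat.log 2 (n + 1) + 1 : ℕ) : ℝ) := by
          rw [Real.logb_pow, Real.logb_self_eq_one (by norm_num), mul_one]
  · have h1 : 2 ^ Nat.log 2 (n + 1) ≤ n + 1 := Nat.pow_log_le_self 2 (by omega)
    have h2 : (2 : ℝ) ^ Nat.log 2 (n + 1) ≤ 2 * n := by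
      have : 2 ^ Nat.log 2 (n + 1) ≤ 2 * n := by omega
      exact_mod_cast this
    have h3 : (Nat.log 2 (n + 1) : ℝ) ≤ Real.logb 2 (2 * n) := by
      calc (Nat.log 2 (n + 1) : ℝ) = Real.logb 2 (2 ^ Nat.log 2 (n + 1)) := by
            rw [Real.logb_pow, Real.logb_self_eq_one (by norm_num), mul_one]
        _ ≤ Real.logb 2 (2 * n) := Real.logb_le_logb_of_le (by norm_num) (by positivity) h2
    rw [Real.logb_mul (by norm_num) hn0.ne', Real.logb_self_eq_one (by norm_num)] at h3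
    have h4 : (2 : ℝ) ≤ Real.logb 2 n := by
      have h5 : ((2 : ℝ) ^ 2) ≤ n := by
        have : 2 ^ 2 ≤ n := by omega
        exact_mod_cast this
      calc (2 : ℝ) = Real.logb 2 (2 ^ 2) := by
            rw [Real.logb_pow, Real.logb_self_eq_one (by norm_num)]; norm_num
        _ ≤ Real.logb 2 n := Real.logb_le_logb_of_le (by norm_num) (by positivity) h5
    push_cast
    linarith

/-- the size bound -/
lemma size_ok' (a l s r T n : ℕ) (ha : 1 ≤ a) (hl1 : 1 ≤ l) (hnl : n ≤ 2 ^ l)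
    (hs : s ≤ 2 ^ (l ^ (2 * a))) (hT : T ≤ r) (hr : r ≤ n) :
    4 * r * (s + T) ≤ 4 ^ ((2 ^ 12 * l ^ 2) ^ a) := by
  have hla : l ≤ l ^ (2 * a) := by
    calc l = l ^ 1 := (pow_one l).symm
      _ ≤ l ^ (2 * a) := Nat.pow_le_pow_right hl1 (by omega)
  have h1 : 1 ≤ l ^ (2 * a) := Nat.one_le_pow _ _ hl1
  have hT2 : T ≤ 2 ^ (l ^ (2 * a)) :=
    (hT.trans (hr.trans hnl)).trans (Nat.pow_le_pow_right (by norm_num) hla)
  have h2 : s + T ≤ 2 * 2 ^ (l ^ (2 * a)) := by omega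
  have h3 : r ≤ 2 ^ (l ^ (2 * a)) :=
    (hr.trans hnl).trans (Nat.pow_le_pow_right (by norm_num) hla)
  calc 4 * r * (s + T) ≤ 4 * 2 ^ (l ^ (2 * a)) * (2 * 2 ^ (l ^ (2 * a))) :=
        Nat.mul_le_mul (Nat.mul_le_mul_left 4 h3) h2
    _ = 2 ^ (3 + l ^ (2 * a) + l ^ (2 * a)) := by
        rw [pow_add, pow_add]; ring
    _ ≤ 2 ^ (2 * (2 ^ 12 * l ^ 2) ^ a) := by
        apply Nat.pow_le_pow_right (by norm_num)
        have h4 : (2 ^ 12 * l ^ 2) ^ a = (2 ^ 12) ^ a * l ^ (2 * a) := by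
          rw [mul_pow, ← pow_mul l]
        have h5 : 2 ^ 12 ≤ (2 ^ 12) ^ a := by
          calc 2 ^ 12 = (2 ^ 12) ^ 1 := (pow_one _).symm
            _ ≤ (2 ^ 12) ^ a := Nat.pow_le_pow_right (by norm_num) ha
        have h6 : 2 ^ 12 * l ^ (2 * a) ≤ (2 ^ 12) ^ a * l ^ (2 * a) :=
          Nat.mul_le_mul_right _ h5
        rw [h4]
        omega
    _ = 4 ^ ((2 ^ 12 * l ^ 2) ^ a) := by rw [pow_mul]; norm_num

open Classical in
theorem np_main (a : ℕ) (ha : 1 ≤ a) : ∃ n₀ : ℕ, ∀ n ≥ n₀,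
    ∃ μ : (Fin n → Bool) → ℝ, (∀ x, 0 ≤ μ x) ∧ ∑ x, μ x = 1 ∧
      ∀ (T : ℕ) (C : Circuit (Fin n)) (out : Fin T → Wire (Fin n)) (g : (Fin T → Bool) → Bool),
        (C.size : ℝ) ≤ 2 ^ (Real.logb 2 n ^ (2 * a)) →
        ∑ x with g (fun i => C.val x (out i)) = nlang a (List.ofFn x), μ x
          ≤ 1 / 2 + (T + 1) * (C.flips + 1) * Real.logb 2 n ^ (4 * a + 5) / n := by
  obtain ⟨n1, hn1⟩ := RR_large (2 * a + 4) (2 ^ (28 * a + 29))
  refine ⟨n1 + 4, fun n hn => ?_⟩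
  obtain ⟨hRn, hlogn⟩ := hn1 n (by omega)
  have hn4 : 4 ≤ n := by omega
  obtain ⟨hlb1, hlb2⟩ := log_bounds hn4
  set l := Nat.log 2 (n + 1) + 1 with hl
  have hRl : RR n = 2 ^ 12 * l ^ 2 := by unfold RR; rw [lgc_eq]
  obtain ⟨M, L, k, r, q, hqp, hq, hNq, hw, h2w, hNleq, hM, hL, hk, hLkr, hr1, hY, hnr, hrn⟩ :=
    numbers a n (RR n) (by rw [hRl]) hRn
  have : Fact q.Prime := ⟨hqp⟩
  obtain ⟨μ, hμ0, hμ1, hμ⟩ := avg_gen n (RR n ^ (a + 1)) (RR n ^ a) M L k r q hNq hw h2w hNleq hM hL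
    hk hLkr hr1 hY (fun x => nlang a (List.ofFn x)) (fun x => nlang_iff a n q hq hNq h2w x)
  refine ⟨μ, hμ0, hμ1, ?_⟩
  intro T C out g hsz
  have hn0 : (0 : ℝ) < n := by
    have : 0 < n := by omega
    exact_mod_cast this
  have hr0 : (0 : ℝ) < r := by exact_mod_cast hr1
  have hx : (2 : ℝ) ^ (28 * a + 29) ≤ Real.logb 2 n := by
    have h1 : 2 ^ (2 ^ (28 * a + 29)) ≤ n := by
      calc 2 ^ (2 ^ (28 * a + 29)) ≤ 2 ^ Nat.log 2 n := Nat.pow_le_pow_right (by norm_num) hlogn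
        _ ≤ n := Nat.pow_log_le_self 2 (by omega)
    have h2 : (2 : ℝ) ^ (2 ^ (28 * a + 29)) ≤ n := by exact_mod_cast h1
    calc (2 : ℝ) ^ (28 * a + 29) = Real.logb 2 (2 ^ (2 ^ (28 * a + 29))) := by
          rw [Real.logb_pow, Real.logb_self_eq_one (by norm_num), mul_one]
          push_cast
          rfl
      _ ≤ Real.logb 2 n := Real.logb_le_logb_of_le (by norm_num) (by positivity) h2
  set X := Real.logb 2 n with hX
  have hX0 : 0 < X := lt_of_lt_of_le (by positivity) hx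
  -- the advantage
  have hadv : (1 : ℝ) / (2 * r) ≤ X ^ (4 * a + 5) / n := by
    have h1 : (n : ℝ) ≤ 4 * (RR n : ℝ) ^ (2 * a + 2) * r := by exact_mod_cast hnr
    have h2 : (RR n : ℝ) ≤ 2 ^ 14 * X ^ 2 := by
      rw [hRl]
      push_cast
      have h3 : ((l : ℕ) : ℝ) ^ 2 ≤ (2 * X) ^ 2 :=
        pow_le_pow_left₀ (Nat.cast_nonneg l) hlb2 2
      nlinarith
    have h4 : (RR n : ℝ) ^ (2 * a + 2) ≤ (2 ^ 14 * X ^ 2) ^ (2 * a + 2) :=
      pow_le_pow_left₀ (Nat.cast_nonneg _) h2 _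
    have h5 : 2 * (2 ^ 14 * X ^ 2) ^ (2 * a + 2) ≤ X ^ (4 * a + 5) := by
      have e1 : 2 * (2 ^ 14 * X ^ 2) ^ (2 * a + 2) = 2 ^ (28 * a + 29) * X ^ (4 * a + 4) := by
        rw [mul_pow, ← pow_mul, ← pow_mul]
        ring
      have e2 : X ^ (4 * a + 5) = X * X ^ (4 * a + 4) := by ring
      rw [e1, e2]
      exact mul_le_mul_of_nonneg_right hx (by positivity)
    rw [div_le_div_iff₀ (by positivity) hn0]
    calc 1 * (n : ℝ) ≤ 4 * (RR n : ℝ) ^ (2 * a + 2) * r := by rw [one_mul]; exact h1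
      _ = 2 * (RR n : ℝ) ^ (2 * a + 2) * (2 * r) := by ring
      _ ≤ 2 * (2 ^ 14 * X ^ 2) ^ (2 * a + 2) * (2 * r) := by
          apply mul_le_mul_of_nonneg_right _ (by positivity)
          linarith
      _ ≤ X ^ (4 * a + 5) * (2 * r) := mul_le_mul_of_nonneg_right h5 (by positivity)
  have h2 : (0 : ℝ) ≤ C.flips := flips_nonneg C
  have hT0 : (0 : ℝ) ≤ T := Nat.cast_nonneg T
  have hmain : ((T : ℝ) + 1) * (C.flips + 1) * (1 / (2 * r)) ≤
      ((T : ℝ) + 1) * (C.flips + 1) * X ^ (4 * a + 5) / n := by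
    rw [mul_div_assoc]
    exact mul_le_mul_of_nonneg_left hadv (by positivity)
  have hs : C.size ≤ 2 ^ (l ^ (2 * a)) := by
    have h3 : X ^ (2 * a) ≤ ((l ^ (2 * a) : ℕ) : ℝ) := by
      push_cast
      exact pow_le_pow_left₀ hX0.le hlb1 _
    have h4 : (C.size : ℝ) ≤ 2 ^ (((l ^ (2 * a) : ℕ) : ℝ)) :=
      hsz.trans (Real.rpow_le_rpow_of_exponent_le (by norm_num) h3)
    rw [Real.rpow_natCast] at h4
    exact_mod_cast h4
  have hnl : n ≤ 2 ^ l :=
    (Nat.le_succ n).trans (Nat.lt_pow_succ_log_self (by norm_num) _).le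
  rcases le_or_gt T r with hTr | hTr
  · have h3 := hμ T C out g (by
      rw [hRl]
      exact size_ok' a l C.size r T n ha (by omega) hnl hs hTr hrn)
    refine h3.trans ?_
    have h4 : ((T : ℝ) + 1) * (C.flips + 1) / (2 * r)
        = ((T : ℝ) + 1) * (C.flips + 1) * (1 / (2 * r)) := by ring
    rw [h4]
    linarith
  · refine le_trans (sum_filter_le_one μ hμ0 hμ1 _) ?_
    have h5 : (1 : ℝ) / 2 ≤ ((T : ℝ) + 1) * (C.flips + 1) * (1 / (2 * r)) := by
      have h6 : (r : ℝ) ≤ T := by exact_mod_cast hTr.le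
      have h7 : (1 : ℝ) / 2 = r * (1 / (2 * r)) := by field_simp
      rw [h7]
      apply mul_le_mul_of_nonneg_right _ (by positivity)
      nlinarith
    linarith

end Pool.Agent.NegLim.NPL
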