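import Mathlib

/-!
# Boolean circuits with AND, OR and NOT gates, and the clique function: definitions
-/

namespace Pool.Agent.NegLim

/-- A wire: an input variable, a constant, or the output of the gate number `i`. -/
inductive Wire (V : Type) : Type
  | var (v : V) : Wire V
  | const (b : Bool) : Wire V
  | gate (i : ℕ) : Wire V

/-- A gate: AND, OR of two wires, or NOT of one wire. -/
inductive Gate (V : Type) : Type
  | and (a b : Wire V) : Gate V
  | or (a b : Wire V) : Gate V
  | not (a : Wire V) : Gate V

/-- The value of a wire at the input `x`, if `vals` lists the values of the gates computed so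
far (a wire which refers to a gate not yet computed has the value `false`). -/
def Wire.val {V : Type} (x : V → Bool) (vals : List Bool) : Wire V → Bool
  | .var v => x v
  | .const b => b
  | .gate i => vals.getD i false

/-- The value of a gate. -/
def Gate.val {V : Type} (x : V → Bool) (vals : List Bool) : Gate V → Bool
  | .and a b => a.val x vals && b.val x vals
  | .or a b => a.val x vals || b.val x vals
  | .not a => !a.val x vals

/-- Is this gate a NOT gate? -/
def Gate.isNot {V : Type} : Gate V → Bool
  | .and _ _ => false
  | .or _ _ => false
  | .not _ => true

/-- A circuit is a list of gates; gates are numbered `0, 1, 2, ...` in the order of the list. -/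
abbrev Circuit (V : Type) : Type := List (Gate V)

/-- The values of the gates of a circuit at the input `x`, given the list `vals` of the values
of gates computed before. -/
def gateVals {V : Type} (x : V → Bool) : Circuit V → List Bool → List Bool
  | [], vals => vals
  | g :: C, vals => gateVals x C (vals ++ [g.val x vals])

/-- The value of the wire `a` of the circuit `C` at the input `x`. -/
def Circuit.val {V : Type} (C : Circuit V) (x : V → Bool) (a : Wire V) : Bool :=
  a.val x (gateVals x C [])

/-- The size of a circuit: its number of gates. -/
def Circuit.size {V : Type} (C : Circuit V) : ℕ := C.length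

/-- The number of NOT gates of a circuit. -/
def Circuit.negs {V : Type} (C : Circuit V) : ℕ := C.countP Gate.isNot

/-- The pairs `i < j` of vertices: the input variables of the clique function. -/
abbrev Edge (m : ℕ) : Type := {p : Fin m × Fin m // p.1 < p.2}

/-- The graph `x` on the vertices `0, ..., m - 1` has a clique with `K` vertices. -/
def HasClique {m : ℕ} (K : ℕ) (x : Edge m → Bool) : Prop :=
  ∃ S : Finset (Fin m), S.card = K ∧ ∀ i ∈ S, ∀ j ∈ S, ∀ h : i < j, x ⟨(i, j), h⟩ = true

end Pool.Agent.NegLim
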