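import Pool.Agent.NegLim.Chain
import Pool.Agent.NegLim.Defs

/-!
# Boolean circuits with AND, OR and NOT gates
-/

namespace Pool.Agent.NegLim

open Finset

set_option linter.unusedSectionVars false

lemma gateVals_append {V : Type} (x : V → Bool) (C D : Circuit V) (vals : List Bool) :
    gateVals x (C ++ D) vals = gateVals x D (gateVals x C vals) := by
  induction C generalizing vals with
  | nil => rfl
  | cons g C ih => simp only [List.cons_append, gateVals]; exact ih _

variable {V : Type} [Fintype V] [DecidableEq V]

/-- The family of sets on which a wire is true, given such families for the gates. -/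
def Wire.fam (fs : List (Set (Finset V))) : Wire V → Set (Finset V)
  | .var v => {y | v ∈ y}
  | .const b => if b then Set.univ else ∅
  | .gate i => fs.getD i ∅

lemma Wire.fam_mem {fs : List (Set (Finset V))} {C : Set (Set (Finset V))}
    (hb : baseFns V ⊆ C) (hfs : ∀ f ∈ fs, f ∈ C) (a : Wire V) : a.fam fs ∈ C := by
  cases a with
  | var v => exact hb (Or.inl ⟨v, rfl⟩)
  | const b =>
    cases b with
    | false => exact hb (Or.inr (Or.inr rfl))
    | true => exact hb (Or.inr (Or.inl rfl))
  | gate i =>
    simp only [Wire.fam]
    by_cases h : i < fs.length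
    · rw [List.getD_eq_getElem _ _ h]
      exact hfs _ (List.getElem_mem h)
    · rw [List.getD_eq_default _ _ (not_lt.mp h)]
      exact hb (Or.inr (Or.inr rfl))

open Classical in
/-- Membership as a Boolean. -/
noncomputable def mb (x : Finset V) (f : Set (Finset V)) : Bool := decide (x ∈ f)

lemma mb_iff {x : Finset V} {f : Set (Finset V)} : mb x f = true ↔ x ∈ f := by
  simp [mb]

/-- The input given by a set. -/
def chi (x : Finset V) : V → Bool := fun v => decide (v ∈ x)

lemma Wire.val_fam (fs : List (Set (Finset V))) (x : Finset V) (a : Wire V) :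
    a.val (chi x) (fs.map (mb x)) = mb x (a.fam fs) := by
  rw [Bool.eq_iff_iff, mb_iff]
  cases a with
  | var v => simp [Wire.val, Wire.fam, chi]
  | const b => cases b <;> simp [Wire.val, Wire.fam]
  | gate i =>
    simp only [Wire.val, Wire.fam]
    by_cases h : i < fs.length
    · rw [List.getD_eq_getElem _ _ h, List.getD_eq_getElem _ _ (by simpa using h),
        List.getElem_map, mb_iff]
    · rw [List.getD_eq_default _ _ (not_lt.mp h), List.getD_eq_default _ _ (by simpa using h)]
      simp

/-- Decomposition of a circuit with `t` NOT gates into monotone functions: `U` indexes the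
`2^t` guesses of the values of the NOT gates, `g j`, `j : J`, are the `2^t - 1` functions which
determine the right guess `sel x`, and `fs u` are the functions computed by the gates when the
NOT gates are replaced by the constants of the guess `u`. -/
lemma decomp (C : Circuit V) :
    ∃ (U : Type) (_ : Fintype U) (J : Type) (_ : Fintype J) (sel : Finset V → U)
      (g : J → Set (Finset V)) (fs : U → List (Set (Finset V))),
      Fintype.card U = 2 ^ C.negs ∧ Fintype.card J + 1 = 2 ^ C.negs ∧
      (∀ j, MonSize (C.size - C.negs) (g j)) ∧
      (∀ u, ∃ D, MonComp (C.size - C.negs) D ∧ ∀ f ∈ fs u, f ∈ D) ∧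
      (∀ x x', (∀ j, x ∈ g j ↔ x' ∈ g j) → sel x = sel x') ∧
      (∀ x : Finset V, gateVals (chi x) C [] = (fs (sel x)).map (mb x)) := by
  induction C using List.reverseRecOn with
  | nil =>
    refine ⟨Unit, inferInstance, Empty, inferInstance, fun _ => (), Empty.elim, fun _ => [],
      by simp [Circuit.negs], by simp [Circuit.negs], fun j => j.elim, ?_, fun _ _ _ => rfl, ?_⟩
    · intro _
      refine ⟨_, MonComp.base, ?_⟩
      simp
    · intro x; rfl
  | append_singleton C a ih =>
    obtain ⟨U, _, J, _, sel, g, fs, hU, hJ, hg, hfs, hsel, hval⟩ := ih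
    have hle : Circuit.negs C ≤ Circuit.size C := List.countP_le_length
    have hsz : Circuit.size (C ++ [a]) = Circuit.size C + 1 := by simp [Circuit.size]
    have hrun : ∀ x : Finset V, gateVals (chi x) (C ++ [a]) []
        = (fs (sel x)).map (mb x) ++ [a.val (chi x) ((fs (sel x)).map (mb x))] := by
      intro x
      rw [gateVals_append, hval x]
      rfl
    have mono : ∀ {s s' : ℕ} {f : Set (Finset V)}, s ≤ s' → MonSize s f → MonSize s' f := by
      rintro s s' f hs ⟨s1, h1, D, h2, h3⟩
      exact ⟨s1, h1.trans hs, D, h2, h3⟩
    cases a with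
    | and a b =>
      have hn : Circuit.negs (C ++ [Gate.and a b]) = Circuit.negs C := by
        simp [Circuit.negs, List.countP_append, Gate.isNot]
      rw [hn, hsz]
      refine ⟨U, inferInstance, J, inferInstance, sel, g,
        fun u => fs u ++ [a.fam (fs u) ∩ b.fam (fs u)], hU, hJ,
        fun j => mono (by omega) (hg j), ?_, hsel, ?_⟩
      · intro u
        obtain ⟨D, hD, hfD⟩ := hfs u
        have e : Circuit.size C + 1 - Circuit.negs C = (Circuit.size C - Circuit.negs C) + 1 := by
          omega
        rw [e]
        refine ⟨_, MonComp.and hD (Wire.fam_mem hD.base_subset hfD a)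
          (Wire.fam_mem hD.base_subset hfD b), ?_⟩
        intro f hf
        rw [List.mem_append, List.mem_singleton] at hf
        rcases hf with hf | hf
        · exact Or.inr (hfD f hf)
        · exact Or.inl hf
      · intro x
        rw [hrun x, List.map_append, List.map_singleton]
        congr 2
        rw [Gate.val, Wire.val_fam, Wire.val_fam, Bool.eq_iff_iff, Bool.and_eq_true, mb_iff,
          mb_iff, mb_iff, Set.mem_inter_iff]
    | or a b =>
      have hn : Circuit.negs (C ++ [Gate.or a b]) = Circuit.negs C := by
        simp [Circuit.negs, List.countP_append, Gate.isNot]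
      rw [hn, hsz]
      refine ⟨U, inferInstance, J, inferInstance, sel, g,
        fun u => fs u ++ [a.fam (fs u) ∪ b.fam (fs u)], hU, hJ,
        fun j => mono (by omega) (hg j), ?_, hsel, ?_⟩
      · intro u
        obtain ⟨D, hD, hfD⟩ := hfs u
        have e : Circuit.size C + 1 - Circuit.negs C = (Circuit.size C - Circuit.negs C) + 1 := by
          omega
        rw [e]
        refine ⟨_, MonComp.or hD (Wire.fam_mem hD.base_subset hfD a)
          (Wire.fam_mem hD.base_subset hfD b), ?_⟩
        intro f hf
        rw [List.mem_append, List.mem_singleton] at hf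
        rcases hf with hf | hf
        · exact Or.inr (hfD f hf)
        · exact Or.inl hf
      · intro x
        rw [hrun x, List.map_append, List.map_singleton]
        congr 2
        rw [Gate.val, Wire.val_fam, Wire.val_fam, Bool.eq_iff_iff, Bool.or_eq_true, mb_iff,
          mb_iff, mb_iff, Set.mem_union]
    | not a =>
      have hn : Circuit.negs (C ++ [Gate.not a]) = Circuit.negs C + 1 := by
        simp [Circuit.negs, List.countP_append, Gate.isNot]
      rw [hn, hsz]
      have e : Circuit.size C + 1 - (Circuit.negs C + 1) = Circuit.size C - Circuit.negs C := by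
        omega
      rw [e]
      refine ⟨U × Bool, inferInstance, J ⊕ U, inferInstance,
        fun x => (sel x, mb x (a.fam (fs (sel x)))),
        Sum.elim g (fun u => a.fam (fs u)),
        fun u => fs u.1 ++ [if u.2 then ∅ else Set.univ], ?_, ?_, ?_, ?_, ?_, ?_⟩
      · rw [Fintype.card_prod, hU, Fintype.card_bool, pow_succ]
      · rw [Fintype.card_sum, hU, pow_succ]; omega
      · rintro (j | u)
        · exact hg j
        · obtain ⟨D, hD, hfD⟩ := hfs u
          exact ⟨_, le_rfl, D, hD, Wire.fam_mem hD.base_subset hfD a⟩
      · rintro ⟨u, b⟩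
        obtain ⟨D, hD, hfD⟩ := hfs u
        refine ⟨D, hD, ?_⟩
        intro f hf
        rw [List.mem_append, List.mem_singleton] at hf
        rcases hf with hf | hf
        · exact hfD f hf
        · rw [hf]
          cases b with
          | false => exact hD.base_subset (Or.inr (Or.inl rfl))
          | true => exact hD.base_subset (Or.inr (Or.inr rfl))
      · intro x x' h
        have h1 : sel x = sel x' := hsel x x' fun j => h (Sum.inl j)
        have h2 := h (Sum.inr (sel x))
        simp only [Sum.elim_inr] at h2
        have h3 : mb x (a.fam (fs (sel x))) = mb x' (a.fam (fs (sel x'))) := by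
          rw [← h1, Bool.eq_iff_iff, mb_iff, mb_iff]; exact h2
        exact Prod.ext h1 h3
      · intro x
        rw [hrun x, List.map_append, List.map_singleton]
        congr 2
        rw [Gate.val, Wire.val_fam, Bool.eq_iff_iff, mb_iff]
        cases hx : mb x (a.fam (fs (sel x))) <;> simp [hx]

/-- A circuit with `t` NOT gates and `T` outputs, followed by any function, is a Boolean function
of `(T + 1) 2^t - 1` monotone functions. -/
theorem circuit_family (C : Circuit V) {T : ℕ} (out : Fin T → Wire V) :
    ∃ (J : Type) (_ : Fintype J) (g : J → Set (Finset V)),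
      Fintype.card J + 1 = (T + 1) * 2 ^ C.negs ∧
      (∀ j, MonSize (C.size - C.negs) (g j)) ∧
      (∀ x x' : Finset V, (∀ j, x ∈ g j ↔ x' ∈ g j) →
        (fun i => C.val (chi x) (out i)) = (fun i => C.val (chi x') (out i))) := by
  obtain ⟨U, _, J, _, sel, g, fs, hU, hJ, hg, hfs, hsel, hval⟩ := decomp C
  refine ⟨J ⊕ (U × Fin T), inferInstance,
    Sum.elim g (fun p => (out p.2).fam (fs p.1)), ?_, ?_, ?_⟩
  · rw [Fintype.card_sum, Fintype.card_prod, hU, Fintype.card_fin, add_mul, one_mul]
    have : 2 ^ Circuit.negs C * T = T * 2 ^ Circuit.negs C := mul_comm _ _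
    omega
  · rintro (j | ⟨u, i⟩)
    · exact hg j
    · obtain ⟨D, hD, hfD⟩ := hfs u
      exact ⟨_, le_rfl, D, hD, Wire.fam_mem hD.base_subset hfD _⟩
  · intro x x' h
    have h1 : sel x = sel x' := hsel x x' fun j => h (Sum.inl j)
    funext i
    have h2 := h (Sum.inr (sel x, i))
    simp only [Sum.elim_inr] at h2
    unfold Circuit.val
    rw [hval x, hval x', Wire.val_fam, Wire.val_fam, ← h1, Bool.eq_iff_iff, mb_iff, mb_iff]
    exact h2

end Pool.Agent.NegLim
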