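import Pool.Agent.NegLim.Noise

/-!
# The noise process as a sample of a random maximal chain
-/

namespace Pool.Agent.NegLim

open Finset
open scoped BigOperators

set_option linter.unusedSectionVars false

variable {V : Type} [Fintype V] [DecidableEq V]

open Classical in
/-- Real value of a proposition. -/
noncomputable def ip (p : Prop) : ℝ := if p then 1 else 0

lemma ip_nonneg (p : Prop) : 0 ≤ ip p := by unfold ip; split_ifs <;> norm_num
lemma ip_le_one (p : Prop) : ip p ≤ 1 := by unfold ip; split_ifs <;> norm_num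
lemma ip_true {p : Prop} (h : p) : ip p = 1 := by simp [ip, h]
lemma ip_false {p : Prop} (h : ¬ p) : ip p = 0 := by simp [ip, h]

lemma ip_mono {p q : Prop} (h : p → q) : ip p ≤ ip q := by
  by_cases hp : p
  · rw [ip_true hp, ip_true (h hp)]
  · rw [ip_false hp]; exact ip_nonneg q

/-- The set of variables switched on during the first `j` rounds. -/
def trail (M : ℕ) {R : ℕ} (ω : Fin R → V → Fin (M + 1)) (j : ℕ) : Finset V :=
  univ.filter (fun v => ∃ i : Fin R, (i : ℕ) < j ∧ ω i v = 0)

lemma mem_trail {M R : ℕ} {ω : Fin R → V → Fin (M + 1)} {j : ℕ} {v : V} :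
    v ∈ trail M ω j ↔ ∃ i : Fin R, (i : ℕ) < j ∧ ω i v = 0 := by
  simp [trail]

lemma trail_zero (M : ℕ) {R : ℕ} (ω : Fin R → V → Fin (M + 1)) : trail M ω 0 = ∅ := by
  ext v; simp [mem_trail]

lemma trail_mono (M : ℕ) {R : ℕ} (ω : Fin R → V → Fin (M + 1)) {i j : ℕ} (h : i ≤ j) :
    trail M ω i ⊆ trail M ω j := by
  intro v hv
  rw [mem_trail] at hv ⊢
  obtain ⟨a, ha, hb⟩ := hv
  exact ⟨a, by omega, hb⟩

lemma trail_cons (M : ℕ) {R : ℕ} (a : V → Fin (M + 1)) (ω : Fin R → V → Fin (M + 1)) (j : ℕ) :
    trail M (Fin.cons a ω : Fin (R + 1) → V → Fin (M + 1)) (j + 1) = zset M a ∪ trail M ω j := by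
  ext v
  rw [mem_union, mem_trail, mem_trail]
  simp only [zset, mem_filter, mem_univ, true_and]
  constructor
  · rintro ⟨i, hi, h⟩
    refine Fin.cases (fun h => ?_) (fun i h => ?_) i (motive := fun i => (i : ℕ) < j + 1 →
      (Fin.cons a ω : Fin (R + 1) → V → Fin (M + 1)) i v = 0 → _) hi h
    · intro h'
      exact Or.inl (by simpa using h')
    · intro h'
      right
      refine ⟨i, ?_, by simpa using h'⟩
      simpa using h
  · rintro (h | ⟨i, hi, h⟩)
    · exact ⟨0, by simp, by simpa using h⟩
    · exact ⟨i.succ, by simpa using hi, by simpa using h⟩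

lemma expect_cons {Ω : Type} [Fintype Ω] (R : ℕ) (f : (Fin (R + 1) → Ω) → ℝ) :
    (𝔼 ω : Fin (R + 1) → Ω, f ω) = 𝔼 a : Ω, 𝔼 ω : Fin R → Ω, f (Fin.cons a ω) := by
  have h1 : ∑ ω : Fin (R + 1) → Ω, f ω = ∑ a : Ω, ∑ ω : Fin R → Ω, f (Fin.cons a ω) := by
    rw [← Fintype.sum_prod_type']
    exact (Fintype.sum_equiv (Fin.consEquiv (fun _ => Ω)) _ _ (fun p => rfl)).symm
  simp only [Fintype.expect_eq_sum_div_card]
  rw [h1, ← Finset.sum_div, div_div]
  congr 1
  rw [Fintype.card_fun, Fintype.card_fun, Fintype.card_fin, Fintype.card_fin, pow_succ]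
  push_cast
  ring

lemma expect_trail (M : ℕ) (j : ℕ) : ∀ (R : ℕ), j ≤ R → ∀ (H : Finset V → ℝ) (x : Finset V),
    (𝔼 ω : Fin R → V → Fin (M + 1), H (x ∪ trail M ω j)) = (nz M ^ j) H x := by
  induction j with
  | zero =>
    intro R _ H x
    simp only [trail_zero, union_empty]
    rw [Fintype.expect_const]
    simp
  | succ j ih =>
    intro R hR H x
    obtain ⟨R', rfl⟩ : ∃ R', R = R' + 1 := ⟨R - 1, by omega⟩
    rw [expect_cons]
    simp only [trail_cons, ← Finset.union_assoc]
    rw [pow_succ']
    simp only [Module.End.mul_apply, nz_apply]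
    refine Finset.expect_congr rfl fun a _ => ?_
    exact ih R' (by omega) H (x ∪ zset M a)

lemma expect_trail2 (M d : ℕ) (j : ℕ) : ∀ (R : ℕ), j + d ≤ R →
    ∀ (G : Finset V → Finset V → ℝ) (x : Finset V),
    (𝔼 ω : Fin R → V → Fin (M + 1), G (x ∪ trail M ω j) (x ∪ trail M ω (j + d)))
      = (nz M ^ j) (fun y => (nz M ^ d) (G y) y) x := by
  induction j with
  | zero =>
    intro R hR G x
    simp only [trail_zero, union_empty, Nat.zero_add, pow_zero, Module.End.one_apply]
    exact expect_trail M d R (by omega) (G x) x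
  | succ j ih =>
    intro R hR G x
    obtain ⟨R', rfl⟩ : ∃ R', R = R' + 1 := ⟨R - 1, by omega⟩
    rw [expect_cons]
    have e : j + 1 + d = (j + d) + 1 := by ring
    rw [e]
    simp only [trail_cons, ← Finset.union_assoc]
    rw [pow_succ']
    simp only [Module.End.mul_apply, nz_apply]
    refine Finset.expect_congr rfl fun a _ => ?_
    exact ih R' (by omega) G (x ∪ zset M a)

/-- The sets of the maximal chain given by an order. -/
def chain (π : V ≃ Fin (Fintype.card V)) (k : ℕ) : Finset V :=
  univ.filter (fun v => (π v : ℕ) < k)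

lemma mem_chain {π : V ≃ Fin (Fintype.card V)} {k : ℕ} {v : V} :
    v ∈ chain π k ↔ (π v : ℕ) < k := by simp [chain]

lemma exists_order (R : ℕ) (X : ℕ → Finset V) (hX : ∀ i j, i ≤ j → X i ⊆ X j) :
    ∃ e : V ≃ Fin (Fintype.card V), ∀ j ≤ R, X j = chain e (X j).card := by
  classical
  let τ : V → ℕ := fun v => ((range (R + 1)).filter (fun j => v ∉ X j)).card
  have hτ : ∀ j ≤ R, ∀ u v, v ∈ X j → τ u ≤ τ v → u ∈ X j := by
    intro j hj u v hv huv
    by_contra hu
    have h1 : (range (R + 1)).filter (fun j => v ∉ X j) ⊂ (range (R + 1)).filter (fun j => u ∉ X j) := by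
      refine ⟨?_, ?_⟩
      · intro i hi
        rw [mem_filter] at hi ⊢
        refine ⟨hi.1, fun h => ?_⟩
        have : i < j := by
          by_contra hij
          exact hi.2 (hX j i (by omega) hv)
        exact hu (hX i j this.le h)
      · intro h
        have h2 : j ∈ (range (R + 1)).filter (fun j => u ∉ X j) := by
          rw [mem_filter, mem_range]
          exact ⟨by omega, hu⟩
        have h3 := h h2
        rw [mem_filter] at h3
        exact h3.2 hv
    have := card_lt_card h1
    simp only [τ] at huv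
    omega
  let e0 := Fintype.equivFin V
  let f : Fin (Fintype.card V) → ℕ := τ ∘ e0.symm
  let σ : Equiv.Perm (Fin (Fintype.card V)) := Tuple.sort f
  have hσ : Monotone (f ∘ σ) := Tuple.monotone_sort f
  refine ⟨e0.trans σ.symm, ?_⟩
  intro j hj
  set e := e0.trans σ.symm with he
  have hmono : ∀ k k', k' ≤ k → τ (e.symm k') ≤ τ (e.symm k) := by
    intro k k' hk
    exact hσ hk
  let A : Finset (Fin (Fintype.card V)) := univ.filter (fun k => e.symm k ∈ X j)
  have hA : ∀ k, k ∈ A ↔ e.symm k ∈ X j := by intro k; simp [A]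
  have hAc : A.card = (X j).card := by
    have : A = (X j).map e.toEmbedding := by
      ext k
      rw [hA, mem_map]
      constructor
      · intro h
        exact ⟨e.symm k, h, by simp⟩
      · rintro ⟨v, hv, rfl⟩
        simpa using hv
    rw [this, card_map]
  have hlow : ∀ k ∈ A, ∀ k' ≤ k, k' ∈ A := by
    intro k hk k' hkk
    rw [hA] at hk ⊢
    exact hτ j hj _ _ hk (hmono k k' hkk)
  have hchar : ∀ k, k ∈ A ↔ (k : ℕ) < A.card := by
    intro k
    constructor
    · intro hk
      have h1 : Finset.Iic k ⊆ A := fun k' hk' => hlow k hk k' (Finset.mem_Iic.mp hk')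
      have h2 := card_le_card h1
      rw [Fin.card_Iic] at h2
      omega
    · intro hk
      by_contra hkA
      have h1 : A ⊆ Finset.Iio k := by
        intro a ha
        rw [Finset.mem_Iio]
        by_contra hak
        exact hkA (hlow a ha k (not_lt.mp hak))
      have h2 := card_le_card h1
      rw [Fin.card_Iio] at h2
      omega
  ext v
  rw [mem_chain, ← hAc, ← hchar, hA]
  simp

lemma count_changes {σ : Type} (s : ℕ → σ) (c : ℕ → ℕ) (hc : ∀ i, c i ≤ c (i + 1)) (r : ℕ) :
    ∑ i ∈ range r, ip (s (c i) ≠ s (c (i + 1))) ≤ ∑ k ∈ range (c r), ip (s k ≠ s (k + 1)) := by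
  induction r with
  | zero =>
    simp only [range_zero, sum_empty]
    exact Finset.sum_nonneg fun k _ => ip_nonneg _
  | succ r ih =>
    rw [Finset.sum_range_succ]
    obtain ⟨d, hd⟩ := Nat.exists_eq_add_of_le (hc r)
    have h1 : ∀ d, ip (s (c r) ≠ s (c r + d)) ≤ ∑ k ∈ range d, ip (s (c r + k) ≠ s (c r + k + 1)) := by
      intro d
      induction d with
      | zero => simp [ip]
      | succ d ihd =>
        rw [Finset.sum_range_succ]
        by_cases h : s (c r) = s (c r + d)
        · have : ip (s (c r) ≠ s (c r + (d + 1))) ≤ ip (s (c r + d) ≠ s (c r + d + 1)) := by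
            apply ip_mono
            intro h1 h2
            exact h1 (by rw [h, h2]; rfl)
          have h3 : 0 ≤ ∑ k ∈ range d, ip (s (c r + k) ≠ s (c r + k + 1)) :=
            Finset.sum_nonneg fun k _ => ip_nonneg _
          linarith
        · rw [ip_true h] at ihd
          linarith [ip_le_one (s (c r) ≠ s (c r + (d + 1))),
            ip_nonneg (s (c r + d) ≠ s (c r + d + 1))]
    have h2 := h1 d
    rw [← hd] at h2
    have h3 : ∑ k ∈ range (c (r + 1)), ip (s k ≠ s (k + 1))
        = ∑ k ∈ range (c r), ip (s k ≠ s (k + 1))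
          + ∑ k ∈ range d, ip (s (c r + k) ≠ s (c r + k + 1)) := by
      rw [hd, Finset.sum_range_add]
    linarith

/-- The average number of changes of `st` along a random maximal chain. -/
noncomputable def avgCh {σ : Type} (st : Finset V → σ) : ℝ :=
  𝔼 π : V ≃ Fin (Fintype.card V), ∑ k ∈ range (Fintype.card V),
    ip (st (chain π k) ≠ st (chain π (k + 1)))

lemma avgCh_nonneg {σ : Type} (st : Finset V → σ) : 0 ≤ avgCh st :=
  Finset.expect_nonneg fun _ _ => Finset.sum_nonneg fun _ _ => ip_nonneg _

/-- Changes along the noise process are at most the changes along a random maximal chain. -/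
theorem walk_le {σ : Type} (st : Finset V → σ) (M D r : ℕ) :
    ∑ i ∈ range r, (nz M ^ (D * i)) (fun x => (nz M ^ D) (fun z => ip (st x ≠ st z)) x) ∅
      ≤ avgCh st := by
  classical
  set R := D * r with hR
  set n := Fintype.card V with hn
  -- the process
  have h1 : ∀ i ∈ range r,
      (nz M ^ (D * i)) (fun x => (nz M ^ D) (fun z => ip (st x ≠ st z)) x) ∅
      = 𝔼 ω : Fin R → V → Fin (M + 1),
          ip (st (trail M ω (D * i)) ≠ st (trail M ω (D * (i + 1)))) := by
    intro i hi
    rw [mem_range] at hi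
    have hle : D * i + D ≤ R := by
      rw [hR]
      calc D * i + D = D * (i + 1) := by ring
        _ ≤ D * r := Nat.mul_le_mul_left D hi
    have h2 := expect_trail2 M D (D * i) R hle (fun x z => ip (st x ≠ st z)) (∅ : Finset V)
    simp only [empty_union] at h2
    rw [← h2]
    rfl
  rw [Finset.sum_congr rfl h1, ← Finset.expect_sum_comm]
  -- the functional
  set Φ : (ℕ → Finset V) → ℝ :=
    fun X => ∑ i ∈ range r, ip (st (X (D * i)) ≠ st (X (D * (i + 1)))) with hΦ
  -- symmetrisation
  have hsym : ∀ ρ : Equiv.Perm V, (𝔼 ω : Fin R → V → Fin (M + 1), Φ (trail M ω))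
      = 𝔼 ω : Fin R → V → Fin (M + 1), Φ (fun j => (trail M ω j).map ρ.toEmbedding) := by
    intro ρ
    let E : (Fin R → V → Fin (M + 1)) ≃ (Fin R → V → Fin (M + 1)) :=
      Equiv.piCongrRight fun _ => Equiv.arrowCongr ρ (Equiv.refl _)
    have htr : ∀ (ω : Fin R → V → Fin (M + 1)) (j : ℕ),
        (trail M ω j).map ρ.toEmbedding = trail M (E ω) j := by
      intro ω j
      ext v
      rw [mem_map, mem_trail]
      simp only [Equiv.coe_toEmbedding, E, Equiv.piCongrRight_apply, Pi.map_apply,
        Equiv.arrowCongr_apply, Equiv.coe_refl, Function.comp_apply, id]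
      constructor
      · rintro ⟨u, hu, rfl⟩
        rw [mem_trail] at hu
        obtain ⟨i, hi, h⟩ := hu
        exact ⟨i, hi, by simpa using h⟩
      · rintro ⟨i, hi, h⟩
        exact ⟨ρ.symm v, mem_trail.mpr ⟨i, hi, h⟩, by simp⟩
    refine (Fintype.expect_equiv E _ _ ?_).symm
    intro ω
    have hfun : (fun j => (trail M ω j).map ρ.toEmbedding) = fun j => trail M (E ω) j := by
      funext j
      exact htr ω j
    rw [hfun]
  have hmain : (𝔼 ω : Fin R → V → Fin (M + 1), Φ (trail M ω))
      = 𝔼 ω : Fin R → V → Fin (M + 1), 𝔼 ρ : Equiv.Perm V,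
          Φ (fun j => (trail M ω j).map ρ.toEmbedding) := by
    rw [Finset.expect_comm]
    rw [← Fintype.expect_const (ι := Equiv.Perm V) (𝔼 ω : Fin R → V → Fin (M + 1), Φ (trail M ω))]
    exact Finset.expect_congr rfl fun ρ _ => hsym ρ
  have hgoal : (𝔼 ω : Fin R → V → Fin (M + 1), ∑ i ∈ range r,
      ip (st (trail M ω (D * i)) ≠ st (trail M ω (D * (i + 1)))))
      = 𝔼 ω : Fin R → V → Fin (M + 1), Φ (trail M ω) := rfl
  rw [hgoal, hmain]
  refine Finset.expect_le univ_nonempty fun ω _ => ?_
  obtain ⟨e, he⟩ := exists_order (V := V) R (trail M ω) (fun i j hij => trail_mono M ω hij)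
  -- change of variables
  let Q : Equiv.Perm V ≃ (V ≃ Fin (Fintype.card V)) :=
    { toFun := fun ρ => ρ.symm.trans e
      invFun := fun π => (π.trans e.symm).symm
      left_inv := by
        intro ρ
        ext v
        simp
      right_inv := by
        intro π
        ext v
        simp }
  have hQ : (𝔼 ρ : Equiv.Perm V, Φ (fun j => (trail M ω j).map ρ.toEmbedding))
      = 𝔼 π : V ≃ Fin (Fintype.card V), Φ (fun j => chain π (trail M ω (min j R)).card) := by
    refine Fintype.expect_equiv Q _ _ ?_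
    intro ρ
    simp only [hΦ]
    refine Finset.sum_congr rfl fun i hi => ?_
    rw [mem_range] at hi
    have hset : ∀ j ≤ R, (trail M ω j).map ρ.toEmbedding
        = chain (Q ρ) (trail M ω (min j R)).card := by
      intro j hj
      rw [min_eq_left hj]
      ext v
      rw [mem_map, mem_chain]
      have h3 : (Q ρ) v = e (ρ.symm v) := rfl
      rw [h3, ← mem_chain (π := e), ← he j hj]
      constructor
      · rintro ⟨u, hu, rfl⟩
        simpa using hu
      · intro h
        exact ⟨ρ.symm v, h, by simp⟩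
    have hle1 : D * i ≤ R := by rw [hR]; exact Nat.mul_le_mul_left D hi.le
    have hle2 : D * (i + 1) ≤ R := by rw [hR]; exact Nat.mul_le_mul_left D hi
    rw [hset _ hle1, hset _ hle2]
  rw [hQ]
  unfold avgCh
  refine Finset.expect_le_expect fun π _ => ?_
  simp only [hΦ]
  refine (count_changes (fun k => st (chain π k)) (fun i => (trail M ω (min (D * i) R)).card)
    (fun i => ?_) r).trans ?_
  · apply card_le_card
    apply trail_mono
    have : D * i ≤ D * (i + 1) := Nat.mul_le_mul_left D (by omega)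
    omega
  · apply Finset.sum_le_sum_of_subset_of_nonneg
    · intro k hk
      rw [mem_range] at hk ⊢
      exact lt_of_lt_of_le hk (card_le_univ _)
    · intro k _ _
      exact ip_nonneg _

end Pool.Agent.NegLim
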