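import Pool.Agent.NegLim.Defs

/-!
# The number of flips of the NOT gates of a circuit: definitions
-/

namespace Pool.Agent.NegLim

open Finset
open scoped BigOperators

/-- The list of the values of the NOT gates of the circuit `C` at the input `x`. -/
def Circuit.notVals {V : Type} (C : Circuit V) (x : V → Bool) : List Bool :=
  ((List.zip C (gateVals x C [])).filter (fun p => p.1.isNot)).map Prod.snd

/-- Along every increasing sequence of inputs the list of the values of the NOT gates changes at
most `a` times. -/
def Circuit.FlipsAtMost {V : Type} (C : Circuit V) (a : ℕ) : Prop :=
  ∀ x : ℕ → V → Bool, Monotone x → ∀ n : ℕ,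
    ((range n).filter (fun k => C.notVals (x k) ≠ C.notVals (x (k + 1)))).card ≤ a

/-- The input in which the first `k` variables in the order `π` are true, the others false. -/
def stage {V : Type} [Fintype V] (π : V ≃ Fin (Fintype.card V)) (k : ℕ) : V → Bool :=
  fun v => decide ((π v : ℕ) < k)

/-- The average number of flips of the NOT gates: the variables are switched on one at a time in
a random order `π`, and the number of steps at which the list of the values of the NOT gates
changes is counted; the result is the average over all orders. -/
noncomputable def Circuit.flips {V : Type} [Fintype V] [DecidableEq V] (C : Circuit V) : ℝ :=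
  𝔼 π : V ≃ Fin (Fintype.card V),
    (((range (Fintype.card V)).filter
      (fun k => C.notVals (stage π k) ≠ C.notVals (stage π (k + 1)))).card : ℝ)

end Pool.Agent.NegLim
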