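import Pool.Agent.NegLim.Code

/-!
# The clique function, and a projection of the code function to it
-/

namespace Pool.Agent.NegLim

open Finset
open scoped BigOperators

set_option linter.unusedSectionVars false

/-! ### Padding -/

section padding

variable {Vt W Gp : Type} [Fintype Vt] [DecidableEq Vt] [Fintype Gp] [DecidableEq Gp]
  (adj : Vt → Vt → Lit W) (gp : Vt → Gp)

/-- Adjacency of the padded graph: `inr true` is a universal vertex, `inr false` an isolated one. -/
def padAdj : Vt ⊕ Bool → Vt ⊕ Bool → Lit W
  | .inl v, .inl v' => adj v v'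
  | .inl _, .inr b => .const b
  | .inr b, .inl _ => .const b
  | .inr b, .inr b' => .const (b && b')

/-- The type of a vertex of the padded graph. -/
noncomputable def vtype (Vt : Type) [Fintype Vt] (U : ℕ) {m : ℕ} (p : Fin m) : Vt ⊕ Bool :=
  if h : (p : ℕ) < Fintype.card Vt then .inl ((Fintype.equivFin Vt).symm ⟨p, h⟩)
  else .inr (decide ((p : ℕ) < Fintype.card Vt + U))

/-- The substitution. -/
noncomputable def padSub (U m : ℕ) (e : Edge m) : Lit W :=
  padAdj adj (vtype Vt U e.val.1) (vtype Vt U e.val.2)

theorem clique_pad (m : ℕ) (hm : Fintype.card Vt + (m / 2 - Fintype.card Gp) ≤ m)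
    (hG : Fintype.card Gp ≤ m / 2) (hG2 : 2 ≤ m / 2)
    (hsym : ∀ v v', adj v v' = adj v' v)
    (hgp : ∀ v v', v ≠ v' → gp v = gp v' → adj v v' = .const false) (x : W → Bool) :
    HasClique (m / 2) (fun e : Edge m => (padSub adj (m / 2 - Fintype.card Gp) m e).val x) ↔
      ∃ S : Finset Vt, S.card = Fintype.card Gp ∧
        ∀ v ∈ S, ∀ v' ∈ S, v ≠ v' → (adj v v').val x = true := by
  classical
  set n := Fintype.card Vt with hn
  set U := m / 2 - Fintype.card Gp with hU
  have hnm : n ≤ m := by omega
  let ι : Vt → Fin m := fun v => Fin.castLE hnm (Fintype.equivFin Vt v)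
  have hι : Function.Injective ι := by
    intro a b hab
    have := Fin.castLE_injective hnm hab
    exact (Fintype.equivFin Vt).injective this
  have hιlt : ∀ v, (ι v : ℕ) < n := fun v => (Fintype.equivFin Vt v).isLt
  have htι : ∀ v, vtype Vt U (ι v) = .inl v := by
    intro v
    unfold vtype
    rw [dif_pos (hιlt v)]
    congr 1
    rw [Equiv.symm_apply_eq]
    rfl
  have hsurj : ∀ p : Fin m, (p : ℕ) < n → ∃ v, ι v = p := by
    intro p hp
    refine ⟨(Fintype.equivFin Vt).symm ⟨p, hp⟩, ?_⟩
    simp [ι]
  have htU : ∀ p : Fin m, ¬ (p : ℕ) < n → vtype Vt U p = .inr (decide ((p : ℕ) < n + U)) := by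
    intro p hp
    unfold vtype
    rw [dif_neg hp]
  constructor
  · rintro ⟨S, hS, hcl⟩
    -- no isolated vertices
    have hadj : ∀ p ∈ S, ∀ p' ∈ S, p ≠ p' →
        (padAdj adj (vtype Vt U p) (vtype Vt U p')).val x = true := by
      intro p hp p' hp' hne
      rcases lt_or_gt_of_ne hne with h | h
      · exact hcl p hp p' hp' h
      · have h1 := hcl p' hp' p hp h
        have h2 : padAdj adj (vtype Vt U p') (vtype Vt U p)
            = padAdj adj (vtype Vt U p) (vtype Vt U p') := by
          generalize vtype Vt U p' = a
          generalize vtype Vt U p = b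
          rcases a with a | a <;> rcases b with b | b
          · exact hsym a b
          · rfl
          · rfl
          · simp [padAdj, Bool.and_comm]
        rw [← h2]
        exact h1
    have hiso : ∀ p ∈ S, (p : ℕ) < n + U := by
      intro p hp
      by_contra hcon
      have h1 : 1 < S.card := by omega
      obtain ⟨p', hp', hne⟩ := Finset.exists_mem_ne h1 p
      have h2 := hadj p hp p' hp' hne.symm
      have h3 : vtype Vt U p = .inr false := by
        rw [htU p (by omega)]
        simp [hcon]
      rw [h3] at h2
      generalize vtype Vt U p' = a at h2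
      rcases a with a | a <;> simp [padAdj, Lit.val] at h2
    let S' : Finset Vt := univ.filter (fun v => ι v ∈ S)
    have hS'adj : ∀ v ∈ S', ∀ v' ∈ S', v ≠ v' → (adj v v').val x = true := by
      intro v hv v' hv' hne
      have h1 : ι v ∈ S := by simpa [S'] using hv
      have h2 : ι v' ∈ S := by simpa [S'] using hv'
      have h3 := hadj _ h1 _ h2 (fun h => hne (hι h))
      rw [htι, htι] at h3
      exact h3
    have hub : S'.card ≤ Fintype.card Gp := by
      rw [← Finset.card_univ]
      apply Finset.card_le_card_of_injOn gp (fun _ _ => mem_univ _)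
      intro v hv v' hv' hg
      by_contra hne
      have h1 := hS'adj v hv v' hv' hne
      rw [hgp v v' hne hg] at h1
      exact absurd h1 (by simp [Lit.val])
    have hlb : S.card ≤ S'.card + U := by
      have h1 : S ⊆ S'.image ι ∪ (univ.filter (fun p : Fin m => n ≤ (p : ℕ) ∧ (p : ℕ) < n + U)) := by
        intro p hp
        rw [mem_union]
        by_cases hpn : (p : ℕ) < n
        · left
          obtain ⟨v, hv⟩ := hsurj p hpn
          rw [mem_image]
          exact ⟨v, by simp [S', hv, hp], hv⟩
        · right
          simp only [mem_filter, mem_univ, true_and]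
          exact ⟨by omega, hiso p hp⟩
      have h2 : (univ.filter (fun p : Fin m => n ≤ (p : ℕ) ∧ (p : ℕ) < n + U)).card ≤ U := by
        have h3 : (univ.filter (fun p : Fin m => n ≤ (p : ℕ) ∧ (p : ℕ) < n + U)).card
            ≤ (Finset.range U).card := by
          apply Finset.card_le_card_of_injOn (fun p : Fin m => (p : ℕ) - n)
          · intro p hp
            simp only [coe_filter, mem_univ, true_and, Set.mem_ofPred_eq] at hp
            simp only [coe_range, Set.mem_Iio]
            omega
          · intro p hp p' hp' hpp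
            simp only [coe_filter, mem_univ, true_and, Set.mem_ofPred_eq] at hp hp'
            simp only at hpp
            apply Fin.ext
            omega
        rwa [card_range] at h3
      calc S.card ≤ _ := card_le_card h1
        _ ≤ (S'.image ι).card + _ := card_union_le _ _
        _ ≤ S'.card + U := Nat.add_le_add card_image_le h2
    exact ⟨S', by omega, hS'adj⟩
  · rintro ⟨S', hS', hcl⟩
    let R : Finset (Fin m) := univ.filter (fun p : Fin m => n ≤ (p : ℕ) ∧ (p : ℕ) < n + U)
    have hRmem : ∀ p, p ∈ R ↔ n ≤ (p : ℕ) ∧ (p : ℕ) < n + U := by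
      intro p; simp [R]
    have hR : R.card = U := by
      have h1 : R = (Finset.range U).attach.image (fun t => (⟨n + t.val, by
          have := Finset.mem_range.mp t.property; omega⟩ : Fin m)) := by
        ext p
        rw [hRmem, mem_image]
        constructor
        · rintro ⟨h1, h2⟩
          refine ⟨⟨(p : ℕ) - n, by rw [Finset.mem_range]; omega⟩, mem_attach _ _, ?_⟩
          apply Fin.ext
          simp only
          omega
        · rintro ⟨t, _, rfl⟩
          have := Finset.mem_range.mp t.property
          simp only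
          omega
      rw [h1, card_image_of_injective, card_attach, card_range]
      intro a b hab
      have := Fin.ext_iff.mp hab
      simp only at this
      exact Subtype.ext (by omega)
    have hdisj : Disjoint (S'.image ι) R := by
      rw [Finset.disjoint_left]
      intro p hp hpR
      rw [mem_image] at hp
      obtain ⟨v, _, rfl⟩ := hp
      have h1 := hιlt v
      have h2 := (hRmem _).mp hpR
      omega
    refine ⟨S'.image ι ∪ R, ?_, ?_⟩
    · rw [card_union_of_disjoint hdisj, card_image_of_injective _ hι, hR, hS']
      omega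
    · intro i hi j hj hij
      show (padAdj adj (vtype Vt U i) (vtype Vt U j)).val x = true
      have htyp : ∀ p ∈ S'.image ι ∪ R, (∃ v ∈ S', ι v = p ∧ vtype Vt U p = .inl v) ∨
          vtype Vt U p = .inr true := by
        intro p hp
        rcases mem_union.mp hp with h | h
        · rw [mem_image] at h
          obtain ⟨v, hv, rfl⟩ := h
          exact Or.inl ⟨v, hv, rfl, htι v⟩
        · right
          have h2 := (hRmem p).mp h
          rw [htU p (by omega)]
          simp [h2.2]
      rcases htyp i hi with ⟨v, hv, hvi, h1⟩ | h1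
      · rcases htyp j hj with ⟨v', hv', hvj, h2⟩ | h2
        · rw [h1, h2]
          apply hcl v hv v' hv'
          rintro rfl
          rw [← hvi, ← hvj] at hij
          exact lt_irrefl _ hij
        · rw [h1, h2]; rfl
      · rcases htyp j hj with ⟨v', hv', hvj, h2⟩ | h2
        · rw [h1, h2]; rfl
        · rw [h1, h2]; rfl

end padding

/-! ### The graph of the code function -/

section codegraph

variable {N h μ : ℕ} (lam : Fin N → (Bool × Fin h) → ℕ → Bool)

/-- Vertices: half symbols, and (partial sum, message bit) pairs. -/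
abbrev CV (N h μ : ℕ) : Type :=
  (Fin N × Bool × (Fin h → Bool)) ⊕ ((Fin N × (Bool × Fin h) × Fin μ) × (Bool × Bool))

/-- Groups of vertices. -/
abbrev CG (N h μ : ℕ) : Type := (Fin N × Bool) ⊕ (Fin N × (Bool × Fin h) × Fin μ)

/-- The group of a vertex. -/
def cgp : CV N h μ → CG N h μ
  | .inl (i, s, _) => .inl (i, s)
  | .inr (t, _) => .inr t

/-- The vertex chosen in each group by the message `u`. -/
def chv (u : Fin μ → Bool) : CG N h μ → CV N h μ
  | .inl (i, s) => .inl (i, s, fun k => sym lam u i (s, k))
  | .inr (i, β, j) => .inr ((i, β, j), (psum (fun t => lam i β t && ext0 u t) (j : ℕ), u j))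

lemma cgp_chv (u : Fin μ → Bool) (g : CG N h μ) : cgp (chv lam u g) = g := by
  rcases g with ⟨i, s⟩ | ⟨i, β, j⟩ <;> rfl

/-- Joining two half symbols. -/
def joinS (s : Bool) (b b' : Fin h → Bool) : Bool × Fin h → Bool :=
  fun β => if β.1 = s then b β.2 else b' β.2

lemma joinS_comm {s s' : Bool} (hs : s ≠ s') (b b' : Fin h → Bool) :
    joinS s b b' = joinS s' b' b := by
  funext β
  obtain ⟨c, k⟩ := β
  unfold joinS
  cases c <;> cases s <;> cases s' <;> simp_all

open Classical in
/-- Compatibility of two vertices: some message chooses both. -/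
noncomputable def cmpb (v v' : CV N h μ) : Bool :=
  decide (∃ u : Fin μ → Bool, chv lam u (cgp v) = v ∧ chv lam u (cgp v') = v')

lemma cmpb_iff {v v' : CV N h μ} : cmpb lam v v' = true ↔
    ∃ u : Fin μ → Bool, chv lam u (cgp v) = v ∧ chv lam u (cgp v') = v' := by
  simp [cmpb]

lemma cmpb_symm (v v' : CV N h μ) : cmpb lam v v' = cmpb lam v' v := by
  rw [Bool.eq_iff_iff, cmpb_iff, cmpb_iff]
  exact exists_congr fun u => and_comm

/-- Adjacency. -/
noncomputable def cadj (v v' : CV N h μ) : Lit (Fin N × (Bool × Fin h → Bool)) :=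
  if cgp v = cgp v' then .const false
  else match v, v' with
    | .inl (i, s, b), .inl (i', _, b') => if i = i' then .var (i, joinS s b b') else .const true
    | .inl a, .inr a' => .const (cmpb lam (.inl a) (.inr a'))
    | .inr a, .inl a' => .const (cmpb lam (.inr a) (.inl a'))
    | .inr a, .inr a' => .const (cmpb lam (.inr a) (.inr a'))

lemma cadj_symm (v v' : CV N h μ) : cadj lam v v' = cadj lam v' v := by
  unfold cadj
  by_cases hg : cgp v = cgp v'
  · rw [if_pos hg, if_pos hg.symm]
  · rw [if_neg hg, if_neg (fun h => hg h.symm)]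
    rcases v with ⟨i, s, b⟩ | a <;> rcases v' with ⟨i', s', b'⟩ | a'
    · simp only
      by_cases hi : i = i'
      · subst hi
        rw [if_pos rfl, if_pos rfl]
        have hs : s ≠ s' := by
          rintro rfl
          exact hg rfl
        rw [joinS_comm hs]
      · rw [if_neg hi, if_neg (fun h => hi h.symm)]
    · simp only; rw [cmpb_symm]
    · simp only; rw [cmpb_symm]
    · simp only; rw [cmpb_symm]

lemma cadj_group (v v' : CV N h μ) (hg : cgp v = cgp v') : cadj lam v v' = .const false := by
  unfold cadj
  rw [if_pos hg]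

/-- Correctness of the reduction. -/
theorem clique_code (hN : 1 ≤ N) (hh : 1 ≤ h) (hμ : 1 ≤ μ)
    (x : Fin N × (Bool × Fin h → Bool) → Bool) :
    (∃ S : Finset (CV N h μ), S.card = Fintype.card (CG N h μ) ∧
        ∀ v ∈ S, ∀ v' ∈ S, v ≠ v' → (cadj lam v v').val x = true) ↔
      ∃ u : Fin μ → Bool, ∀ v ∈ codeSet lam u, x v = true := by
  classical
  constructor
  · rintro ⟨S, hS, hcl⟩
    have hinj : Set.InjOn cgp (S : Set (CV N h μ)) := by
      intro v hv v' hv' hg
      by_contra hne
      have h1 := hcl v hv v' hv' hne
      rw [cadj_group lam v v' hg] at h1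
      exact absurd h1 (by simp [Lit.val])
    have himg : S.image cgp = univ := by
      apply Finset.eq_univ_of_card
      rw [card_image_of_injOn hinj, hS]
    have hex : ∀ g : CG N h μ, ∃ v ∈ S, cgp v = g := by
      intro g
      have : g ∈ S.image cgp := by rw [himg]; exact mem_univ g
      exact mem_image.mp this
    -- pairwise compatibility of vertices of which one is auxiliary
    have hcomp : ∀ v ∈ S, ∀ a, (Sum.inr a : CV N h μ) ∈ S → v ≠ Sum.inr a →
        ∃ u : Fin μ → Bool, chv lam u (cgp v) = v ∧
          chv lam u (cgp (Sum.inr a : CV N h μ)) = Sum.inr a := by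
      intro v hv a ha hne
      have h1 := hcl v hv _ ha hne
      unfold cadj at h1
      split_ifs at h1 with hg
      · exact absurd h1 (by simp [Lit.val])
      · rcases v with b | b
        · exact (cmpb_iff lam).mp h1
        · exact (cmpb_iff lam).mp h1
    choose v hvS hvg using hex
    -- components
    have hA : ∀ i s, ∃ b, v (.inl (i, s)) = .inl (i, s, b) := by
      intro i s
      have h1 := hvg (.inl (i, s))
      rcases hv : v (.inl (i, s)) with ⟨i', s', b⟩ | a
      · rw [hv] at h1
        simp only [cgp, Sum.inl.injEq, Prod.mk.injEq] at h1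
        exact ⟨b, by rw [h1.1, h1.2]⟩
      · rw [hv] at h1
        simp [cgp] at h1
    have hB : ∀ t, ∃ sc, v (.inr t) = .inr (t, sc) := by
      intro t
      have h1 := hvg (.inr t)
      rcases hv : v (.inr t) with a | ⟨t', sc⟩
      · rw [hv] at h1
        simp [cgp] at h1
      · rw [hv] at h1
        simp only [cgp, Sum.inr.injEq] at h1
        exact ⟨sc, by rw [h1]⟩
    choose B hB' using hA
    choose sc hsc using hB
    have hneg : ∀ {g g' : CG N h μ}, g ≠ g' → v g ≠ v g' := by
      intro g g' hgg hvv
      apply hgg
      rw [← hvg g, ← hvg g', hvv]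
    let i0 : Fin N := ⟨0, hN⟩
    let β0 : Bool × Fin h := (false, ⟨0, hh⟩)
    let u : Fin μ → Bool := fun j => (sc (i0, β0, j)).2
    have hc : ∀ i β j, (sc (i, β, j)).2 = u j := by
      intro i β j
      by_cases hEq : (i, β, j) = (i0, β0, j)
      · rw [hEq]
      · have hne : v (.inr (i, β, j)) ≠ v (.inr (i0, β0, j)) := by
          apply hneg
          intro h'
          exact hEq (Sum.inr.inj h')
        have h1 := hvS (.inr (i, β, j))
        have h2 := hvS (.inr (i0, β0, j))
        rw [hsc] at h1 h2 hne
        rw [hsc] at hne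
        obtain ⟨u', hu1, hu2⟩ := hcomp _ h1 _ h2 hne
        simp only [cgp, chv, Sum.inr.injEq, Prod.mk.injEq, true_and] at hu1 hu2
        have e1 := (Prod.ext_iff.mp hu1).2
        have e2 := (Prod.ext_iff.mp hu2).2
        simp only at e1 e2
        show (sc (i, β, j)).2 = (sc (i0, β0, j)).2
        rw [← e1, ← e2]
    -- partial sums
    have hs : ∀ (i : Fin N) (β : Bool × Fin h) (t : ℕ) (ht : t < μ),
        (sc (i, β, ⟨t, ht⟩)).1 = psum (fun t => lam i β t && ext0 u t) t := by
      intro i β t
      induction t with
      | zero =>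
        intro ht
        -- any other vertex gives compatibility
        have hne : v (.inl (i, false)) ≠ v (.inr (i, β, ⟨0, ht⟩)) := by
          apply hneg; simp
        have h1 := hvS (.inl (i, false))
        have h2 := hvS (.inr (i, β, ⟨0, ht⟩))
        rw [hsc] at h2 hne
        obtain ⟨u', _, hu2⟩ := hcomp _ h1 _ h2 hne
        simp only [cgp, chv, Sum.inr.injEq, Prod.mk.injEq, true_and] at hu2
        have e2 := (Prod.ext_iff.mp hu2).1
        simp only at e2
        rw [← e2]
        rfl
      | succ t ih =>
        intro ht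
        have ht' : t < μ := by omega
        have ih' := ih ht'
        have hne : v (.inr (i, β, ⟨t, ht'⟩)) ≠ v (.inr (i, β, ⟨t + 1, ht⟩)) := by
          apply hneg
          intro h'
          have := Sum.inr.inj h'
          simp at this
        have h1 := hvS (.inr (i, β, ⟨t, ht'⟩))
        have h2 := hvS (.inr (i, β, ⟨t + 1, ht⟩))
        rw [hsc] at h1 h2 hne
        rw [hsc] at hne
        obtain ⟨u', hu1, hu2⟩ := hcomp _ h1 _ h2 hne
        simp only [cgp, chv, Sum.inr.injEq, Prod.mk.injEq, true_and] at hu1 hu2
        have e1 := (Prod.ext_iff.mp hu1)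
        have e2 := (Prod.ext_iff.mp hu2).1
        simp only at e1 e2
        rw [← e2, psum, psum, e1.1, ih']
        have h3 : ext0 u' t = ext0 u t := by
          unfold ext0
          rw [dif_pos ht', dif_pos ht', e1.2, hc]
        rw [h3]
    -- symbols
    have hBsym : ∀ i s k, B i s k = sym lam u i (s, k) := by
      intro i s k
      have hμ' : μ - 1 < μ := by omega
      have hne : v (.inl (i, s)) ≠ v (.inr (i, (s, k), ⟨μ - 1, hμ'⟩)) := by
        apply hneg; simp
      have h1 := hvS (.inl (i, s))
      have h2 := hvS (.inr (i, (s, k), ⟨μ - 1, hμ'⟩))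
      rw [hsc] at h2 hne
      rw [hB'] at h1 hne
      obtain ⟨u', hu1, hu2⟩ := hcomp _ h1 _ h2 hne
      simp only [cgp, chv, Sum.inr.injEq, Sum.inl.injEq, Prod.mk.injEq, true_and] at hu1 hu2
      have e1 := congrFun hu1 k
      have e2 := Prod.ext_iff.mp hu2
      simp only at e1 e2
      rw [← e1]
      unfold sym
      obtain ⟨μ', rfl⟩ : ∃ μ', μ = μ' + 1 := ⟨μ - 1, by omega⟩
      have h3 := hs i (s, k) μ' (by omega)
      have h4 : (⟨μ' + 1 - 1, hμ'⟩ : Fin (μ' + 1)) = ⟨μ', by omega⟩ := rfl
      rw [h4] at e2
      simp only [Nat.add_sub_cancel] at e2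
      rw [psum, psum, e2.1, h3]
      have h5 : ext0 u' μ' = ext0 u μ' := by
        unfold ext0
        rw [dif_pos (by omega), dif_pos (by omega), e2.2, hc]
      rw [h5]
    refine ⟨u, ?_⟩
    intro p hp
    have hp' := mem_codeSet.mp hp
    obtain ⟨i, b⟩ := p
    simp only at hp'
    subst hp'
    have hne : v (.inl (i, false)) ≠ v (.inl (i, true)) := by
      apply hneg; simp
    have h1 := hcl _ (hvS (.inl (i, false))) _ (hvS (.inl (i, true))) hne
    rw [hB', hB'] at h1
    unfold cadj at h1
    rw [if_neg (by simp [cgp])] at h1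
    simp only [if_true, Lit.val] at h1
    have h2 : joinS false (B i false) (B i true) = sym lam u i := by
      funext β
      obtain ⟨c, k⟩ := β
      unfold joinS
      cases c
      · simp [hBsym]
      · simp [hBsym]
    rw [h2] at h1
    exact h1
  · rintro ⟨u, hu⟩
    have hinj : Function.Injective (chv (N := N) (h := h) lam u) := by
      intro g g' hgg
      rw [← cgp_chv lam u g, ← cgp_chv lam u g', hgg]
    refine ⟨univ.image (chv lam u), ?_, ?_⟩
    · rw [card_image_of_injective _ hinj, Finset.card_univ]
    · intro v hv v' hv' hne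
      rw [mem_image] at hv hv'
      obtain ⟨g, _, rfl⟩ := hv
      obtain ⟨g', _, rfl⟩ := hv'
      have hgg : g ≠ g' := fun h' => hne (by rw [h'])
      unfold cadj
      rw [if_neg (by rw [cgp_chv, cgp_chv]; exact hgg)]
      rcases g with ⟨i, s⟩ | ⟨i, β, j⟩ <;> rcases g' with ⟨i', s'⟩ | ⟨i', β', j'⟩
      · simp only [chv]
        by_cases hi : i = i'
        · subst hi
          rw [if_pos rfl]
          simp only [Lit.val]
          apply hu
          rw [mem_codeSet]
          funext β
          obtain ⟨c, k⟩ := β
          unfold joinS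
          have hs : s ≠ s' := fun h' => hgg (by rw [h'])
          cases c <;> cases s <;> cases s' <;> simp_all
        · rw [if_neg hi]; rfl
      · exact (cmpb_iff lam).mpr ⟨u, rfl, rfl⟩
      · exact (cmpb_iff lam).mpr ⟨u, rfl, rfl⟩
      · exact (cmpb_iff lam).mpr ⟨u, rfl, rfl⟩

end codegraph

end Pool.Agent.NegLim
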