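import Pool.Agent.NegLim.Avg
import Pool.Agent.NegLim.Clique

/-!
# Average-case lower bound for the clique function
-/

namespace Pool.Agent.NegLim

open Finset
open scoped BigOperators

set_option linter.unusedSectionVars false

section subst2

variable {V W : Type}

lemma notVals_subst (σ : V → Lit W) (x : W → Bool) (C : Circuit V) :
    Circuit.notVals (C.map (Gate.subst σ)) x = Circuit.notVals C (fun v => (σ v).val x) := by
  unfold Circuit.notVals
  rw [gateVals_subst]
  generalize gateVals (fun v => (σ v).val x) C [] = l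
  induction C generalizing l with
  | nil => simp
  | cons a C ih =>
    cases l with
    | nil => simp
    | cons b l =>
      have ha : (Gate.subst σ a).isNot = a.isNot := by cases a <;> rfl
      simp only [List.map_cons, List.zip_cons_cons, List.filter_cons, ha]
      split_ifs
      · simp only [List.map_cons]
        rw [ih]
      · exact ih l

lemma subst_mono (σ : V → Lit W) {x z : W → Bool} (h : x ≤ z) :
    (fun v => (σ v).val x) ≤ fun v => (σ v).val z := by
  intro v
  show (σ v).val x ≤ (σ v).val z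
  cases σ v with
  | var v => exact h v
  | const b => exact le_refl _

lemma flipsAtMost_subst {C : Circuit V} {a : ℕ} (h : C.FlipsAtMost a) (σ : V → Lit W) :
    Circuit.FlipsAtMost (C.map (Gate.subst σ)) a := by
  intro x hx n
  have h1 := h (fun k v => (σ v).val (x k)) (fun i j hij => subst_mono σ (hx hij)) n
  simp only [notVals_subst]
  exact h1

end subst2

/-- Markov's bound. -/
theorem flipsAtMost_negs {V : Type} [Fintype V] (C : Circuit V) :
    C.FlipsAtMost (2 ^ C.negs - 1) := by
  classical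
  intro x hx n
  let X : ℕ → Finset V := fun k => univ.filter (fun v => x k v = true)
  have hX : ∀ k, chi (X k) = x k := by
    intro k
    funext v
    unfold chi
    rw [Bool.eq_iff_iff, decide_eq_true_iff]
    simp [X]
  have h1 := notVals_changes C X (by
    intro k v hv
    simp only [X, mem_filter, mem_univ, true_and] at hv ⊢
    have h2 := hx (Nat.le_succ k) v
    rw [hv] at h2
    exact top_le_iff.mp h2) n
  simp only [hX] at h1
  have h2 : (((range n).filter (fun k => C.notVals (x k) ≠ C.notVals (x (k + 1)))).card : ℝ)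
      = ∑ k ∈ range n, ip (C.notVals (x k) ≠ C.notVals (x (k + 1))) := by
    rw [Finset.card_filter]
    push_cast
    refine Finset.sum_congr rfl fun k _ => ?_
    unfold ip
    split_ifs <;> rfl
  rw [← h2] at h1
  have h3 : ((range n).filter (fun k => C.notVals (x k) ≠ C.notVals (x (k + 1)))).card + 1
      ≤ 2 ^ C.negs := by exact_mod_cast h1
  omega

section push

variable {V E : Type} [Fintype V] [DecidableEq V] [Fintype E] [DecidableEq E]
  {Y : Type} [Fintype Y] [Nonempty Y] (cw : Y → Finset V)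

/-- Push-forward of the random input under a map. -/
noncomputable def pushMu (M D r : ℕ) (S : Finset V → E) (z : E) : ℝ :=
  ∑ x ∈ univ.filter (fun x : Finset V => S x = z), Mu cw M D r (ind {x})

lemma Mu_ind_nonneg (M D r : ℕ) (A : Set (Finset V)) : 0 ≤ Mu cw M D r (ind A) := by
  rcases Nat.eq_zero_or_pos r with h | h
  · subst h; simp [Mu]
  · have := Mu_mono cw M D r (φ := fun _ => 0) (ψ := ind A) (fun x => ind_nonneg A x)
    rwa [Mu_const cw M D r h] at this

lemma pushMu_nonneg (M D r : ℕ) (S : Finset V → E) (z : E) : 0 ≤ pushMu cw M D r S z :=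
  Finset.sum_nonneg fun _ _ => Mu_ind_nonneg cw M D r _

lemma pushMu_sum (M D r : ℕ) (S : Finset V → E) (P : E → Prop) [DecidablePred P] :
    ∑ z ∈ univ.filter P, pushMu cw M D r S z = Mu cw M D r (ind {x | P (S x)}) := by
  have h1 : ∑ z ∈ univ.filter P, pushMu cw M D r S z
      = ∑ z ∈ univ.filter P, ∑ x ∈ (univ.filter (fun x : Finset V => P (S x))).filter
          (fun x => S x = z), Mu cw M D r (ind {x}) := by
    refine Finset.sum_congr rfl fun z hz => ?_
    unfold pushMu
    have hz' := (mem_filter.mp hz).2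
    congr 1
    ext x
    simp only [mem_filter, mem_univ, true_and]
    constructor
    · intro h; exact ⟨by rw [h]; exact hz', h⟩
    · intro h; exact h.2
  rw [h1, Finset.sum_fiberwise_of_maps_to (fun x hx => by
    rw [mem_filter] at hx ⊢
    exact ⟨mem_univ _, hx.2⟩)]
  rw [← Mu_points cw M D r (ind {x | P (S x)}), Finset.sum_filter]
  refine Finset.sum_congr rfl fun x _ => ?_
  by_cases h : P (S x)
  · rw [if_pos h, ind_of_mem (show x ∈ {x | P (S x)} from h), one_mul]
  · rw [if_neg h, ind_of_notMem (show x ∉ {x | P (S x)} from h), zero_mul]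

lemma pushMu_total (M D r : ℕ) (hr : 1 ≤ r) (S : Finset V → E) :
    ∑ z, pushMu cw M D r S z = 1 := by
  classical
  have h1 := pushMu_sum cw M D r S (fun _ => True)
  have h2 : ind {x : Finset V | True} = fun _ => (1 : ℝ) := by
    funext x
    exact ind_of_mem trivial
  rw [h2, Mu_const cw M D r hr] at h1
  rw [← h1]
  simp

end push

open Classical in
/-- Lower bound with parameters. -/
theorem clique_avg_param (m w M L k r N h : ℕ) (hh : 1 ≤ h) (hw : 1 ≤ w) (hN : 2 * w ≤ N)
    (hNq : N ≤ 4 ^ h) (hM : 256 * (M + 1) ≤ 4 ^ h) (hL : 2 * w < 2 ^ L)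
    (hk : (N * 4 ^ h + 1) ^ (2 * w) * 4 ^ w ≤ 4 ^ k) (hr : 2 * (L * k * r) ≤ M + 1)
    (hr1 : 1 ≤ r) (hY : 2 * r * 2 ^ (4 * w * h) ≤ 2 ^ N)
    (hm : N * (2 * 2 ^ h) + N * (2 * h * (4 * w * h)) * 4 ≤ m / 4) (hm2 : 2 ≤ m / 2) :
    ∃ μ : (Edge m → Bool) → ℝ, (∀ x, 0 ≤ μ x) ∧ ∑ x, μ x = 1 ∧
      ∀ (T a : ℕ) (C : Circuit (Edge m)) (out : Fin T → Wire (Edge m))
        (g : (Fin T → Bool) → Bool), C.FlipsAtMost a → 4 * r * (C.size + T) ≤ 4 ^ w →
        ∑ x ∈ univ.filter (fun x => (g (fun i => C.val x (out i)) = true ↔ HasClique (m / 2) x)),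
          μ x ≤ 1 / 2 + (T + 1) * (a + 1) / (2 * r) := by
  obtain ⟨lam, hlam⟩ := exists_code h w N hh hN hNq
  have hcV : Fintype.card (CV N h (4 * w * h)) = N * (2 * 2 ^ h) + N * (2 * h * (4 * w * h)) * 4 := by
    simp [CV, Fintype.card_sum, Fintype.card_prod]
  have hcG : Fintype.card (CG N h (4 * w * h)) = N * 2 + N * (2 * h * (4 * w * h)) := by
    simp [CG, Fintype.card_sum, Fintype.card_prod]
  have hle : Fintype.card (CG N h (4 * w * h)) ≤ m / 4 := by
    rw [hcG]
    have h1 : N * 2 ≤ N * (2 * 2 ^ h) := by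
      apply Nat.mul_le_mul_left
      have : 1 ≤ 2 ^ h := Nat.one_le_two_pow
      omega
    have h2 : N * (2 * h * (4 * w * h)) ≤ N * (2 * h * (4 * w * h)) * 4 := by omega
    omega
  have hμ : 1 ≤ 4 * w * h := Nat.mul_pos (by omega) hh
  set U := m / 2 - Fintype.card (CG N h (4 * w * h)) with hU
  set σ : Edge m → Lit (Fin N × (Bool × Fin h → Bool)) :=
    padSub (cadj (μ := 4 * w * h) lam) U m with hσ
  have hcardV : Fintype.card (Fin N × (Bool × Fin h → Bool)) = N * 4 ^ h := by
    rw [Fintype.card_prod, Fintype.card_fin, Fintype.card_fun, Fintype.card_bool,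
      Fintype.card_prod, Fintype.card_bool, Fintype.card_fin, pow_mul]
    norm_num
  set cw : (Fin (4 * w * h) → Bool) → Finset (Fin N × (Bool × Fin h → Bool)) :=
    fun u => codeSet lam u with hcw
  set S : Finset (Fin N × (Bool × Fin h → Bool)) → (Edge m → Bool) :=
    fun x e => (σ e).val (chi x) with hS
  have hclq : ∀ x, HasClique (m / 2) (S x) ↔ x ∈ upFam cw := by
    intro x
    rw [hS, hσ, clique_pad (cadj (μ := 4 * w * h) lam) cgp m (by
        rw [hcV]; omega) (by omega) hm2 (cadj_symm lam)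
        (fun v v' _ hg => cadj_group lam v v' hg) (chi x),
      clique_code lam (by omega) hh hμ (chi x)]
    unfold upFam
    rw [Set.mem_ofPred_eq]
    refine exists_congr fun u => ?_
    simp [chi, Finset.subset_iff, hcw]
  refine ⟨pushMu cw M (L * k) r S, pushMu_nonneg cw M (L * k) r S,
    pushMu_total cw M (L * k) r hr1 S, ?_⟩
  intro T a C out g hC hsz
  rw [pushMu_sum cw M (L * k) r S]
  have hset : {x | g (fun i => C.val (S x) (out i)) = true ↔ HasClique (m / 2) (S x)}
      = {x | g (fun i => Circuit.val (C.map (Gate.subst σ)) (chi x) ((out i).subst σ)) = true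
          ↔ x ∈ upFam cw} := by
    ext x
    simp only [Set.mem_ofPred_eq, hclq, Circuit.subst_val]
    rfl
  rw [hset]
  have hr0 : (0 : ℝ) < r := by exact_mod_cast hr1
  have hLk : 1 ≤ L * k := by
    rcases Nat.eq_zero_or_pos (L * k) with h0 | h0
    · exfalso
      have h1 : L = 0 ∨ k = 0 := Nat.mul_eq_zero.mp h0
      rcases h1 with h1 | h1
      · rw [h1] at hL; simp at hL; omega
      · rw [h1, pow_zero] at hk
        have h2 : 1 ≤ (N * 4 ^ h + 1) ^ (2 * w) := Nat.one_le_pow _ _ (by omega)
        have h3 : 4 ^ 1 ≤ 4 ^ w := Nat.pow_le_pow_right (by norm_num) hw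
        nlinarith
    · exact h0
  have hfin := correct_prob cw M L k w r ((4 ^ h : ℕ) : ℝ) (by positivity) hLk hw hr1
    (by exact_mod_cast hM) hL hlam
    (by
      rw [hcardV]
      have h1 : (((N * 4 ^ h : ℕ) : ℝ) + 1) ^ (2 * w) * 4 ^ w ≤ 4 ^ k := by exact_mod_cast hk
      have h2 : (1 / 4 : ℝ) ^ k = 1 / 4 ^ k := by rw [one_div, inv_pow, one_div]
      have h3 : (1 / 4 : ℝ) ^ w = 1 / 4 ^ w := by rw [one_div, inv_pow, one_div]
      rw [h2, h3, mul_one_div, div_le_div_iff₀ (by positivity) (by positivity)]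
      linarith)
    ((Fintype.card (Fin (4 * w * h) → Bool) : ℝ) * (1 / 2) ^ N)
    (fun i hi => upFam_prob cw M (L * k * i) N (by
      have : L * k * i ≤ L * k * r := Nat.mul_le_mul_left _ hi.le
      omega) (fun u => (card_codeSet lam u).ge))
    (C.map (Gate.subst σ)) (fun i => (out i).subst σ) g
    (by
      rw [Circuit.subst_size]
      have h1 : (4 : ℝ) * r * ((C.size + T : ℕ) : ℝ) ≤ 4 ^ w := by exact_mod_cast hsz
      have h2 : (r : ℝ) * (((C.size + T : ℕ) : ℝ) * (2 * (1 / 4 : ℝ) ^ w)) ≤ 1 / 2 := by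
        have h3 : (1 / 4 : ℝ) ^ w = 1 / 4 ^ w := by rw [one_div, inv_pow, one_div]
        rw [h3]
        have h4 : (r : ℝ) * (((C.size + T : ℕ) : ℝ) * (2 * (1 / 4 ^ w)))
            = (4 * r * ((C.size + T : ℕ) : ℝ)) / (2 * 4 ^ w) := by
          field_simp
          ring
        rw [h4, div_le_div_iff₀ (by positivity) (by norm_num)]
        linarith
      have h5 : (r : ℝ) * ((Fintype.card (Fin (4 * w * h) → Bool) : ℝ) * (1 / 2) ^ N) ≤ 1 / 2 := by
        rw [Fintype.card_fun, Fintype.card_bool, Fintype.card_fin]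
        have h6 : (2 : ℝ) * r * 2 ^ (4 * w * h) ≤ 2 ^ N := by exact_mod_cast hY
        have h7 : (1 / 2 : ℝ) ^ N = 1 / 2 ^ N := by rw [one_div, inv_pow, one_div]
        push_cast
        rw [h7, mul_one_div, ← mul_div_assoc, div_le_div_iff₀ (by positivity) (by norm_num)]
        linarith
      linarith)
  refine hfin.trans ?_
  have h1 : Circuit.flips (C.map (Gate.subst σ)) ≤ a :=
    flips_le_of_flipsAtMost _ (flipsAtMost_subst hC σ)
  have h2 : ((T : ℝ) + 1) * (Circuit.flips (C.map (Gate.subst σ)) + 1) / (2 * r)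
      ≤ (T + 1) * (a + 1) / (2 * r) := by
    apply div_le_div_of_nonneg_right _ (by positivity)
    apply mul_le_mul_of_nonneg_left _ (by positivity)
    linarith
  linarith

end Pool.Agent.NegLim
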