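import Pool.Agent.NegLim.CliqueAvg
import Pool.Agent.NegLim.ExpTime

/-!
# Average-case hardness of the language
-/

namespace Pool.Agent.NegLim.Lang

open Finset
open scoped BigOperators

set_option linter.unusedSectionVars false

lemma spread_map {V W Y : Type} [Fintype V] [DecidableEq V] [Fintype W] [DecidableEq W]
    [Fintype Y] [Nonempty Y] (cw : Y → Finset V) (pos : V ↪ W) {w : ℕ} {q : ℝ} (hq : 0 < q)
    (h : Spread cw w q) : Spread (fun y => (cw y).map pos) w q := by
  classical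
  intro T hT
  by_cases hr : ∃ T' : Finset V, T'.map pos = T
  · obtain ⟨T', rfl⟩ := hr
    rw [card_map] at hT ⊢
    refine le_trans (le_of_eq ?_) (h T' hT)
    refine Finset.expect_congr rfl fun y _ => ?_
    by_cases hy : T' ⊆ cw y
    · rw [if_pos hy, if_pos (map_subset_map.mpr hy)]
    · rw [if_neg hy, if_neg (fun h' => hy (map_subset_map.mp h'))]
  · have h0 : ∀ y : Y, ¬ T ⊆ (cw y).map pos := by
      intro y hTy
      apply hr
      refine ⟨univ.filter (fun v => pos v ∈ T), ?_⟩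
      ext u
      rw [mem_map]
      constructor
      · rintro ⟨v, hv, rfl⟩
        simpa using hv
      · intro hu
        obtain ⟨v, _, rfl⟩ := mem_map.mp (hTy hu)
        exact ⟨v, by simpa using hu, rfl⟩
    have h1 : (𝔼 y : Y, (if T ⊆ (cw y).map pos then (1 : ℝ) else 0)) = 0 := by
      rw [Finset.expect_congr rfl (fun y _ => if_neg (h0 y))]
      simp
    rw [h1]
    positivity

/-- The position of the variable `(i, b)`. -/
def posE (N q n : ℕ) [NeZero q] (h : N * q ≤ n) : Fin N × ZMod q ↪ Fin n where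
  toFun p := ⟨(p.1 : ℕ) * q + p.2.val, by
    have h1 := p.1.isLt
    have h2 := ZMod.val_lt p.2
    have h3 : ((p.1 : ℕ) + 1) * q ≤ N * q := Nat.mul_le_mul_right q h1
    have h4 : ((p.1 : ℕ) + 1) * q = (p.1 : ℕ) * q + q := by ring
    omega⟩
  inj' := by
    intro p p' hpp
    have h0 := Fin.ext_iff.mp hpp
    simp only at h0
    have h1 := ZMod.val_lt p.2
    have h2 := ZMod.val_lt p'.2
    have hq : 0 < q := Nat.pos_of_ne_zero (NeZero.ne q)
    have h3 : (p.1 : ℕ) = p'.1 := by
      have e1 : ((p.1 : ℕ) * q + p.2.val) / q = p.1 := by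
        rw [mul_comm, Nat.mul_add_div hq, Nat.div_eq_of_lt h1, add_zero]
      have e2 : ((p'.1 : ℕ) * q + p'.2.val) / q = p'.1 := by
        rw [mul_comm, Nat.mul_add_div hq, Nat.div_eq_of_lt h2, add_zero]
      rw [← e1, ← e2, h0]
    have h4 : p.2.val = p'.2.val := by
      rw [h3] at h0
      omega
    exact Prod.ext (Fin.ext h3) (ZMod.val_injective q h4)

/-- The language on words of length `n`, as the family of sets containing a graph. -/
theorem lang_iff (a b d n : ℕ) (q : ℕ) [Fact q.Prime] (hq : q = gp (n / d / rt b (n / d) ^ (a + 1)))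
    (hN : rt b (n / d) ^ (a + 1) * q ≤ n / d)
    (hS : q ^ (2 * rt b (n / d) ^ a + 1) ≤ 2 ^ (n / d)) (x : Fin n → Bool) :
    lang a b d (List.ofFn x) = true ↔
      ∃ c : Fin (2 * rt b (n / d) ^ a) → ZMod q,
        ∀ v ∈ (graph (rt b (n / d) ^ (a + 1)) c).map
          (posE (rt b (n / d) ^ (a + 1)) q n (hN.trans (Nat.div_le_self n d))), x v = true := by
  rw [lang_eq_true_iff]
  unfold PLang
  set y := (List.ofFn x).take ((List.ofFn x).length / d) with hy
  have hylen : y.length = n / d := by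
    rw [hy, List.length_take, List.length_ofFn]
    exact min_eq_left (Nat.div_le_self _ _)
  rw [wlen_pad, hylen, ← hq, acc_iff (by rw [length_pad, hylen]; exact hS.trans (Nat.le_add_right _ _))]
  refine exists_congr fun c => ?_
  have hle := hN.trans (Nat.div_le_self n d)
  constructor
  · intro h v hv
    rw [mem_map] at hv
    obtain ⟨p, hp, rfl⟩ := hv
    have hp2 := mem_graph.mp hp
    have h1 := h (p.1 : ℕ) p.1.isLt
    rw [← hp2, wbit_pad] at h1
    have hlt : (p.1 : ℕ) * q + p.2.val < n / d := by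
      have h1 := p.1.isLt
      have h2 := ZMod.val_lt p.2
      have h3 : ((p.1 : ℕ) + 1) * q ≤ rt b (n / d) ^ (a + 1) * q := Nat.mul_le_mul_right q h1
      have h4 : ((p.1 : ℕ) + 1) * q = (p.1 : ℕ) * q + q := by ring
      omega
    have hltn : (p.1 : ℕ) * q + p.2.val < n := lt_of_lt_of_le hlt (Nat.div_le_self n d)
    rw [hy, List.getD_eq_getElem _ _ (by rw [← hy, hylen]; exact hlt), List.getElem_take,
      List.getElem_ofFn] at h1
    exact h1
  · intro h i hi
    have h1 := h (posE (rt b (n / d) ^ (a + 1)) q n hle (⟨i, hi⟩, pval c i)) (by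
      rw [mem_map]
      exact ⟨(⟨i, hi⟩, pval c i), mem_graph.mpr rfl, rfl⟩)
    rw [wbit_pad]
    have hlt : i * q + (pval c i).val < n / d := by
      have h2 := ZMod.val_lt (pval c i)
      have h3 : (i + 1) * q ≤ rt b (n / d) ^ (a + 1) * q := Nat.mul_le_mul_right q hi
      have h4 : (i + 1) * q = i * q + q := by ring
      omega
    rw [hy, List.getD_eq_getElem _ _ (by rw [← hy, hylen]; exact hlt), List.getElem_take,
      List.getElem_ofFn]
    exact h1

open Classical in
/-- Average-case hardness, with parameters. -/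
theorem lang_avg (a b d n M L k r q : ℕ) (hqp : q.Prime)
    (hq : q = gp (n / d / rt b (n / d) ^ (a + 1)))
    (hN : rt b (n / d) ^ (a + 1) * q ≤ n / d)
    (hS : q ^ (2 * rt b (n / d) ^ a + 1) ≤ 2 ^ (n / d))
    (hw : 1 ≤ rt b (n / d) ^ a) (h2w : 2 * rt b (n / d) ^ a ≤ rt b (n / d) ^ (a + 1))
    (hNq : rt b (n / d) ^ (a + 1) ≤ q) (hM : 256 * (M + 1) ≤ q)
    (hL : 2 * rt b (n / d) ^ a < 2 ^ L)
    (hk : (n + 1) ^ (2 * rt b (n / d) ^ a) * 4 ^ (rt b (n / d) ^ a) ≤ 4 ^ k)
    (hr : 2 * (L * k * r) ≤ M + 1) (hr1 : 1 ≤ r)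
    (hY : 2 * r * q ^ (2 * rt b (n / d) ^ a) ≤ 2 ^ (rt b (n / d) ^ (a + 1))) :
    ∃ μ : (Fin n → Bool) → ℝ, (∀ x, 0 ≤ μ x) ∧ ∑ x, μ x = 1 ∧
      ∀ (T : ℕ) (C : Circuit (Fin n)) (out : Fin T → Wire (Fin n)) (g : (Fin T → Bool) → Bool),
        4 * r * (C.size + T) ≤ 4 ^ (rt b (n / d) ^ a) →
        ∑ x ∈ univ.filter (fun x => g (fun i => C.val x (out i)) = lang a b d (List.ofFn x)), μ x
          ≤ 1 / 2 + (T + 1) * (C.flips + 1) / (2 * r) := by
  have : Fact q.Prime := ⟨hqp⟩
  set R := rt b (n / d) with hR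
  set N := R ^ (a + 1) with hNdef
  set w := R ^ a with hwdef
  have hle : N * q ≤ n := hN.trans (Nat.div_le_self n d)
  set cw : (Fin (2 * w) → ZMod q) → Finset (Fin n) := fun c => (graph N c).map (posE N q n hle)
    with hcw
  have hq0 : (0 : ℝ) < q := by exact_mod_cast hqp.pos
  have hsp : Spread cw w (q : ℝ) := spread_map _ _ hq0 (spread_graph w h2w hNq)
  have hcard : ∀ c, N ≤ (cw c).card := by
    intro c
    rw [hcw]
    simp only [card_map]
    rw [card_graph]
  have hlang : ∀ x : Finset (Fin n), lang a b d (List.ofFn (chi x)) = true ↔ x ∈ upFam cw := by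
    intro x
    rw [lang_iff a b d n q hq hN hS (chi x)]
    unfold upFam
    rw [Set.mem_ofPred_eq]
    refine exists_congr fun c => ?_
    simp only [chi, decide_eq_true_iff, hcw, Finset.subset_iff]
    exact Iff.rfl
  refine ⟨pushMu cw M (L * k) r chi, pushMu_nonneg cw M (L * k) r chi,
    pushMu_total cw M (L * k) r hr1 chi, ?_⟩
  intro T C out g hsz
  rw [pushMu_sum cw M (L * k) r chi]
  have hset : {x | g (fun i => C.val (chi x) (out i)) = lang a b d (List.ofFn (chi x))}
      = {x | g (fun i => C.val (chi x) (out i)) = true ↔ x ∈ upFam cw} := by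
    ext x
    simp only [Set.mem_ofPred_eq]
    rw [← hlang x, Bool.eq_iff_iff]
  rw [hset]
  have hr0 : (0 : ℝ) < r := by exact_mod_cast hr1
  have hLk : 1 ≤ L * k := by
    rcases Nat.eq_zero_or_pos (L * k) with h0 | h0
    · exfalso
      have h1 : L = 0 ∨ k = 0 := Nat.mul_eq_zero.mp h0
      rcases h1 with h1 | h1
      · rw [h1] at hL; simp at hL; omega
      · rw [h1, pow_zero] at hk
        have h2 : 1 ≤ (n + 1) ^ (2 * w) := Nat.one_le_pow _ _ (by omega)
        have h3 : 4 ^ 1 ≤ 4 ^ w := Nat.pow_le_pow_right (by norm_num) hw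
        nlinarith
    · exact h0
  exact correct_prob cw M L k w r (q : ℝ) hq0 hLk hw hr1
    (by exact_mod_cast hM) hL hsp
    (by
      rw [Fintype.card_fin]
      have h1 : ((n : ℝ) + 1) ^ (2 * w) * 4 ^ w ≤ 4 ^ k := by exact_mod_cast hk
      have h2 : (1 / 4 : ℝ) ^ k = 1 / 4 ^ k := by rw [one_div, inv_pow, one_div]
      have h3 : (1 / 4 : ℝ) ^ w = 1 / 4 ^ w := by rw [one_div, inv_pow, one_div]
      rw [h2, h3, mul_one_div, div_le_div_iff₀ (by positivity) (by positivity)]
      linarith)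
    ((Fintype.card (Fin (2 * w) → ZMod q) : ℝ) * (1 / 2) ^ N)
    (fun i hi => upFam_prob cw M (L * k * i) N (by
      have : L * k * i ≤ L * k * r := Nat.mul_le_mul_left _ hi.le
      omega) hcard)
    C out g
    (by
      have h1 : (4 : ℝ) * r * ((C.size + T : ℕ) : ℝ) ≤ 4 ^ w := by exact_mod_cast hsz
      have h2 : (r : ℝ) * (((C.size + T : ℕ) : ℝ) * (2 * (1 / 4 : ℝ) ^ w)) ≤ 1 / 2 := by
        have h3 : (1 / 4 : ℝ) ^ w = 1 / 4 ^ w := by rw [one_div, inv_pow, one_div]
        rw [h3]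
        have h4 : (r : ℝ) * (((C.size + T : ℕ) : ℝ) * (2 * (1 / 4 ^ w)))
            = (4 * r * ((C.size + T : ℕ) : ℝ)) / (2 * 4 ^ w) := by
          field_simp
          ring
        rw [h4, div_le_div_iff₀ (by positivity) (by norm_num)]
        linarith
      have h5 : (r : ℝ) * ((Fintype.card (Fin (2 * w) → ZMod q) : ℝ) * (1 / 2) ^ N) ≤ 1 / 2 := by
        rw [Fintype.card_fun, ZMod.card, Fintype.card_fin]
        have h6 : (2 : ℝ) * r * (q : ℝ) ^ (2 * w) ≤ 2 ^ N := by exact_mod_cast hY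
        have h7 : (1 / 2 : ℝ) ^ N = 1 / 2 ^ N := by rw [one_div, inv_pow, one_div]
        push_cast
        rw [h7, mul_one_div, ← mul_div_assoc, div_le_div_iff₀ (by positivity) (by norm_num)]
        linarith
      linarith)

end Pool.Agent.NegLim.Lang
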