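import Pool.Agent.NegLim.NPLang
import Pool.Agent.NegLim.EHard

/-!
# Meaning of the verifier
-/

namespace Pool.Agent.NegLim.NPL

open Finset Pool.Agent.NegLim.Lang

lemma tval_lt (wb : ℕ → Bool) {q : ℕ} (hq : 0 < q) (t : ℕ) : tval wb q t < q := by
  unfold tval
  exact Nat.mod_lt _ hq

lemma hor_congr (q i : ℕ) (f g : ℕ → ℕ) (c : ℕ) (h : ∀ t < c, f t = g t) :
    ∀ j ≤ c, hor q i f j = hor q i g j := by
  intro j
  induction j with
  | zero => intro _; rfl
  | succ j ih =>
    intro hj
    simp only [hor]
    rw [ih (by omega), h j (by omega)]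

lemma vacc_hor {c N q : ℕ} {xb wb : ℕ → Bool} (h : VAcc c N q xb wb) :
    ∀ i < N, xb (i * q + hor q i (tval wb q) c) = true := by
  intro i hi
  obtain ⟨h0, h1, h2⟩ := h i hi
  have key : ∀ j ≤ c, tval wb q (c + i * (c + 1) + j) = hor q i (tval wb q) j := by
    intro j
    induction j with
    | zero => intro _; rw [add_zero, h0]; rfl
    | succ j ih =>
      intro hj
      rw [h1 j (by omega), ih (by omega)]
      rfl
  rw [← key c le_rfl]
  exact h2

/-- The word which encodes the numbers `g 0, ..., g (tot - 1)`. -/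
def encW (q tot : ℕ) (g : ℕ → ℕ) : List Bool :=
  List.ofFn (fun p : Fin (tot * q) => decide ((p : ℕ) % q < g ((p : ℕ) / q)))

lemma tval_encW {q tot : ℕ} {g : ℕ → ℕ} (hq : 0 < q) (hg : ∀ t, g t < q) {t : ℕ} (ht : t < tot) :
    tval (fun i => (encW q tot g).getD i false) q t = g t := by
  classical
  unfold tval
  have h : (range q).filter (fun v => (encW q tot g).getD (t * q + v) false = true) = range (g t) := by
    ext v
    rw [mem_filter, mem_range, mem_range]
    constructor
    · rintro ⟨hv, h1⟩
      have hlt : t * q + v < tot * q := by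
        calc t * q + v < t * q + q := by omega
          _ = (t + 1) * q := by ring
          _ ≤ tot * q := Nat.mul_le_mul_right q ht
      unfold encW at h1
      rw [List.getD_eq_getElem _ _ (by rw [List.length_ofFn]; exact hlt), List.getElem_ofFn,
        decide_eq_true_iff] at h1
      simp only at h1
      rw [show t * q + v = v + q * t from by ring, Nat.add_mul_mod_self_left,
        Nat.mod_eq_of_lt hv, Nat.add_mul_div_left _ _ hq, Nat.div_eq_of_lt hv, zero_add] at h1
      exact h1
    · intro hv
      have hvq : v < q := lt_trans hv (hg t)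
      have hlt : t * q + v < tot * q := by
        calc t * q + v < t * q + q := by omega
          _ = (t + 1) * q := by ring
          _ ≤ tot * q := Nat.mul_le_mul_right q ht
      refine ⟨hvq, ?_⟩
      unfold encW
      rw [List.getD_eq_getElem _ _ (by rw [List.length_ofFn]; exact hlt), List.getElem_ofFn,
        decide_eq_true_iff]
      simp only
      rw [show t * q + v = v + q * t from by ring, Nat.add_mul_mod_self_left,
        Nat.mod_eq_of_lt hvq, Nat.add_mul_div_left _ _ hq, Nat.div_eq_of_lt hvq, zero_add]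
      exact hv
  have h' : ((range q).filter (fun v => (encW q tot g).getD (t * q + v) false = true)).card = g t := by
    rw [h, card_range]
  calc _ = g t % q := by
        congr 1
    _ = g t := Nat.mod_eq_of_lt (hg t)

/-- Completeness of the verifier. -/
lemma hor_vacc {c N q : ℕ} (hq : 0 < q) {xb : ℕ → Bool} {f : ℕ → ℕ} (hf : ∀ j, f j < q)
    (h : ∀ i < N, xb (i * q + hor q i f c) = true) :
    ∃ w : List Bool, w.length = (c + N * (c + 1)) * q ∧
      VAcc c N q xb (fun i => w.getD i false) := by
  set g : ℕ → ℕ := fun t => if t < c then f t else hor q ((t - c) / (c + 1)) f ((t - c) % (c + 1))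
    with hg
  have hgq : ∀ t, g t < q := by
    intro t
    rw [hg]
    simp only
    split_ifs
    · exact hf t
    · exact hor_lt hq _ _ _
  refine ⟨encW q (c + N * (c + 1)) g, by unfold encW; rw [List.length_ofFn], ?_⟩
  have hgij : ∀ i j, j ≤ c → g (c + i * (c + 1) + j) = hor q i f j := by
    intro i j hj
    rw [hg]
    simp only
    rw [if_neg (by omega)]
    have e1 : c + i * (c + 1) + j - c = j + (c + 1) * i := by
      rw [mul_comm i]; omega
    rw [e1, Nat.add_mul_div_left _ _ (Nat.succ_pos c), Nat.div_eq_of_lt (by omega), zero_add,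
      Nat.add_mul_mod_self_left, Nat.mod_eq_of_lt (by omega)]
  have hlt : ∀ i < N, ∀ j ≤ c, c + i * (c + 1) + j < c + N * (c + 1) := by
    intro i hi j hj
    have h1 : (i + 1) * (c + 1) ≤ N * (c + 1) := Nat.mul_le_mul_right _ hi
    have h2 : (i + 1) * (c + 1) = i * (c + 1) + (c + 1) := by ring
    omega
  intro i hi
  refine ⟨?_, ?_, ?_⟩
  · have h0 := tval_encW hq hgq (hlt i hi 0 (Nat.zero_le _))
    rw [hgij i 0 (Nat.zero_le _), add_zero] at h0
    rw [h0]
    rfl
  · intro j hj
    rw [tval_encW hq hgq (hlt i hi (j + 1) hj), tval_encW hq hgq (hlt i hi j hj.le),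
      tval_encW hq hgq (by omega), hgij i (j + 1) hj, hgij i j hj.le]
    have : g j = f j := by rw [hg]; simp only; rw [if_pos hj]
    rw [this]
    rfl
  · rw [tval_encW hq hgq (hlt i hi c le_rfl), hgij i c le_rfl]
    exact h i hi

open Classical in
/-- The language. -/
noncomputable def nlang (a : ℕ) (x : List Bool) : Bool :=
  decide (∃ w : List Bool, w.length ≤ x.length ^ 4 + 4 ∧ Ver a (pairWord x w))

open Classical in
lemma nlang_eq_true_iff (a : ℕ) (x : List Bool) : nlang a x = true ↔
    ∃ w : List Bool, w.length ≤ x.length ^ 4 + 4 ∧ Ver a (pairWord x w) := by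
  unfold nlang
  exact decide_eq_true_iff

open Classical in
theorem nlang_inNP (a : ℕ) : InNP (nlang a) := by
  refine ⟨fun y => decide (Ver a y), 4, ver_polyTime a, fun x => ?_⟩
  rw [nlang_eq_true_iff]
  refine exists_congr fun w => ?_
  rw [decide_eq_true_iff]

lemma vacc_mono {c N q : ℕ} {xb xb' wb : ℕ → Bool}
    (hx : ∀ i < N, xb (i * q + tval wb q (c + i * (c + 1) + c)) = true →
      xb' (i * q + tval wb q (c + i * (c + 1) + c)) = true)
    (h : VAcc c N q xb wb) : VAcc c N q xb' wb := by
  intro i hi
  obtain ⟨h1, h2, h3⟩ := h i hi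
  exact ⟨h1, h2, hx i hi h3⟩

/-- The language is monotone on the words of each length. -/
lemma nlang_mono (a n : ℕ) : Monotone fun x : Fin n → Bool => nlang a (List.ofFn x) := by
  intro x y hxy
  rw [Bool.le_iff_imp]
  simp only
  intro hx
  rw [nlang_eq_true_iff] at hx ⊢
  obtain ⟨w, hw, hv⟩ := hx
  refine ⟨w, ?_, ?_⟩
  · rw [List.length_ofFn] at hw ⊢
    exact hw
  · unfold Ver at hv ⊢
    rw [plen_pair, List.length_ofFn] at hv ⊢
    have hs : sbit (pairWord (List.ofFn y) w) = sbit (pairWord (List.ofFn x) w) := by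
      funext i
      rw [sbit_pair, sbit_pair]
    rw [hs]
    refine vacc_mono (fun i hi h => ?_) hv
    set p := i * gp (n / RR n ^ (a + 1)) + tval (sbit (pairWord (List.ofFn x) w))
      (gp (n / RR n ^ (a + 1))) (2 * RR n ^ a + i * (2 * RR n ^ a + 1) + 2 * RR n ^ a) with hp
    by_cases hpn : p < n
    · rw [xbit_pair _ _ _ (by rw [List.length_ofFn]; exact hpn),
        List.getD_eq_getElem _ _ (by rw [List.length_ofFn]; exact hpn), List.getElem_ofFn] at h ⊢
      exact (Bool.le_iff_imp.mp (hxy _)) h
    · -- outside the first word the bits do not depend on it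
      have h1 : ∀ z : Fin n → Bool, xbit (pairWord (List.ofFn z) w) p
          = (false :: w).getD (2 * (p - n) + 1) false := by
        intro z
        unfold xbit
        have h2 := pairWord_getD_second (List.ofFn z) w (2 * (p - n) + 1)
        rw [List.length_ofFn] at h2
        rw [← h2]
        congr 1
        omega
      rw [h1] at h ⊢
      exact h

lemma pow4_bound (m : ℕ) : (m + 2) * m ≤ m ^ 4 + 4 := by
  rcases Nat.lt_or_ge m 2 with h | h
  · interval_cases m <;> norm_num
  · have h5 : m ^ 4 = (m * m) * (m * m) := by ring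
    have h6 : 4 * (m * m) ≤ (m * m) * (m * m) := by
      apply Nat.mul_le_mul_right
      nlinarith
    have h7 : (m + 2) * m = m * m + 2 * m := by ring
    have h8 : 2 * m ≤ m * m := Nat.mul_le_mul_right m h
    omega

/-- The language on words of length `n`, as the family of sets containing a graph. -/
theorem nlang_iff (a n : ℕ) (q : ℕ) [Fact q.Prime] (hq : q = gp (n / RR n ^ (a + 1)))
    (hN : RR n ^ (a + 1) * q ≤ n) (h2w : 2 * RR n ^ a ≤ RR n ^ (a + 1)) (x : Fin n → Bool) :
    nlang a (List.ofFn x) = true ↔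
      ∃ c : Fin (2 * RR n ^ a) → ZMod q,
        ∀ v ∈ (graph (RR n ^ (a + 1)) c).map (posE (RR n ^ (a + 1)) q n hN), x v = true := by
  have hqp : q.Prime := Fact.out
  rw [nlang_eq_true_iff]
  set bit : ℕ → Bool := fun i => (List.ofFn x).getD i false with hbit
  set N := RR n ^ (a + 1) with hNdef
  set c := 2 * RR n ^ a with hcdef
  have hlt : ∀ i < N, ∀ v < q, i * q + v < n := by
    intro i hi v hv
    have h1 : (i + 1) * q ≤ N * q := Nat.mul_le_mul_right q hi
    have h2 : (i + 1) * q = i * q + q := by ring
    omega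
  have hmid : (∃ w : List Bool, w.length ≤ (List.ofFn x).length ^ 4 + 4 ∧
      Ver a (pairWord (List.ofFn x) w)) ↔
      ∃ f : ℕ → ℕ, (∀ j, f j < q) ∧ ∀ i < N, bit (i * q + hor q i f c) = true := by
    constructor
    · rintro ⟨w, _, hv⟩
      unfold Ver at hv
      rw [plen_pair, List.length_ofFn, ← hq, ← hNdef, ← hcdef] at hv
      refine ⟨tval (sbit (pairWord (List.ofFn x) w)) q, fun j => tval_lt _ hqp.pos j, ?_⟩
      intro i hi
      have h1 := vacc_hor hv i hi
      rw [xbit_pair _ _ _ (by
        rw [List.length_ofFn]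
        exact hlt i hi _ (hor_lt hqp.pos _ _ _))] at h1
      exact h1
    · rintro ⟨f, hf, h⟩
      obtain ⟨w, hw, hv⟩ := hor_vacc (N := N) (c := c) hqp.pos hf h
      refine ⟨w, ?_, ?_⟩
      · rw [hw, List.length_ofFn]
        have hNn : N ≤ n := by
          calc N = N * 1 := (mul_one N).symm
            _ ≤ N * q := Nat.mul_le_mul_left N hqp.one_lt.le
            _ ≤ n := hN
        have hc : c ≤ N := h2w
        have h1 : (c + N * (c + 1)) * q ≤ (N + N * (N + 1)) * q := by
          apply Nat.mul_le_mul_right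
          have : N * (c + 1) ≤ N * (N + 1) := Nat.mul_le_mul_left N (by omega)
          omega
        have h2 : (N + N * (N + 1)) * q = (N + 2) * (N * q) := by ring
        have h3 : (N + 2) * (N * q) ≤ (n + 2) * n := Nat.mul_le_mul (by omega) hN
        have h4 : (n + 2) * n ≤ n ^ 4 + 4 := pow4_bound n
        omega
      · unfold Ver
        rw [plen_pair, List.length_ofFn, ← hq, ← hNdef, ← hcdef]
        have hs : sbit (pairWord (List.ofFn x) w) = fun i => w.getD i false := by
          funext i
          exact sbit_pair _ _ _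
        rw [hs]
        refine vacc_mono (fun i hi h => ?_) hv
        rw [xbit_pair _ _ _ (by
          rw [List.length_ofFn]
          exact hlt i hi _ (tval_lt _ hqp.pos _))]
        exact h
  rw [hmid, ← acc_iff_hor (S := q ^ (c + 1)) hqp le_rfl, acc_iff le_rfl]
  refine exists_congr fun cc => ?_
  constructor
  · intro h v hv
    rw [mem_map] at hv
    obtain ⟨p, hp, rfl⟩ := hv
    have hp2 := mem_graph.mp hp
    have h1 := h (p.1 : ℕ) p.1.isLt
    rw [← hp2] at h1
    have hltn : (p.1 : ℕ) * q + p.2.val < n := hlt _ p.1.isLt _ (ZMod.val_lt p.2)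
    rw [hbit] at h1
    simp only at h1
    rw [List.getD_eq_getElem _ _ (by rw [List.length_ofFn]; exact hltn), List.getElem_ofFn] at h1
    exact h1
  · intro h i hi
    have h1 := h (posE N q n hN (⟨i, hi⟩, pval cc i)) (by
      rw [mem_map]
      exact ⟨(⟨i, hi⟩, pval cc i), mem_graph.mpr rfl, rfl⟩)
    have hltn : i * q + (pval cc i).val < n := hlt _ hi _ (ZMod.val_lt _)
    rw [hbit]
    simp only
    rw [List.getD_eq_getElem _ _ (by rw [List.length_ofFn]; exact hltn), List.getElem_ofFn]
    exact h1

end Pool.Agent.NegLim.NPL
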