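import Pool.Agent.NegLim.Flips
import Pool.Agent.NegLim.Walk
import Pool.Agent.NegLim.Circuit

/-!
# Circuits near an input: the vector of values of NOT gates and outputs
-/

namespace Pool.Agent.NegLim

open Finset
open scoped BigOperators

set_option linter.unusedSectionVars false

lemma gateVals_length {V : Type} (x : V → Bool) (C : Circuit V) (vals : List Bool) :
    (gateVals x C vals).length = vals.length + C.length := by
  induction C generalizing vals with
  | nil => rfl
  | cons g C ih =>
    simp only [gateVals, ih, List.length_append, List.length_cons, List.length_nil]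
    omega

lemma notVals_snoc {V : Type} (C : Circuit V) (a : Gate V) (x : V → Bool) :
    Circuit.notVals (C ++ [a]) x
      = Circuit.notVals C x ++ (if a.isNot then [a.val x (gateVals x C [])] else []) := by
  unfold Circuit.notVals
  rw [gateVals_append]
  have h1 : gateVals x [a] (gateVals x C []) = gateVals x C [] ++ [a.val x (gateVals x C [])] := rfl
  rw [h1, List.zip_append (by rw [gateVals_length]; simp), List.filter_append, List.map_append]
  congr 1
  cases h : a.isNot <;> simp [h]

variable {V : Type} [Fintype V] [DecidableEq V]

/-- Local description of a circuit at `x`: with the NOT gates replaced by their values at `x`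
the circuit computes monotone functions `fs`; the monotone function `F` is true at `z ⊇ x` if
and only if the values of the NOT gates at `z` and at `x` differ. -/
lemma local_fam (C : Circuit V) (x : Finset V) :
    ∃ (s : ℕ) (D : Set (Set (Finset V))) (fs : List (Set (Finset V))) (F : Set (Finset V)),
      s ≤ Circuit.size C ∧ MonComp s D ∧ (∀ f ∈ fs, f ∈ D) ∧ F ∈ D ∧
      (∀ z, x ⊆ z → (z ∈ F ↔ Circuit.notVals C (chi z) ≠ Circuit.notVals C (chi x))) ∧
      (∀ z, x ⊆ z → z ∉ F → gateVals (chi z) C [] = fs.map (mb z)) := by
  induction C using List.reverseRecOn with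
  | nil =>
    refine ⟨0, _, [], ∅, by simp [Circuit.size], MonComp.base, by simp, Or.inr (Or.inr rfl), ?_, ?_⟩
    · intro z _
      simp [Circuit.notVals]
    · intro z _ _
      rfl
  | append_singleton C a ih =>
    obtain ⟨s, D, fs, F, hs, hD, hfs, hF, hnot, hval⟩ := ih
    have hsz : Circuit.size (C ++ [a]) = Circuit.size C + 1 := by simp [Circuit.size]
    have hxF : x ∉ F := by
      rw [hnot x (Finset.Subset.refl x)]
      simp
    have hrun : ∀ z : Finset V, gateVals (chi z) (C ++ [a]) []
        = gateVals (chi z) C [] ++ [a.val (chi z) (gateVals (chi z) C [])] := by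
      intro z
      rw [gateVals_append]
      rfl
    cases a with
    | and a b =>
      refine ⟨s + 1, _, fs ++ [a.fam fs ∩ b.fam fs], F, by rw [hsz]; omega,
        MonComp.and hD (Wire.fam_mem hD.base_subset hfs a) (Wire.fam_mem hD.base_subset hfs b),
        ?_, Or.inr hF, ?_, ?_⟩
      · intro f hf
        rw [List.mem_append, List.mem_singleton] at hf
        rcases hf with hf | hf
        · exact Or.inr (hfs f hf)
        · exact Or.inl hf
      · intro z hz
        rw [notVals_snoc, notVals_snoc]
        simp only [Gate.isNot, Bool.false_eq_true, if_false, List.append_nil]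
        exact hnot z hz
      · intro z hz hzF
        rw [hrun z, hval z hz hzF, List.map_append, List.map_singleton]
        congr 2
        rw [Gate.val, Wire.val_fam, Wire.val_fam, Bool.eq_iff_iff, Bool.and_eq_true, mb_iff,
          mb_iff, mb_iff, Set.mem_inter_iff]
    | or a b =>
      refine ⟨s + 1, _, fs ++ [a.fam fs ∪ b.fam fs], F, by rw [hsz]; omega,
        MonComp.or hD (Wire.fam_mem hD.base_subset hfs a) (Wire.fam_mem hD.base_subset hfs b),
        ?_, Or.inr hF, ?_, ?_⟩
      · intro f hf
        rw [List.mem_append, List.mem_singleton] at hf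
        rcases hf with hf | hf
        · exact Or.inr (hfs f hf)
        · exact Or.inl hf
      · intro z hz
        rw [notVals_snoc, notVals_snoc]
        simp only [Gate.isNot, Bool.false_eq_true, if_false, List.append_nil]
        exact hnot z hz
      · intro z hz hzF
        rw [hrun z, hval z hz hzF, List.map_append, List.map_singleton]
        congr 2
        rw [Gate.val, Wire.val_fam, Wire.val_fam, Bool.eq_iff_iff, Bool.or_eq_true, mb_iff,
          mb_iff, mb_iff, Set.mem_union]
    | not a =>
      have hup : IsUpperSet (a.fam fs) :=
        hD.upper _ (Wire.fam_mem hD.base_subset hfs a)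
      have hFup : IsUpperSet F := hD.upper _ hF
      -- the value of the new gate away from `F`
      have hnv : ∀ z, x ⊆ z → z ∉ F →
          (Gate.not a).val (chi z) (gateVals (chi z) C []) = !mb z (a.fam fs) := by
        intro z hz hzF
        rw [hval z hz hzF, Gate.val, Wire.val_fam]
      have hxv := hnv x (Finset.Subset.refl x) hxF
      by_cases hx : x ∈ a.fam fs
      · refine ⟨s, D, fs ++ [∅], F, by rw [hsz]; omega, hD, ?_, hF, ?_, ?_⟩
        · intro f hf
          rw [List.mem_append, List.mem_singleton] at hf
          rcases hf with hf | hf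
          · exact hfs f hf
          · rw [hf]; exact hD.base_subset (Or.inr (Or.inr rfl))
        · intro z hz
          rw [notVals_snoc, notVals_snoc]
          simp only [Gate.isNot, if_true]
          rw [hnot z hz]
          constructor
          · intro h h2
            exact h (List.append_inj' h2 rfl).1
          · intro h h2
            apply h
            have hzF : z ∉ F := by rw [hnot z hz]; simpa using h2
            rw [h2, hnv z hz hzF, hxv]
            have e1 : mb x (a.fam fs) = true := mb_iff.mpr hx
            have e2 : mb z (a.fam fs) = true := mb_iff.mpr (hup hz hx)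
            rw [e1, e2]
        · intro z hz hzF
          rw [hrun z, hnv z hz hzF, hval z hz hzF, List.map_append, List.map_singleton]
          congr 2
          have e2 : mb z (a.fam fs) = true := mb_iff.mpr (hup hz hx)
          have e3 : mb z ∅ = false := by
            rw [Bool.eq_false_iff]
            intro h
            exact absurd (mb_iff.mp h) (Set.notMem_empty z)
          rw [e2, e3]; rfl
      · refine ⟨s + 1, _, fs ++ [Set.univ], F ∪ a.fam fs, by rw [hsz]; omega,
          MonComp.or hD hF (Wire.fam_mem hD.base_subset hfs a), ?_, Or.inl rfl, ?_, ?_⟩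
        · intro f hf
          rw [List.mem_append, List.mem_singleton] at hf
          rcases hf with hf | hf
          · exact Or.inr (hfs f hf)
          · rw [hf]; exact Or.inr (hD.base_subset (Or.inr (Or.inl rfl)))
        · intro z hz
          rw [notVals_snoc, notVals_snoc]
          simp only [Gate.isNot, if_true]
          have e1 : mb x (a.fam fs) = false := by
            rw [Bool.eq_false_iff]
            intro h
            exact hx (mb_iff.mp h)
          rw [hxv, e1]
          constructor
          · rintro (h | h) h2
            · rw [hnot z hz] at h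
              exact h (List.append_inj' h2 rfl).1
            · have h3 := List.append_inj' h2 rfl
              have hzF : z ∉ F := by rw [hnot z hz]; simpa using h3.1
              have h4 := h3.2
              rw [hnv z hz hzF, mb_iff.mpr h] at h4
              simp at h4
          · intro h
            by_contra hcon
            rw [Set.mem_union, not_or] at hcon
            apply h
            have h3 : Circuit.notVals C (chi z) = Circuit.notVals C (chi x) := by
              have := hcon.1
              rw [hnot z hz] at this
              simpa using this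
            have e2 : mb z (a.fam fs) = false := by
              rw [Bool.eq_false_iff]
              intro h
              exact hcon.2 (mb_iff.mp h)
            rw [h3, hnv z hz hcon.1, e2]
        · intro z hz hzF
          rw [Set.mem_union, not_or] at hzF
          rw [hrun z, hnv z hz hzF.1, hval z hz hzF.1, List.map_append, List.map_singleton]
          congr 2
          have e2 : mb z (a.fam fs) = false := by
            rw [Bool.eq_false_iff]
            intro h
            exact hzF.2 (mb_iff.mp h)
          have e3 : mb z Set.univ = true := mb_iff.mpr (Set.mem_univ z)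
          rw [e2, e3]; rfl

/-- Outputs only grow as long as the NOT gates keep their values. -/
lemma val_mono_of_notVals (C : Circuit V) {x z : Finset V} (hxz : x ⊆ z)
    (h : Circuit.notVals C (chi z) = Circuit.notVals C (chi x)) (a : Wire V)
    (ha : C.val (chi x) a = true) : C.val (chi z) a = true := by
  obtain ⟨s, D, fs, F, hs, hD, hfs, hF, hnot, hval⟩ := local_fam C x
  have hxF : x ∉ F := by
    rw [hnot x (Finset.Subset.refl x)]
    simp
  have hzF : z ∉ F := by
    rw [hnot z hxz]
    simpa using h
  unfold Circuit.val at ha ⊢
  rw [hval x (Finset.Subset.refl x) hxF, Wire.val_fam, mb_iff] at ha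
  rw [hval z hxz hzF, Wire.val_fam, mb_iff]
  exact (hD.upper _ (Wire.fam_mem hD.base_subset hfs a)) hxz ha

/-- Local description including output wires. -/
lemma local_fam_out (C : Circuit V) (x : Finset V) (outs : List (Wire V)) :
    ∃ (s : ℕ) (D : Set (Set (Finset V))) (fs : List (Set (Finset V))) (F : Set (Finset V)),
      s ≤ Circuit.size C + outs.length ∧ MonComp s D ∧ (∀ f ∈ fs, f ∈ D) ∧ F ∈ D ∧
      (∀ z, x ⊆ z → (z ∈ F ↔ (Circuit.notVals C (chi z) ≠ Circuit.notVals C (chi x) ∨
        ∃ a ∈ outs, C.val (chi z) a ≠ C.val (chi x) a))) ∧
      (∀ z, x ⊆ z → Circuit.notVals C (chi z) = Circuit.notVals C (chi x) →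
        gateVals (chi z) C [] = fs.map (mb z)) := by
  induction outs with
  | nil =>
    obtain ⟨s, D, fs, F, hs, hD, hfs, hF, hnot, hval⟩ := local_fam C x
    refine ⟨s, D, fs, F, by simpa using hs, hD, hfs, hF, ?_, ?_⟩
    · intro z hz
      rw [hnot z hz]
      simp
    · intro z hz h
      apply hval z hz
      rw [hnot z hz]
      simpa using h
  | cons a outs ih =>
    obtain ⟨s, D, fs, F, hs, hD, hfs, hF, hmem, hval⟩ := ih
    have hv : ∀ z, x ⊆ z → Circuit.notVals C (chi z) = Circuit.notVals C (chi x) →
        C.val (chi z) a = mb z (a.fam fs) := by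
      intro z hz h
      unfold Circuit.val
      rw [hval z hz h, Wire.val_fam]
    have hxv := hv x (Finset.Subset.refl x) rfl
    have hup : IsUpperSet (a.fam fs) := hD.upper _ (Wire.fam_mem hD.base_subset hfs a)
    by_cases hx : x ∈ a.fam fs
    · refine ⟨s, D, fs, F, by simp only [List.length_cons]; omega, hD, hfs, hF, ?_, hval⟩
      intro z hz
      rw [hmem z hz]
      constructor
      · rintro (h | ⟨b, hb, h⟩)
        · exact Or.inl h
        · exact Or.inr ⟨b, List.mem_cons_of_mem _ hb, h⟩
      · rintro (h | ⟨b, hb, h⟩)
        · exact Or.inl h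
        · by_cases hn : Circuit.notVals C (chi z) = Circuit.notVals C (chi x)
          · rcases List.mem_cons.mp hb with rfl | hb
            · exfalso
              apply h
              rw [hv z hz hn, hxv, mb_iff.mpr hx, mb_iff.mpr (hup hz hx)]
            · exact Or.inr ⟨b, hb, h⟩
          · exact Or.inl hn
    · refine ⟨s + 1, _, fs, F ∪ a.fam fs, by simp only [List.length_cons]; omega,
        MonComp.or hD hF (Wire.fam_mem hD.base_subset hfs a), fun f hf => Or.inr (hfs f hf),
        Or.inl rfl, ?_, hval⟩
      have e1 : mb x (a.fam fs) = false := by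
        rw [Bool.eq_false_iff]
        intro h
        exact hx (mb_iff.mp h)
      intro z hz
      rw [Set.mem_union, hmem z hz]
      constructor
      · rintro ((h | ⟨b, hb, h⟩) | h)
        · exact Or.inl h
        · exact Or.inr ⟨b, List.mem_cons_of_mem _ hb, h⟩
        · by_cases hn : Circuit.notVals C (chi z) = Circuit.notVals C (chi x)
          · refine Or.inr ⟨a, List.mem_cons_self, ?_⟩
            rw [hv z hz hn, hxv, e1, mb_iff.mpr h]
            simp
          · exact Or.inl hn
      · rintro (h | ⟨b, hb, h⟩)
        · exact Or.inl (Or.inl h)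
        · by_cases hn : Circuit.notVals C (chi z) = Circuit.notVals C (chi x)
          · rcases List.mem_cons.mp hb with rfl | hb
            · right
              rw [hv z hz hn, hxv, e1] at h
              rw [← mb_iff]
              simpa using h
            · exact Or.inl (Or.inr ⟨b, hb, h⟩)
          · exact Or.inl (Or.inl hn)

/-- The state of a circuit: the values of its NOT gates and of its outputs. -/
def stateOf (C : Circuit V) {T : ℕ} (out : Fin T → Wire V) (x : Finset V) :
    List Bool × (Fin T → Bool) := (Circuit.notVals C (chi x), fun i => C.val (chi x) (out i))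

lemma state_fam (C : Circuit V) {T : ℕ} (out : Fin T → Wire V) (x : Finset V) :
    ∃ F : Set (Finset V), MonSize (Circuit.size C + T) F ∧
      ∀ z, x ⊆ z → (z ∈ F ↔ stateOf C out x ≠ stateOf C out z) := by
  obtain ⟨s, D, fs, F, hs, hD, hfs, hF, hmem, hval⟩ := local_fam_out C x (List.ofFn out)
  refine ⟨F, ⟨s, by simpa using hs, D, hD, hF⟩, ?_⟩
  intro z hz
  rw [hmem z hz]
  unfold stateOf
  constructor
  · rintro (h | ⟨a, ha, h⟩) h2
    · exact h (Prod.ext_iff.mp h2).1.symm
    · rw [List.mem_ofFn] at ha
      obtain ⟨i, rfl⟩ := ha
      exact h (congrFun (Prod.ext_iff.mp h2).2 i).symm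
  · intro h
    by_contra hcon
    rw [not_or] at hcon
    apply h
    have h1 : Circuit.notVals C (chi z) = Circuit.notVals C (chi x) := by simpa using hcon.1
    refine Prod.ext h1.symm ?_
    funext i
    by_contra h2
    exact hcon.2 ⟨out i, by rw [List.mem_ofFn]; exact ⟨i, rfl⟩, fun h3 => h2 h3.symm⟩

lemma ups_le_downs (b : ℕ → Bool) (n : ℕ) :
    ∑ k ∈ range n, ip (b k = false ∧ b (k + 1) = true)
      + ip (b 0 = true) = ∑ k ∈ range n, ip (b k = true ∧ b (k + 1) = false) + ip (b n = true) := by
  induction n with
  | zero => simp
  | succ n ih =>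
    rw [Finset.sum_range_succ, Finset.sum_range_succ]
    have h : ip (b n = false ∧ b (n + 1) = true) + ip (b n = true)
        = ip (b n = true ∧ b (n + 1) = false) + ip (b (n + 1) = true) := by
      cases h1 : b n <;> cases h2 : b (n + 1) <;> simp [ip]
    linarith

/-- Changes of the state in terms of changes of the values of the NOT gates. -/
lemma state_changes (C : Circuit V) {T : ℕ} (out : Fin T → Wire V) (X : ℕ → Finset V)
    (hX : ∀ k, X k ⊆ X (k + 1)) (n : ℕ) :
    ∑ k ∈ range n, ip (stateOf C out (X k) ≠ stateOf C out (X (k + 1))) + 1
      ≤ (T + 1) * (∑ k ∈ range n,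
          ip (Circuit.notVals C (chi (X k)) ≠ Circuit.notVals C (chi (X (k + 1)))) + 1) := by
  set c := ∑ k ∈ range n,
          ip (Circuit.notVals C (chi (X k)) ≠ Circuit.notVals C (chi (X (k + 1)))) with hc
  set b : Fin T → ℕ → Bool := fun i k => C.val (chi (X k)) (out i) with hb
  have h1 : ∀ k ∈ range n, ip (stateOf C out (X k) ≠ stateOf C out (X (k + 1)))
      ≤ ip (Circuit.notVals C (chi (X k)) ≠ Circuit.notVals C (chi (X (k + 1))))
        + ∑ i : Fin T, ip (b i k = false ∧ b i (k + 1) = true) := by
    intro k _
    have hnn : ∀ i ∈ (univ : Finset (Fin T)), 0 ≤ ip (b i k = false ∧ b i (k + 1) = true) :=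
      fun i _ => ip_nonneg _
    by_cases h : Circuit.notVals C (chi (X k)) = Circuit.notVals C (chi (X (k + 1)))
    · by_cases h2 : stateOf C out (X k) = stateOf C out (X (k + 1))
      · rw [ip_false (by simpa using h2)]
        have := Finset.sum_nonneg hnn
        linarith [ip_nonneg (Circuit.notVals C (chi (X k)) ≠ Circuit.notVals C (chi (X (k + 1))))]
      · have h3 : ∃ i, b i k ≠ b i (k + 1) := by
          by_contra hcon
          push Not at hcon
          exact h2 (Prod.ext h (funext hcon))
        obtain ⟨i, hi⟩ := h3
        have h4 : b i k = false ∧ b i (k + 1) = true := by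
          cases h5 : b i k
          · refine ⟨rfl, ?_⟩
            cases h6 : b i (k + 1)
            · exact absurd (by rw [h5, h6]) hi
            · rfl
          · exfalso
            have h6 := val_mono_of_notVals C (hX k) h.symm (out i) h5
            exact hi (by rw [h5]; exact h6.symm)
        have h5 := Finset.single_le_sum hnn (mem_univ i)
        rw [ip_true h4] at h5
        linarith [ip_le_one (stateOf C out (X k) ≠ stateOf C out (X (k + 1))),
          ip_nonneg (Circuit.notVals C (chi (X k)) ≠ Circuit.notVals C (chi (X (k + 1))))]
    · rw [ip_true h]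
      have := Finset.sum_nonneg hnn
      linarith [ip_le_one (stateOf C out (X k) ≠ stateOf C out (X (k + 1)))]
  have h2 := Finset.sum_le_sum h1
  rw [Finset.sum_add_distrib, Finset.sum_comm] at h2
  have h3 : ∀ i ∈ (univ : Finset (Fin T)),
      ∑ k ∈ range n, ip (b i k = false ∧ b i (k + 1) = true) ≤ c + 1 := by
    intro i _
    have h4 := ups_le_downs (b i) n
    have h5 : ∑ k ∈ range n, ip (b i k = true ∧ b i (k + 1) = false) ≤ c := by
      rw [hc]
      refine Finset.sum_le_sum fun k _ => ip_mono ?_
      rintro ⟨h6, h7⟩ h8
      have h9 := val_mono_of_notVals C (hX k) h8.symm (out i) h6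
      have h10 : b i (k + 1) = true := h9
      rw [h7] at h10
      exact absurd h10 (by simp)
    linarith [ip_nonneg (b i 0 = true), ip_le_one (b i n = true)]
  have h4 := Finset.sum_le_sum h3
  rw [Finset.sum_const, nsmul_eq_mul, Finset.card_univ, Fintype.card_fin] at h4
  have h5 : ((T : ℝ) + 1) * (c + 1) = T * (c + 1) + c + 1 := by ring
  rw [h5]
  linarith

lemma chi_chain (π : V ≃ Fin (Fintype.card V)) (k : ℕ) : chi (chain π k) = stage π k := by
  funext v
  unfold chi stage
  rw [Bool.eq_iff_iff, decide_eq_true_iff, decide_eq_true_iff, mem_chain]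

lemma flips_eq (C : Circuit V) :
    C.flips = 𝔼 π : V ≃ Fin (Fintype.card V), ∑ k ∈ range (Fintype.card V),
      ip (Circuit.notVals C (chi (chain π k)) ≠ Circuit.notVals C (chi (chain π (k + 1)))) := by
  unfold Circuit.flips
  refine Finset.expect_congr rfl fun π _ => ?_
  rw [Finset.card_filter]
  push_cast
  refine Finset.sum_congr rfl fun k _ => ?_
  rw [chi_chain, chi_chain]
  unfold ip
  split_ifs <;> rfl

lemma flips_nonneg (C : Circuit V) : 0 ≤ C.flips :=
  Finset.expect_nonneg fun _ _ => Nat.cast_nonneg _

instance order_nonempty : Nonempty (V ≃ Fin (Fintype.card V)) := ⟨Fintype.equivFin V⟩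

/-- The average number of changes of the state is at most `(T + 1) (flips + 1) - 1`. -/
theorem avgCh_state (C : Circuit V) {T : ℕ} (out : Fin T → Wire V) :
    avgCh (stateOf C out) + 1 ≤ (T + 1) * (C.flips + 1) := by
  rw [flips_eq]
  unfold avgCh
  have h1 : ∀ π : V ≃ Fin (Fintype.card V),
      ∑ k ∈ range (Fintype.card V), ip (stateOf C out (chain π k) ≠ stateOf C out (chain π (k + 1)))
        ≤ (T + 1) * (∑ k ∈ range (Fintype.card V),
          ip (Circuit.notVals C (chi (chain π k)) ≠ Circuit.notVals C (chi (chain π (k + 1)))) + 1)
          - 1 := by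
    intro π
    have := state_changes C out (fun k => chain π k) (fun k v hv => by
      rw [mem_chain] at hv ⊢; omega) (Fintype.card V)
    linarith
  have h2 := Finset.expect_le_expect (s := (univ : Finset (V ≃ Fin (Fintype.card V))))
    fun π _ => h1 π
  rw [Finset.expect_sub_distrib, ← Finset.mul_expect, Finset.expect_add_distrib,
    Fintype.expect_const] at h2
  linarith

end Pool.Agent.NegLim
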