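import Pool.Agent.NegLim.Mono

/-!
# Telescoping along a random chain; Boolean combinations of monotone functions
-/

namespace Pool.Agent.NegLim

open Finset
open scoped BigOperators Nat

set_option linter.unusedSectionVars false

variable {V : Type} [Fintype V] [DecidableEq V]
variable {Y : Type} [Fintype Y] [Nonempty Y] (cw : Y → Finset V)

/-- The increment caused by the random set `cw y`. -/
noncomputable def incr (g : Set (Finset V)) (x : Finset V) : ℝ :=
  (𝔼 y : Y, ind g (x ∪ cw y)) - ind g x

lemma incr_nonneg {g : Set (Finset V)} (hg : IsUpperSet g) (x : Finset V) : 0 ≤ incr cw g x := by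
  unfold incr
  rw [sub_nonneg]
  exact Finset.le_expect univ_nonempty fun y _ => ind_monotone hg subset_union_left

/-- `g` is computed by a monotone program with at most `s` gates. -/
def MonSize (s : ℕ) (g : Set (Finset V)) : Prop := ∃ s' ≤ s, ∃ C, MonComp s' C ∧ g ∈ C

lemma MonSize.upper {s : ℕ} {g : Set (Finset V)} (h : MonSize s g) : IsUpperSet g := by
  obtain ⟨s', _, C, hC, hg⟩ := h
  exact hC.upper g hg

lemma sum_incr (M k w : ℕ) (q : ℝ) (hq0 : 0 < q) (hk : 1 ≤ k) (hw : 1 ≤ w)
    (hq : 8 * (w : ℝ) * ((M : ℝ) + 1) ≤ q) (hsp : Spread cw w q)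
    (hkw : ((Fintype.card V : ℝ) + 1) ^ (2 * w) * (1 / 2 : ℝ) ^ k ≤ (1 / 2 : ℝ) ^ w)
    {s : ℕ} {g : Set (Finset V)} (hg : MonSize s g) (r : ℕ) :
    ∑ i ∈ range r, (nz M ^ (k * i)) (incr cw g) ∅ ≤ 1 + r * (s * (2 * (1 / 2 : ℝ) ^ w)) := by
  obtain ⟨s', hs', C, hC, hgC⟩ := hg
  have h1 : incr cw g ≤ (nz M ^ k) (ind g) + (fun _ => (s : ℝ) * (2 * (1 / 2 : ℝ) ^ w)) - ind g := by
    intro x
    simp only [Pi.add_apply, Pi.sub_apply]
    have := domination cw M k w q hq0 hk hw hq hsp hkw hC hgC x
    have h2 : (s' : ℝ) * (2 * (1 / 2 : ℝ) ^ w) ≤ (s : ℝ) * (2 * (1 / 2 : ℝ) ^ w) := by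
      apply mul_le_mul_of_nonneg_right _ (by positivity)
      exact_mod_cast hs'
    unfold incr
    linarith
  have h2 : ∀ i ∈ range r, (nz M ^ (k * i)) (incr cw g) ∅
      ≤ ((nz M ^ (k * (i + 1))) (ind g) ∅ - (nz M ^ (k * i)) (ind g) ∅)
        + s * (2 * (1 / 2 : ℝ) ^ w) := by
    intro i _
    have h3 := nz_pow_mono M (k * i) h1 ∅
    rw [map_sub, map_add, nz_pow_const] at h3
    simp only [Pi.add_apply, Pi.sub_apply] at h3
    have h4 : (nz M ^ (k * i)) ((nz M ^ k) (ind g)) = (nz M ^ (k * (i + 1))) (ind g) := by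
      rw [mul_add, mul_one, pow_add]; rfl
    rw [h4] at h3
    linarith
  refine (Finset.sum_le_sum h2).trans ?_
  rw [Finset.sum_add_distrib, Finset.sum_range_sub (fun i => (nz M ^ (k * i)) (ind g) ∅),
    Finset.sum_const, card_range, nsmul_eq_mul]
  have h5 := nz_pow_ind_le_one M (k * r) g (∅ : Finset V)
  have h6 := nz_pow_ind_nonneg M (k * 0) g (∅ : Finset V)
  linarith

/-- If `f` is true at every set containing some `cw y`, false with probability at least
`1 - γ` along the chain, and a Boolean function of the monotone functions `g j`, `j : J`,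
of monotone complexity at most `s`, then `|J|` or `s` is large. -/
theorem many_monotone (M k w : ℕ) (q : ℝ) (hq0 : 0 < q) (hk : 1 ≤ k) (hw : 1 ≤ w)
    (hq : 8 * (w : ℝ) * ((M : ℝ) + 1) ≤ q) (hsp : Spread cw w q)
    (hkw : ((Fintype.card V : ℝ) + 1) ^ (2 * w) * (1 / 2 : ℝ) ^ k ≤ (1 / 2 : ℝ) ^ w)
    (f : Set (Finset V)) (hf : ∀ x y, x ∪ cw y ∈ f) (r : ℕ) (γ : ℝ)
    (hγ : ∀ i < r, (nz M ^ (k * i)) (ind f) ∅ ≤ γ)
    {J : Type} [Fintype J] (g : J → Set (Finset V)) {s : ℕ} (hg : ∀ j, MonSize s (g j))
    (hdet : ∀ x x' : Finset V, (∀ j, x ∈ g j ↔ x' ∈ g j) → (x ∈ f ↔ x' ∈ f)) :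
    r * (1 - γ) ≤ Fintype.card J * (1 + r * (s * (2 * (1 / 2 : ℝ) ^ w))) := by
  classical
  have h1 : (fun x => 1 - ind f x) ≤ ∑ j : J, incr cw (g j) := by
    intro x
    rw [Finset.sum_apply]
    have hnn : ∀ j ∈ (univ : Finset J), 0 ≤ incr cw (g j) x :=
      fun j _ => incr_nonneg cw (hg j).upper x
    by_cases hx : x ∈ f
    · simp only [ind_of_mem hx, sub_self]
      exact Finset.sum_nonneg hnn
    · simp only [ind_of_notMem hx, sub_zero]
      have h2 : ∀ y : Y, (1 : ℝ) ≤ ∑ j : J, (ind (g j) (x ∪ cw y) - ind (g j) x) := by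
        intro y
        have h3 : ∃ j, ¬ (x ∈ g j ↔ x ∪ cw y ∈ g j) := by
          by_contra hcon
          push Not at hcon
          exact hx ((hdet x (x ∪ cw y) hcon).mpr (hf x y))
        obtain ⟨j, hj⟩ := h3
        have h4 : ∀ j ∈ (univ : Finset J), 0 ≤ ind (g j) (x ∪ cw y) - ind (g j) x := by
          intro j _
          rw [sub_nonneg]
          exact ind_monotone (hg j).upper subset_union_left
        have h5 := Finset.single_le_sum h4 (mem_univ j)
        refine le_trans ?_ h5
        have h6 : x ∉ g j := by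
          intro h
          exact hj ⟨fun _ => (hg j).upper subset_union_left h, fun _ => h⟩
        have h7 : x ∪ cw y ∈ g j := by
          by_contra h
          exact hj ⟨fun h' => absurd h' h6, fun h' => absurd h' h⟩
        rw [ind_of_mem h7, ind_of_notMem h6]; norm_num
      have h3 : (1 : ℝ) ≤ 𝔼 y : Y, ∑ j : J, (ind (g j) (x ∪ cw y) - ind (g j) x) :=
        Finset.le_expect univ_nonempty fun y _ => h2 y
      refine h3.trans (le_of_eq ?_)
      rw [Finset.expect_sum_comm]
      refine Finset.sum_congr rfl fun j _ => ?_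
      rw [Finset.expect_sub_distrib, Fintype.expect_const]
      rfl
  have h2 : ∀ i ∈ range r, 1 - γ ≤ ∑ j : J, (nz M ^ (k * i)) (incr cw (g j)) ∅ := by
    intro i hi
    have h3 := nz_pow_mono M (k * i) h1 ∅
    rw [map_sum, Finset.sum_apply] at h3
    refine le_trans ?_ h3
    have h4 : (nz M ^ (k * i)) (fun x => 1 - ind f x) ∅ = 1 - (nz M ^ (k * i)) (ind f) ∅ := by
      have e : (fun x => 1 - ind f x) = (fun _ : Finset V => (1 : ℝ)) - ind f := rfl
      rw [e, map_sub, nz_pow_const]; rfl
    rw [h4]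
    linarith [hγ i (mem_range.mp hi)]
  have h3 := Finset.sum_le_sum h2
  rw [Finset.sum_const, card_range, nsmul_eq_mul, Finset.sum_comm] at h3
  refine h3.trans ?_
  calc ∑ j : J, ∑ i ∈ range r, (nz M ^ (k * i)) (incr cw (g j)) ∅
      ≤ ∑ _j : J, (1 + r * (s * (2 * (1 / 2 : ℝ) ^ w))) :=
        Finset.sum_le_sum fun j _ => sum_incr cw M k w q hq0 hk hw hq hsp hkw (hg j) r
    _ = _ := by rw [Finset.sum_const, nsmul_eq_mul, Finset.card_univ]

/-- The probability that a set `T` is contained in `j` rounds of noise. -/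
lemma nz_pow_contains (M : ℕ) (T : Finset V) (j : ℕ) (hj : (j : ℝ) ≤ (M : ℝ) + 1) :
    (nz M ^ j) (ind {x | T ⊆ x}) ∅ ≤ ((j : ℝ) / ((M : ℝ) + 1)) ^ T.card := by
  have hM : (0 : ℝ) < (M : ℝ) + 1 := by positivity
  -- the product form
  have key : ∀ j : ℕ, (j : ℝ) ≤ (M : ℝ) + 1 → ∀ x : Finset V,
      (nz M ^ j) (ind {x | T ⊆ x}) x ≤ ∏ v ∈ T, (if v ∈ x then (1 : ℝ) else (j : ℝ) / ((M : ℝ) + 1)) := by
    intro j
    induction j with
    | zero =>
      intro _ x
      simp only [pow_zero, Module.End.one_apply, Nat.cast_zero, zero_div]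
      by_cases h : T ⊆ x
      · rw [ind_of_mem (show x ∈ {x | T ⊆ x} from h)]
        rw [Finset.prod_congr rfl (fun v hv => if_pos (h hv))]
        simp
      · rw [ind_of_notMem (show x ∉ {x | T ⊆ x} from h)]
        apply Finset.prod_nonneg
        intro v _
        split_ifs <;> norm_num
    | succ j ih =>
      intro hj x
      push_cast at hj
      have ih' := ih (by linarith)
      rw [pow_succ']
      simp only [Module.End.mul_apply]
      refine (nz_mono M ih' x).trans ?_
      rw [nz_apply]
      set a : ℝ := (j : ℝ) / ((M : ℝ) + 1) with ha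
      have ha0 : 0 ≤ a := by positivity
      -- split the product over `ω`
      have hprod : (𝔼 ω : V → Fin (M + 1), ∏ v ∈ T, (if v ∈ x ∪ zset M ω then (1 : ℝ) else a))
          = ∏ v ∈ T, (𝔼 b : Fin (M + 1), (if v ∈ x ∨ b = 0 then (1 : ℝ) else a)) := by
        have e1 : ∀ ω : V → Fin (M + 1), ∏ v ∈ T, (if v ∈ x ∪ zset M ω then (1 : ℝ) else a)
            = ∏ v : V, (if v ∈ T then (if v ∈ x ∨ ω v = 0 then (1 : ℝ) else a) else 1) := by
          intro ω
          rw [Finset.prod_ite_mem]
          simp only [univ_inter]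
          refine Finset.prod_congr rfl fun v _ => ?_
          simp [zset]
        simp only [e1]
        rw [Fintype.expect_eq_sum_div_card]
        have e2 := Finset.prod_univ_sum (fun _ : V => (univ : Finset (Fin (M + 1))))
          (fun v b => (if v ∈ T then (if v ∈ x ∨ b = 0 then (1 : ℝ) else a) else 1))
        rw [Fintype.piFinset_univ] at e2
        rw [← e2]
        have e3 : ∀ v : V, ∑ b : Fin (M + 1),
            (if v ∈ T then (if v ∈ x ∨ b = 0 then (1 : ℝ) else a) else 1)
            = ((M : ℝ) + 1) * (if v ∈ T then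
                (𝔼 b : Fin (M + 1), (if v ∈ x ∨ b = 0 then (1 : ℝ) else a)) else 1) := by
          intro v
          by_cases hv : v ∈ T
          · simp only [hv, if_true]
            rw [Fintype.expect_eq_sum_div_card, Fintype.card_fin]
            push_cast
            field_simp
          · simp [hv]
        rw [Finset.prod_congr rfl fun v _ => e3 v, Finset.prod_mul_distrib, Finset.prod_const,
          Finset.prod_ite_mem, univ_inter, Fintype.card_fun, Fintype.card_fin, Finset.card_univ]
        push_cast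
        rw [mul_div_assoc, mul_comm, div_mul_eq_mul_div, mul_div_assoc, div_self (by positivity),
          mul_one]
      rw [hprod]
      apply Finset.prod_le_prod
      · intro v _
        apply Finset.expect_nonneg
        intro b _
        split_ifs
        · norm_num
        · exact ha0
      · intro v _
        by_cases hv : v ∈ x
        · simp [hv]
        · simp only [hv, false_or, if_false]
          have e1 : ∀ b : Fin (M + 1), (if b = 0 then (1 : ℝ) else a)
              = a + (if b = 0 then (1 - a) else 0) := by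
            intro b; split_ifs <;> ring
          simp only [e1]
          rw [Finset.expect_add_distrib, Fintype.expect_const, Fintype.expect_eq_sum_div_card,
            Finset.sum_ite_eq' , if_pos (mem_univ _), Fintype.card_fin]
          push_cast
          rw [ha]
          have : (1 - (j : ℝ) / ((M : ℝ) + 1)) / ((M : ℝ) + 1) ≤ 1 / ((M : ℝ) + 1) := by
            apply div_le_div_of_nonneg_right _ hM.le
            linarith
          rw [add_div]
          linarith
  refine (key j hj ∅).trans (le_of_eq ?_)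
  simp [div_pow]

end Pool.Agent.NegLim
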