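import Pool.Agent.NegLim.Links
import Pool.Agent.NegLim.Chain

/-!
# The domination theorem, with the spread lemma
-/

namespace Pool.Agent.NegLim

open Finset
open scoped BigOperators Nat

set_option linter.unusedSectionVars false

variable {V : Type} [Fintype V] [DecidableEq V]

section dist

variable {Y : Type} [Fintype Y] [Nonempty Y] (cw : Y → Finset V)

lemma sum_geo (a : ℝ) (ha : a ≠ 1) (n : ℕ) :
    ∑ l ∈ Finset.Icc 1 n, a ^ l = (a - a ^ (n + 1)) / (1 - a) := by
  have h1 : (1 : ℝ) - a ≠ 0 := sub_ne_zero.mpr ha.symm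
  induction n with
  | zero => simp
  | succ n ih =>
    rw [Finset.sum_Icc_succ_top (by omega), ih]
    field_simp
    ring

/-- The random set `cw y` is dominated by noise on trimmed closed families. -/
lemma dominated2 (M L k w : ℕ) (q : ℝ) (hq0 : 0 < q) (hk : 1 ≤ L * k)
    (hq : 256 * ((M : ℝ) + 1) ≤ q) (hwL : 2 * w < 2 ^ L)
    (hsp : Spread cw w q) {S : Set (Finset V)} (hS : IsUpperSet S)
    (hcl : BClosed M L k (2 * w) S) :
    (𝔼 y : Y, ind (trim S w) (cw y)) ≤ (nz M ^ (L * k)) (ind (trim S w)) ∅ := by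
  by_cases h0 : (∅ : Finset V) ∈ trim S w
  · have h1 := le_nz_pow M (L * k) (g := ind (trim S w))
      (fun x y hxy => ind_monotone (trim_upper S w) hxy) ∅
    rw [ind_of_mem h0] at h1
    refine le_trans ?_ h1
    exact Finset.expect_le univ_nonempty fun y _ => ind_le_one _ _
  · have hmin0 : ∀ T ∈ mins S 0, False := by
      intro T hT
      apply h0
      have h2 := (mem_mins.mp hT).2.1
      rw [card_eq_zero] at h2
      exact ⟨0, Nat.zero_le w, T, hT, by rw [h2]⟩
    set h : ℝ := nz M (ind (trim S w)) ∅ with hh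
    have hhn : 0 ≤ h := nz_ind_nonneg _ _ _
    have h1 := expect_le_mins cw S hsp (Finset.Icc 1 w)
      (fun l hl => by have := (Finset.mem_Icc.mp hl).2; omega) (trim S w) (by
        rintro y ⟨l, hl, T, hT, hTy⟩
        rcases Nat.eq_zero_or_pos l with h | h
        · subst h; exact (hmin0 T hT).elim
        · exact ⟨l, Finset.mem_Icc.mpr ⟨h, hl⟩, T, hT, hTy⟩)
    have h2 : ∀ l ∈ Finset.Icc 1 w, ((mins S l).card : ℝ) * (1 / q) ^ l
        ≤ (2 * h) * (65 / 256 : ℝ) ^ l := by
      intro l hl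
      rw [Finset.mem_Icc] at hl
      have h3 := mins_hit2 M L k (2 * w) hS hcl hwL (l := l) (by omega)
      have h4 : nz M (ind {y | ∃ T ∈ mins S l, T ⊆ y}) ∅ ≤ h := by
        apply nz_mono
        apply ind_mono
        rintro y ⟨T, hT, hTy⟩
        exact ⟨l, hl.2, T, hT, hTy⟩
      have h5 : (65 * ((M : ℝ) + 1)) ^ l * (1 / q) ^ l ≤ (65 / 256 : ℝ) ^ l := by
        rw [← mul_pow]
        apply pow_le_pow_left₀ (by positivity)
        rw [mul_one_div, div_le_div_iff₀ hq0 (by norm_num)]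
        linarith
      have h6 : (0 : ℝ) ≤ (1 / q) ^ l := by positivity
      calc ((mins S l).card : ℝ) * (1 / q) ^ l
          ≤ (2 * (65 * ((M : ℝ) + 1)) ^ l * nz M (ind {y | ∃ T ∈ mins S l, T ⊆ y}) ∅)
              * (1 / q) ^ l := mul_le_mul_of_nonneg_right h3 h6
        _ = (2 * nz M (ind {y | ∃ T ∈ mins S l, T ⊆ y}) ∅)
              * ((65 * ((M : ℝ) + 1)) ^ l * (1 / q) ^ l) := by ring
        _ ≤ (2 * h) * (65 / 256 : ℝ) ^ l := by
            apply mul_le_mul _ h5 _ (by positivity)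
            · linarith
            · positivity
    refine h1.trans ((Finset.sum_le_sum h2).trans ?_)
    rw [← Finset.mul_sum, sum_geo _ (by norm_num)]
    have h8 : (0 : ℝ) ≤ (65 / 256) ^ (w + 1) := by positivity
    have h9 : h ≤ (nz M ^ (L * k)) (ind (trim S w)) ∅ := by
      have := nz_pow_ind_mono_exp M hk (trim_upper S w) ∅
      rwa [pow_one] at this
    have h10 : ((65 / 256 : ℝ) - (65 / 256) ^ (w + 1)) / (1 - 65 / 256) ≤ 1 / 2 := by
      rw [div_le_iff₀ (by norm_num)]
      linarith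
    nlinarith

/-- Trimming costs little for the random set `cw y`. -/
lemma trim_error2 (M L k w : ℕ) (q : ℝ) (hq0 : 0 < q) (hq : 256 * ((M : ℝ) + 1) ≤ q)
    (hwL : 2 * w < 2 ^ L)
    (hsp : Spread cw w q) {S : Set (Finset V)} (hS : IsUpperSet S)
    (hcl : BClosed M L k (2 * w) S) (hgen : Gen (2 * w) S) :
    (𝔼 y : Y, ind (S \ trim S w) (cw y)) ≤ (1 / 4 : ℝ) ^ w := by
  have h1 := expect_le_mins cw S hsp (Finset.Ioc w (2 * w))
    (fun l hl => (Finset.mem_Ioc.mp hl).2) (S \ trim S w) (by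
      rintro y ⟨hy1, hy2⟩
      obtain ⟨T, hT1, hT2, hT3⟩ := hgen _ hy1
      obtain ⟨T0, h3, h4, h5⟩ := exists_min T hT1
      have h6 : T0.card ≤ 2 * w := (card_le_card h3).trans hT3
      have h7 : T0 ∈ mins S T0.card := mem_mins.mpr ⟨h4, rfl, h5⟩
      refine ⟨T0.card, Finset.mem_Ioc.mpr ⟨?_, h6⟩, T0, h7, h3.trans hT2⟩
      by_contra h8
      exact hy2 ⟨T0.card, not_lt.mp h8, T0, h7, h3.trans hT2⟩)
  have h2 : ∀ l ∈ Finset.Ioc w (2 * w), ((mins S l).card : ℝ) * (1 / q) ^ l
        ≤ (1 / 4 : ℝ) ^ l := by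
    intro l hl
    rw [Finset.mem_Ioc] at hl
    have h3 := mins_card2 M L k (2 * w) hS hcl hwL (l := l) hl.2
    have h5 : Kb M ^ l * (1 / q) ^ l ≤ (1 / 4 : ℝ) ^ l := by
      rw [← mul_pow]
      apply pow_le_pow_left₀
      · have := Kb_pos M; positivity
      · unfold Kb
        rw [mul_one_div, div_le_div_iff₀ hq0 (by norm_num)]
        linarith
    have h6 : (0 : ℝ) ≤ (1 / q) ^ l := by positivity
    exact (mul_le_mul_of_nonneg_right h3 h6).trans h5
  refine h1.trans ((Finset.sum_le_sum h2).trans ?_)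
  have h7 : ∀ n : ℕ, ∑ l ∈ Finset.Ioc w (w + n), (1 / 4 : ℝ) ^ l
      = ((1 / 4) ^ w - (1 / 4) ^ (w + n)) / 3 := by
    intro n
    induction n with
    | zero => simp
    | succ n ih =>
      rw [← add_assoc, Finset.sum_Ioc_succ_top (by omega), ih]
      ring
  have h8 := h7 w
  rw [← two_mul] at h8
  rw [h8]
  have h9 : (0 : ℝ) ≤ (1 / 4) ^ (2 * w) := by positivity
  have h10 : (0 : ℝ) ≤ (1 / 4) ^ w := by positivity
  linarith

/-- Approximators. -/
def Good2 (M L k w : ℕ) (A : Set (Finset V)) : Prop :=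
  IsUpperSet A ∧ Gen w A ∧ (𝔼 y : Y, ind A (cw y)) ≤ (nz M ^ (L * k)) (ind A) ∅

/-- One gate. -/
lemma gate_approx2 (M L k w : ℕ) (q : ℝ) (hq0 : 0 < q) (hk : 1 ≤ L * k)
    (hq : 256 * ((M : ℝ) + 1) ≤ q) (hwL : 2 * w < 2 ^ L)
    (hsp : Spread cw w q) {F : Set (Finset V)} (hF : IsUpperSet F) (hgen : Gen (2 * w) F) :
    ∃ A N P : Set (Finset V), Good2 cw M L k w A ∧
      (nz M ^ (L * k)) (ind N) ∅ ≤ ((Fintype.card V : ℝ) + 1) ^ (2 * w) * (1 / 4 : ℝ) ^ k ∧
      (𝔼 y : Y, ind P (cw y)) ≤ (1 / 4 : ℝ) ^ w ∧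
      (∀ W, W ∉ N → W ∈ A → W ∈ F) ∧ (∀ y, y ∉ P → y ∈ F → y ∈ A) := by
  obtain ⟨S, hS1, hS2, hS3, hS4, hS5⟩ := exists_closure2 M L k (2 * w) F hF hgen
  refine ⟨trim S w, S \ F, S \ trim S w, ⟨trim_upper S w, trim_gen S w,
    dominated2 cw M L k w q hq0 hk hq hwL hsp hS1 hS2⟩, hS5,
    trim_error2 cw M L k w q hq0 hq hwL hsp hS1 hS2 hS4, ?_, ?_⟩
  · intro W hW hWA
    by_contra hWF
    exact hW ⟨trim_subset hS1 w hWA, hWF⟩
  · intro y hy hyF
    by_contra hyA
    exact hy ⟨hS3 hyF, hyA⟩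

/-- The approximation method. -/
lemma approx_method2 (M L k w : ℕ) (q : ℝ) (hq0 : 0 < q) (hk : 1 ≤ L * k) (hw : 1 ≤ w)
    (hq : 256 * ((M : ℝ) + 1) ≤ q) (hwL : 2 * w < 2 ^ L)
    (hsp : Spread cw w q) (x : Finset V)
    {s : ℕ} {C : Set (Set (Finset V))} (hC : MonComp s C) :
    ∃ N P : Set (Finset V),
      (nz M ^ (L * k)) (ind N) ∅
        ≤ s * (((Fintype.card V : ℝ) + 1) ^ (2 * w) * (1 / 4 : ℝ) ^ k) ∧
      (𝔼 y : Y, ind P (cw y)) ≤ s * (1 / 4 : ℝ) ^ w ∧
      ∀ g ∈ C, ∃ A : Set (Finset V), Good2 cw M L k w A ∧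
        (∀ W, W ∉ N → W ∈ A → x ∪ W ∈ g) ∧ (∀ y, y ∉ P → x ∪ y ∈ g → y ∈ A) := by
  have hind0 : ind (∅ : Set (Finset V)) = fun _ => (0 : ℝ) := by
    funext y; rw [ind_of_notMem]; simp
  have hw1 : (1 : ℝ) ≤ w := by exact_mod_cast hw
  induction hC with
  | base =>
    refine ⟨∅, ∅, ?_, ?_, ?_⟩
    · rw [hind0, nz_pow_const]; simp
    · rw [hind0]; simp
    · rintro g (⟨v, rfl⟩ | rfl | rfl)
      · by_cases hv : v ∈ x
        · refine ⟨Set.univ, ⟨isUpperSet_univ, ?_, ?_⟩, ?_, ?_⟩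
          · intro y _
            exact ⟨∅, trivial, empty_subset y, by simp⟩
          · have h1 : ind (Set.univ : Set (Finset V)) = fun _ => (1 : ℝ) := by
              funext y; rw [ind_of_mem (Set.mem_univ y)]
            rw [h1, nz_pow_const]; simp
          · intro W _ _
            exact mem_union_left _ hv
          · intro y _ _
            trivial
        · refine ⟨{y | v ∈ y}, ⟨?_, ?_, ?_⟩, ?_, ?_⟩
          · intro a b hab ha
            exact hab ha
          · intro y hy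
            exact ⟨{v}, by simp, by simpa using hy, by simpa using hw⟩
          · have h1 : (𝔼 y : Y, ind {y | v ∈ y} (cw y)) ≤ 1 / q := by
              have h2 := hsp {v} (by simp; omega)
              rw [card_singleton, pow_one] at h2
              refine le_trans (Finset.expect_le_expect fun y _ => ?_) h2
              by_cases hvy : v ∈ cw y
              · rw [ind_of_mem (show cw y ∈ {y | v ∈ y} from hvy), if_pos (by simpa using hvy)]
              · rw [ind_of_notMem (show cw y ∉ {y | v ∈ y} from hvy)]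
                split_ifs <;> norm_num
            have h3 : (1 : ℝ) / (M + 1) ≤ nz M (ind {y | v ∈ y}) ∅ := by
              have h4 := expect_subset_zset M ({v} : Finset V)
              rw [card_singleton, pow_one] at h4
              rw [← h4, nz_apply]
              refine Finset.expect_le_expect fun ω _ => ?_
              by_cases hvz : ({v} : Finset V) ⊆ zset M ω
              · rw [if_pos hvz, ind_of_mem]
                simp only [empty_union, Set.mem_ofPred_eq]
                exact hvz (mem_singleton_self v)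
              · rw [if_neg hvz]; exact ind_nonneg _ _
            have h5 : nz M (ind {y | v ∈ y}) ∅ ≤ (nz M ^ (L * k)) (ind {y | v ∈ y}) ∅ := by
              have h6 : IsUpperSet {y : Finset V | v ∈ y} := by
                intro a b hab ha
                exact hab ha
              have := nz_pow_ind_mono_exp M hk h6 ∅
              rwa [pow_one] at this
            refine h1.trans (le_trans ?_ (h3.trans h5))
            apply one_div_le_one_div_of_le (by positivity)
            have : (0 : ℝ) ≤ (M : ℝ) + 1 := by positivity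
            nlinarith
          · intro W _ hW
            exact mem_union_right _ hW
          · intro y _ hy
            rcases mem_union.mp hy with h | h
            · exact absurd h hv
            · exact h
      · refine ⟨Set.univ, ⟨isUpperSet_univ, ?_, ?_⟩, ?_, ?_⟩
        · intro y _
          exact ⟨∅, trivial, empty_subset y, by simp⟩
        · have h1 : ind (Set.univ : Set (Finset V)) = fun _ => (1 : ℝ) := by
            funext y; rw [ind_of_mem (Set.mem_univ y)]
          rw [h1, nz_pow_const]; simp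
        · intro W _ _
          trivial
        · intro y _ _
          trivial
      · refine ⟨∅, ⟨isUpperSet_empty, ?_, ?_⟩, ?_, ?_⟩
        · intro y hy
          exact hy.elim
        · rw [hind0, nz_pow_const]; simp
        · intro W _ hW
          exact hW.elim
        · intro y _ hy
          exact hy.elim
  | @and s C f g _ hf hg ih =>
    obtain ⟨N, P, hN, hP, hA⟩ := ih
    obtain ⟨A, ⟨hA1, hA2, _⟩, hA4, hA5⟩ := hA f hf
    obtain ⟨B, ⟨hB1, hB2, _⟩, hB4, hB5⟩ := hA g hg
    have hgen : Gen (2 * w) (A ∩ B) := by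
      rintro y ⟨hy1, hy2⟩
      obtain ⟨T1, h1, h2, h3⟩ := hA2 y hy1
      obtain ⟨T2, h4, h5, h6⟩ := hB2 y hy2
      refine ⟨T1 ∪ T2, ⟨hA1 subset_union_left h1, hB1 subset_union_right h4⟩,
        union_subset h2 h5, ?_⟩
      have := card_union_le T1 T2
      omega
    obtain ⟨A', N', P', h1, h2, h3, h4, h5⟩ :=
      gate_approx2 cw M L k w q hq0 hk hq hwL hsp (hA1.inter hB1) hgen
    refine ⟨N ∪ N', P ∪ P', ?_, ?_, ?_⟩
    · have := nz_pow_union M (L * k) N N' (∅ : Finset V)
      push_cast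
      linarith
    · have := expect_union cw P P'
      push_cast
      linarith
    · rintro a (rfl | ha)
      · refine ⟨A', h1, ?_, ?_⟩
        · intro W hW hWA
          have h6 := h4 W (fun h => hW (Or.inr h)) hWA
          exact ⟨hA4 W (fun h => hW (Or.inl h)) h6.1, hB4 W (fun h => hW (Or.inl h)) h6.2⟩
        · intro y hy hyf
          exact h5 y (fun h => hy (Or.inr h))
            ⟨hA5 y (fun h => hy (Or.inl h)) hyf.1, hB5 y (fun h => hy (Or.inl h)) hyf.2⟩
      · obtain ⟨D, hD1, hD2, hD3⟩ := hA a ha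
        exact ⟨D, hD1, fun W hW => hD2 W (fun h => hW (Or.inl h)),
          fun y hy => hD3 y (fun h => hy (Or.inl h))⟩
  | @or s C f g _ hf hg ih =>
    obtain ⟨N, P, hN, hP, hA⟩ := ih
    obtain ⟨A, ⟨hA1, hA2, _⟩, hA4, hA5⟩ := hA f hf
    obtain ⟨B, ⟨hB1, hB2, _⟩, hB4, hB5⟩ := hA g hg
    have hgen : Gen (2 * w) (A ∪ B) := by
      rintro y (hy | hy)
      · obtain ⟨T1, h1, h2, h3⟩ := hA2 y hy
        exact ⟨T1, Or.inl h1, h2, by omega⟩
      · obtain ⟨T1, h1, h2, h3⟩ := hB2 y hy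
        exact ⟨T1, Or.inr h1, h2, by omega⟩
    obtain ⟨A', N', P', h1, h2, h3, h4, h5⟩ :=
      gate_approx2 cw M L k w q hq0 hk hq hwL hsp (hA1.union hB1) hgen
    refine ⟨N ∪ N', P ∪ P', ?_, ?_, ?_⟩
    · have := nz_pow_union M (L * k) N N' (∅ : Finset V)
      push_cast
      linarith
    · have := expect_union cw P P'
      push_cast
      linarith
    · rintro a (rfl | ha)
      · refine ⟨A', h1, ?_, ?_⟩
        · intro W hW hWA
          rcases h4 W (fun h => hW (Or.inr h)) hWA with h | h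
          · exact Or.inl (hA4 W (fun h => hW (Or.inl h)) h)
          · exact Or.inr (hB4 W (fun h => hW (Or.inl h)) h)
        · intro y hy hyf
          apply h5 y (fun h => hy (Or.inr h))
          rcases hyf with h | h
          · exact Or.inl (hA5 y (fun h => hy (Or.inl h)) h)
          · exact Or.inr (hB5 y (fun h => hy (Or.inl h)) h)
      · obtain ⟨D, hD1, hD2, hD3⟩ := hA a ha
        exact ⟨D, hD1, fun W hW => hD2 W (fun h => hW (Or.inl h)),
          fun y hy => hD3 y (fun h => hy (Or.inl h))⟩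

/-- **Domination.** -/
theorem domination2 (M L k w : ℕ) (q : ℝ) (hq0 : 0 < q) (hk : 1 ≤ L * k) (hw : 1 ≤ w)
    (hq : 256 * ((M : ℝ) + 1) ≤ q) (hwL : 2 * w < 2 ^ L) (hsp : Spread cw w q)
    (hkw : ((Fintype.card V : ℝ) + 1) ^ (2 * w) * (1 / 4 : ℝ) ^ k ≤ (1 / 4 : ℝ) ^ w)
    {s : ℕ} {g : Set (Finset V)} (hg : MonSize s g) (x : Finset V) :
    (𝔼 y : Y, ind g (x ∪ cw y)) ≤ (nz M ^ (L * k)) (ind g) x + s * (2 * (1 / 4 : ℝ) ^ w) := by
  obtain ⟨s', hs', C, hC, hgC⟩ := hg
  obtain ⟨N, P, hN, hP, hA⟩ := approx_method2 cw M L k w q hq0 hk hw hq hwL hsp x hC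
  obtain ⟨A, ⟨_, _, hA3⟩, hA4, hA5⟩ := hA g hgC
  have h1 : (𝔼 y : Y, ind g (x ∪ cw y)) ≤ (𝔼 y : Y, ind A (cw y)) + (𝔼 y : Y, ind P (cw y)) := by
    rw [← Finset.expect_add_distrib]
    refine Finset.expect_le_expect fun y _ => ?_
    by_cases h : x ∪ cw y ∈ g
    · rw [ind_of_mem h]
      by_cases h2 : cw y ∈ P
      · rw [ind_of_mem h2]; linarith [ind_nonneg A (cw y)]
      · rw [ind_of_mem (hA5 _ h2 h)]; linarith [ind_nonneg P (cw y)]
    · rw [ind_of_notMem h]; linarith [ind_nonneg A (cw y), ind_nonneg P (cw y)]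
  have h2 : (nz M ^ (L * k)) (ind A) ∅ ≤ (nz M ^ (L * k)) (ind g) x
      + (nz M ^ (L * k)) (ind N) ∅ := by
    have h3 : ind A ≤ (fun W => ind g (x ∪ W)) + ind N := by
      intro W
      simp only [Pi.add_apply]
      by_cases h : W ∈ A
      · rw [ind_of_mem h]
        by_cases h2 : W ∈ N
        · rw [ind_of_mem h2]; linarith [ind_nonneg g (x ∪ W)]
        · rw [ind_of_mem (hA4 _ h2 h)]; linarith [ind_nonneg N W]
      · rw [ind_of_notMem h]; linarith [ind_nonneg g (x ∪ W), ind_nonneg N W]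
    have h4 := nz_pow_mono M (L * k) h3 ∅
    rw [map_add] at h4
    simp only [Pi.add_apply] at h4
    rwa [nz_pow_shift, union_empty] at h4
  have h5 : (s' : ℝ) * (((Fintype.card V : ℝ) + 1) ^ (2 * w) * (1 / 4 : ℝ) ^ k)
      ≤ s' * (1 / 4 : ℝ) ^ w := mul_le_mul_of_nonneg_left hkw (by positivity)
  have h6 : (s' : ℝ) * (2 * (1 / 4 : ℝ) ^ w) ≤ s * (2 * (1 / 4 : ℝ) ^ w) := by
    apply mul_le_mul_of_nonneg_right _ (by positivity)
    exact_mod_cast hs'
  linarith

end dist

end Pool.Agent.NegLim
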