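import Pool.Agent.NegLim.State
import Pool.Agent.NegLim.Dom
import Pool.Agent.NegLim.Abstract

/-!
# Average-case lower bound, abstract form
-/

namespace Pool.Agent.NegLim

open Finset
open scoped BigOperators

set_option linter.unusedSectionVars false

variable {V : Type} [Fintype V] [DecidableEq V]

lemma chi_mono {x z : Finset V} (h : x ⊆ z) : chi x ≤ chi z := by
  intro v
  unfold chi
  by_cases hv : v ∈ x
  · simp [hv, h hv]
  · simp [hv]

lemma flips_le_of_flipsAtMost (C : Circuit V) {a : ℕ} (h : C.FlipsAtMost a) : C.flips ≤ a := by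
  unfold Circuit.flips
  refine Finset.expect_le univ_nonempty fun π _ => ?_
  have h1 := h (fun k => stage π k) (by
    intro i j hij
    show stage π i ≤ stage π j
    rw [← chi_chain, ← chi_chain]
    apply chi_mono
    intro v hv
    rw [mem_chain] at hv ⊢
    omega) (Fintype.card V)
  exact_mod_cast h1

section

variable {Y : Type} [Fintype Y] [Nonempty Y] (cw : Y → Finset V)

/-- The expectation over the random input: with probability `1/2` the state of the noise
process after `D * i` rounds, `i < r` random, with probability `1/2` its union with `cw y`. -/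
noncomputable def Mu (M D r : ℕ) (φ : Finset V → ℝ) : ℝ :=
  (∑ i ∈ range r, ((nz M ^ (D * i)) φ ∅
    + (nz M ^ (D * i)) (fun z => 𝔼 y : Y, φ (z ∪ cw y)) ∅)) / (2 * r)

lemma Mu_mono (M D r : ℕ) {φ ψ : Finset V → ℝ} (h : φ ≤ ψ) : Mu cw M D r φ ≤ Mu cw M D r ψ := by
  unfold Mu
  apply div_le_div_of_nonneg_right _ (by positivity)
  refine Finset.sum_le_sum fun i _ => add_le_add ?_ ?_
  · exact nz_pow_mono M _ h ∅
  · apply nz_pow_mono
    intro z
    exact Finset.expect_le_expect fun y _ => h _

lemma Mu_const (M D r : ℕ) (hr : 1 ≤ r) (a : ℝ) : Mu cw M D r (fun _ => a) = a := by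
  unfold Mu
  have h1 : ∀ i ∈ range r, ((nz M ^ (D * i)) (fun _ : Finset V => a) ∅
    + (nz M ^ (D * i)) (fun z => 𝔼 y : Y, (fun _ : Finset V => a) (z ∪ cw y)) ∅) = 2 * a := by
    intro i _
    simp only [Fintype.expect_const]
    rw [nz_pow_const]
    ring
  rw [Finset.sum_congr rfl h1, Finset.sum_const, card_range, nsmul_eq_mul]
  have : (r : ℝ) ≠ 0 := by exact_mod_cast (by omega : r ≠ 0)
  field_simp

lemma Mu_sum (M D r : ℕ) {ι : Type} (s : Finset ι) (φ : ι → Finset V → ℝ) (c : ι → ℝ) :
    Mu cw M D r (fun x => ∑ i ∈ s, c i * φ i x) = ∑ i ∈ s, c i * Mu cw M D r (φ i) := by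
  unfold Mu
  have e1 : (fun x => ∑ i ∈ s, c i * φ i x) = ∑ i ∈ s, c i • φ i := by
    funext x; simp [Finset.sum_apply]
  have h1 : ∀ j, (nz M ^ (D * j)) (fun x => ∑ i ∈ s, c i * φ i x) ∅
      = ∑ i ∈ s, c i * (nz M ^ (D * j)) (φ i) ∅ := by
    intro j
    rw [e1, map_sum, Finset.sum_apply]
    refine Finset.sum_congr rfl fun i _ => ?_
    rw [map_smul]; rfl
  have h2 : ∀ j, (nz M ^ (D * j)) (fun z => 𝔼 y : Y, ∑ i ∈ s, c i * φ i (z ∪ cw y)) ∅
      = ∑ i ∈ s, c i * (nz M ^ (D * j)) (fun z => 𝔼 y : Y, φ i (z ∪ cw y)) ∅ := by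
    intro j
    have e2 : (fun z => 𝔼 y : Y, ∑ i ∈ s, c i * φ i (z ∪ cw y))
        = ∑ i ∈ s, c i • (fun z => 𝔼 y : Y, φ i (z ∪ cw y)) := by
      funext z
      rw [Finset.expect_sum_comm, Finset.sum_apply]
      refine Finset.sum_congr rfl fun i _ => ?_
      simp only [Pi.smul_apply, smul_eq_mul]
      rw [Finset.mul_expect]
    rw [e2, map_sum, Finset.sum_apply]
    refine Finset.sum_congr rfl fun i _ => ?_
    rw [map_smul]; rfl
  simp only [h1, h2]
  rw [Finset.sum_congr rfl fun j _ => (Finset.sum_add_distrib (s := s)).symm, Finset.sum_comm]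
  rw [Finset.sum_div]
  refine Finset.sum_congr rfl fun i _ => ?_
  rw [← mul_div_assoc, Finset.mul_sum]
  congr 1
  refine Finset.sum_congr rfl fun j _ => ?_
  ring

/-- Decomposition into point masses. -/
lemma Mu_points (M D r : ℕ) (φ : Finset V → ℝ) :
    ∑ x : Finset V, φ x * Mu cw M D r (ind {x}) = Mu cw M D r φ := by
  rw [← Mu_sum]
  congr 1
  funext z
  have h1 : ∀ x ∈ (univ : Finset (Finset V)), φ x * ind {x} z = if x = z then φ x else 0 := by
    intro x _
    split_ifs with h
    · subst h
      rw [ind_of_mem (Set.mem_singleton x), mul_one]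
    · rw [ind_of_notMem (fun h' => h (Set.mem_singleton_iff.mp h').symm), mul_zero]
  rw [Finset.sum_congr rfl h1, Finset.sum_ite_eq' univ z φ, if_pos (mem_univ z)]

/-- **Advantage bound**: for every circuit of few flips the advantage in telling the two halves
of the random input apart is small. -/
theorem advantage (M L k w r : ℕ) (q : ℝ) (hq0 : 0 < q) (hk : 1 ≤ L * k) (hw : 1 ≤ w)
    (hq : 256 * ((M : ℝ) + 1) ≤ q) (hwL : 2 * w < 2 ^ L) (hsp : Spread cw w q)
    (hkw : ((Fintype.card V : ℝ) + 1) ^ (2 * w) * (1 / 4 : ℝ) ^ k ≤ (1 / 4 : ℝ) ^ w)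
    (C : Circuit V) {T : ℕ} (out : Fin T → Wire V) (g : (Fin T → Bool) → Bool) :
    ∑ i ∈ range r, (nz M ^ (L * k * i)) (fun x =>
        (𝔼 y : Y, ip (g (fun i => C.val (chi (x ∪ cw y)) (out i)) = true))
          - ip (g (fun i => C.val (chi x) (out i)) = true)) ∅
      ≤ (T + 1) * (C.flips + 1) - 1 + r * ((C.size + T : ℕ) * (2 * (1 / 4 : ℝ) ^ w)) := by
  set D := L * k with hD
  set E : ℝ := ((C.size + T : ℕ) : ℝ) * (2 * (1 / 4 : ℝ) ^ w) with hE
  have h1 : ∀ x : Finset V, (𝔼 y : Y, ip (g (fun i => C.val (chi (x ∪ cw y)) (out i)) = true))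
          - ip (g (fun i => C.val (chi x) (out i)) = true)
      ≤ (nz M ^ D) (fun z => ip (stateOf C out x ≠ stateOf C out z)) x + E := by
    intro x
    obtain ⟨F, hF, hmem⟩ := state_fam C out x
    have h2 := domination2 cw M L k w q hq0 hk hw hq hwL hsp hkw hF x
    have h3 : (𝔼 y : Y, ip (g (fun i => C.val (chi (x ∪ cw y)) (out i)) = true))
          - ip (g (fun i => C.val (chi x) (out i)) = true) ≤ 𝔼 y : Y, ind F (x ∪ cw y) := by
      rw [← Fintype.expect_const (ι := Y) (ip (g (fun i => C.val (chi x) (out i)) = true)),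
        ← Finset.expect_sub_distrib]
      refine Finset.expect_le_expect fun y _ => ?_
      by_cases h : x ∪ cw y ∈ F
      · rw [ind_of_mem h]
        linarith [ip_le_one (g (fun i => C.val (chi (x ∪ cw y)) (out i)) = true),
          ip_nonneg (g (fun i => C.val (chi x) (out i)) = true)]
      · rw [ind_of_notMem h]
        rw [hmem _ subset_union_left, not_ne_iff] at h
        have h4 := (Prod.ext_iff.mp h).2
        simp only [stateOf] at h4
        rw [h4]
        linarith
    have h4 : (nz M ^ D) (ind F) x ≤ (nz M ^ D) (fun z => ip (stateOf C out x ≠ stateOf C out z)) x := by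
      apply nz_pow_le_of
      intro z hz
      by_cases h : z ∈ F
      · rw [ind_of_mem h, ip_true ((hmem z hz).mp h)]
      · rw [ind_of_notMem h]
        exact ip_nonneg _
    linarith
  have h2 : ∀ i ∈ range r, (nz M ^ (D * i)) (fun x =>
        (𝔼 y : Y, ip (g (fun i => C.val (chi (x ∪ cw y)) (out i)) = true))
          - ip (g (fun i => C.val (chi x) (out i)) = true)) ∅
      ≤ (nz M ^ (D * i)) (fun x => (nz M ^ D) (fun z => ip (stateOf C out x ≠ stateOf C out z)) x) ∅
        + E := by
    intro i _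
    have h3 := nz_pow_mono M (D * i) (g := fun x =>
        (𝔼 y : Y, ip (g (fun i => C.val (chi (x ∪ cw y)) (out i)) = true))
          - ip (g (fun i => C.val (chi x) (out i)) = true))
      (h := (fun x => (nz M ^ D) (fun z => ip (stateOf C out x ≠ stateOf C out z)) x)
        + fun _ => E) h1 ∅
    rw [map_add, nz_pow_const] at h3
    exact h3
  refine (Finset.sum_le_sum h2).trans ?_
  rw [Finset.sum_add_distrib, Finset.sum_const, card_range, nsmul_eq_mul]
  have h3 := walk_le (stateOf C out) M D r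
  have h4 := avgCh_state C out
  linarith

/-- The probability of a right answer under the random input. -/
theorem correct_prob (M L k w r : ℕ) (q : ℝ) (hq0 : 0 < q) (hk : 1 ≤ L * k) (hw : 1 ≤ w)
    (hr : 1 ≤ r)
    (hq : 256 * ((M : ℝ) + 1) ≤ q) (hwL : 2 * w < 2 ^ L) (hsp : Spread cw w q)
    (hkw : ((Fintype.card V : ℝ) + 1) ^ (2 * w) * (1 / 4 : ℝ) ^ k ≤ (1 / 4 : ℝ) ^ w)
    (γ : ℝ) (hγ : ∀ i < r, (nz M ^ (L * k * i)) (ind (upFam cw)) ∅ ≤ γ)
    (C : Circuit V) {T : ℕ} (out : Fin T → Wire V) (g : (Fin T → Bool) → Bool)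
    (herr : r * ((C.size + T : ℕ) * (2 * (1 / 4 : ℝ) ^ w)) + r * γ ≤ 1) :
    Mu cw M (L * k) r
      (ind {x | g (fun i => C.val (chi x) (out i)) = true ↔ x ∈ upFam cw})
      ≤ 1 / 2 + (T + 1) * (C.flips + 1) / (2 * r) := by
  set D := L * k with hD
  set H : Finset V → ℝ := fun x => ip (g (fun i => C.val (chi x) (out i)) = true) with hH
  set φ : Finset V → ℝ :=
    ind {x | g (fun i => C.val (chi x) (out i)) = true ↔ x ∈ upFam cw} with hφ
  have h1 : φ ≤ (fun _ => (1 : ℝ)) - H + ind (upFam cw) := by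
    intro x
    simp only [Pi.add_apply, Pi.sub_apply, hφ, hH]
    by_cases hx : x ∈ upFam cw
    · rw [ind_of_mem hx]
      linarith [ind_le_one {x | g (fun i => C.val (chi x) (out i)) = true ↔ x ∈ upFam cw} x,
        ip_le_one (g (fun i => C.val (chi x) (out i)) = true)]
    · rw [ind_of_notMem hx]
      by_cases hg : g (fun i => C.val (chi x) (out i)) = true
      · rw [ind_of_notMem, ip_true hg]
        · norm_num
        · intro h
          exact hx (h.mp hg)
      · rw [ip_false hg]
        linarith [ind_le_one {x | g (fun i => C.val (chi x) (out i)) = true ↔ x ∈ upFam cw} x]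
  have h2 : ∀ (x : Finset V) (y : Y), φ (x ∪ cw y) = H (x ∪ cw y) := by
    intro x y
    have hmem : x ∪ cw y ∈ upFam cw := ⟨y, subset_union_right⟩
    simp only [hφ, hH]
    by_cases hg : g (fun i => C.val (chi (x ∪ cw y)) (out i)) = true
    · rw [ind_of_mem, ip_true hg]
      exact ⟨fun _ => hmem, fun _ => hg⟩
    · rw [ind_of_notMem, ip_false hg]
      intro h
      exact hg (h.mpr hmem)
  have h3 : ∀ i ∈ range r, (nz M ^ (D * i)) φ ∅ + (nz M ^ (D * i)) (fun z => 𝔼 y : Y, φ (z ∪ cw y)) ∅
      ≤ (1 + γ) + (nz M ^ (D * i)) (fun x => (𝔼 y : Y, H (x ∪ cw y)) - H x) ∅ := by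
    intro i hi
    have h4 := nz_pow_mono M (D * i) h1 ∅
    rw [map_add, map_sub, nz_pow_const] at h4
    simp only [Pi.add_apply, Pi.sub_apply] at h4
    have h5 : (fun x => (𝔼 y : Y, H (x ∪ cw y)) - H x)
        = (fun z => 𝔼 y : Y, φ (z ∪ cw y)) - H := by
      funext x
      simp only [Pi.sub_apply, h2]
    rw [h5, map_sub]
    simp only [Pi.sub_apply]
    linarith [hγ i (mem_range.mp hi)]
  have h4 := advantage cw M L k w r q hq0 hk hw hq hwL hsp hkw C out g
  have h5 : ∑ i ∈ range r, ((nz M ^ (D * i)) φ ∅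
      + (nz M ^ (D * i)) (fun z => 𝔼 y : Y, φ (z ∪ cw y)) ∅)
      ≤ r + (T + 1) * (C.flips + 1) := by
    refine (Finset.sum_le_sum h3).trans ?_
    rw [Finset.sum_add_distrib, Finset.sum_const, card_range, nsmul_eq_mul]
    have h6 : (r : ℝ) * (1 + γ) = r + r * γ := by ring
    rw [h6]
    linarith
  unfold Mu
  have hr0 : (0 : ℝ) < r := by exact_mod_cast (by omega : 0 < r)
  rw [div_le_iff₀ (by positivity)]
  refine h5.trans (le_of_eq ?_)
  field_simp

end

/-- The values of the NOT gates change at most `2^t - 1` times along a chain (Markov). -/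
lemma notVals_changes (C : Circuit V) (X : ℕ → Finset V) (hX : ∀ k, X k ⊆ X (k + 1)) (n : ℕ) :
    ∑ k ∈ range n, ip (Circuit.notVals C (chi (X k)) ≠ Circuit.notVals C (chi (X (k + 1)))) + 1
      ≤ 2 ^ C.negs := by
  induction C using List.reverseRecOn with
  | nil =>
    have h1 : ∀ k ∈ range n, ip (Circuit.notVals ([] : Circuit V) (chi (X k))
        ≠ Circuit.notVals ([] : Circuit V) (chi (X (k + 1)))) = 0 := by
      intro k _
      apply ip_false
      simp [Circuit.notVals]
    rw [Finset.sum_congr rfl h1]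
    simp [Circuit.negs]
  | append_singleton C a ih =>
    by_cases ha : a.isNot = true
    · cases a with
      | and a b => simp [Gate.isNot] at ha
      | or a b => simp [Gate.isNot] at ha
      | not a =>
        have hn : Circuit.negs (C ++ [Gate.not a]) = Circuit.negs C + 1 := by
          simp [Circuit.negs, List.countP_append, Gate.isNot]
        have h1 := state_changes C (T := 1) (fun _ => a) X hX n
        have h2 : ∑ k ∈ range n, ip (Circuit.notVals (C ++ [Gate.not a]) (chi (X k))
              ≠ Circuit.notVals (C ++ [Gate.not a]) (chi (X (k + 1))))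
            ≤ ∑ k ∈ range n, ip (stateOf C (fun _ : Fin 1 => a) (X k)
              ≠ stateOf C (fun _ : Fin 1 => a) (X (k + 1))) := by
          refine Finset.sum_le_sum fun k _ => ip_mono ?_
          intro h h3
          apply h
          have h4 := (Prod.ext_iff.mp h3).1
          have h5 := congrFun (Prod.ext_iff.mp h3).2 0
          simp only [stateOf] at h4 h5
          rw [notVals_snoc, notVals_snoc]
          simp only [Gate.isNot, if_true]
          rw [h4]
          congr 2
          unfold Circuit.val at h5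
          simp only [Gate.val]
          rw [h5]
        rw [hn, pow_succ]
        push_cast at h1
        linarith
    · have hn : Circuit.negs (C ++ [a]) = Circuit.negs C := by
        simp [Circuit.negs, List.countP_append, ha]
      rw [hn]
      have : ∀ x : V → Bool, Circuit.notVals (C ++ [a]) x = Circuit.notVals C x := by
        intro x
        rw [notVals_snoc]
        simp [ha]
      simp only [this]
      exact ih

end Pool.Agent.NegLim
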