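import Pool.Agent.NegLim.CliqueAvg

/-!
# Average-case lower bound for the clique function: asymptotics
-/

namespace Pool.Agent.NegLim

open Finset
open scoped BigOperators

/-- The choice of the parameters. -/
lemma clique_numbers (m w : ℕ) (hw : 1 ≤ w) (hlog : Nat.log 2 m ≤ w)
    (hm : 2 ^ 16 * w ^ 2 * (Nat.log 2 m + 1) ^ 3 ≤ m) :
    ∃ w' M L k r N h : ℕ, 1 ≤ h ∧ 1 ≤ w' ∧ 2 * w' ≤ N ∧ N ≤ 4 ^ h ∧ 256 * (M + 1) ≤ 4 ^ h ∧
      2 * w' < 2 ^ L ∧ (N * 4 ^ h + 1) ^ (2 * w') * 4 ^ w' ≤ 4 ^ k ∧ 2 * (L * k * r) ≤ M + 1 ∧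
      1 ≤ r ∧ 2 * r * 2 ^ (4 * w' * h) ≤ 2 ^ N ∧
      N * (2 * 2 ^ h) + N * (2 * h * (4 * w' * h)) * 4 ≤ m / 4 ∧ 2 ≤ m / 2 ∧
      m ^ 2 ≤ 2 ^ 38 * (w ^ 3 * (Nat.log 2 m + 1) ^ 4) * r ∧
      4 * r ≤ 2 ^ (2 * (Nat.log 2 m + 1)) ∧ w + 4 * (Nat.log 2 m + 1) ≤ 2 * w' := by
  set l := Nat.log 2 m + 1 with hl
  have hl1 : 1 ≤ l := by omega
  have hml : m < 2 ^ l := Nat.lt_pow_succ_log_self (by norm_num) m
  have hm16 : 2 ^ 16 ≤ m := by
    calc 2 ^ 16 = 2 ^ 16 * 1 ^ 2 * 1 ^ 3 := by norm_num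
      _ ≤ 2 ^ 16 * w ^ 2 * l ^ 3 := by
        apply Nat.mul_le_mul
        · exact Nat.mul_le_mul_left _ (Nat.pow_le_pow_left hw 2)
        · exact Nat.pow_le_pow_left hl1 3
      _ ≤ m := hm
  have hl16 : 16 < l := by
    have h1 : 2 ^ 16 < 2 ^ l := lt_of_le_of_lt hm16 hml
    exact (Nat.pow_lt_pow_iff_right (by norm_num)).mp h1
  set w' := w + 2 * l + 1 with hw'
  have hw6 : w' ≤ 6 * w := by omega
  have hw'1 : 1 ≤ w' := by omega
  set D := 96 * w' * l with hD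
  have hDpos : 0 < D := by positivity
  have hD576 : D ≤ 576 * (w * l) := by
    calc D = 96 * l * w' := by rw [hD]; ring
      _ ≤ 96 * l * (6 * w) := Nat.mul_le_mul_left _ hw6
      _ = 576 * (w * l) := by ring
  have hwl : w * l ≤ w ^ 2 * l ^ 3 := by
    calc w * l = (w * l) * 1 := by ring
      _ ≤ (w * l) * (w * l ^ 2) := Nat.mul_le_mul_left _ (Nat.mul_pos hw (by positivity))
      _ = w ^ 2 * l ^ 3 := by ring
  have hm' : 2 ^ 16 * (w ^ 2 * l ^ 3) ≤ m := by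
    calc 2 ^ 16 * (w ^ 2 * l ^ 3) = 2 ^ 16 * w ^ 2 * l ^ 3 := by ring
      _ ≤ m := hm
  set X := m / D with hX
  have hX2 : 2 ≤ X := by
    rw [hX, Nat.le_div_iff_mul_le hDpos]
    calc 2 * D ≤ 2 * (576 * (w * l)) := Nat.mul_le_mul_left 2 hD576
      _ = 1152 * (w * l) := by ring
      _ ≤ 2 ^ 16 * (w ^ 2 * l ^ 3) := Nat.mul_le_mul (by norm_num) hwl
      _ ≤ m := hm'
  have hDX : D * X ≤ m := Nat.mul_div_le m D
  have hmX : m ≤ 2 * (D * X) := by
    have h1 : m < D * (X + 1) := Nat.lt_mul_div_succ m hDpos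
    have h2 : D * (X + 1) = D * X + D := by ring
    have h3 : D ≤ D * X := Nat.le_mul_of_pos_right D (by omega)
    omega
  set h := Nat.log 2 X with hh
  have hh1 : 1 ≤ h := Nat.log_pos (by norm_num) hX2
  have h2h : 2 ^ h ≤ X := Nat.pow_log_le_self 2 (by omega)
  have hX2h : X < 2 ^ (h + 1) := Nat.lt_pow_succ_log_self (by norm_num) X
  have hXm : X ≤ m := Nat.div_le_self m D
  have hhl : h < l := by
    have : 2 ^ h < 2 ^ l := lt_of_le_of_lt (h2h.trans hXm) hml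
    exact (Nat.pow_lt_pow_iff_right (by norm_num)).mp this
  have h4h : (4 : ℕ) ^ h = 2 ^ h * 2 ^ h := by rw [← mul_pow]; norm_num
  -- relation between m and 4^h
  have e1 : m ^ 2 ≤ 16 * D ^ 2 * 4 ^ h := by
    calc m ^ 2 ≤ (2 * (D * X)) ^ 2 := Nat.pow_le_pow_left hmX 2
      _ = 4 * (D ^ 2 * X ^ 2) := by ring
      _ ≤ 4 * (D ^ 2 * (2 ^ (h + 1)) ^ 2) := by
          apply Nat.mul_le_mul_left
          apply Nat.mul_le_mul_left
          exact Nat.pow_le_pow_left hX2h.le 2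
      _ = 16 * D ^ 2 * 4 ^ h := by rw [h4h]; ring
  have hlarge : 2 ^ 9 * (w ^ 2 * l ^ 4) ≤ 4 ^ h := by
    have e2 : (2 ^ 23 * (w ^ 2 * l ^ 2)) * (2 ^ 9 * (w ^ 2 * l ^ 4))
        ≤ (2 ^ 23 * (w ^ 2 * l ^ 2)) * 4 ^ h := by
      calc (2 ^ 23 * (w ^ 2 * l ^ 2)) * (2 ^ 9 * (w ^ 2 * l ^ 4))
          = (2 ^ 16 * (w ^ 2 * l ^ 3)) ^ 2 := by ring
        _ ≤ m ^ 2 := Nat.pow_le_pow_left hm' 2
        _ ≤ 16 * D ^ 2 * 4 ^ h := e1
        _ ≤ 16 * (576 * (w * l)) ^ 2 * 4 ^ h := by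
            apply Nat.mul_le_mul_right
            apply Nat.mul_le_mul_left
            exact Nat.pow_le_pow_left hD576 2
        _ = 5308416 * (w ^ 2 * l ^ 2) * 4 ^ h := by ring
        _ ≤ (2 ^ 23 * (w ^ 2 * l ^ 2)) * 4 ^ h := by
            apply Nat.mul_le_mul_right
            exact Nat.mul_le_mul_right _ (by norm_num)
    exact Nat.le_of_mul_le_mul_left e2 (by positivity)
  set k := w' * (2 * l + 1) with hk
  set L := Nat.log 2 (2 * w') + 1 with hL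
  set Q := 4 ^ h / 256 with hQ
  set N := (4 * w' + 2) * h with hN
  have hL2 : 2 * w' < 2 ^ L := Nat.lt_pow_succ_log_self (by norm_num) _
  have hLpos : 1 ≤ L := by omega
  have hN6 : N ≤ 6 * (w' * h) := by
    calc N ≤ (6 * w') * h := Nat.mul_le_mul_right h (by omega)
      _ = 6 * (w' * h) := by ring
  have hN6l : N ≤ 6 * (w' * l) :=
    hN6.trans (Nat.mul_le_mul_left 6 (Nat.mul_le_mul_left w' hhl.le))
  have hN36 : N ≤ 36 * (w * l) := by
    calc N ≤ 6 * (w' * l) := hN6l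
      _ ≤ 6 * (6 * w * l) := Nat.mul_le_mul_left 6 (Nat.mul_le_mul_right l hw6)
      _ = 36 * (w * l) := by ring
  have hNm : N * 2 ^ h * 16 ≤ m := by
    calc N * 2 ^ h * 16 ≤ 6 * (w' * l) * X * 16 := by
          apply Nat.mul_le_mul_right
          exact Nat.mul_le_mul hN6l h2h
      _ = D * X := by rw [hD]; ring
      _ ≤ m := hDX
  have h2wN : 2 * w' ≤ N := by
    calc 2 * w' ≤ (4 * w' + 2) * 1 := by omega
      _ ≤ N := Nat.mul_le_mul_left _ hh1
  have hNlem : N ≤ m := by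
    have : N * 1 ≤ N * (2 ^ h * 16) := Nat.mul_le_mul_left N (by
      have : 1 ≤ 2 ^ h := Nat.one_le_two_pow
      omega)
    have e : N * (2 ^ h * 16) = N * 2 ^ h * 16 := by ring
    omega
  have hLl : L ≤ l := by
    have : Nat.log 2 (2 * w') ≤ Nat.log 2 m := Nat.log_mono_right (h2wN.trans hNlem)
    omega
  have hLk : L * k ≤ 3 * (w' * l ^ 2) := by
    calc L * k ≤ l * (w' * (2 * l + l)) := by
          apply Nat.mul_le_mul hLl
          exact Nat.mul_le_mul_left _ (by omega)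
      _ = 3 * (w' * l ^ 2) := by ring
  have hkpos : 0 < k := by positivity
  have hLkpos : 0 < L * k := Nat.mul_pos (by omega) hkpos
  have hLk18 : L * k ≤ 18 * (w * l ^ 2) := by
    calc L * k ≤ 3 * (w' * l ^ 2) := hLk
      _ ≤ 3 * (6 * w * l ^ 2) := Nat.mul_le_mul_left 3 (Nat.mul_le_mul_right _ hw6)
      _ = 18 * (w * l ^ 2) := by ring
  have hQ2 : 2 * (L * k) ≤ Q := by
    rw [hQ, Nat.le_div_iff_mul_le (by norm_num)]
    calc 2 * (L * k) * 256 ≤ 2 * (18 * (w * l ^ 2)) * 256 := by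
          apply Nat.mul_le_mul_right
          exact Nat.mul_le_mul_left 2 hLk18
      _ = 9216 * (w * l ^ 2) := by ring
      _ ≤ 2 ^ 9 * (w ^ 2 * l ^ 4) := by
          have h1 : 18 * 1 ≤ l ^ 2 * w := by
            apply Nat.mul_le_mul _ hw
            calc 18 ≤ 17 ^ 2 := by norm_num
              _ ≤ l ^ 2 := Nat.pow_le_pow_left hl16 2
          calc 9216 * (w * l ^ 2) = 2 ^ 9 * ((18 * 1) * (w * l ^ 2)) := by ring
            _ ≤ 2 ^ 9 * ((l ^ 2 * w) * (w * l ^ 2)) := by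
                apply Nat.mul_le_mul_left
                exact Nat.mul_le_mul_right _ h1
            _ = 2 ^ 9 * (w ^ 2 * l ^ 4) := by ring
      _ ≤ 4 ^ h := hlarge
  have hQ1 : 1 ≤ Q := by omega
  set r := Q / (2 * (L * k)) with hr
  have hr1 : 1 ≤ r := by
    rw [hr, Nat.le_div_iff_mul_le (by positivity)]
    omega
  have hr2 : 2 * (L * k) * r ≤ Q := Nat.mul_div_le Q _
  have hQr : Q ≤ 4 * (L * k) * r := by
    have h1 : Q < 2 * (L * k) * (r + 1) := Nat.lt_mul_div_succ Q (by positivity)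
    have h2 : 2 * (L * k) * (r + 1) = 2 * (L * k) * r + 2 * (L * k) := by ring
    have h3 : 2 * (L * k) ≤ 2 * (L * k) * r := Nat.le_mul_of_pos_right _ (by omega)
    have h4 : 4 * (L * k) * r = 2 * (L * k) * r + 2 * (L * k) * r := by ring
    omega
  have h4Q : 4 ^ h ≤ 512 * Q := by
    have h1 : 4 ^ h < 256 * (Q + 1) := Nat.lt_mul_div_succ _ (by norm_num)
    omega
  -- the final comparison
  have hmr : m ^ 2 ≤ 2 ^ 38 * (w ^ 3 * l ^ 4) * r := by
    calc m ^ 2 ≤ 16 * D ^ 2 * 4 ^ h := e1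
      _ ≤ 16 * D ^ 2 * (512 * Q) := Nat.mul_le_mul_left _ h4Q
      _ ≤ 16 * D ^ 2 * (512 * (4 * (L * k) * r)) := by
          apply Nat.mul_le_mul_left
          exact Nat.mul_le_mul_left _ hQr
      _ ≤ 16 * D ^ 2 * (512 * (4 * (3 * (w' * l ^ 2)) * r)) := by
          apply Nat.mul_le_mul_left
          apply Nat.mul_le_mul_left
          apply Nat.mul_le_mul_right
          exact Nat.mul_le_mul_left 4 hLk
      _ = 905969664 * (w' ^ 3 * l ^ 4) * r := by rw [hD]; ring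
      _ ≤ 905969664 * ((6 * w) ^ 3 * l ^ 4) * r := by
          apply Nat.mul_le_mul_right
          apply Nat.mul_le_mul_left
          apply Nat.mul_le_mul_right
          exact Nat.pow_le_pow_left hw6 3
      _ = 195689447424 * (w ^ 3 * l ^ 4) * r := by ring
      _ ≤ 2 ^ 38 * (w ^ 3 * l ^ 4) * r := by
          apply Nat.mul_le_mul_right
          exact Nat.mul_le_mul_right _ (by norm_num)
  have hr2h : 2 * r ≤ 2 ^ (2 * h) := by
    have h1 : 2 * r ≤ Q := by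
      calc 2 * r = 2 * 1 * r := by ring
        _ ≤ 2 * (L * k) * r := Nat.mul_le_mul_right r (by omega)
        _ ≤ Q := hr2
    have h2 : Q ≤ 4 ^ h := Nat.div_le_self _ _
    have h3 : (4 : ℕ) ^ h = 2 ^ (2 * h) := by rw [pow_mul]; norm_num
    omega
  have hr2l : 4 * r ≤ 2 ^ (2 * l) := by
    have h1 : 2 ^ (2 * h) * 4 ≤ 2 ^ (2 * l) := by
      calc 2 ^ (2 * h) * 4 = 2 ^ (2 * h + 2) := by rw [pow_add]; norm_num
        _ ≤ 2 ^ (2 * l) := Nat.pow_le_pow_right (by norm_num) (by omega)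
    omega
  have hm4 : 4 ≤ m := by omega
  have c1 : N ≤ 4 ^ h :=
    (by
      calc N ≤ 36 * (w * l) := hN36
        _ ≤ 2 ^ 9 * (w ^ 2 * l ^ 4) := by
          apply Nat.mul_le_mul (by norm_num)
          calc w * l ≤ w ^ 2 * l ^ 3 := hwl
            _ ≤ w ^ 2 * l ^ 4 := Nat.mul_le_mul_left _ (Nat.pow_le_pow_right hl1 (by norm_num))
        _ ≤ 4 ^ h := hlarge)
  have c2 : 256 * (Q - 1 + 1) ≤ 4 ^ h :=
    (by
      have : Q - 1 + 1 = Q := by omega
      rw [this]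
      exact Nat.mul_div_le _ _)
  have c3 : (N * 4 ^ h + 1) ^ (2 * w') * 4 ^ w' ≤ 4 ^ k :=
    (by
      have e2 : N * 4 ^ h + 1 ≤ 2 ^ (2 * l) := by
        have e2 : N * 4 ^ h = N * 2 ^ h * 2 ^ h := by rw [h4h]; ring
        have e3 : N * 2 ^ h * 2 ^ h * 16 ≤ m * m := by
          calc N * 2 ^ h * 2 ^ h * 16 = (N * 2 ^ h * 16) * 2 ^ h := by ring
            _ ≤ m * m := Nat.mul_le_mul hNm (h2h.trans hXm)
        have e4 : m * m < 2 ^ l * 2 ^ l := Nat.mul_lt_mul'' hml hml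
        have e5 : 2 ^ l * 2 ^ l = 2 ^ (2 * l) := by rw [← pow_add, two_mul]
        omega
      have e3 : (4 : ℕ) = 2 ^ 2 := by norm_num
      calc (N * 4 ^ h + 1) ^ (2 * w') * 4 ^ w' ≤ (2 ^ (2 * l)) ^ (2 * w') * 4 ^ w' :=
            Nat.mul_le_mul_right _ (Nat.pow_le_pow_left e2 _)
        _ = 4 ^ k := by
            rw [e3, ← pow_mul, ← pow_mul, ← pow_mul, ← pow_add, hk]
            congr 1; ring)
  have c4 : 2 * (L * k * r) ≤ Q - 1 + 1 :=
    (by
      have : Q - 1 + 1 = Q := by omega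
      rw [this]
      calc 2 * (L * k * r) = 2 * (L * k) * r := by ring
        _ ≤ Q := hr2)
  have c5 : 2 * r * 2 ^ (4 * w' * h) ≤ 2 ^ N :=
    (by
      calc 2 * r * 2 ^ (4 * w' * h) ≤ 2 ^ (2 * h) * 2 ^ (4 * w' * h) :=
            Nat.mul_le_mul_right _ hr2h
        _ = 2 ^ N := by
            rw [← pow_add, hN]
            congr 1; ring)
  have c6 : N * (2 * 2 ^ h) + N * (2 * h * (4 * w' * h)) * 4 ≤ m / 4 :=
    (by
      rw [Nat.le_div_iff_mul_le (by norm_num)]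
      have e2 : (N * (2 * 2 ^ h) + N * (2 * h * (4 * w' * h)) * 4) * 4
          = N * 2 ^ h * 8 + N * (2 * h * (4 * w' * h)) * 4 * 4 := by ring
      have e3 : N * (2 * h * (4 * w' * h)) * 4 * 8 ≤ m := by
        calc N * (2 * h * (4 * w' * h)) * 4 * 8
            ≤ 36 * (w * l) * (2 * l * (4 * (6 * w) * l)) * 4 * 8 := by
              apply Nat.mul_le_mul_right
              apply Nat.mul_le_mul_right
              apply Nat.mul_le_mul hN36
              apply Nat.mul_le_mul (by omega)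
              apply Nat.mul_le_mul _ hhl.le
              exact Nat.mul_le_mul_left 4 hw6
          _ = 55296 * (w ^ 2 * l ^ 3) := by ring
          _ ≤ 2 ^ 16 * (w ^ 2 * l ^ 3) := Nat.mul_le_mul_right _ (by norm_num)
          _ ≤ m := hm'
      omega)
  exact ⟨w', Q - 1, L, k, r, N, h, hh1, hw'1, h2wN, c1, c2, hL2, c3, c4, hr1, c5, c6, by omega,
    hmr, hr2l, by omega⟩

open Classical in
/-- **Main theorem, average case.** -/
theorem clique_avg_main (m w : ℕ) (hw : 1 ≤ w) (hlog : Nat.log 2 m ≤ w)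
    (hm : 2 ^ 16 * w ^ 2 * (Nat.log 2 m + 1) ^ 3 ≤ m) :
    ∃ μ : (Edge m → Bool) → ℝ, (∀ x, 0 ≤ μ x) ∧ ∑ x, μ x = 1 ∧
      ∀ (T a : ℕ) (C : Circuit (Edge m)) (out : Fin T → Wire (Edge m))
        (g : (Fin T → Bool) → Bool), C.FlipsAtMost a → C.size ≤ 2 ^ w →
        ∑ x ∈ univ.filter (fun x => (g (fun i => C.val x (out i)) = true ↔ HasClique (m / 2) x)),
          μ x ≤ 1 / 2 + 2 ^ 37 * ((T + 1) * (a + 1)) * w ^ 3 * (Nat.log 2 m + 1) ^ 4 / m ^ 2 := by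
  obtain ⟨w', M, L, k, r, N, h, hh1, hw'1, h2wN, c1, c2, hL2, c3, c4, hr1, c5, c6, hm2, hmr, hr2l,
    hww⟩ := clique_numbers m w hw hlog hm
  obtain ⟨μ, hμ1, hμ2, hμ3⟩ := clique_avg_param m w' M L k r N h hh1 hw'1 h2wN c1 c2 hL2 c3 c4
    hr1 c5 c6 hm2
  refine ⟨μ, hμ1, hμ2, ?_⟩
  generalize hl : Nat.log 2 m + 1 = l at hmr hr2l hww
  have hl1 : 1 ≤ l := by omega
  have hlc : ((Nat.log 2 m : ℝ) + 1) = (l : ℝ) := by rw [← hl]; push_cast; ring
  rw [hlc]
  intro T a C out g hC hsz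
  have hm0 : (0 : ℝ) < (m : ℝ) ^ 2 := by
    have : (0 : ℝ) < m := by exact_mod_cast (by omega : 0 < m)
    positivity
  have hr0 : (0 : ℝ) < r := by exact_mod_cast (by omega : 0 < r)
  have hcmp : ((T : ℝ) + 1) * (a + 1) / (2 * r)
      ≤ 2 ^ 37 * (((T : ℝ) + 1) * (a + 1)) * w ^ 3 * (l : ℝ) ^ 4 / m ^ 2 := by
    rw [div_le_div_iff₀ (by positivity) hm0]
    have h1 : (m : ℝ) ^ 2 ≤ 2 ^ 38 * (w ^ 3 * l ^ 4) * r := by exact_mod_cast hmr
    have h2 : (0 : ℝ) ≤ ((T : ℝ) + 1) * (a + 1) := by positivity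
    calc ((T : ℝ) + 1) * (a + 1) * m ^ 2 ≤ ((T : ℝ) + 1) * (a + 1) * (2 ^ 38 * (w ^ 3 * l ^ 4) * r) :=
          mul_le_mul_of_nonneg_left h1 h2
      _ = _ := by ring
  by_cases hT : T ≤ r
  · have h1 := hμ3 T a C out g hC (by
      calc 4 * r * (C.size + T) ≤ 2 ^ (2 * l) * (2 ^ w + 2 ^ (2 * l)) := by
            apply Nat.mul_le_mul hr2l
            apply Nat.add_le_add hsz
            omega
        _ ≤ 2 ^ (2 * l) * (2 ^ w * 2 ^ (2 * l)) := by
            apply Nat.mul_le_mul_left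
            have h2 : 2 ≤ 2 ^ w := by
              calc 2 = 2 ^ 1 := by norm_num
                _ ≤ 2 ^ w := Nat.pow_le_pow_right (by norm_num) hw
            have h3 : 2 ≤ 2 ^ (2 * l) := by
              calc 2 = 2 ^ 1 := by norm_num
                _ ≤ 2 ^ (2 * l) := Nat.pow_le_pow_right (by norm_num) (by omega)
            nlinarith
        _ = 2 ^ (w + 4 * l) := by rw [← pow_add, ← pow_add]; congr 1; ring
        _ ≤ 2 ^ (2 * w') := Nat.pow_le_pow_right (by norm_num) (by omega)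
        _ = 4 ^ w' := by rw [pow_mul]; norm_num)
    refine h1.trans ?_
    linarith
  · have h1 : ∑ x ∈ univ.filter (fun x => (g (fun i => C.val x (out i)) = true ↔
        HasClique (m / 2) x)), μ x ≤ 1 := by
      rw [← hμ2]
      exact Finset.sum_le_sum_of_subset_of_nonneg (filter_subset _ _) (fun x _ _ => hμ1 x)
    have h2 : (1 : ℝ) / 2 ≤ ((T : ℝ) + 1) * (a + 1) / (2 * r) := by
      rw [div_le_div_iff₀ (by norm_num) (by positivity)]
      have h3 : (r : ℝ) ≤ T := by exact_mod_cast (by omega : r ≤ T)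
      have h4 : (0 : ℝ) ≤ a := Nat.cast_nonneg a
      have h5 : (0 : ℝ) ≤ T := Nat.cast_nonneg T
      nlinarith
    linarith

end Pool.Agent.NegLim
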