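import Pool.Agent.NegLim.Clique

/-!
# Lower bound for the clique function
-/

namespace Pool.Agent.NegLim

open Finset
open scoped BigOperators

/-- Lower bound with parameters. -/
theorem clique_param (m w M k r N h : ℕ) (hh : 1 ≤ h) (hw : 1 ≤ w) (hN : 2 * w ≤ N)
    (hNq : N ≤ 4 ^ h) (hM : 8 * w * (M + 1) ≤ 4 ^ h)
    (hk : (N * 4 ^ h + 1) ^ (2 * w) * 2 ^ w ≤ 2 ^ k) (hr : 2 * (k * r) ≤ M + 1)
    (hY : 4 * 2 ^ (4 * w * h) ≤ 2 ^ N)
    (hm : N * (2 * 2 ^ h) + N * (2 * h * (4 * w * h)) * 4 ≤ m / 4) (hm2 : 2 ≤ m / 2)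
    (C : Circuit (Edge m)) {T : ℕ} (out : Fin T → Wire (Edge m)) (g : (Fin T → Bool) → Bool)
    (hC : ∀ x : Edge m → Bool, g (fun i => C.val x (out i)) = true ↔ HasClique (m / 2) x)
    (hT : 2 * ((T + 1) * 2 ^ C.negs) ≤ r) :
    2 ^ w ≤ 8 * ((T + 1) * 2 ^ C.negs) * C.size := by
  classical
  obtain ⟨lam, hlam⟩ := exists_code h w N hh hN hNq
  have hcV : Fintype.card (CV N h (4 * w * h)) = N * (2 * 2 ^ h) + N * (2 * h * (4 * w * h)) * 4 := by
    simp [CV, Fintype.card_sum, Fintype.card_prod]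
  have hcG : Fintype.card (CG N h (4 * w * h)) = N * 2 + N * (2 * h * (4 * w * h)) := by
    simp [CG, Fintype.card_sum, Fintype.card_prod]
  have hle : Fintype.card (CG N h (4 * w * h)) ≤ m / 4 := by
    rw [hcG]
    have h1 : N * 2 ≤ N * (2 * 2 ^ h) := by
      apply Nat.mul_le_mul_left
      have : 1 ≤ 2 ^ h := Nat.one_le_two_pow
      omega
    have h2 : N * (2 * h * (4 * w * h)) ≤ N * (2 * h * (4 * w * h)) * 4 := by omega
    omega
  have hμ : 1 ≤ 4 * w * h := Nat.mul_pos (by omega) hh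
  set U := m / 2 - Fintype.card (CG N h (4 * w * h)) with hU
  set σ : Edge m → Lit (Fin N × (Bool × Fin h → Bool)) :=
    padSub (cadj (μ := 4 * w * h) lam) U m with hσ
  have hcardV : Fintype.card (Fin N × (Bool × Fin h → Bool)) = N * 4 ^ h := by
    rw [Fintype.card_prod, Fintype.card_fin, Fintype.card_fun, Fintype.card_bool,
      Fintype.card_prod, Fintype.card_bool, Fintype.card_fin, pow_mul]
    norm_num
  have hfin := main_abstract (fun u : Fin (4 * w * h) → Bool => codeSet lam u) (4 ^ h) w M k r N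
    hw hM hlam (fun u => (card_codeSet lam u).ge) (by rw [hcardV]; exact hk) hr
    (by rw [Fintype.card_fun, Fintype.card_bool, Fintype.card_fin]; exact hY)
    (C.map (Gate.subst σ)) (fun i => (out i).subst σ) g
    (by
      intro x
      have h1 : (fun i => Circuit.val (C.map (Gate.subst σ)) x ((out i).subst σ))
          = fun i => Circuit.val C (fun e => (σ e).val x) (out i) := by
        funext i
        exact Circuit.subst_val σ x C (out i)
      rw [h1, hC, hσ, clique_pad (cadj (μ := 4 * w * h) lam) cgp m (by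
        rw [hcV]; omega) (by omega) hm2 (cadj_symm lam)
        (fun v v' _ hg => cadj_group lam v v' hg) x]
      exact clique_code lam (by omega) hh hμ x)
    (by rw [Circuit.subst_negs]; exact hT)
  rw [Circuit.subst_negs, Circuit.subst_size] at hfin
  exact hfin

/-- **Main theorem for the clique function.** -/
theorem clique_main (m w : ℕ) (hw : 1 ≤ w) (hlog : Nat.log 2 m ≤ w)
    (C : Circuit (Edge m)) {T : ℕ} (out : Fin T → Wire (Edge m)) (g : (Fin T → Bool) → Bool)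
    (hC : ∀ x : Edge m → Bool, g (fun i => C.val x (out i)) = true ↔ HasClique (m / 2) x)
    (hbound : 2 ^ 36 * ((T + 1) * 2 ^ C.negs) * w ^ 4 * (Nat.log 2 m + 1) ^ 6 ≤ m ^ 2) :
    2 ^ w ≤ C.size := by
  set A := (T + 1) * 2 ^ C.negs with hA
  have hA1 : 1 ≤ A := Nat.mul_pos (by omega) (by positivity)
  set l := Nat.log 2 m + 1 with hl
  have hl1 : 1 ≤ l := by omega
  have hml : m < 2 ^ l := Nat.lt_pow_succ_log_self (by norm_num) m
  set w' := w + 2 * l + 3 with hw'
  have hw8 : w' ≤ 8 * w := by omega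
  have hw'1 : 1 ≤ w' := by omega
  -- m is large
  have hm18 : 2 ^ 18 * (w ^ 2 * l ^ 3) ≤ m := by
    by_contra hcon
    rw [not_le] at hcon
    have h1 : m ^ 2 < (2 ^ 18 * (w ^ 2 * l ^ 3)) ^ 2 := Nat.pow_lt_pow_left hcon (by norm_num)
    have h2 : (2 ^ 18 * (w ^ 2 * l ^ 3)) ^ 2 = 2 ^ 36 * 1 * w ^ 4 * l ^ 6 := by ring
    have h3 : 2 ^ 36 * 1 * w ^ 4 * l ^ 6 ≤ 2 ^ 36 * A * w ^ 4 * l ^ 6 := by
      apply Nat.mul_le_mul_right
      apply Nat.mul_le_mul_right
      exact Nat.mul_le_mul_left _ hA1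
    omega
  set D := 64 * w' * l with hD
  have hDpos : 0 < D := by positivity
  have hwl : w * l ≤ w ^ 2 * l ^ 3 := by
    calc w * l = (w * l) * 1 := by ring
      _ ≤ (w * l) * (w * l ^ 2) := Nat.mul_le_mul_left _ (Nat.mul_pos hw (by positivity))
      _ = w ^ 2 * l ^ 3 := by ring
  have hD512 : D ≤ 512 * (w * l) := by
    calc D = 64 * l * w' := by rw [hD]; ring
      _ ≤ 64 * l * (8 * w) := Nat.mul_le_mul_left _ hw8
      _ = 512 * (w * l) := by ring
  set X := m / D with hX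
  have hX2 : 2 ≤ X := by
    rw [hX, Nat.le_div_iff_mul_le hDpos]
    calc 2 * D ≤ 2 * (512 * (w * l)) := Nat.mul_le_mul_left 2 hD512
      _ = 1024 * (w * l) := by ring
      _ ≤ 2 ^ 18 * (w ^ 2 * l ^ 3) := Nat.mul_le_mul (by norm_num) hwl
      _ ≤ m := hm18
  have hDX : D * X ≤ m := Nat.mul_div_le m D
  have hmX : m ≤ 2 * (D * X) := by
    have h1 : m < D * (X + 1) := Nat.lt_mul_div_succ m hDpos
    have h2 : D * (X + 1) = D * X + D := by ring
    have h3 : D ≤ D * X := Nat.le_mul_of_pos_right D (by omega)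
    omega
  set h := Nat.log 2 X with hh
  have hh1 : 1 ≤ h := Nat.log_pos (by norm_num) hX2
  have h2h : 2 ^ h ≤ X := Nat.pow_log_le_self 2 (by omega)
  have hX2h : X < 2 ^ (h + 1) := Nat.lt_pow_succ_log_self (by norm_num) X
  have hXm : X ≤ m := Nat.div_le_self m D
  have hhl : h < l := by
    have : 2 ^ h < 2 ^ l := lt_of_le_of_lt (h2h.trans hXm) hml
    exact (Nat.pow_lt_pow_iff_right (by norm_num)).mp this
  have h4h : (4 : ℕ) ^ h = 2 ^ h * 2 ^ h := by rw [← mul_pow]; norm_num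
  -- 4^h is large
  have hlarge : 2 ^ 14 * (A * (w ^ 2 * l ^ 4)) ≤ 4 ^ h := by
    have e1 : m ^ 2 ≤ 2 ^ 22 * (w ^ 2 * l ^ 2) * 4 ^ h := by
      calc m ^ 2 ≤ (2 * (D * X)) ^ 2 := Nat.pow_le_pow_left hmX 2
        _ = 4 * (D ^ 2 * X ^ 2) := by ring
        _ ≤ 4 * ((512 * (w * l)) ^ 2 * (2 ^ (h + 1)) ^ 2) := by
            apply Nat.mul_le_mul_left
            exact Nat.mul_le_mul (Nat.pow_le_pow_left hD512 2) (Nat.pow_le_pow_left hX2h.le 2)
        _ = 2 ^ 22 * (w ^ 2 * l ^ 2) * 4 ^ h := by rw [h4h]; ring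
    have e2 : 2 ^ 22 * (w ^ 2 * l ^ 2) * (2 ^ 14 * (A * (w ^ 2 * l ^ 4)))
        ≤ 2 ^ 22 * (w ^ 2 * l ^ 2) * 4 ^ h := by
      refine le_trans (le_of_eq ?_) (hbound.trans e1)
      ring
    exact Nat.le_of_mul_le_mul_left e2 (by positivity)
  set k := w' * (4 * l + 1) with hk
  set Q := 4 ^ h / (8 * w') with hQ
  set N := 4 * w' * h + 2 with hN
  have hkw : k ≤ 40 * (w * l) := by
    calc k ≤ (8 * w) * (4 * l + l) := Nat.mul_le_mul hw8 (by omega)
      _ = 40 * (w * l) := by ring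
  have hQbig : 4 * k * A ≤ Q := by
    rw [hQ, Nat.le_div_iff_mul_le (by positivity)]
    calc 4 * k * A * (8 * w') ≤ 4 * (40 * (w * l)) * A * (8 * (8 * w)) := by
          apply Nat.mul_le_mul
          · apply Nat.mul_le_mul_right
            exact Nat.mul_le_mul_left 4 hkw
          · exact Nat.mul_le_mul_left 8 hw8
      _ = 10240 * (A * (w ^ 2 * l)) := by ring
      _ ≤ 2 ^ 14 * (A * (w ^ 2 * l ^ 4)) := by
          apply Nat.mul_le_mul (by norm_num)
          apply Nat.mul_le_mul_left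
          apply Nat.mul_le_mul_left
          calc l = l ^ 1 := (pow_one l).symm
            _ ≤ l ^ 4 := Nat.pow_le_pow_right hl1 (by norm_num)
      _ ≤ 4 ^ h := hlarge
  have hkpos : 0 < k := by positivity
  have hQ1 : 1 ≤ Q := le_trans (Nat.mul_pos (by positivity) hA1) hQbig
  set r := Q / (2 * k) with hr
  have hrA : 2 * A ≤ r := by
    rw [hr, Nat.le_div_iff_mul_le (by positivity)]
    calc 2 * A * (2 * k) = 4 * k * A := by ring
      _ ≤ Q := hQbig
  have hNle : N ≤ 4 * (w' * l) := by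
    have : w' * (h + 1) ≤ w' * l := Nat.mul_le_mul_left _ hhl
    have e : 4 * (w' * (h + 1)) = 4 * w' * h + 4 * w' := by ring
    omega
  have hN32 : N ≤ 32 * (w * l) := by
    have : w' * l ≤ 8 * w * l := Nat.mul_le_mul_right l hw8
    have e : 8 * w * l = 8 * (w * l) := by ring
    omega
  have hw2l4 : w * l ≤ A * (w ^ 2 * l ^ 4) := by
    calc w * l ≤ w ^ 2 * l ^ 3 := hwl
      _ ≤ w ^ 2 * l ^ 4 := Nat.mul_le_mul_left _ (Nat.pow_le_pow_right hl1 (by norm_num))
      _ = 1 * (w ^ 2 * l ^ 4) := by ring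
      _ ≤ A * (w ^ 2 * l ^ 4) := Nat.mul_le_mul_right _ hA1
  -- sizes
  have hN2h : N * 2 ^ h * 16 ≤ m := by
    calc N * 2 ^ h * 16 ≤ 4 * (w' * l) * X * 16 := by
          apply Nat.mul_le_mul_right
          exact Nat.mul_le_mul hNle h2h
      _ = D * X := by rw [hD]; ring
      _ ≤ m := hDX
  have haux : N * (2 * h * (4 * w' * h)) * 4 * 32 ≤ m := by
    have e1 : N * (2 * h * (4 * w' * h)) ≤ 32 * (w * l) * (2 * l * (4 * (8 * w) * l)) := by
      apply Nat.mul_le_mul hN32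
      apply Nat.mul_le_mul (by omega)
      apply Nat.mul_le_mul _ hhl.le
      exact Nat.mul_le_mul_left 4 hw8
    calc N * (2 * h * (4 * w' * h)) * 4 * 32
        ≤ 32 * (w * l) * (2 * l * (4 * (8 * w) * l)) * 4 * 32 := by
          apply Nat.mul_le_mul_right
          apply Nat.mul_le_mul_right
          exact e1
      _ = 2 ^ 18 * (w ^ 2 * l ^ 3) := by ring
      _ ≤ m := hm18
  have hm4 : 4 ≤ m := by
    have : 1 ≤ w ^ 2 * l ^ 3 := Nat.mul_pos (by positivity) (by positivity)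
    omega
  have hfin := clique_param m w' (Q - 1) k r N h hh1 hw'1
    (by
      have : w' * 1 ≤ w' * h := Nat.mul_le_mul_left _ hh1
      have e : 4 * w' * h = 4 * (w' * h) := by ring
      omega)
    (by omega)
    (by
      have : Q - 1 + 1 = Q := by omega
      rw [this]
      exact Nat.mul_div_le _ _)
    (by
      have e1 : N * 4 ^ h + 1 ≤ 2 ^ (2 * l) := by
        have e2 : N * 4 ^ h = N * 2 ^ h * 2 ^ h := by rw [h4h]; ring
        have e3 : N * 2 ^ h * 2 ^ h * 16 ≤ m * m := by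
          calc N * 2 ^ h * 2 ^ h * 16 = (N * 2 ^ h * 16) * 2 ^ h := by ring
            _ ≤ m * m := Nat.mul_le_mul hN2h (h2h.trans hXm)
        have e4 : m * m < 2 ^ l * 2 ^ l := Nat.mul_lt_mul'' hml hml
        have e5 : 2 ^ l * 2 ^ l = 2 ^ (2 * l) := by rw [← pow_add, two_mul]
        omega
      calc (N * 4 ^ h + 1) ^ (2 * w') * 2 ^ w' ≤ (2 ^ (2 * l)) ^ (2 * w') * 2 ^ w' :=
            Nat.mul_le_mul_right _ (Nat.pow_le_pow_left e1 _)
        _ = 2 ^ k := by
            rw [← pow_mul, ← pow_add, hk]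
            congr 1; ring)
    (by
      have : Q - 1 + 1 = Q := by omega
      rw [this]
      calc 2 * (k * r) = 2 * k * r := by ring
        _ ≤ Q := Nat.mul_div_le _ _)
    (by
      rw [hN, pow_add]
      apply le_of_eq; ring)
    (by
      rw [Nat.le_div_iff_mul_le (by norm_num)]
      have e : (N * (2 * 2 ^ h) + N * (2 * h * (4 * w' * h)) * 4) * 4
          = N * 2 ^ h * 8 + N * (2 * h * (4 * w' * h)) * 4 * 4 := by ring
      omega)
    (by omega) C out g hC hrA
  -- conclusion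
  have hAm : A < 2 ^ (2 * l) := by
    have e1 : A ≤ m ^ 2 := by
      calc A = 1 * A * 1 * 1 := by ring
        _ ≤ 2 ^ 36 * A * w ^ 4 * l ^ 6 := by
          apply Nat.mul_le_mul
          · apply Nat.mul_le_mul
            · exact Nat.mul_le_mul_right A (by norm_num)
            · exact Nat.one_le_pow _ _ hw
          · exact Nat.one_le_pow _ _ hl1
        _ ≤ m ^ 2 := hbound
    have e2 : m ^ 2 < (2 ^ l) ^ 2 := Nat.pow_lt_pow_left hml (by norm_num)
    have e3 : (2 ^ l) ^ 2 = 2 ^ (2 * l) := by rw [← pow_mul, mul_comm]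
    omega
  have e1 : 2 ^ w' = 2 ^ w * (8 * 2 ^ (2 * l)) := by
    rw [hw', pow_add, pow_add]; ring
  rw [e1] at hfin
  have e2 : 2 ^ w * (8 * 2 ^ (2 * l)) ≤ C.size * (8 * 2 ^ (2 * l)) := by
    calc 2 ^ w * (8 * 2 ^ (2 * l)) ≤ 8 * A * C.size := hfin
      _ ≤ 8 * 2 ^ (2 * l) * C.size := by
          apply Nat.mul_le_mul_right
          exact Nat.mul_le_mul_left 8 hAm.le
      _ = C.size * (8 * 2 ^ (2 * l)) := by ring
  exact Nat.le_of_mul_le_mul_right e2 (by positivity)

end Pool.Agent.NegLim
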