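import Pool.Agent.NegLim.Second

/-!
# Closed families of sets
-/

namespace Pool.Agent.NegLim

open Finset
open scoped BigOperators Nat

set_option linter.unusedSectionVars false

variable {V : Type} [Fintype V] [DecidableEq V]

/-- `S` is closed if every set of size at most `c`, which after `k` rounds of noise is in `S`
with probability at least `1 - 2^(-k)`, is already in `S`. -/
def Closed (M k c : ℕ) (S : Set (Finset V)) : Prop :=
  ∀ T : Finset V, T.card ≤ c → 1 - (1 / 2 : ℝ) ^ k ≤ (nz M ^ k) (ind S) T → T ∈ S

open Classical in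
/-- The minimal members of `S` of size `l`. -/
noncomputable def mins (S : Set (Finset V)) (l : ℕ) : Finset (Finset V) :=
  univ.filter (fun T => T ∈ S ∧ T.card = l ∧ ∀ T', T' ⊂ T → T' ∉ S)

lemma mem_mins {S : Set (Finset V)} {l : ℕ} {T : Finset V} :
    T ∈ mins S l ↔ T ∈ S ∧ T.card = l ∧ ∀ T', T' ⊂ T → T' ∉ S := by
  simp [mins]

lemma nz_ind_nonneg (M : ℕ) (S : Set (Finset V)) (x : Finset V) : 0 ≤ nz M (ind S) x := by
  have := nz_mono M (g := fun _ => 0) (h := ind S) (fun y => ind_nonneg S y) x
  rwa [nz_const] at this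

lemma nz_pow_ind_nonneg (M k : ℕ) (S : Set (Finset V)) (x : Finset V) :
    0 ≤ (nz M ^ k) (ind S) x := by
  have := nz_pow_mono M k (g := fun _ => 0) (h := ind S) (fun y => ind_nonneg S y) x
  rwa [nz_pow_const] at this

lemma nz_pow_ind_le_one (M k : ℕ) (S : Set (Finset V)) (x : Finset V) :
    (nz M ^ k) (ind S) x ≤ 1 := by
  have := nz_pow_mono M k (g := ind S) (h := fun _ => 1) (fun y => ind_le_one S y) x
  rwa [nz_pow_const] at this

/-- Links of the minimal sets of a closed family are small. -/
lemma link_card (M k c : ℕ) {S : Set (Finset V)} (hS : IsUpperSet S) (hcl : Closed M k c S)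
    {l : ℕ} (hl : l ≤ c) :
    ∀ d : ℕ, ∀ B : Finset V, B.card + d = l →
      (((mins S l).filter (fun T => B ⊆ T)).card : ℝ) ≤ Dk M d := by
  intro d
  induction d using Nat.strong_induction_on with
  | _ d ih =>
    intro B hBd
    by_contra hcon
    rw [not_le] at hcon
    set F := (mins S l).filter (fun T => B ⊆ T) with hF
    rcases Nat.eq_zero_or_pos d with h0 | h0
    · subst h0
      have : F ⊆ {B} := by
        intro T hT
        rw [hF, mem_filter, mem_mins] at hT
        rw [mem_singleton]
        exact (Finset.eq_of_subset_of_card_le hT.2 (by omega)).symm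
      have h1 : F.card ≤ 1 := (card_le_card this).trans_eq (card_singleton B)
      rw [Dk_zero] at hcon
      have : (F.card : ℝ) ≤ 1 := by exact_mod_cast h1
      linarith
    · have hB : ∀ T ∈ F, B ⊆ T := fun T hT => (mem_filter.mp hT).2
      have hd : ∀ T ∈ F, (T \ B).card = d := by
        intro T hT
        have h1 := mem_filter.mp hT
        have h2 := (mem_mins.mp h1.1).2.1
        rw [Finset.card_sdiff_of_subset h1.2]
        omega
      have hlink : ∀ J : Finset V, J.Nonempty → Disjoint J B → J.card ≤ d →
          ((F.filter (fun T => B ∪ J ⊆ T)).card : ℝ) ≤ Dk M (d - J.card) := by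
        intro J hJ hJB hJd
        have hJ1 : 0 < J.card := card_pos.mpr hJ
        have h1 := ih (d - J.card) (by omega) (B ∪ J) (by
          rw [Finset.card_union_of_disjoint hJB.symm]; omega)
        refine le_trans ?_ h1
        have : F.filter (fun T => B ∪ J ⊆ T) ⊆ (mins S l).filter (fun T => B ∪ J ⊆ T) := by
          intro T hT
          rw [mem_filter] at hT ⊢
          exact ⟨(mem_filter.mp hT.1).1, hT.2⟩
        exact_mod_cast card_le_card this
      have hFpos : (0 : ℝ) < F.card := (Dk_pos M d).trans hcon
      have hhalf : ∀ x, B ⊆ x → 1 / 2 ≤ nz M (ind S) x := by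
        intro x hx
        have h1 := second_moment M d F B hB hd hlink hx
        have h2 : nz M (ind {y | ∃ T ∈ F, T ⊆ y}) x ≤ nz M (ind S) x := by
          apply nz_mono
          apply ind_mono
          rintro y ⟨T, hT, hTy⟩
          exact hS hTy (mem_mins.mp (mem_filter.mp hT).1).1
        have h3 := nz_ind_nonneg M {y | ∃ T ∈ F, T ⊆ y} x
        have h4 : (F.card : ℝ) ≤ nz M (ind {y | ∃ T ∈ F, T ⊆ y}) x * (2 * F.card) :=
          h1.trans (mul_le_mul_of_nonneg_left (by linarith) h3)
        by_contra h5
        rw [not_le] at h5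
        have h6 : nz M (ind {y | ∃ T ∈ F, T ⊆ y}) x < 1 / 2 := lt_of_le_of_lt h2 h5
        nlinarith
      have hBS : B ∈ S := hcl B (by omega) (amplify M k hS hhalf B (Subset.refl _))
      have hne : F.Nonempty := by
        rw [← card_pos]
        exact_mod_cast hFpos
      obtain ⟨T, hT⟩ := hne
      have h1 := mem_filter.mp hT
      have h2 := mem_mins.mp h1.1
      refine h2.2.2 B ?_ hBS
      refine Finset.ssubset_iff_subset_ne.mpr ⟨h1.2, ?_⟩
      intro h3
      rw [h3] at hBd
      omega

lemma mins_card (M k c : ℕ) {S : Set (Finset V)} (hS : IsUpperSet S) (hcl : Closed M k c S)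
    {l : ℕ} (hl : l ≤ c) : ((mins S l).card : ℝ) ≤ Dk M l := by
  have := link_card M k c hS hcl hl l ∅ (by simp)
  simpa using this

/-- The number of minimal sets of size `l` is controlled by the hitting probability. -/
lemma mins_hit (M k c : ℕ) {S : Set (Finset V)} (hS : IsUpperSet S) (hcl : Closed M k c S)
    {l : ℕ} (hl : l ≤ c) :
    ((mins S l).card : ℝ) ≤ 2 * Dk M l * nz M (ind {y | ∃ T ∈ mins S l, T ⊆ y}) ∅ := by
  have h1 := second_moment M l (mins S l) ∅ (fun T _ => empty_subset T)
    (fun T hT => by rw [sdiff_empty]; exact (mem_mins.mp hT).2.1)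
    (fun J hJ _ hJl => by
      rw [empty_union]
      exact link_card M k c hS hcl hl (l - J.card) J (by omega))
    (Subset.refl (∅ : Finset V))
  have h2 := mins_card M k c hS hcl hl
  have h3 := nz_ind_nonneg M {y | ∃ T ∈ mins S l, T ⊆ y} (∅ : Finset V)
  calc ((mins S l).card : ℝ) ≤ _ := h1
    _ ≤ nz M (ind {y | ∃ T ∈ mins S l, T ⊆ y}) ∅ * (Dk M l + Dk M l) := by
        apply mul_le_mul_of_nonneg_left _ h3; linarith
    _ = _ := by ring

/-- `S` is generated by sets of size at most `c`. -/
def Gen (c : ℕ) (S : Set (Finset V)) : Prop := ∀ y ∈ S, ∃ T ∈ S, T ⊆ y ∧ T.card ≤ c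

open Classical in
/-- Small sets outside `F`. -/
noncomputable def smallOut (c : ℕ) (F : Set (Finset V)) : Finset (Finset V) :=
  univ.filter (fun T : Finset V => T.card ≤ c ∧ T ∉ F)

lemma mem_smallOut {c : ℕ} {F : Set (Finset V)} {T : Finset V} :
    T ∈ smallOut c F ↔ T.card ≤ c ∧ T ∉ F := by
  simp [smallOut]

lemma exists_closure_aux (M k c : ℕ) (n : ℕ) :
    ∀ F : Set (Finset V), IsUpperSet F → Gen c F →
      (smallOut c F).card ≤ n →
      ∃ S : Set (Finset V), IsUpperSet S ∧ Closed M k c S ∧ F ⊆ S ∧ Gen c S ∧
        (nz M ^ k) (ind (S \ F)) ∅ ≤ n * (1 / 2 : ℝ) ^ k := by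
  induction n with
  | zero =>
    intro F hF hg hn
    refine ⟨F, hF, ?_, Set.Subset.refl F, hg, ?_⟩
    · intro T hT _
      by_contra hTF
      have : T ∈ smallOut c F := mem_smallOut.mpr ⟨hT, hTF⟩
      rw [Nat.le_zero, card_eq_zero] at hn
      rw [hn] at this
      exact absurd this (notMem_empty T)
    · have : ind (F \ F) = fun _ : Finset V => (0 : ℝ) := by
        funext y; rw [ind_of_notMem]; simp
      rw [this, nz_pow_const]; simp
  | succ n ih =>
    intro F hF hg hn
    by_cases hcl : Closed M k c F
    · refine ⟨F, hF, hcl, Set.Subset.refl F, hg, ?_⟩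
      have : ind (F \ F) = fun _ : Finset V => (0 : ℝ) := by
        funext y; rw [ind_of_notMem]; simp
      rw [this, nz_pow_const]
      simp only
      positivity
    · unfold Closed at hcl
      push Not at hcl
      obtain ⟨T, hTc, hTp, hTF⟩ := hcl
      set F' : Set (Finset V) := F ∪ {y | T ⊆ y} with hF'
      have hup : IsUpperSet F' := by
        apply hF.union
        intro a b hab ha
        exact Subset.trans ha hab
      have hg' : Gen c F' := by
        rintro y (hy | hy)
        · obtain ⟨T1, h1, h2, h3⟩ := hg y hy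
          exact ⟨T1, Or.inl h1, h2, h3⟩
        · exact ⟨T, Or.inr (Subset.refl T), hy, hTc⟩
      have hlt : (smallOut c F').card < (smallOut c F).card := by
        apply card_lt_card
        refine ⟨?_, ?_⟩
        · intro U hU
          rw [mem_smallOut] at hU ⊢
          exact ⟨hU.1, fun h => hU.2 (Or.inl h)⟩
        · intro h
          have h2 := h (mem_smallOut.mpr ⟨hTc, hTF⟩)
          rw [mem_smallOut] at h2
          exact h2.2 (Or.inr (Subset.refl T))
      obtain ⟨S, hS1, hS2, hS3, hS4, hS5⟩ := ih F' hup hg' (by omega)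
      refine ⟨S, hS1, hS2, (Set.subset_union_left).trans hS3, hS4, ?_⟩
      have hle : ind (S \ F) ≤ ind (S \ F') + fun y => 1 - ind F (T ∪ y) := by
        intro y
        simp only [Pi.add_apply]
        have hb := ind_le_one F (T ∪ y)
        have hc := ind_nonneg (S \ F') y
        by_cases hy : y ∈ S \ F
        · rw [ind_of_mem hy]
          by_cases hyT : T ⊆ y
          · have : T ∪ y ∉ F := by
              rw [union_eq_right.mpr hyT]; exact hy.2
            rw [ind_of_notMem this]; linarith
          · have : y ∈ S \ F' := by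
              refine ⟨hy.1, ?_⟩
              rintro (h | h)
              · exact hy.2 h
              · exact hyT h
            rw [ind_of_mem this]; linarith
        · rw [ind_of_notMem hy]; linarith
      have h1 := nz_pow_mono M k hle ∅
      rw [map_add] at h1
      simp only [Pi.add_apply] at h1
      have h2 : (nz M ^ k) (fun y => 1 - ind F (T ∪ y)) ∅ = 1 - (nz M ^ k) (ind F) T := by
        have e : (fun y => 1 - ind F (T ∪ y)) = (fun _ => (1 : ℝ)) - fun y => ind F (T ∪ y) := by
          funext y; simp
        rw [e, map_sub, nz_pow_const]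
        simp only [Pi.sub_apply]
        rw [nz_pow_shift, union_empty]
      rw [h2] at h1
      push_cast
      linarith

/-- The number of small sets. -/
lemma card_small (c : ℕ) :
    (univ.filter (fun T : Finset V => T.card ≤ c)).card ≤ (Fintype.card V + 1) ^ c := by
  classical
  let ff : (Fin c → Option V) → Finset V := fun f => univ.filter (fun v => ∃ i, f i = some v)
  have hsub : univ.filter (fun T : Finset V => T.card ≤ c) ⊆ univ.image ff := by
    intro T hT
    rw [mem_filter] at hT
    rw [mem_image]
    let e := T.equivFin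
    refine ⟨fun i => if h : i.val < T.card then some (e.symm ⟨i.val, h⟩).val else none,
      mem_univ _, ?_⟩
    ext v
    simp only [ff, mem_filter, mem_univ, true_and]
    constructor
    · rintro ⟨i, hi⟩
      split_ifs at hi with h
      · have := Option.some.inj hi
        rw [← this]
        exact (e.symm ⟨i.val, h⟩).property
    · intro hv
      have hlt : (e ⟨v, hv⟩).val < c := lt_of_lt_of_le (e ⟨v, hv⟩).isLt hT.2
      refine ⟨⟨(e ⟨v, hv⟩).val, hlt⟩, ?_⟩
      rw [dif_pos (e ⟨v, hv⟩).isLt]
      simp
  calc _ ≤ (univ.image ff).card := card_le_card hsub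
    _ ≤ (univ : Finset (Fin c → Option V)).card := card_image_le
    _ = (Fintype.card V + 1) ^ c := by
      rw [Finset.card_univ, Fintype.card_fun, Fintype.card_option, Fintype.card_fin]

lemma exists_closure (M k c : ℕ) (F : Set (Finset V)) (hF : IsUpperSet F) (hg : Gen c F) :
      ∃ S : Set (Finset V), IsUpperSet S ∧ Closed M k c S ∧ F ⊆ S ∧ Gen c S ∧
        (nz M ^ k) (ind (S \ F)) ∅ ≤ ((Fintype.card V : ℝ) + 1) ^ c * (1 / 2 : ℝ) ^ k := by
  classical
  have h := exists_closure_aux M k c ((Fintype.card V + 1) ^ c) F hF hg (by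
    refine le_trans (card_le_card ?_) (card_small (V := V) c)
    intro T hT
    rw [mem_smallOut] at hT
    simp only [mem_filter, mem_univ, true_and]
    exact hT.1)
  push_cast at h
  exact h

end Pool.Agent.NegLim
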