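import Pool.Agent.NegLim.Abstract

/-!
# Spread binary linear codes from polynomials over the field with `4^h` elements
-/

namespace Pool.Agent.NegLim

open Finset
open scoped BigOperators

set_option linter.unusedSectionVars false

/-- Interpolation over a finite field: counting polynomials of degree less than `c` with
prescribed values. -/
lemma interp_count {F : Type} [Field F] [Fintype F] [DecidableEq F] {c N : ℕ} (hcN : c ≤ N)
    (α : Fin N → F) (hα : Function.Injective α) (T : Finset (Fin N × F)) (hT : T.card ≤ c) :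
    (univ.filter (fun a : Fin c → F => ∀ p ∈ T, ∑ j : Fin c, a j * α p.1 ^ (j : ℕ) = p.2)).card
      * (Fintype.card F) ^ T.card ≤ (Fintype.card F) ^ c := by
  classical
  set G := univ.filter (fun a : Fin c → F => ∀ p ∈ T, ∑ j : Fin c, a j * α p.1 ^ (j : ℕ) = p.2)
    with hG
  have hmem : ∀ a, a ∈ G ↔ ∀ p ∈ T, ∑ j : Fin c, a j * α p.1 ^ (j : ℕ) = p.2 := by
    intro a; simp [hG]
  by_cases hinj : Set.InjOn Prod.fst (T : Set (Fin N × F))
  · set I := T.image Prod.fst with hI
    have hIc : I.card = T.card := card_image_of_injOn hinj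
    obtain ⟨I', hI1, _, hI2⟩ := Finset.exists_subsuperset_card_eq (subset_univ I)
      (n := c) (by omega) (by rw [Finset.card_univ, Fintype.card_fin]; exact hcN)
    have hcard : G.card ≤ (Fintype.card F) ^ (c - T.card) := by
      have h1 : G.card ≤ (univ : Finset (↥(I' \ I) → F)).card := by
        apply Finset.card_le_card_of_injOn
          (fun a => fun i : ↥(I' \ I) => ∑ j : Fin c, a j * α i.val ^ (j : ℕ))
        · intro a _; exact mem_univ _
        · intro a ha b hb hab
          have ha' := (hmem a).mp ha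
          have hb' := (hmem b).mp hb
          have hall : ∀ i ∈ I', ∑ j : Fin c, a j * α i ^ (j : ℕ) = ∑ j : Fin c, b j * α i ^ (j : ℕ) := by
            intro i hi
            by_cases hiI : i ∈ I
            · rw [hI, mem_image] at hiI
              obtain ⟨p, hp, rfl⟩ := hiI
              rw [ha' p hp, hb' p hp]
            · exact congrFun hab ⟨i, mem_sdiff.mpr ⟨hi, hiI⟩⟩
          let e := (I'.equivFinOfCardEq hI2).symm
          have hf : Function.Injective (fun k : Fin c => α (e k).val) := by
            intro k l hkl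
            exact e.injective (Subtype.ext (hα hkl))
          have hv : (fun j => a j - b j) = 0 := by
            apply Matrix.eq_zero_of_forall_index_sum_pow_mul_eq_zero hf
            intro k
            have h1 := hall (e k).val (e k).property
            have h2 : ∑ j : Fin c, α (e k).val ^ (j : ℕ) * (a j - b j)
                = ∑ j : Fin c, a j * α (e k).val ^ (j : ℕ)
                  - ∑ j : Fin c, b j * α (e k).val ^ (j : ℕ) := by
              rw [← Finset.sum_sub_distrib]
              exact Finset.sum_congr rfl fun j _ => by ring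
            rw [h2, h1, sub_self]
          funext j
          have := congrFun hv j
          simp only [Pi.zero_apply] at this
          exact sub_eq_zero.mp this
      rw [Finset.card_univ, Fintype.card_fun, Fintype.card_coe,
        Finset.card_sdiff_of_subset hI1, hI2, hIc] at h1
      exact h1
    calc G.card * (Fintype.card F) ^ T.card
        ≤ (Fintype.card F) ^ (c - T.card) * (Fintype.card F) ^ T.card :=
          Nat.mul_le_mul_right _ hcard
      _ = (Fintype.card F) ^ c := by rw [← pow_add]; congr 1; omega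
  · have : G = ∅ := by
      rw [Finset.eq_empty_iff_forall_notMem]
      intro a ha
      apply hinj
      intro p hp p' hp' hpp
      have ha' := (hmem a).mp ha
      have h1 := ha' p hp
      have h2 := ha' p' hp'
      apply Prod.ext hpp
      rw [← h1, ← h2, hpp]
    rw [this]; simp

/-- Partial sums modulo two. -/
def psum (f : ℕ → Bool) : ℕ → Bool
  | 0 => false
  | t + 1 => xor (psum f t) (f t)

/-- `Bool` to `ZMod 2`. -/
def b2z (b : Bool) : ZMod 2 := if b then 1 else 0

/-- `ZMod 2` to `Bool`. -/
def z2b (z : ZMod 2) : Bool := decide (z = 1)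

lemma b2z_z2b (z : ZMod 2) : b2z (z2b z) = z := by revert z; decide
lemma z2b_b2z (b : Bool) : z2b (b2z b) = b := by revert b; decide
lemma b2z_xor (a b : Bool) : b2z (xor a b) = b2z a + b2z b := by revert a b; decide
lemma b2z_and (a b : Bool) : b2z (a && b) = b2z a * b2z b := by revert a b; decide
lemma b2z_inj : Function.Injective b2z := by
  intro a b h
  rw [← z2b_b2z a, h, z2b_b2z]

lemma b2z_psum (f : ℕ → Bool) (t : ℕ) : b2z (psum f t) = ∑ j ∈ range t, b2z (f j) := by
  induction t with
  | zero => rfl
  | succ t ih => rw [psum, b2z_xor, ih, Finset.sum_range_succ]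

/-- Extension of a vector by `false`. -/
def ext0 {μ : ℕ} (u : Fin μ → Bool) (j : ℕ) : Bool := if h : j < μ then u ⟨j, h⟩ else false

/-- The symbol number `i` of the encoding of `u`. -/
def sym {N h μ : ℕ} (lam : Fin N → (Bool × Fin h) → ℕ → Bool) (u : Fin μ → Bool) (i : Fin N) :
    (Bool × Fin h) → Bool := fun β => psum (fun j => lam i β j && ext0 u j) μ

/-- The encoding of `u` as a set. -/
def codeSet {N h μ : ℕ} (lam : Fin N → (Bool × Fin h) → ℕ → Bool) (u : Fin μ → Bool) :
    Finset (Fin N × (Bool × Fin h → Bool)) := univ.image (fun i : Fin N => (i, sym lam u i))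

lemma mem_codeSet {N h μ : ℕ} {lam : Fin N → (Bool × Fin h) → ℕ → Bool} {u : Fin μ → Bool}
    {p : Fin N × (Bool × Fin h → Bool)} : p ∈ codeSet lam u ↔ p.2 = sym lam u p.1 := by
  unfold codeSet
  rw [mem_image]
  constructor
  · rintro ⟨i, _, rfl⟩; rfl
  · intro hp
    exact ⟨p.1, mem_univ _, by rw [← hp]⟩

lemma card_codeSet {N h μ : ℕ} (lam : Fin N → (Bool × Fin h) → ℕ → Bool) (u : Fin μ → Bool) :
    (codeSet lam u).card = N := by
  unfold codeSet
  rw [card_image_of_injective _ (fun i j hij => (Prod.ext_iff.mp hij).1), Finset.card_univ,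
    Fintype.card_fin]

/-- Existence of spread binary linear codes. -/
theorem exists_code (h w N : ℕ) (hh : 1 ≤ h) (hN : 2 * w ≤ N) (hNq : N ≤ 4 ^ h) :
    ∃ lam : Fin N → (Bool × Fin h) → ℕ → Bool,
      Spread (fun u : Fin (4 * w * h) → Bool => codeSet lam u) w ((4 ^ h : ℕ) : ℝ) := by
  classical
  set F := GaloisField 2 (2 * h) with hF
  have : Fintype F := Fintype.ofFinite F
  have hcardF : Fintype.card F = 4 ^ h := by
    rw [← Nat.card_eq_fintype_card, GaloisField.card 2 (2 * h) (by omega), pow_mul]
    norm_num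
  have hrankF : Module.finrank (ZMod 2) F = 2 * h := GaloisField.finrank 2 (by omega)
  obtain ⟨α⟩ : Nonempty (Fin N ↪ F) := by
    rw [Function.Embedding.nonempty_iff_card_le, Fintype.card_fin, hcardF]
    exact hNq
  have e1 : Module.finrank (ZMod 2) F = Module.finrank (ZMod 2) (Bool × Fin h → ZMod 2) := by
    rw [hrankF, Module.finrank_pi, Fintype.card_prod, Fintype.card_bool, Fintype.card_fin]
  have e2 : Module.finrank (ZMod 2) (Fin (4 * w * h) → ZMod 2)
      = Module.finrank (ZMod 2) (Fin (2 * w) → F) := by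
    rw [Module.finrank_pi, Fintype.card_fin, Module.finrank_pi_fintype]
    simp only [hrankF, Finset.sum_const, Finset.card_univ, Fintype.card_fin, smul_eq_mul]
    ring
  let φ : F ≃ₗ[ZMod 2] (Bool × Fin h → ZMod 2) := LinearEquiv.ofFinrankEq _ _ e1
  let ψ : (Fin (4 * w * h) → ZMod 2) ≃ₗ[ZMod 2] (Fin (2 * w) → F) :=
    LinearEquiv.ofFinrankEq _ _ e2
  let ev : Fin N → (Fin (2 * w) → F) →ₗ[ZMod 2] F := fun i =>
    ∑ j : Fin (2 * w), (LinearMap.mulRight (ZMod 2) (α i ^ (j : ℕ))).comp (LinearMap.proj j)
  have hev : ∀ i a, ev i a = ∑ j : Fin (2 * w), a j * α i ^ (j : ℕ) := by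
    intro i a
    simp [ev, LinearMap.sum_apply]
  let L : Fin N → (Fin (4 * w * h) → ZMod 2) →ₗ[ZMod 2] (Bool × Fin h → ZMod 2) :=
    fun i => φ.toLinearMap ∘ₗ (ev i) ∘ₗ ψ.toLinearMap
  let lam : Fin N → (Bool × Fin h) → ℕ → Bool := fun i β j =>
    if hj : j < 4 * w * h then z2b (L i (Pi.single ⟨j, hj⟩ 1) β) else false
  refine ⟨lam, ?_⟩
  -- the bijection between messages and polynomials
  let bz : (Fin (4 * w * h) → Bool) → (Fin (4 * w * h) → ZMod 2) := fun u j => b2z (u j)
  have hbz : Function.Injective bz := by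
    intro u v huv
    funext j
    exact b2z_inj (congrFun huv j)
  have hsym : ∀ (u : Fin (4 * w * h) → Bool) (i : Fin N) (β : Bool × Fin h),
      b2z (sym lam u i β) = φ (ev i (ψ (bz u))) β := by
    intro u i β
    have h1 : φ (ev i (ψ (bz u))) = L i (bz u) := rfl
    have h2 : bz u = ∑ j, bz u j • (Pi.single j (1 : ZMod 2) : Fin (4 * w * h) → ZMod 2) := by
      funext k
      simp [Finset.sum_apply, Pi.single_apply]
    rw [h1, h2, map_sum, Finset.sum_apply]
    simp only [map_smul, Pi.smul_apply, smul_eq_mul]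
    unfold sym
    rw [b2z_psum, Finset.sum_range]
    refine Finset.sum_congr rfl fun j _ => ?_
    rw [b2z_and]
    have h3 : lam i β (j : ℕ) = z2b (L i (Pi.single j 1) β) := by
      simp only [lam]
      rw [dif_pos j.isLt]
    have h4 : ext0 u (j : ℕ) = u j := by
      unfold ext0
      rw [dif_pos j.isLt]
    rw [h3, h4, b2z_z2b, mul_comm]
  intro T hT
  rw [Fintype.expect_eq_sum_div_card, Finset.sum_boole, Fintype.card_fun, Fintype.card_fin,
    Fintype.card_bool]
  -- transport `T`
  let τ : Fin N × (Bool × Fin h → Bool) → Fin N × F := fun p => (p.1, φ.symm (fun β => b2z (p.2 β)))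
  have hτ : Function.Injective τ := by
    intro p p' hpp
    have h1 : p.1 = p'.1 := (Prod.ext_iff.mp hpp).1
    have h2 := φ.symm.injective (Prod.ext_iff.mp hpp).2
    refine Prod.ext h1 ?_
    funext β
    exact b2z_inj (congrFun h2 β)
  have hTc : (T.image τ).card = T.card := card_image_of_injective _ hτ
  have hcount := interp_count (F := F) (c := 2 * w) hN α α.injective (T.image τ) (by omega)
  have hle : (univ.filter (fun u : Fin (4 * w * h) → Bool => T ⊆ codeSet lam u)).card
      ≤ (univ.filter (fun a : Fin (2 * w) → F =>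
          ∀ p ∈ T.image τ, ∑ j : Fin (2 * w), a j * α p.1 ^ (j : ℕ) = p.2)).card := by
    apply Finset.card_le_card_of_injOn (fun u => ψ (bz u))
    · intro u hu
      simp only [coe_filter, mem_univ, true_and, Set.mem_ofPred_eq] at hu ⊢
      intro p hp
      rw [mem_image] at hp
      obtain ⟨p', hp', rfl⟩ := hp
      rw [← hev]
      apply φ.injective
      simp only [τ, LinearEquiv.apply_symm_apply]
      funext β
      rw [← hsym u p'.1 β, mem_codeSet.mp (hu hp')]
    · intro u _ v _ huv
      exact hbz (ψ.injective huv)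
  rw [hTc, hcardF] at hcount
  have hfin : (univ.filter (fun u : Fin (4 * w * h) → Bool => T ⊆ codeSet lam u)).card
      * (4 ^ h) ^ T.card ≤ 2 ^ (4 * w * h) := by
    calc _ ≤ _ := Nat.mul_le_mul_right _ hle
      _ ≤ (4 ^ h) ^ (2 * w) := hcount
      _ = 2 ^ (4 * w * h) := by
        rw [show (4 : ℕ) = 2 ^ 2 by norm_num, ← pow_mul, ← pow_mul]
        congr 1; ring
  have hfin' : ((univ.filter (fun u : Fin (4 * w * h) → Bool => T ⊆ codeSet lam u)).card : ℝ)
      * (((4 ^ h : ℕ) : ℝ)) ^ T.card ≤ 2 ^ (4 * w * h) := by exact_mod_cast hfin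
  have h4 : (0 : ℝ) < ((4 ^ h : ℕ) : ℝ) := by positivity
  rw [one_div, inv_pow, inv_eq_one_div]
  push_cast at *
  rw [div_le_div_iff₀ (by positivity) (by positivity), one_mul]
  exact hfin'

end Pool.Agent.NegLim
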