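import Pool.Agent.NegLim.EHard

/-!
# Average-case hardness of the language: choice of parameters
-/

namespace Pool.Agent.NegLim.Lang

open Finset
open scoped BigOperators

lemma rt_spec (b m : ℕ) (hb : 1 ≤ b) : rt b m ^ b ≤ m ∧ m < (rt b m + 1) ^ b := by
  classical
  unfold rt
  set s := (range m).filter (fun t => (t + 1) ^ b ≤ m) with hs
  have hmem : ∀ t, t ∈ s ↔ t < m ∧ (t + 1) ^ b ≤ m := by
    intro t; rw [hs, mem_filter, mem_range]
  have hlow : ∀ t ∈ s, ∀ t' ≤ t, t' ∈ s := by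
    intro t ht t' htt
    rw [hmem] at ht ⊢
    exact ⟨by omega, (Nat.pow_le_pow_left (by omega) b).trans ht.2⟩
  have hchar : ∀ t, t ∈ s ↔ t < s.card := by
    intro t
    constructor
    · intro ht
      have h1 : range (t + 1) ⊆ s := by
        intro t' ht'
        rw [mem_range] at ht'
        exact hlow t ht t' (by omega)
      have h2 := card_le_card h1
      rw [card_range] at h2
      omega
    · intro ht
      by_contra hns
      have h1 : s ⊆ range t := by
        intro t' ht'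
        rw [mem_range]
        by_contra hcon
        exact hns (hlow t' ht' t (by omega))
      have h2 := card_le_card h1
      rw [card_range] at h2
      omega
  constructor
  · rcases Nat.eq_zero_or_pos s.card with h | h
    · rw [h, zero_pow (by omega)]; omega
    · have h1 := (hchar (s.card - 1)).mpr (by omega)
      rw [hmem] at h1
      have h2 : s.card - 1 + 1 = s.card := by omega
      rw [h2] at h1
      exact h1.2
  · have h1 : s.card ∉ s := fun h => by
      have := (hchar s.card).mp h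
      omega
    by_contra hcon
    rw [not_lt] at hcon
    apply h1
    rw [hmem]
    refine ⟨?_, hcon⟩
    have h2 : s.card + 1 ≤ (s.card + 1) ^ b := by
      calc s.card + 1 = (s.card + 1) ^ 1 := (pow_one _).symm
        _ ≤ (s.card + 1) ^ b := Nat.pow_le_pow_right (by omega) hb
    omega

lemma root_large (b d K : ℕ) (hb : 1 ≤ b) (hd : 1 ≤ d) : ∃ n1 : ℕ, ∀ n ≥ n1,
    K * (Nat.log 2 (n + 1) + 1) ^ 2 ≤ rt b (n / d) := by
  obtain ⟨C, hC⟩ := pow_le_two_pow (2 * b + 1)
  set B := 4 * (d * (K + 1) ^ b * C) + 2 with hB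
  refine ⟨2 ^ B, fun n hn => ?_⟩
  set l := Nat.log 2 (n + 1) + 1 with hl
  have hlB : B < l := by
    have h1 : B ≤ Nat.log 2 (n + 1) := Nat.le_log_of_pow_le (by norm_num) (by omega)
    omega
  have hl1 : 1 ≤ l := by omega
  have h2l : 2 ^ (l - 1) ≤ n + 1 := by
    have : l - 1 = Nat.log 2 (n + 1) := by omega
    rw [this]
    exact Nat.pow_log_le_self 2 (by omega)
  by_contra hcon
  rw [not_le] at hcon
  obtain ⟨_, h2⟩ := rt_spec b (n / d) hb
  have h3 : n < d * (rt b (n / d) + 1) ^ b := by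
    have h4 : n < d * (n / d + 1) := Nat.lt_mul_div_succ n hd
    exact lt_of_lt_of_le h4 (Nat.mul_le_mul_left d h2)
  have h4 : (rt b (n / d) + 1) ^ b ≤ ((K + 1) * l ^ 2) ^ b := by
    apply Nat.pow_le_pow_left
    have e : (K + 1) * l ^ 2 = K * l ^ 2 + l ^ 2 := by ring
    have h5 : 1 ≤ l ^ 2 := Nat.one_le_pow _ _ hl1
    omega
  have h5 : n < d * (K + 1) ^ b * l ^ (2 * b) := by
    calc n < d * (rt b (n / d) + 1) ^ b := h3
      _ ≤ d * ((K + 1) * l ^ 2) ^ b := Nat.mul_le_mul_left d h4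
      _ = d * (K + 1) ^ b * l ^ (2 * b) := by rw [mul_pow, ← pow_mul]; ring
  have h6 : 4 * (d * (K + 1) ^ b * l ^ (2 * b)) ≤ 2 ^ l := by
    have h7 : 4 * (d * (K + 1) ^ b * l ^ (2 * b)) * l ≤ 2 ^ l * l := by
      calc 4 * (d * (K + 1) ^ b * l ^ (2 * b)) * l
          = 4 * (d * (K + 1) ^ b) * l ^ (2 * b + 1) := by rw [pow_succ]; ring
        _ ≤ 4 * (d * (K + 1) ^ b) * (C * 2 ^ l) := Nat.mul_le_mul_left _ (hC l)
        _ = 4 * (d * (K + 1) ^ b * C) * 2 ^ l := by ring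
        _ ≤ l * 2 ^ l := Nat.mul_le_mul_right _ (by omega)
        _ = 2 ^ l * l := mul_comm _ _
    exact Nat.le_of_mul_le_mul_right h7 hl1
  have h7 : 2 ^ l = 2 * 2 ^ (l - 1) := by
    obtain ⟨t, ht⟩ : ∃ t, l = t + 1 := ⟨l - 1, by omega⟩
    rw [ht, Nat.add_sub_cancel, pow_succ]; ring
  have h8 : 2 ^ 2 ≤ 2 ^ (l - 1) := Nat.pow_le_pow_right (by norm_num) (by omega)
  omega

/-- The choice of the parameters. -/
lemma lang_numbers (a b d n : ℕ) (hb : 2 * a + 4 ≤ b) (hd : 1 ≤ d)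
    (hlarge : 2 ^ 12 * (Nat.log 2 (n + 1) + 1) ^ 2 ≤ rt b (n / d)) :
    ∃ M L k r q : ℕ, q.Prime ∧ q = gp (n / d / rt b (n / d) ^ (a + 1)) ∧
      rt b (n / d) ^ (a + 1) * q ≤ n / d ∧
      q ^ (2 * rt b (n / d) ^ a + 1) ≤ 2 ^ (n / d) ∧
      1 ≤ rt b (n / d) ^ a ∧ 2 * rt b (n / d) ^ a ≤ rt b (n / d) ^ (a + 1) ∧
      rt b (n / d) ^ (a + 1) ≤ q ∧ 256 * (M + 1) ≤ q ∧
      2 * rt b (n / d) ^ a < 2 ^ L ∧
      (n + 1) ^ (2 * rt b (n / d) ^ a) * 4 ^ (rt b (n / d) ^ a) ≤ 4 ^ k ∧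
      2 * (L * k * r) ≤ M + 1 ∧ 1 ≤ r ∧
      2 * r * q ^ (2 * rt b (n / d) ^ a) ≤ 2 ^ (rt b (n / d) ^ (a + 1)) ∧
      n ≤ 8 * d * rt b (n / d) ^ (2 * a + 2) * r ∧ r ≤ n := by
  obtain ⟨hRb, _⟩ := rt_spec b (n / d) (by omega)
  set m := n / d with hm
  set R := rt b m with hR
  set l := Nat.log 2 (n + 1) + 1 with hl
  have hl1 : 1 ≤ l := by omega
  have hnl : n + 1 < 2 ^ l := Nat.lt_pow_succ_log_self (by norm_num) _
  have hl2 : l ≤ l ^ 2 := by
    calc l = l * 1 := (mul_one l).symm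
      _ ≤ l * l := Nat.mul_le_mul_left l hl1
      _ = l ^ 2 := (sq l).symm
  have hRl : 2 ^ 12 * l ≤ R := (Nat.mul_le_mul_left _ hl2).trans hlarge
  have hR12 : 2 ^ 12 ≤ R := by
    calc 2 ^ 12 = 2 ^ 12 * 1 := (mul_one _).symm
      _ ≤ 2 ^ 12 * l := Nat.mul_le_mul_left _ hl1
      _ ≤ R := hRl
  have hRpos : 0 < R := by omega
  set N := R ^ (a + 1) with hN
  set w := R ^ a with hw
  have hwpos : 0 < w := by positivity
  have hNw : N = w * R := pow_succ R a
  have hNpos : 0 < N := by positivity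
  set X := m / N with hX
  -- X is large
  have hXR : w * R ^ 3 ≤ X := by
    rw [hX, Nat.le_div_iff_mul_le hNpos]
    calc w * R ^ 3 * N = R ^ (2 * a + 4) := by rw [hw, hN]; ring
      _ ≤ R ^ b := Nat.pow_le_pow_right hRpos hb
      _ ≤ m := hRb
  have hR3 : 2 ^ 12 * l ^ 2 * (2 ^ 12 * 2 ^ 12) ≤ R ^ 3 := by
    calc 2 ^ 12 * l ^ 2 * (2 ^ 12 * 2 ^ 12) ≤ R * (R * R) :=
          Nat.mul_le_mul hlarge (Nat.mul_le_mul hR12 hR12)
      _ = R ^ 3 := by ring
  have hX2 : 2 ≤ X := by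
    have h1 : 1 * 2 ≤ w * R ^ 3 := by
      apply Nat.mul_le_mul hwpos
      have : 1 ≤ l ^ 2 := Nat.one_le_pow _ _ hl1
      omega
    omega
  obtain ⟨hqp, hqX, hXq⟩ := gp_spec X hX2
  set q := gp X with hq
  have hNq : N * q ≤ m := by
    calc N * q ≤ N * X := Nat.mul_le_mul_left N hqX
      _ ≤ m := Nat.mul_div_le m N
  have hNleq : N ≤ q := by
    have h1 : 2 * N ≤ w * R ^ 3 := by
      calc 2 * N = w * (2 * R) := by rw [hNw]; ring
        _ ≤ w * (R ^ 2 * R) := by
            apply Nat.mul_le_mul_left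
            apply Nat.mul_le_mul_right
            calc 2 ≤ R * 1 := by omega
              _ ≤ R * R := Nat.mul_le_mul_left R hRpos
              _ = R ^ 2 := (sq R).symm
        _ = w * R ^ 3 := by ring
    omega
  have hmn : m ≤ n := Nat.div_le_self n d
  have hqm : q ≤ m := by
    calc q = 1 * q := (one_mul q).symm
      _ ≤ N * q := Nat.mul_le_mul_right q hNpos
      _ ≤ m := hNq
  have hq2l : q ≤ 2 ^ l := by omega
  set Q := q / 256 with hQ
  have hRw : R ≤ w * R ^ 3 := by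
    calc R = 1 * (R * 1) := by ring
      _ ≤ w * (R * R ^ 2) := Nat.mul_le_mul hwpos
          (Nat.mul_le_mul_left R (Nat.one_le_pow _ _ hRpos))
      _ = w * R ^ 3 := by ring
  have hQ1 : 1 ≤ Q := by
    rw [hQ, Nat.le_div_iff_mul_le (by norm_num)]
    have h1 : 4096 ≤ R := le_trans (by norm_num) hR12
    have h2 : R < 2 * q := lt_of_le_of_lt (hRw.trans hXR) hXq
    clear hR3 hR12 hRl hlarge
    omega
  have hqQ : q ≤ 512 * Q := by
    have h1 : q < 256 * (Q + 1) := Nat.lt_mul_div_succ _ (by norm_num)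
    omega
  have hQq : 256 * Q ≤ q := Nat.mul_div_le _ _
  set L := Nat.log 2 (2 * w) + 1 with hL
  have hL2 : 2 * w < 2 ^ L := Nat.lt_pow_succ_log_self (by norm_num) _
  have h2wN : 2 * w ≤ N := by
    rw [hNw, mul_comm 2 w]
    exact Nat.mul_le_mul_left w (by omega)
  have hLl : L ≤ l := by
    have : Nat.log 2 (2 * w) ≤ Nat.log 2 (n + 1) := Nat.log_mono_right (by omega)
    omega
  set k := w * (l + 1) with hk
  have hLk : L * k ≤ 2 * (l ^ 2 * w) := by
    calc L * k ≤ l * (w * (l + l)) := by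
          apply Nat.mul_le_mul hLl
          exact Nat.mul_le_mul_left w (by omega)
      _ = 2 * (l ^ 2 * w) := by ring
  have hLkpos : 0 < L * k := by
    have h1 : 0 < L := by omega
    have h2 : 0 < k := by positivity
    exact Nat.mul_pos h1 h2
  have hQ2 : 2 * (L * k) ≤ Q := by
    have h1 : 4096 * (l ^ 2 * w) ≤ w * R ^ 3 := by
      calc 4096 * (l ^ 2 * w) = w * (2 ^ 12 * l ^ 2 * 1) := by ring
        _ ≤ w * (2 ^ 12 * l ^ 2 * (2 ^ 12 * 2 ^ 12)) := by
            apply Nat.mul_le_mul_left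
            apply Nat.mul_le_mul_left
            norm_num
        _ ≤ w * R ^ 3 := Nat.mul_le_mul_left w hR3
    omega
  set r := Q / (2 * (L * k)) with hr
  have hr1 : 1 ≤ r := by
    rw [hr, Nat.le_div_iff_mul_le (by positivity)]
    omega
  have hr2 : 2 * (L * k) * r ≤ Q := Nat.mul_div_le Q _
  have hQr : Q ≤ 4 * (L * k) * r := by
    have h1 : Q < 2 * (L * k) * (r + 1) := Nat.lt_mul_div_succ Q (by positivity)
    have h2 : 2 * (L * k) * (r + 1) = 2 * (L * k) * r + 2 * (L * k) := by ring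
    have h3 : 2 * (L * k) ≤ 2 * (L * k) * r := Nat.le_mul_of_pos_right _ (by omega)
    have h4 : 4 * (L * k) * r = 2 * (L * k) * r + 2 * (L * k) * r := by ring
    omega
  have h2rQ : 2 * r ≤ Q := by
    calc 2 * r = 2 * 1 * r := by ring
      _ ≤ 2 * (L * k) * r := Nat.mul_le_mul_right r (by omega)
      _ ≤ Q := hr2
  have hpow : q ^ (2 * w + 1) ≤ 2 ^ N := by
    calc q ^ (2 * w + 1) ≤ (2 ^ l) ^ (2 * w + 1) := Nat.pow_le_pow_left hq2l _
      _ = 2 ^ (l * (2 * w + 1)) := by rw [← pow_mul]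
      _ ≤ 2 ^ N := by
        apply Nat.pow_le_pow_right (by norm_num)
        calc l * (2 * w + 1) ≤ l * (2 * w + w) := Nat.mul_le_mul_left l (by omega)
          _ = w * (3 * l) := by ring
          _ ≤ w * R := Nat.mul_le_mul_left w (by omega)
          _ = N := hNw.symm
  have hNm : N ≤ m := by
    calc N = N * 1 := (mul_one N).symm
      _ ≤ N * q := Nat.mul_le_mul_left N hqp.pos
      _ ≤ m := hNq
  refine ⟨Q - 1, L, k, r, q, hqp, rfl, hNq, ?_, hwpos, h2wN, hNleq, ?_, hL2, ?_, ?_, hr1, ?_, ?_, ?_⟩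
  · exact hpow.trans (Nat.pow_le_pow_right (by norm_num) hNm)
  · have : Q - 1 + 1 = Q := by omega
    rw [this]; exact hQq
  · have e3 : (4 : ℕ) = 2 ^ 2 := by norm_num
    calc (n + 1) ^ (2 * w) * 4 ^ w ≤ (2 ^ l) ^ (2 * w) * 4 ^ w :=
          Nat.mul_le_mul_right _ (Nat.pow_le_pow_left hnl.le _)
      _ = 4 ^ k := by
          rw [e3, ← pow_mul, ← pow_mul, ← pow_mul, ← pow_add, hk]
          congr 1; ring
  · have : Q - 1 + 1 = Q := by omega
    rw [this]
    calc 2 * (L * k * r) = 2 * (L * k) * r := by ring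
      _ ≤ Q := hr2
  · calc 2 * r * q ^ (2 * w) ≤ q * q ^ (2 * w) := Nat.mul_le_mul_right _ (by omega)
      _ = q ^ (2 * w + 1) := by rw [pow_succ]; ring
      _ ≤ 2 ^ N := hpow
  · -- the lower bound for r
    have hm1 : m < N * (X + 1) := Nat.lt_mul_div_succ m hNpos
    have hmr : m ≤ 2 ^ 14 * l ^ 2 * (N * w) * r := by
      calc m ≤ N * (X + 1) := hm1.le
        _ ≤ N * (4 * q) := Nat.mul_le_mul_left N (by omega)
        _ ≤ N * (4 * (512 * (4 * (L * k) * r))) := by
            apply Nat.mul_le_mul_left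
            apply Nat.mul_le_mul_left
            exact hqQ.trans (Nat.mul_le_mul_left _ hQr)
        _ ≤ N * (4 * (512 * (4 * (2 * (l ^ 2 * w)) * r))) := by
            apply Nat.mul_le_mul_left
            apply Nat.mul_le_mul_left
            apply Nat.mul_le_mul_left
            apply Nat.mul_le_mul_right
            exact Nat.mul_le_mul_left 4 hLk
        _ = 2 ^ 14 * l ^ 2 * (N * w) * r := by ring
    have hm1' : 1 ≤ m := le_trans (by omega) hNm
    calc n ≤ d * (m + 1) := (Nat.lt_mul_div_succ n hd).le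
      _ ≤ d * (2 * m) := Nat.mul_le_mul_left d (by omega)
      _ ≤ d * (2 * (2 ^ 14 * l ^ 2 * (N * w) * r)) := by
          apply Nat.mul_le_mul_left
          exact Nat.mul_le_mul_left 2 hmr
      _ = 8 * d * (2 ^ 12 * l ^ 2) * (N * w) * r := by ring
      _ ≤ 8 * d * R * (N * w) * r := by
          apply Nat.mul_le_mul_right
          apply Nat.mul_le_mul_right
          exact Nat.mul_le_mul_left _ hlarge
      _ = 8 * d * R ^ (2 * a + 2) * r := by rw [hN, hw]; ring
  · omega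

end Pool.Agent.NegLim.Lang
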