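import Pool.Agent.NegLim.Closed

/-!
# Monotone computations and the domination theorem
-/

namespace Pool.Agent.NegLim

open Finset
open scoped BigOperators Nat

set_option linter.unusedSectionVars false

variable {V : Type} [Fintype V] [DecidableEq V]

/-- The functions computed for free: variables and constants. A Boolean function of the
variables in `V` is identified with the family of the sets at which it is true. -/
def baseFns (V : Type) : Set (Set (Finset V)) :=
  {S | (∃ v : V, S = {y | v ∈ y}) ∨ S = Set.univ ∨ S = ∅}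

/-- `MonComp s C`: the functions in `C` are computed by a monotone straight line program with
`s` gates AND, OR of fan-in two. -/
inductive MonComp : ℕ → Set (Set (Finset V)) → Prop
  | base : MonComp 0 (baseFns V)
  | and {s : ℕ} {C : Set (Set (Finset V))} {f g : Set (Finset V)} :
      MonComp s C → f ∈ C → g ∈ C → MonComp (s + 1) (insert (f ∩ g) C)
  | or {s : ℕ} {C : Set (Set (Finset V))} {f g : Set (Finset V)} :
      MonComp s C → f ∈ C → g ∈ C → MonComp (s + 1) (insert (f ∪ g) C)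

lemma MonComp.upper {s : ℕ} {C : Set (Set (Finset V))} (h : MonComp s C) :
    ∀ f ∈ C, IsUpperSet f := by
  induction h with
  | base =>
    rintro f (⟨v, rfl⟩ | rfl | rfl)
    · intro a b hab ha
      exact hab ha
    · exact isUpperSet_univ
    · exact isUpperSet_empty
  | and _ hf hg ih =>
    rintro a (rfl | ha)
    · exact (ih _ hf).inter (ih _ hg)
    · exact ih a ha
  | or _ hf hg ih =>
    rintro a (rfl | ha)
    · exact (ih _ hf).union (ih _ hg)
    · exact ih a ha

lemma MonComp.base_subset {s : ℕ} {C : Set (Set (Finset V))} (h : MonComp s C) :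
    baseFns V ⊆ C := by
  induction h with
  | base => exact Set.Subset.refl _
  | and _ _ _ ih => exact ih.trans (Set.subset_insert _ _)
  | or _ _ _ ih => exact ih.trans (Set.subset_insert _ _)

/-- The family generated by the minimal sets of `S` of size at most `w`. -/
def trim (S : Set (Finset V)) (w : ℕ) : Set (Finset V) := {y | ∃ l ≤ w, ∃ T ∈ mins S l, T ⊆ y}

lemma trim_upper (S : Set (Finset V)) (w : ℕ) : IsUpperSet (trim S w) := by
  rintro a b hab ⟨l, hl, T, hT, hTa⟩
  exact ⟨l, hl, T, hT, hTa.trans hab⟩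

lemma trim_gen (S : Set (Finset V)) (w : ℕ) : Gen w (trim S w) := by
  rintro y ⟨l, hl, T, hT, hTy⟩
  exact ⟨T, ⟨l, hl, T, hT, Finset.Subset.refl T⟩, hTy, by rw [(mem_mins.mp hT).2.1]; exact hl⟩

lemma trim_subset {S : Set (Finset V)} (hS : IsUpperSet S) (w : ℕ) : trim S w ⊆ S := by
  rintro y ⟨l, _, T, hT, hTy⟩
  exact hS hTy (mem_mins.mp hT).1

/-- Every member contains a minimal one. -/
lemma exists_min {S : Set (Finset V)} (T : Finset V) (hT : T ∈ S) :
    ∃ T0, T0 ⊆ T ∧ T0 ∈ S ∧ ∀ T', T' ⊂ T0 → T' ∉ S := by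
  induction T using Finset.strongInduction with
  | H T ih =>
    by_cases h : ∃ T', T' ⊂ T ∧ T' ∈ S
    · obtain ⟨T', h1, h2⟩ := h
      obtain ⟨T0, h3, h4, h5⟩ := ih T' h1 h2
      exact ⟨T0, h3.trans h1.subset, h4, h5⟩
    · push Not at h
      exact ⟨T, Finset.Subset.refl T, hT, h⟩

lemma Dk_mul_le (M l b : ℕ) (q a : ℝ) (hq : 0 < q) (hlb : l ≤ b)
    (hab : 2 * (b : ℝ) * ((M : ℝ) + 1) ≤ a * q) : Dk M l * (1 / q) ^ l ≤ a ^ l := by
  unfold Dk
  have h1 : (l ! : ℝ) ≤ (b : ℝ) ^ l := by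
    have := (Nat.factorial_le_pow l).trans (Nat.pow_le_pow_left hlb l)
    exact_mod_cast this
  calc (l ! : ℝ) * (2 * ((M : ℝ) + 1)) ^ l * (1 / q) ^ l
      ≤ (b : ℝ) ^ l * (2 * ((M : ℝ) + 1)) ^ l * (1 / q) ^ l := by
        apply mul_le_mul_of_nonneg_right _ (by positivity)
        apply mul_le_mul_of_nonneg_right h1 (by positivity)
    _ = ((b : ℝ) * (2 * ((M : ℝ) + 1)) * (1 / q)) ^ l := by rw [← mul_pow, ← mul_pow]
    _ ≤ a ^ l := by
        apply pow_le_pow_left₀ (by positivity)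
        rw [mul_one_div, div_le_iff₀ hq]
        linarith

section dist

variable {Y : Type} [Fintype Y] [Nonempty Y] (cw : Y → Finset V)

/-- The hypotheses on the random set `cw y`: for every `T` with at most `2w` elements the
probability that `T ⊆ cw y` is at most `q^(-|T|)`. -/
def Spread (w : ℕ) (q : ℝ) : Prop :=
  ∀ T : Finset V, T.card ≤ 2 * w → (𝔼 y : Y, (if T ⊆ cw y then (1 : ℝ) else 0)) ≤ (1 / q) ^ T.card

lemma expect_le_mins (S : Set (Finset V)) {w : ℕ} {q : ℝ} (hsp : Spread cw w q)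
    (L : Finset ℕ) (hL : ∀ l ∈ L, l ≤ 2 * w) (A : Set (Finset V))
    (hA : ∀ y : Y, cw y ∈ A → ∃ l ∈ L, ∃ T ∈ mins S l, T ⊆ cw y) :
    (𝔼 y : Y, ind A (cw y)) ≤ ∑ l ∈ L, ((mins S l).card : ℝ) * (1 / q) ^ l := by
  have h1 : ∀ y : Y, ind A (cw y) ≤ ∑ l ∈ L, ∑ T ∈ mins S l, (if T ⊆ cw y then (1 : ℝ) else 0) := by
    intro y
    have hnn : ∀ l ∈ L, (0 : ℝ) ≤ ∑ T ∈ mins S l, (if T ⊆ cw y then (1 : ℝ) else 0) := by
      intro l _
      apply Finset.sum_nonneg
      intro T _
      split_ifs <;> norm_num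
    by_cases hy : cw y ∈ A
    · rw [ind_of_mem hy]
      obtain ⟨l, hl, T, hT, hTy⟩ := hA y hy
      have h2 : (1 : ℝ) ≤ ∑ T ∈ mins S l, (if T ⊆ cw y then (1 : ℝ) else 0) := by
        have := Finset.single_le_sum (f := fun T => (if T ⊆ cw y then (1 : ℝ) else 0))
          (s := mins S l) (fun T _ => by split_ifs <;> norm_num) hT
        simpa [hTy] using this
      exact h2.trans (Finset.single_le_sum hnn hl)
    · rw [ind_of_notMem hy]
      exact Finset.sum_nonneg hnn
  refine (Finset.expect_le_expect fun y _ => h1 y).trans ?_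
  rw [Finset.expect_sum_comm]
  refine Finset.sum_le_sum fun l hl => ?_
  rw [Finset.expect_sum_comm]
  have h3 : ∀ T ∈ mins S l, (𝔼 y : Y, (if T ⊆ cw y then (1 : ℝ) else 0)) ≤ (1 / q) ^ l := by
    intro T hT
    have h4 := (mem_mins.mp hT).2.1
    have := hsp T (by rw [h4]; exact hL l hl)
    rwa [h4] at this
  refine (Finset.sum_le_sum h3).trans ?_
  rw [Finset.sum_const, nsmul_eq_mul]

/-- The random set `cw y` is dominated by noise on trimmed closed families. -/
lemma dominated (M k w : ℕ) (q : ℝ) (hq0 : 0 < q) (hk : 1 ≤ k) (hq : 8 * (w : ℝ) * ((M : ℝ) + 1) ≤ q)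
    (hsp : Spread cw w q) {S : Set (Finset V)} (hS : IsUpperSet S)
    (hcl : Closed M k (2 * w) S) :
    (𝔼 y : Y, ind (trim S w) (cw y)) ≤ (nz M ^ k) (ind (trim S w)) ∅ := by
  by_cases h0 : (∅ : Finset V) ∈ trim S w
  · have h1 := le_nz_pow M k (g := ind (trim S w))
      (fun x y hxy => ind_monotone (trim_upper S w) hxy) ∅
    rw [ind_of_mem h0] at h1
    refine le_trans ?_ h1
    exact Finset.expect_le univ_nonempty fun y _ => ind_le_one _ _
  · have hmin0 : ∀ T ∈ mins S 0, False := by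
      intro T hT
      apply h0
      have h2 := (mem_mins.mp hT).2.1
      rw [card_eq_zero] at h2
      exact ⟨0, Nat.zero_le w, T, hT, by rw [h2]⟩
    set h : ℝ := nz M (ind (trim S w)) ∅ with hh
    have hhn : 0 ≤ h := nz_ind_nonneg _ _ _
    have h1 := expect_le_mins cw S hsp (Finset.Icc 1 w)
      (fun l hl => by have := (Finset.mem_Icc.mp hl).2; omega) (trim S w) (by
        rintro y ⟨l, hl, T, hT, hTy⟩
        rcases Nat.eq_zero_or_pos l with h | h
        · subst h; exact (hmin0 T hT).elim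
        · exact ⟨l, Finset.mem_Icc.mpr ⟨h, hl⟩, T, hT, hTy⟩)
    have h2 : ∀ l ∈ Finset.Icc 1 w, ((mins S l).card : ℝ) * (1 / q) ^ l
        ≤ (2 * h) * (1 / 4 : ℝ) ^ l := by
      intro l hl
      rw [Finset.mem_Icc] at hl
      have h3 := mins_hit M k (2 * w) hS hcl (l := l) (by omega)
      have h4 : nz M (ind {y | ∃ T ∈ mins S l, T ⊆ y}) ∅ ≤ h := by
        apply nz_mono
        apply ind_mono
        rintro y ⟨T, hT, hTy⟩
        exact ⟨l, hl.2, T, hT, hTy⟩
      have h5 := Dk_mul_le M l w q (1 / 4) hq0 hl.2 (by linarith)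
      have h6 : (0 : ℝ) ≤ (1 / q) ^ l := by positivity
      calc ((mins S l).card : ℝ) * (1 / q) ^ l
          ≤ (2 * Dk M l * nz M (ind {y | ∃ T ∈ mins S l, T ⊆ y}) ∅) * (1 / q) ^ l :=
            mul_le_mul_of_nonneg_right h3 h6
        _ = (2 * nz M (ind {y | ∃ T ∈ mins S l, T ⊆ y}) ∅) * (Dk M l * (1 / q) ^ l) := by ring
        _ ≤ (2 * h) * (1 / 4 : ℝ) ^ l := by
            apply mul_le_mul _ h5 _ (by positivity)
            · linarith
            · have := Dk_pos M l; positivity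
    refine h1.trans ((Finset.sum_le_sum h2).trans ?_)
    rw [← Finset.mul_sum]
    have h7 : ∀ n : ℕ, ∑ l ∈ Finset.Icc 1 n, (1 / 4 : ℝ) ^ l = 1 / 3 - (1 / 3) * (1 / 4) ^ n := by
      intro n
      induction n with
      | zero => simp
      | succ n ih => rw [Finset.sum_Icc_succ_top (by omega), ih]; ring
    rw [h7 w]
    have h8 : (0 : ℝ) ≤ (1 / 4) ^ w := by positivity
    have h9 : h ≤ (nz M ^ k) (ind (trim S w)) ∅ := by
      have := nz_pow_ind_mono_exp M hk (trim_upper S w) ∅
      rwa [pow_one] at this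
    nlinarith

/-- Trimming costs little for the random set `cw y`. -/
lemma trim_error (M k w : ℕ) (q : ℝ) (hq0 : 0 < q) (hq : 8 * (w : ℝ) * ((M : ℝ) + 1) ≤ q)
    (hsp : Spread cw w q) {S : Set (Finset V)} (hS : IsUpperSet S)
    (hcl : Closed M k (2 * w) S) (hgen : Gen (2 * w) S) :
    (𝔼 y : Y, ind (S \ trim S w) (cw y)) ≤ (1 / 2 : ℝ) ^ w := by
  have h1 := expect_le_mins cw S hsp (Finset.Ioc w (2 * w))
    (fun l hl => (Finset.mem_Ioc.mp hl).2) (S \ trim S w) (by
      rintro y ⟨hy1, hy2⟩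
      obtain ⟨T, hT1, hT2, hT3⟩ := hgen _ hy1
      obtain ⟨T0, h3, h4, h5⟩ := exists_min T hT1
      have h6 : T0.card ≤ 2 * w := (card_le_card h3).trans hT3
      have h7 : T0 ∈ mins S T0.card := mem_mins.mpr ⟨h4, rfl, h5⟩
      refine ⟨T0.card, Finset.mem_Ioc.mpr ⟨?_, h6⟩, T0, h7, h3.trans hT2⟩
      by_contra h8
      exact hy2 ⟨T0.card, not_lt.mp h8, T0, h7, h3.trans hT2⟩)
  have h2 : ∀ l ∈ Finset.Ioc w (2 * w), ((mins S l).card : ℝ) * (1 / q) ^ l
        ≤ (1 / 2 : ℝ) ^ l := by
    intro l hl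
    rw [Finset.mem_Ioc] at hl
    have h3 := mins_card M k (2 * w) hS hcl (l := l) hl.2
    have h5 := Dk_mul_le M l (2 * w) q (1 / 2) hq0 hl.2 (by push_cast; linarith)
    have h6 : (0 : ℝ) ≤ (1 / q) ^ l := by positivity
    exact (mul_le_mul_of_nonneg_right h3 h6).trans h5
  refine h1.trans ((Finset.sum_le_sum h2).trans ?_)
  have h7 : ∀ n : ℕ, ∑ l ∈ Finset.Ioc w (w + n), (1 / 2 : ℝ) ^ l
      = (1 / 2) ^ w - (1 / 2) ^ (w + n) := by
    intro n
    induction n with
    | zero => simp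
    | succ n ih =>
      rw [← add_assoc, Finset.sum_Ioc_succ_top (by omega), ih]
      ring
  have h8 := h7 w
  rw [← two_mul] at h8
  rw [h8]
  have : (0 : ℝ) ≤ (1 / 2) ^ (2 * w) := by positivity
  linarith

/-- Approximators. -/
def Good (M k w : ℕ) (A : Set (Finset V)) : Prop :=
  IsUpperSet A ∧ Gen w A ∧ (𝔼 y : Y, ind A (cw y)) ≤ (nz M ^ k) (ind A) ∅

/-- One gate. -/
lemma gate_approx (M k w : ℕ) (q : ℝ) (hq0 : 0 < q) (hk : 1 ≤ k)
    (hq : 8 * (w : ℝ) * ((M : ℝ) + 1) ≤ q)
    (hsp : Spread cw w q) {F : Set (Finset V)} (hF : IsUpperSet F) (hgen : Gen (2 * w) F) :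
    ∃ A N P : Set (Finset V), Good cw M k w A ∧
      (nz M ^ k) (ind N) ∅ ≤ ((Fintype.card V : ℝ) + 1) ^ (2 * w) * (1 / 2 : ℝ) ^ k ∧
      (𝔼 y : Y, ind P (cw y)) ≤ (1 / 2 : ℝ) ^ w ∧
      (∀ W, W ∉ N → W ∈ A → W ∈ F) ∧ (∀ y, y ∉ P → y ∈ F → y ∈ A) := by
  obtain ⟨S, hS1, hS2, hS3, hS4, hS5⟩ := exists_closure M k (2 * w) F hF hgen
  refine ⟨trim S w, S \ F, S \ trim S w, ⟨trim_upper S w, trim_gen S w,
    dominated cw M k w q hq0 hk hq hsp hS1 hS2⟩, hS5,
    trim_error cw M k w q hq0 hq hsp hS1 hS2 hS4, ?_, ?_⟩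
  · intro W hW hWA
    by_contra hWF
    exact hW ⟨trim_subset hS1 w hWA, hWF⟩
  · intro y hy hyF
    by_contra hyA
    exact hy ⟨hS3 hyF, hyA⟩

lemma ind_union_le (N N' : Set (Finset V)) : ind (N ∪ N') ≤ ind N + ind N' := by
  intro x
  simp only [Pi.add_apply]
  by_cases h : x ∈ N ∪ N'
  · rw [ind_of_mem h]
    rcases h with h | h
    · rw [ind_of_mem h]; linarith [ind_nonneg N' x]
    · rw [ind_of_mem h]; linarith [ind_nonneg N x]
  · rw [ind_of_notMem h]
    linarith [ind_nonneg N x, ind_nonneg N' x]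

lemma nz_pow_union (M k : ℕ) (N N' : Set (Finset V)) (x : Finset V) :
    (nz M ^ k) (ind (N ∪ N')) x ≤ (nz M ^ k) (ind N) x + (nz M ^ k) (ind N') x := by
  have := nz_pow_mono M k (ind_union_le N N') x
  rwa [map_add] at this

lemma expect_union (N N' : Set (Finset V)) :
    (𝔼 y : Y, ind (N ∪ N') (cw y)) ≤ (𝔼 y : Y, ind N (cw y)) + (𝔼 y : Y, ind N' (cw y)) := by
  rw [← Finset.expect_add_distrib]
  exact Finset.expect_le_expect fun y _ => ind_union_le N N' (cw y)

/-- The approximation method. -/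
lemma approx_method (M k w : ℕ) (q : ℝ) (hq0 : 0 < q) (hk : 1 ≤ k) (hw : 1 ≤ w)
    (hq : 8 * (w : ℝ) * ((M : ℝ) + 1) ≤ q) (hsp : Spread cw w q) (x : Finset V)
    {s : ℕ} {C : Set (Set (Finset V))} (hC : MonComp s C) :
    ∃ N P : Set (Finset V),
      (nz M ^ k) (ind N) ∅ ≤ s * (((Fintype.card V : ℝ) + 1) ^ (2 * w) * (1 / 2 : ℝ) ^ k) ∧
      (𝔼 y : Y, ind P (cw y)) ≤ s * (1 / 2 : ℝ) ^ w ∧
      ∀ g ∈ C, ∃ A : Set (Finset V), Good cw M k w A ∧
        (∀ W, W ∉ N → W ∈ A → x ∪ W ∈ g) ∧ (∀ y, y ∉ P → x ∪ y ∈ g → y ∈ A) := by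
  have hind0 : ind (∅ : Set (Finset V)) = fun _ => (0 : ℝ) := by
    funext y; rw [ind_of_notMem]; simp
  have hw1 : (1 : ℝ) ≤ w := by exact_mod_cast hw
  induction hC with
  | base =>
    refine ⟨∅, ∅, ?_, ?_, ?_⟩
    · rw [hind0, nz_pow_const]; simp
    · rw [hind0]; simp
    · rintro g (⟨v, rfl⟩ | rfl | rfl)
      · by_cases hv : v ∈ x
        · refine ⟨Set.univ, ⟨isUpperSet_univ, ?_, ?_⟩, ?_, ?_⟩
          · intro y _
            exact ⟨∅, trivial, empty_subset y, by simp⟩
          · have h1 : ind (Set.univ : Set (Finset V)) = fun _ => (1 : ℝ) := by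
              funext y; rw [ind_of_mem (Set.mem_univ y)]
            rw [h1, nz_pow_const]; simp
          · intro W _ _
            exact mem_union_left _ hv
          · intro y _ _
            trivial
        · refine ⟨{y | v ∈ y}, ⟨?_, ?_, ?_⟩, ?_, ?_⟩
          · intro a b hab ha
            exact hab ha
          · intro y hy
            exact ⟨{v}, by simp, by simpa using hy, by simpa using hw⟩
          · have h1 : (𝔼 y : Y, ind {y | v ∈ y} (cw y)) ≤ 1 / q := by
              have h2 := hsp {v} (by simp; omega)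
              rw [card_singleton, pow_one] at h2
              refine le_trans (Finset.expect_le_expect fun y _ => ?_) h2
              by_cases hvy : v ∈ cw y
              · rw [ind_of_mem (show cw y ∈ {y | v ∈ y} from hvy), if_pos (by simpa using hvy)]
              · rw [ind_of_notMem (show cw y ∉ {y | v ∈ y} from hvy)]
                split_ifs <;> norm_num
            have h3 : (1 : ℝ) / (M + 1) ≤ nz M (ind {y | v ∈ y}) ∅ := by
              have h4 := expect_subset_zset M ({v} : Finset V)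
              rw [card_singleton, pow_one] at h4
              rw [← h4, nz_apply]
              refine Finset.expect_le_expect fun ω _ => ?_
              by_cases hvz : ({v} : Finset V) ⊆ zset M ω
              · rw [if_pos hvz, ind_of_mem]
                simp only [empty_union, Set.mem_ofPred_eq]
                exact hvz (mem_singleton_self v)
              · rw [if_neg hvz]; exact ind_nonneg _ _
            have h5 : nz M (ind {y | v ∈ y}) ∅ ≤ (nz M ^ k) (ind {y | v ∈ y}) ∅ := by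
              have h6 : IsUpperSet {y : Finset V | v ∈ y} := by
                intro a b hab ha
                exact hab ha
              have := nz_pow_ind_mono_exp M hk h6 ∅
              rwa [pow_one] at this
            refine h1.trans (le_trans ?_ (h3.trans h5))
            apply one_div_le_one_div_of_le (by positivity)
            have : (0 : ℝ) ≤ (M : ℝ) + 1 := by positivity
            nlinarith
          · intro W _ hW
            exact mem_union_right _ hW
          · intro y _ hy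
            rcases mem_union.mp hy with h | h
            · exact absurd h hv
            · exact h
      · refine ⟨Set.univ, ⟨isUpperSet_univ, ?_, ?_⟩, ?_, ?_⟩
        · intro y _
          exact ⟨∅, trivial, empty_subset y, by simp⟩
        · have h1 : ind (Set.univ : Set (Finset V)) = fun _ => (1 : ℝ) := by
            funext y; rw [ind_of_mem (Set.mem_univ y)]
          rw [h1, nz_pow_const]; simp
        · intro W _ _
          trivial
        · intro y _ _
          trivial
      · refine ⟨∅, ⟨isUpperSet_empty, ?_, ?_⟩, ?_, ?_⟩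
        · intro y hy
          exact hy.elim
        · rw [hind0, nz_pow_const]; simp
        · intro W _ hW
          exact hW.elim
        · intro y _ hy
          exact hy.elim
  | @and s C f g _ hf hg ih =>
    obtain ⟨N, P, hN, hP, hA⟩ := ih
    obtain ⟨A, ⟨hA1, hA2, _⟩, hA4, hA5⟩ := hA f hf
    obtain ⟨B, ⟨hB1, hB2, _⟩, hB4, hB5⟩ := hA g hg
    have hgen : Gen (2 * w) (A ∩ B) := by
      rintro y ⟨hy1, hy2⟩
      obtain ⟨T1, h1, h2, h3⟩ := hA2 y hy1
      obtain ⟨T2, h4, h5, h6⟩ := hB2 y hy2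
      refine ⟨T1 ∪ T2, ⟨hA1 subset_union_left h1, hB1 subset_union_right h4⟩,
        union_subset h2 h5, ?_⟩
      have := card_union_le T1 T2
      omega
    obtain ⟨A', N', P', h1, h2, h3, h4, h5⟩ :=
      gate_approx cw M k w q hq0 hk hq hsp (hA1.inter hB1) hgen
    refine ⟨N ∪ N', P ∪ P', ?_, ?_, ?_⟩
    · have := nz_pow_union M k N N' (∅ : Finset V)
      push_cast
      linarith
    · have := expect_union cw P P'
      push_cast
      linarith
    · rintro a (rfl | ha)
      · refine ⟨A', h1, ?_, ?_⟩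
        · intro W hW hWA
          have h6 := h4 W (fun h => hW (Or.inr h)) hWA
          exact ⟨hA4 W (fun h => hW (Or.inl h)) h6.1, hB4 W (fun h => hW (Or.inl h)) h6.2⟩
        · intro y hy hyf
          exact h5 y (fun h => hy (Or.inr h))
            ⟨hA5 y (fun h => hy (Or.inl h)) hyf.1, hB5 y (fun h => hy (Or.inl h)) hyf.2⟩
      · obtain ⟨D, hD1, hD2, hD3⟩ := hA a ha
        exact ⟨D, hD1, fun W hW => hD2 W (fun h => hW (Or.inl h)),
          fun y hy => hD3 y (fun h => hy (Or.inl h))⟩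
  | @or s C f g _ hf hg ih =>
    obtain ⟨N, P, hN, hP, hA⟩ := ih
    obtain ⟨A, ⟨hA1, hA2, _⟩, hA4, hA5⟩ := hA f hf
    obtain ⟨B, ⟨hB1, hB2, _⟩, hB4, hB5⟩ := hA g hg
    have hgen : Gen (2 * w) (A ∪ B) := by
      rintro y (hy | hy)
      · obtain ⟨T1, h1, h2, h3⟩ := hA2 y hy
        exact ⟨T1, Or.inl h1, h2, by omega⟩
      · obtain ⟨T1, h1, h2, h3⟩ := hB2 y hy
        exact ⟨T1, Or.inr h1, h2, by omega⟩
    obtain ⟨A', N', P', h1, h2, h3, h4, h5⟩ :=
      gate_approx cw M k w q hq0 hk hq hsp (hA1.union hB1) hgen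
    refine ⟨N ∪ N', P ∪ P', ?_, ?_, ?_⟩
    · have := nz_pow_union M k N N' (∅ : Finset V)
      push_cast
      linarith
    · have := expect_union cw P P'
      push_cast
      linarith
    · rintro a (rfl | ha)
      · refine ⟨A', h1, ?_, ?_⟩
        · intro W hW hWA
          rcases h4 W (fun h => hW (Or.inr h)) hWA with h | h
          · exact Or.inl (hA4 W (fun h => hW (Or.inl h)) h)
          · exact Or.inr (hB4 W (fun h => hW (Or.inl h)) h)
        · intro y hy hyf
          apply h5 y (fun h => hy (Or.inr h))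
          rcases hyf with h | h
          · exact Or.inl (hA5 y (fun h => hy (Or.inl h)) h)
          · exact Or.inr (hB5 y (fun h => hy (Or.inl h)) h)
      · obtain ⟨D, hD1, hD2, hD3⟩ := hA a ha
        exact ⟨D, hD1, fun W hW => hD2 W (fun h => hW (Or.inl h)),
          fun y hy => hD3 y (fun h => hy (Or.inl h))⟩

/-- **Domination**: for a monotone function computed with `s` gates, and any fixed set `x`,
adding the random set `cw y` makes the function true with probability at most that of adding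
`k` rounds of noise, up to a small error. -/
theorem domination (M k w : ℕ) (q : ℝ) (hq0 : 0 < q) (hk : 1 ≤ k) (hw : 1 ≤ w)
    (hq : 8 * (w : ℝ) * ((M : ℝ) + 1) ≤ q) (hsp : Spread cw w q)
    (hkw : ((Fintype.card V : ℝ) + 1) ^ (2 * w) * (1 / 2 : ℝ) ^ k ≤ (1 / 2 : ℝ) ^ w)
    {s : ℕ} {C : Set (Set (Finset V))} (hC : MonComp s C) {g : Set (Finset V)} (hg : g ∈ C)
    (x : Finset V) :
    (𝔼 y : Y, ind g (x ∪ cw y)) ≤ (nz M ^ k) (ind g) x + s * (2 * (1 / 2 : ℝ) ^ w) := by
  obtain ⟨N, P, hN, hP, hA⟩ := approx_method cw M k w q hq0 hk hw hq hsp x hC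
  obtain ⟨A, ⟨_, _, hA3⟩, hA4, hA5⟩ := hA g hg
  have h1 : (𝔼 y : Y, ind g (x ∪ cw y)) ≤ (𝔼 y : Y, ind A (cw y)) + (𝔼 y : Y, ind P (cw y)) := by
    rw [← Finset.expect_add_distrib]
    refine Finset.expect_le_expect fun y _ => ?_
    by_cases h : x ∪ cw y ∈ g
    · rw [ind_of_mem h]
      by_cases h2 : cw y ∈ P
      · rw [ind_of_mem h2]; linarith [ind_nonneg A (cw y)]
      · rw [ind_of_mem (hA5 _ h2 h)]; linarith [ind_nonneg P (cw y)]
    · rw [ind_of_notMem h]; linarith [ind_nonneg A (cw y), ind_nonneg P (cw y)]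
  have h2 : (nz M ^ k) (ind A) ∅ ≤ (nz M ^ k) (ind g) x + (nz M ^ k) (ind N) ∅ := by
    have h3 : ind A ≤ (fun W => ind g (x ∪ W)) + ind N := by
      intro W
      simp only [Pi.add_apply]
      by_cases h : W ∈ A
      · rw [ind_of_mem h]
        by_cases h2 : W ∈ N
        · rw [ind_of_mem h2]; linarith [ind_nonneg g (x ∪ W)]
        · rw [ind_of_mem (hA4 _ h2 h)]; linarith [ind_nonneg N W]
      · rw [ind_of_notMem h]; linarith [ind_nonneg g (x ∪ W), ind_nonneg N W]
    have h4 := nz_pow_mono M k h3 ∅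
    rw [map_add] at h4
    simp only [Pi.add_apply] at h4
    rwa [nz_pow_shift, union_empty] at h4
  have h5 : (s : ℝ) * (((Fintype.card V : ℝ) + 1) ^ (2 * w) * (1 / 2 : ℝ) ^ k)
      ≤ s * (1 / 2 : ℝ) ^ w := mul_le_mul_of_nonneg_left hkw (by positivity)
  linarith

end dist

end Pool.Agent.NegLim
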