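import Pool.Agent.NegLim.Spread
import Pool.Agent.NegLim.Mono

/-!
# Closed families, with blocks of noise and the spread lemma
-/

namespace Pool.Agent.NegLim

open Finset
open scoped BigOperators Nat

set_option linter.unusedSectionVars false

variable {V : Type} [Fintype V] [DecidableEq V]

/-- `k` blocks of `L` rounds of noise amplify a failure probability `δ` to `δ^k`. -/
lemma amplify_block (M L k : ℕ) {S : Set (Finset V)} (hS : IsUpperSet S) {B : Finset V} {δ : ℝ}
    (h0 : 0 ≤ δ) (h : ∀ x, B ⊆ x → 1 - δ ≤ (nz M ^ L) (ind S) x) :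
    ∀ x, B ⊆ x → 1 - δ ^ k ≤ (nz M ^ (L * k)) (ind S) x := by
  induction k with
  | zero => intro x _; simpa using ind_nonneg S x
  | succ k ih =>
    intro x hx
    have e : L * (k + 1) = L + L * k := by ring
    rw [e, pow_add (nz M)]
    simp only [Module.End.mul_apply]
    have h1 : (nz M ^ L) (fun y => 1 - δ ^ k * (1 - ind S y)) x
        ≤ (nz M ^ L) ((nz M ^ (L * k)) (ind S)) x := by
      apply nz_pow_le_of
      intro y hy
      by_cases hyS : y ∈ S
      · have := le_nz_pow M (L * k) (g := ind S) (fun x y hxy => ind_monotone hS hxy) y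
        rw [ind_of_mem hyS] at this ⊢
        simpa using this
      · rw [ind_of_notMem hyS]
        have := ih y (hx.trans hy)
        simpa using this
    refine le_trans ?_ h1
    have h2 : (nz M ^ L) (fun y => 1 - δ ^ k * (1 - ind S y)) x
        = 1 - δ ^ k * (1 - (nz M ^ L) (ind S) x) := by
      have e : (fun y => 1 - δ ^ k * (1 - ind S y))
          = (fun _ : Finset V => (1 - δ ^ k)) + (δ ^ k) • ind S := by
        funext y; simp only [Pi.add_apply, Pi.smul_apply, smul_eq_mul]; ring
      rw [e, map_add, map_smul, nz_pow_const]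
      simp only [Pi.add_apply, Pi.smul_apply, smul_eq_mul]; ring
    rw [h2]
    have h3 := h x hx
    have h4 : (0 : ℝ) ≤ δ ^ k := pow_nonneg h0 k
    rw [pow_succ]
    nlinarith

/-- `S` is closed if every set of size at most `c`, which after `k` blocks of noise is in `S`
with probability at least `1 - 4^(-k)`, is already in `S`. -/
def BClosed (M L k c : ℕ) (S : Set (Finset V)) : Prop :=
  ∀ T : Finset V, T.card ≤ c → 1 - (1 / 4 : ℝ) ^ k ≤ (nz M ^ (L * k)) (ind S) T → T ∈ S

/-- The link bound `64 (M + 1)`. -/
noncomputable def Kb (M : ℕ) : ℝ := 64 * ((M : ℝ) + 1)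

lemma Kb_pos (M : ℕ) : 0 < Kb M := by unfold Kb; positivity

lemma one_le_Kb (M : ℕ) : 1 ≤ Kb M := by
  unfold Kb
  have : (0 : ℝ) ≤ M := Nat.cast_nonneg M
  linarith

/-- Links of the minimal sets of a closed family are small. -/
lemma link_card2 (M L k c : ℕ) {S : Set (Finset V)} (hS : IsUpperSet S)
    (hcl : BClosed M L k c S) (hcL : c < 2 ^ L) {l : ℕ} (hl : l ≤ c) :
    ∀ d : ℕ, ∀ B : Finset V, B.card + d = l →
      (((mins S l).filter (fun T => B ⊆ T)).card : ℝ) ≤ Kb M ^ d := by
  intro d
  induction d using Nat.strong_induction_on with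
  | _ d ih =>
    intro B hBd
    by_contra hcon
    rw [not_le] at hcon
    set F := (mins S l).filter (fun T => B ⊆ T) with hF
    rcases Nat.eq_zero_or_pos d with h0 | h0
    · subst h0
      have : F ⊆ {B} := by
        intro T hT
        rw [hF, mem_filter, mem_mins] at hT
        rw [mem_singleton]
        exact (Finset.eq_of_subset_of_card_le hT.2 (by omega)).symm
      have h1 : F.card ≤ 1 := (card_le_card this).trans_eq (card_singleton B)
      rw [pow_zero] at hcon
      have : (F.card : ℝ) ≤ 1 := by exact_mod_cast h1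
      linarith
    · have hB : ∀ T ∈ F, B ⊆ T := fun T hT => (mem_filter.mp hT).2
      have hd : ∀ T ∈ F, (T \ B).card ≤ d := by
        intro T hT
        have h1 := mem_filter.mp hT
        have h2 := (mem_mins.mp h1.1).2.1
        rw [Finset.card_sdiff_of_subset h1.2]
        omega
      have hKd : (0 : ℝ) < Kb M ^ d := pow_pos (Kb_pos M) d
      have hFpos : (0 : ℝ) < F.card := hKd.trans hcon
      have hsp : ∀ J : Finset V, ((F.filter (fun T => J ⊆ T \ B)).card : ℝ)
          ≤ (F.card : ℝ) * (1 / Kb M) ^ J.card := by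
        intro J
        rcases J.eq_empty_or_nonempty with hJ | hJ
        · subst hJ
          rw [card_empty, pow_zero, mul_one]
          exact_mod_cast card_filter_le _ _
        · by_cases hJB : Disjoint J B
          · by_cases hJd : J.card ≤ d
            · have hJ1 : 0 < J.card := card_pos.mpr hJ
              have h1 := ih (d - J.card) (by omega) (B ∪ J) (by
                rw [Finset.card_union_of_disjoint hJB.symm]; omega)
              have h2 : F.filter (fun T => J ⊆ T \ B) ⊆ (mins S l).filter (fun T => B ∪ J ⊆ T) := by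
                intro T hT
                rw [mem_filter] at hT ⊢
                refine ⟨(mem_filter.mp hT.1).1, union_subset (hB T hT.1) (hT.2.trans sdiff_subset)⟩
              have h3 : ((F.filter (fun T => J ⊆ T \ B)).card : ℝ) ≤ Kb M ^ (d - J.card) :=
                le_trans (by exact_mod_cast card_le_card h2) h1
              refine h3.trans ?_
              have h4 : Kb M ^ (d - J.card) = Kb M ^ d * (1 / Kb M) ^ J.card := by
                obtain ⟨i, hi⟩ := Nat.exists_eq_add_of_le hJd
                rw [hi, Nat.add_sub_cancel_left, pow_add, mul_comm (Kb M ^ J.card), mul_assoc,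
                  ← mul_pow, mul_one_div, div_self (Kb_pos M).ne', one_pow, mul_one]
              rw [h4]
              apply mul_le_mul_of_nonneg_right hcon.le
              have := Kb_pos M
              positivity
            · have : F.filter (fun T => J ⊆ T \ B) = ∅ := by
                rw [Finset.filter_eq_empty_iff]
                intro T hT hJT
                have := (card_le_card hJT).trans (hd T hT)
                exact hJd this
              rw [this]
              have := Kb_pos M
              simp only [card_empty, Nat.cast_zero]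
              positivity
          · have : F.filter (fun T => J ⊆ T \ B) = ∅ := by
              rw [Finset.filter_eq_empty_iff]
              intro T _ hJT
              apply hJB
              exact disjoint_of_subset_left hJT sdiff_disjoint
            rw [this]
            have := Kb_pos M
            simp only [card_empty, Nat.cast_zero]
            positivity
      have hhit : ∀ x, B ⊆ x → 1 - (1 / 4 : ℝ) ≤ (nz M ^ L) (ind S) x := by
        intro x hx
        have h1 := spread_hit M (Kb M) (le_of_eq rfl) L d (by omega) (Finset V)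
          (fun T => T \ B) F (F.card : ℝ) hFpos hd hsp x
        rw [div_self hFpos.ne'] at h1
        have h2 : (0 : ℝ) ≤ (1 / 4) ^ d := by positivity
        have h3 : (nz M ^ L) (ind (hitSet (fun T => T \ B) F)) x ≤ (nz M ^ L) (ind S) x := by
          apply nz_pow_le_of
          intro y hy
          by_cases hyH : y ∈ hitSet (fun T => T \ B) F
          · obtain ⟨T, hT, hTy⟩ := hyH
            have h4 : y ∈ S := by
              apply hS _ (mem_mins.mp (mem_filter.mp hT).1).1
              intro v hv
              by_cases hvB : v ∈ B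
              · exact hy (hx hvB)
              · exact hTy (mem_sdiff.mpr ⟨hv, hvB⟩)
            rw [ind_of_mem h4]
            exact ind_le_one _ _
          · rw [ind_of_notMem hyH]
            exact ind_nonneg _ _
        linarith
      have hBS : B ∈ S := hcl B (by omega)
        (amplify_block M L k hS (by norm_num) hhit B (Subset.refl _))
      have hne : F.Nonempty := by
        rw [← card_pos]
        exact_mod_cast hFpos
      obtain ⟨T, hT⟩ := hne
      have h1 := mem_filter.mp hT
      have h2 := mem_mins.mp h1.1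
      refine h2.2.2 B ?_ hBS
      refine Finset.ssubset_iff_subset_ne.mpr ⟨h1.2, ?_⟩
      intro h3
      rw [h3] at hBd
      omega

lemma mins_card2 (M L k c : ℕ) {S : Set (Finset V)} (hS : IsUpperSet S)
    (hcl : BClosed M L k c S) (hcL : c < 2 ^ L)
    {l : ℕ} (hl : l ≤ c) : ((mins S l).card : ℝ) ≤ Kb M ^ l := by
  have := link_card2 M L k c hS hcl hcL hl l ∅ (by simp)
  simpa using this

/-- For a fixed set `R`, the sum over the family of `(M+1)^{|intersection|}`. -/
lemma sum_inter2 (M d : ℕ) (K : ℝ) (F : Finset (Finset V)) (R : Finset V)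
    (hR : R.card = d)
    (hlink : ∀ J : Finset V, J.Nonempty → J.card ≤ d →
      ((F.filter (fun T => J ⊆ T)).card : ℝ) ≤ K ^ (d - J.card)) (hK : 0 ≤ K) :
    ∑ T ∈ F, ((M : ℝ) + 1) ^ (R ∩ T).card ≤ F.card + (((M : ℝ) + 1) + K) ^ d := by
  have hμ : (0 : ℝ) < (M : ℝ) + 1 := by positivity
  have h1 : ∀ T ∈ F, ((M : ℝ) + 1) ^ (R ∩ T).card
      ≤ 1 + ∑ J ∈ R.powerset, (if J ⊆ T then
          (if J.card = 0 then 0 else ((M : ℝ) + 1) ^ J.card) else 0) := by
    intro T _
    have hnn : ∀ J ∈ R.powerset, (0 : ℝ) ≤ (if J ⊆ T then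
          (if J.card = 0 then 0 else ((M : ℝ) + 1) ^ J.card) else 0) := by
      intro J _
      split_ifs <;> positivity
    by_cases h0 : (R ∩ T).card = 0
    · rw [h0, pow_zero]
      linarith [Finset.sum_nonneg hnn]
    · have hmem : R ∩ T ∈ R.powerset := mem_powerset.mpr inter_subset_left
      have := Finset.single_le_sum hnn hmem
      rw [if_pos inter_subset_right, if_neg h0] at this
      linarith
  refine (Finset.sum_le_sum h1).trans ?_
  rw [Finset.sum_add_distrib, Finset.sum_const, nsmul_eq_mul, mul_one]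
  have h2 : ∑ T ∈ F, ∑ J ∈ R.powerset, (if J ⊆ T then
          (if J.card = 0 then 0 else ((M : ℝ) + 1) ^ J.card) else 0)
      ≤ ∑ J ∈ R.powerset, ((M : ℝ) + 1) ^ J.card * K ^ (d - J.card) := by
    rw [Finset.sum_comm]
    refine Finset.sum_le_sum fun J hJ => ?_
    rw [← Finset.sum_filter, Finset.sum_const, nsmul_eq_mul]
    by_cases h0 : J.card = 0
    · simp only [h0, if_true, mul_zero, pow_zero, one_mul]
      positivity
    · rw [if_neg h0, mul_comm]
      apply mul_le_mul_of_nonneg_left _ (by positivity)
      have hJR := mem_powerset.mp hJ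
      exact hlink J (card_pos.mp (Nat.pos_of_ne_zero h0)) ((card_le_card hJR).trans_eq hR)
  have h3 := Finset.sum_powerset_apply_card
    (fun j => ((M : ℝ) + 1) ^ j * K ^ (d - j)) (x := R)
  rw [h3, hR] at h2
  have h4 : ∑ m ∈ range (d + 1), d.choose m • (((M : ℝ) + 1) ^ m * K ^ (d - m))
      = (((M : ℝ) + 1) + K) ^ d := by
    rw [add_pow]
    refine Finset.sum_congr rfl fun j _ => ?_
    rw [nsmul_eq_mul]; ring
  linarith

/-- Second moment. -/
lemma second_moment2 (M d : ℕ) (K : ℝ) (hK : 0 ≤ K) (F : Finset (Finset V))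
    (hd : ∀ T ∈ F, T.card = d)
    (hlink : ∀ J : Finset V, J.Nonempty → J.card ≤ d →
      ((F.filter (fun T => J ⊆ T)).card : ℝ) ≤ K ^ (d - J.card)) (x : Finset V) :
    (F.card : ℝ) ≤ nz M (ind {y | ∃ T ∈ F, T ⊆ y}) x * (F.card + (((M : ℝ) + 1) + K) ^ d) := by
  classical
  set S : Set (Finset V) := {y | ∃ T ∈ F, T ⊆ y} with hS
  set ρ : ℝ := 1 / ((M : ℝ) + 1) with hρ
  have hμ : (0 : ℝ) < (M : ℝ) + 1 := by positivity
  have hρpos : 0 < ρ := by positivity
  have hρμ : ρ * ((M : ℝ) + 1) = 1 := by rw [hρ]; field_simp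
  set N : (V → Fin (M + 1)) → ℝ :=
    fun ω => ∑ T ∈ F, (if T ⊆ zset M ω then (1 : ℝ) else 0) with hN
  set I : (V → Fin (M + 1)) → ℝ := fun ω => ind S (x ∪ zset M ω) with hI
  have hNI : ∀ ω, I ω * N ω = N ω := by
    intro ω
    by_cases h : x ∪ zset M ω ∈ S
    · simp only [hI]; rw [ind_of_mem h, one_mul]
    · have : N ω = 0 := by
        simp only [hN]
        refine Finset.sum_eq_zero fun T hT => ?_
        rw [if_neg]
        intro hsub
        exact h ⟨T, hT, hsub.trans subset_union_right⟩
      rw [this, mul_zero]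
  have hI2 : ∀ ω, I ω ^ 2 = I ω := by
    intro ω
    by_cases h : x ∪ zset M ω ∈ S
    · simp only [hI]; rw [ind_of_mem h]; norm_num
    · simp only [hI]; rw [ind_of_notMem h]; norm_num
  have hCS := Finset.expect_mul_sq_le_sq_mul_sq (univ : Finset (V → Fin (M + 1))) I N
  simp only [hNI, hI2] at hCS
  have hEN : (𝔼 ω, N ω) = F.card * ρ ^ d := by
    simp only [hN]
    rw [Finset.expect_sum_comm]
    rw [Finset.sum_congr rfl (fun T hT => by
      rw [expect_subset_zset M T, hd T hT])]
    rw [Finset.sum_const, nsmul_eq_mul]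
  have hEN2 : (𝔼 ω, N ω ^ 2) ≤ ρ ^ (2 * d) * (F.card * (F.card + (((M : ℝ) + 1) + K) ^ d)) := by
    have e1 : ∀ ω, N ω ^ 2 = ∑ T ∈ F, ∑ T' ∈ F,
        (if T ∪ T' ⊆ zset M ω then (1 : ℝ) else 0) := by
      intro ω
      simp only [hN, sq, Finset.sum_mul_sum]
      refine Finset.sum_congr rfl fun T _ => Finset.sum_congr rfl fun T' _ => ?_
      by_cases h1 : T ⊆ zset M ω
      · by_cases h2 : T' ⊆ zset M ω
        · rw [if_pos h1, if_pos h2, if_pos (union_subset h1 h2)]; norm_num
        · rw [if_neg h2, if_neg (fun h => h2 (subset_union_right.trans h))]; norm_num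
      · rw [if_neg h1, if_neg (fun h => h1 (subset_union_left.trans h))]; norm_num
    simp only [e1]
    rw [Finset.expect_sum_comm]
    have e2 : ∀ T ∈ F, (𝔼 ω : V → Fin (M + 1), ∑ T' ∈ F,
        (if T ∪ T' ⊆ zset M ω then (1 : ℝ) else 0))
        ≤ ρ ^ (2 * d) * (F.card + (((M : ℝ) + 1) + K) ^ d) := by
      intro T hT
      rw [Finset.expect_sum_comm]
      have e3 : ∀ T' ∈ F, (𝔼 ω : V → Fin (M + 1),
          (if T ∪ T' ⊆ zset M ω then (1 : ℝ) else 0))
          = ρ ^ (2 * d) * ((M : ℝ) + 1) ^ (T ∩ T').card := by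
        intro T' hT'
        rw [expect_subset_zset]
        have hc := Finset.card_union_add_card_inter T T'
        rw [hd T hT, hd T' hT'] at hc
        have : 2 * d = (T ∪ T').card + (T ∩ T').card := by omega
        rw [this, pow_add, mul_assoc, ← mul_pow, hρμ, one_pow, mul_one]
      rw [Finset.sum_congr rfl e3, ← Finset.mul_sum]
      apply mul_le_mul_of_nonneg_left _ (by positivity)
      exact sum_inter2 M d K F T (hd T hT) hlink hK
    refine (Finset.sum_le_sum e2).trans ?_
    rw [Finset.sum_const, nsmul_eq_mul]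
    apply le_of_eq; ring
  rw [hEN] at hCS
  have hEI : (𝔼 ω, I ω) = nz M (ind S) x := rfl
  rw [hEI] at hCS
  have hnn : 0 ≤ nz M (ind S) x := nz_ind_nonneg M S x
  have hfin : (F.card * ρ ^ d : ℝ) ^ 2
      ≤ nz M (ind S) x * (ρ ^ (2 * d) * (F.card * (F.card + (((M : ℝ) + 1) + K) ^ d))) :=
    hCS.trans (mul_le_mul_of_nonneg_left hEN2 hnn)
  have hp : (0 : ℝ) < ρ ^ (2 * d) := by positivity
  have e : (F.card * ρ ^ d : ℝ) ^ 2 = ρ ^ (2 * d) * ((F.card : ℝ) * F.card) := by
    rw [mul_pow, ← pow_mul, mul_comm d 2]; ring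
  rw [e] at hfin
  have h5 : ((F.card : ℝ) * F.card)
      ≤ nz M (ind S) x * (F.card * (F.card + (((M : ℝ) + 1) + K) ^ d)) := by
    have : ρ ^ (2 * d) * ((F.card : ℝ) * F.card)
        ≤ ρ ^ (2 * d) * (nz M (ind S) x * (F.card * (F.card + (((M : ℝ) + 1) + K) ^ d))) := by
      calc _ ≤ _ := hfin
        _ = _ := by ring
    exact le_of_mul_le_mul_left this hp
  rcases Nat.eq_zero_or_pos F.card with h0 | h0
  · rw [h0]
    push_cast
    positivity
  · have hF : (0 : ℝ) < F.card := by exact_mod_cast h0
    have : (F.card : ℝ) * F.card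
        ≤ F.card * (nz M (ind S) x * (F.card + (((M : ℝ) + 1) + K) ^ d)) := by
      calc _ ≤ _ := h5
        _ = _ := by ring
    exact le_of_mul_le_mul_left this hF

/-- The number of minimal sets of size `l` is controlled by the hitting probability. -/
lemma mins_hit2 (M L k c : ℕ) {S : Set (Finset V)} (hS : IsUpperSet S)
    (hcl : BClosed M L k c S) (hcL : c < 2 ^ L) {l : ℕ} (hl : l ≤ c) :
    ((mins S l).card : ℝ)
      ≤ 2 * (65 * ((M : ℝ) + 1)) ^ l * nz M (ind {y | ∃ T ∈ mins S l, T ⊆ y}) ∅ := by
  have hK := (Kb_pos M).le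
  have h1 := second_moment2 M l (Kb M) hK (mins S l) (fun T hT => (mem_mins.mp hT).2.1)
    (fun J _ hJl => link_card2 M L k c hS hcl hcL hl (l - J.card) J (by omega))
    (∅ : Finset V)
  have h2 := mins_card2 M L k c hS hcl hcL hl
  have h3 := nz_ind_nonneg M {y | ∃ T ∈ mins S l, T ⊆ y} (∅ : Finset V)
  have h4 : ((M : ℝ) + 1) + Kb M = 65 * ((M : ℝ) + 1) := by unfold Kb; ring
  rw [h4] at h1
  have h5 : Kb M ^ l ≤ (65 * ((M : ℝ) + 1)) ^ l := by
    apply pow_le_pow_left₀ hK
    unfold Kb
    have : (0 : ℝ) ≤ M := Nat.cast_nonneg M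
    linarith
  calc ((mins S l).card : ℝ) ≤ _ := h1
    _ ≤ nz M (ind {y | ∃ T ∈ mins S l, T ⊆ y}) ∅
          * ((65 * ((M : ℝ) + 1)) ^ l + (65 * ((M : ℝ) + 1)) ^ l) := by
        apply mul_le_mul_of_nonneg_left _ h3; linarith
    _ = _ := by ring

lemma exists_closure_aux2 (M L k c : ℕ) (n : ℕ) :
    ∀ F : Set (Finset V), IsUpperSet F → Gen c F →
      (smallOut c F).card ≤ n →
      ∃ S : Set (Finset V), IsUpperSet S ∧ BClosed M L k c S ∧ F ⊆ S ∧ Gen c S ∧
        (nz M ^ (L * k)) (ind (S \ F)) ∅ ≤ n * (1 / 4 : ℝ) ^ k := by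
  induction n with
  | zero =>
    intro F hF hg hn
    refine ⟨F, hF, ?_, Set.Subset.refl F, hg, ?_⟩
    · intro T hT _
      by_contra hTF
      have : T ∈ smallOut c F := mem_smallOut.mpr ⟨hT, hTF⟩
      rw [Nat.le_zero, card_eq_zero] at hn
      rw [hn] at this
      exact absurd this (notMem_empty T)
    · have : ind (F \ F) = fun _ : Finset V => (0 : ℝ) := by
        funext y; rw [ind_of_notMem]; simp
      rw [this, nz_pow_const]; simp
  | succ n ih =>
    intro F hF hg hn
    by_cases hcl : BClosed M L k c F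
    · refine ⟨F, hF, hcl, Set.Subset.refl F, hg, ?_⟩
      have : ind (F \ F) = fun _ : Finset V => (0 : ℝ) := by
        funext y; rw [ind_of_notMem]; simp
      rw [this, nz_pow_const]
      simp only
      positivity
    · unfold BClosed at hcl
      push Not at hcl
      obtain ⟨T, hTc, hTp, hTF⟩ := hcl
      set F' : Set (Finset V) := F ∪ {y | T ⊆ y} with hF'
      have hup : IsUpperSet F' := by
        apply hF.union
        intro a b hab ha
        exact Subset.trans ha hab
      have hg' : Gen c F' := by
        rintro y (hy | hy)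
        · obtain ⟨T1, h1, h2, h3⟩ := hg y hy
          exact ⟨T1, Or.inl h1, h2, h3⟩
        · exact ⟨T, Or.inr (Subset.refl T), hy, hTc⟩
      have hlt : (smallOut c F').card < (smallOut c F).card := by
        apply card_lt_card
        refine ⟨?_, ?_⟩
        · intro U hU
          rw [mem_smallOut] at hU ⊢
          exact ⟨hU.1, fun h => hU.2 (Or.inl h)⟩
        · intro h
          have h2 := h (mem_smallOut.mpr ⟨hTc, hTF⟩)
          rw [mem_smallOut] at h2
          exact h2.2 (Or.inr (Subset.refl T))
      obtain ⟨S, hS1, hS2, hS3, hS4, hS5⟩ := ih F' hup hg' (by omega)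
      refine ⟨S, hS1, hS2, (Set.subset_union_left).trans hS3, hS4, ?_⟩
      have hle : ind (S \ F) ≤ ind (S \ F') + fun y => 1 - ind F (T ∪ y) := by
        intro y
        simp only [Pi.add_apply]
        have hb := ind_le_one F (T ∪ y)
        have hc := ind_nonneg (S \ F') y
        by_cases hy : y ∈ S \ F
        · rw [ind_of_mem hy]
          by_cases hyT : T ⊆ y
          · have : T ∪ y ∉ F := by
              rw [union_eq_right.mpr hyT]; exact hy.2
            rw [ind_of_notMem this]; linarith
          · have : y ∈ S \ F' := by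
              refine ⟨hy.1, ?_⟩
              rintro (h | h)
              · exact hy.2 h
              · exact hyT h
            rw [ind_of_mem this]; linarith
        · rw [ind_of_notMem hy]; linarith
      have h1 := nz_pow_mono M (L * k) hle ∅
      rw [map_add] at h1
      simp only [Pi.add_apply] at h1
      have h2 : (nz M ^ (L * k)) (fun y => 1 - ind F (T ∪ y)) ∅
          = 1 - (nz M ^ (L * k)) (ind F) T := by
        have e : (fun y => 1 - ind F (T ∪ y)) = (fun _ => (1 : ℝ)) - fun y => ind F (T ∪ y) := by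
          funext y; simp
        rw [e, map_sub, nz_pow_const]
        simp only [Pi.sub_apply]
        rw [nz_pow_shift, union_empty]
      rw [h2] at h1
      push_cast
      linarith

lemma exists_closure2 (M L k c : ℕ) (F : Set (Finset V)) (hF : IsUpperSet F) (hg : Gen c F) :
      ∃ S : Set (Finset V), IsUpperSet S ∧ BClosed M L k c S ∧ F ⊆ S ∧ Gen c S ∧
        (nz M ^ (L * k)) (ind (S \ F)) ∅ ≤ ((Fintype.card V : ℝ) + 1) ^ c * (1 / 4 : ℝ) ^ k := by
  classical
  have h := exists_closure_aux2 M L k c ((Fintype.card V + 1) ^ c) F hF hg (by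
    refine le_trans (card_le_card ?_) (card_small (V := V) c)
    intro T hT
    rw [mem_smallOut] at hT
    simp only [mem_filter, mem_univ, true_and]
    exact hT.1)
  push_cast at h
  exact h

end Pool.Agent.NegLim
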