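import Mathlib

/-!
# The class NP, with Mathlib's polynomial time Turing machines
-/

namespace Pool.Agent.NegLim

/-- The pair of the words `x` and `w` as one word: every bit of `x` is preceded by `true`, then
come `false` and `w`. -/
def pairWord (x w : List Bool) : List Bool := x.flatMap (fun b => [true, b]) ++ false :: w

/-- The language with characteristic function `L` is in NP: a deterministic Turing machine
(Mathlib's `Turing.FinTM2`) verifies certificates of polynomial length in polynomial time. -/
def InNP (L : List Bool → Bool) : Prop :=
  ∃ (V : List Bool → Bool) (k : ℕ),
    Nonempty (Turing.TM2ComputableInPolyTime (id : List Bool → List Bool)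
      (id : List Bool → List Bool) (fun y => [V y])) ∧
    ∀ x, L x = true ↔ ∃ w : List Bool, w.length ≤ x.length ^ k + k ∧ V (pairWord x w) = true

end Pool.Agent.NegLim
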