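import Pool.Agent.NegLim.NPSem
import Pool.Agent.NegLim.EMain

/-!
# Average-case hardness of the language in NP
-/

namespace Pool.Agent.NegLim.NPL

open Finset Pool.Agent.NegLim.Lang
open scoped BigOperators

open Classical in
/-- Average-case hardness of the family of sets which contain the graph of a polynomial. -/
theorem avg_gen (n N w M L k r q : ℕ) [Fact q.Prime] (hle : N * q ≤ n)
    (hw : 1 ≤ w) (h2w : 2 * w ≤ N) (hNq : N ≤ q) (hM : 256 * (M + 1) ≤ q)
    (hL : 2 * w < 2 ^ L) (hk : (n + 1) ^ (2 * w) * 4 ^ w ≤ 4 ^ k)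
    (hr : 2 * (L * k * r) ≤ M + 1) (hr1 : 1 ≤ r) (hY : 2 * r * q ^ (2 * w) ≤ 2 ^ N)
    (Lx : (Fin n → Bool) → Bool)
    (hlx : ∀ x, Lx x = true ↔ ∃ c : Fin (2 * w) → ZMod q,
      ∀ v ∈ (graph N c).map (posE N q n hle), x v = true) :
    ∃ μ : (Fin n → Bool) → ℝ, (∀ x, 0 ≤ μ x) ∧ ∑ x, μ x = 1 ∧
      ∀ (T : ℕ) (C : Circuit (Fin n)) (out : Fin T → Wire (Fin n)) (g : (Fin T → Bool) → Bool),
        4 * r * (C.size + T) ≤ 4 ^ w →
        ∑ x ∈ univ.filter (fun x => g (fun i => C.val x (out i)) = Lx x), μ x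
          ≤ 1 / 2 + (T + 1) * (C.flips + 1) / (2 * r) := by
  have hqp : q.Prime := Fact.out
  set cw : (Fin (2 * w) → ZMod q) → Finset (Fin n) := fun c => (graph N c).map (posE N q n hle)
    with hcw
  have hq0 : (0 : ℝ) < q := by exact_mod_cast hqp.pos
  have hsp : Spread cw w (q : ℝ) := spread_map _ _ hq0 (spread_graph w h2w hNq)
  have hcard : ∀ c, N ≤ (cw c).card := by
    intro c
    rw [hcw]
    simp only [card_map]
    rw [card_graph]
  have hlang : ∀ x : Finset (Fin n), Lx (chi x) = true ↔ x ∈ upFam cw := by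
    intro x
    rw [hlx (chi x)]
    unfold upFam
    rw [Set.mem_ofPred_eq]
    refine exists_congr fun c => ?_
    simp only [chi, decide_eq_true_iff, hcw, Finset.subset_iff]
  refine ⟨pushMu cw M (L * k) r chi, pushMu_nonneg cw M (L * k) r chi,
    pushMu_total cw M (L * k) r hr1 chi, ?_⟩
  intro T C out g hsz
  rw [pushMu_sum cw M (L * k) r chi]
  have hset : {x | g (fun i => C.val (chi x) (out i)) = Lx (chi x)}
      = {x | g (fun i => C.val (chi x) (out i)) = true ↔ x ∈ upFam cw} := by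
    ext x
    simp only [Set.mem_ofPred_eq]
    rw [← hlang x, Bool.eq_iff_iff]
  rw [hset]
  have hr0 : (0 : ℝ) < r := by exact_mod_cast hr1
  have hLk : 1 ≤ L * k := by
    rcases Nat.eq_zero_or_pos (L * k) with h0 | h0
    · exfalso
      have h1 : L = 0 ∨ k = 0 := Nat.mul_eq_zero.mp h0
      rcases h1 with h1 | h1
      · rw [h1] at hL; simp at hL; omega
      · rw [h1, pow_zero] at hk
        have h2 : 1 ≤ (n + 1) ^ (2 * w) := Nat.one_le_pow _ _ (by omega)
        have h3 : 4 ^ 1 ≤ 4 ^ w := Nat.pow_le_pow_right (by norm_num) hw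
        nlinarith
    · exact h0
  exact correct_prob cw M L k w r (q : ℝ) hq0 hLk hw hr1
    (by exact_mod_cast hM) hL hsp
    (by
      rw [Fintype.card_fin]
      have h1 : ((n : ℝ) + 1) ^ (2 * w) * 4 ^ w ≤ 4 ^ k := by exact_mod_cast hk
      have h2 : (1 / 4 : ℝ) ^ k = 1 / 4 ^ k := by rw [one_div, inv_pow, one_div]
      have h3 : (1 / 4 : ℝ) ^ w = 1 / 4 ^ w := by rw [one_div, inv_pow, one_div]
      rw [h2, h3, mul_one_div, div_le_div_iff₀ (by positivity) (by positivity)]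
      linarith)
    ((Fintype.card (Fin (2 * w) → ZMod q) : ℝ) * (1 / 2) ^ N)
    (fun i hi => upFam_prob cw M (L * k * i) N (by
      have : L * k * i ≤ L * k * r := Nat.mul_le_mul_left _ hi.le
      omega) hcard)
    C out g
    (by
      have h1 : (4 : ℝ) * r * ((C.size + T : ℕ) : ℝ) ≤ 4 ^ w := by exact_mod_cast hsz
      have h2 : (r : ℝ) * (((C.size + T : ℕ) : ℝ) * (2 * (1 / 4 : ℝ) ^ w)) ≤ 1 / 2 := by
        have h3 : (1 / 4 : ℝ) ^ w = 1 / 4 ^ w := by rw [one_div, inv_pow, one_div]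
        rw [h3]
        have h4 : (r : ℝ) * (((C.size + T : ℕ) : ℝ) * (2 * (1 / 4 ^ w)))
            = (4 * r * ((C.size + T : ℕ) : ℝ)) / (2 * 4 ^ w) := by
          field_simp
          ring
        rw [h4, div_le_div_iff₀ (by positivity) (by norm_num)]
        linarith
      have h5 : (r : ℝ) * ((Fintype.card (Fin (2 * w) → ZMod q) : ℝ) * (1 / 2) ^ N) ≤ 1 / 2 := by
        rw [Fintype.card_fun, ZMod.card, Fintype.card_fin]
        have h6 : (2 : ℝ) * r * (q : ℝ) ^ (2 * w) ≤ 2 ^ N := by exact_mod_cast hY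
        have h7 : (1 / 2 : ℝ) ^ N = 1 / 2 ^ N := by rw [one_div, inv_pow, one_div]
        push_cast
        rw [h7, mul_one_div, ← mul_div_assoc, div_le_div_iff₀ (by positivity) (by norm_num)]
        linarith
      linarith)

/-- The choice of the parameters. -/
lemma numbers (a n R : ℕ) (hlarge : 2 ^ 12 * (Nat.log 2 (n + 1) + 1) ^ 2 ≤ R)
    (hRn : R ^ (2 * a + 4) ≤ n) :
    ∃ M L k r q : ℕ, q.Prime ∧ q = gp (n / R ^ (a + 1)) ∧
      R ^ (a + 1) * q ≤ n ∧ 1 ≤ R ^ a ∧ 2 * R ^ a ≤ R ^ (a + 1) ∧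
      R ^ (a + 1) ≤ q ∧ 256 * (M + 1) ≤ q ∧ 2 * R ^ a < 2 ^ L ∧
      (n + 1) ^ (2 * R ^ a) * 4 ^ (R ^ a) ≤ 4 ^ k ∧
      2 * (L * k * r) ≤ M + 1 ∧ 1 ≤ r ∧
      2 * r * q ^ (2 * R ^ a) ≤ 2 ^ (R ^ (a + 1)) ∧
      n ≤ 4 * R ^ (2 * a + 2) * r ∧ r ≤ n := by
  set l := Nat.log 2 (n + 1) + 1 with hl
  have hl1 : 1 ≤ l := by omega
  have hnl : n + 1 < 2 ^ l := Nat.lt_pow_succ_log_self (by norm_num) _
  have hl2 : l ≤ l ^ 2 := by
    calc l = l * 1 := (mul_one l).symm
      _ ≤ l * l := Nat.mul_le_mul_left l hl1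
      _ = l ^ 2 := (sq l).symm
  have hRl : 2 ^ 12 * l ≤ R := (Nat.mul_le_mul_left _ hl2).trans hlarge
  have hR12 : 2 ^ 12 ≤ R := by
    calc 2 ^ 12 = 2 ^ 12 * 1 := (mul_one _).symm
      _ ≤ 2 ^ 12 * l := Nat.mul_le_mul_left _ hl1
      _ ≤ R := hRl
  have hRpos : 0 < R := by omega
  set N := R ^ (a + 1) with hN
  set w := R ^ a with hw
  have hwpos : 0 < w := by positivity
  have hNw : N = w * R := pow_succ R a
  have hNpos : 0 < N := by positivity
  set X := n / N with hX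
  have hXR : w * R ^ 3 ≤ X := by
    rw [hX, Nat.le_div_iff_mul_le hNpos]
    calc w * R ^ 3 * N = R ^ (2 * a + 4) := by rw [hw, hN]; ring
      _ ≤ n := hRn
  have hR3 : 2 ^ 12 * l ^ 2 * (2 ^ 12 * 2 ^ 12) ≤ R ^ 3 := by
    calc 2 ^ 12 * l ^ 2 * (2 ^ 12 * 2 ^ 12) ≤ R * (R * R) :=
          Nat.mul_le_mul hlarge (Nat.mul_le_mul hR12 hR12)
      _ = R ^ 3 := by ring
  have hX2 : 2 ≤ X := by
    have h1 : 1 * 2 ≤ w * R ^ 3 := by
      apply Nat.mul_le_mul hwpos
      have : 1 ≤ l ^ 2 := Nat.one_le_pow _ _ hl1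
      omega
    omega
  obtain ⟨hqp, hqX, hXq⟩ := gp_spec X hX2
  set q := gp X with hq
  have hNq : N * q ≤ n := by
    calc N * q ≤ N * X := Nat.mul_le_mul_left N hqX
      _ ≤ n := Nat.mul_div_le n N
  have hNleq : N ≤ q := by
    have h1 : 2 * N ≤ w * R ^ 3 := by
      calc 2 * N = w * (2 * R) := by rw [hNw]; ring
        _ ≤ w * (R ^ 2 * R) := by
            apply Nat.mul_le_mul_left
            apply Nat.mul_le_mul_right
            calc 2 ≤ R * 1 := by omega
              _ ≤ R * R := Nat.mul_le_mul_left R hRpos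
              _ = R ^ 2 := (sq R).symm
        _ = w * R ^ 3 := by ring
    omega
  have hqm : q ≤ n := by
    calc q = 1 * q := (one_mul q).symm
      _ ≤ N * q := Nat.mul_le_mul_right q hNpos
      _ ≤ n := hNq
  have hq2l : q ≤ 2 ^ l := by omega
  set Q := q / 256 with hQ
  have hRw : R ≤ w * R ^ 3 := by
    calc R = 1 * (R * 1) := by ring
      _ ≤ w * (R * R ^ 2) := Nat.mul_le_mul hwpos
          (Nat.mul_le_mul_left R (Nat.one_le_pow _ _ hRpos))
      _ = w * R ^ 3 := by ring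
  have hQ1 : 1 ≤ Q := by
    rw [hQ, Nat.le_div_iff_mul_le (by norm_num)]
    have h1 : 4096 ≤ R := le_trans (by norm_num) hR12
    have h2 : R < 2 * q := lt_of_le_of_lt (hRw.trans hXR) hXq
    clear hR3 hR12 hRl hlarge
    omega
  have hqQ : q ≤ 512 * Q := by
    have h1 : q < 256 * (Q + 1) := Nat.lt_mul_div_succ _ (by norm_num)
    omega
  have hQq : 256 * Q ≤ q := Nat.mul_div_le _ _
  set L := Nat.log 2 (2 * w) + 1 with hL
  have hL2 : 2 * w < 2 ^ L := Nat.lt_pow_succ_log_self (by norm_num) _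
  have h2wN : 2 * w ≤ N := by
    rw [hNw, mul_comm 2 w]
    exact Nat.mul_le_mul_left w (by omega)
  have hNn : N ≤ n := by
    calc N = N * 1 := (mul_one N).symm
      _ ≤ N * q := Nat.mul_le_mul_left N hqp.pos
      _ ≤ n := hNq
  have hLl : L ≤ l := by
    have : Nat.log 2 (2 * w) ≤ Nat.log 2 (n + 1) := Nat.log_mono_right (by omega)
    omega
  set k := w * (l + 1) with hk
  have hLk : L * k ≤ 2 * (l ^ 2 * w) := by
    calc L * k ≤ l * (w * (l + l)) := by
          apply Nat.mul_le_mul hLl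
          exact Nat.mul_le_mul_left w (by omega)
      _ = 2 * (l ^ 2 * w) := by ring
  have hLkpos : 0 < L * k := by
    have h1 : 0 < L := by omega
    have h2 : 0 < k := by positivity
    exact Nat.mul_pos h1 h2
  have hQ2 : 2 * (L * k) ≤ Q := by
    have h1 : 4096 * (l ^ 2 * w) ≤ w * R ^ 3 := by
      calc 4096 * (l ^ 2 * w) = w * (2 ^ 12 * l ^ 2 * 1) := by ring
        _ ≤ w * (2 ^ 12 * l ^ 2 * (2 ^ 12 * 2 ^ 12)) := by
            apply Nat.mul_le_mul_left
            apply Nat.mul_le_mul_left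
            norm_num
        _ ≤ w * R ^ 3 := Nat.mul_le_mul_left w hR3
    omega
  set r := Q / (2 * (L * k)) with hr
  have hr1 : 1 ≤ r := by
    rw [hr, Nat.le_div_iff_mul_le (by positivity)]
    omega
  have hr2 : 2 * (L * k) * r ≤ Q := Nat.mul_div_le Q _
  have hQr : Q ≤ 4 * (L * k) * r := by
    have h1 : Q < 2 * (L * k) * (r + 1) := Nat.lt_mul_div_succ Q (by positivity)
    have h2 : 2 * (L * k) * (r + 1) = 2 * (L * k) * r + 2 * (L * k) := by ring
    have h3 : 2 * (L * k) ≤ 2 * (L * k) * r := Nat.le_mul_of_pos_right _ (by omega)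
    have h4 : 4 * (L * k) * r = 2 * (L * k) * r + 2 * (L * k) * r := by ring
    omega
  have h2rQ : 2 * r ≤ Q := by
    calc 2 * r = 2 * 1 * r := by ring
      _ ≤ 2 * (L * k) * r := Nat.mul_le_mul_right r (by omega)
      _ ≤ Q := hr2
  have hpow : q ^ (2 * w + 1) ≤ 2 ^ N := by
    calc q ^ (2 * w + 1) ≤ (2 ^ l) ^ (2 * w + 1) := Nat.pow_le_pow_left hq2l _
      _ = 2 ^ (l * (2 * w + 1)) := by rw [← pow_mul]
      _ ≤ 2 ^ N := by
        apply Nat.pow_le_pow_right (by norm_num)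
        calc l * (2 * w + 1) ≤ l * (2 * w + w) := Nat.mul_le_mul_left l (by omega)
          _ = w * (3 * l) := by ring
          _ ≤ w * R := Nat.mul_le_mul_left w (by omega)
          _ = N := hNw.symm
  refine ⟨Q - 1, L, k, r, q, hqp, rfl, hNq, hwpos, h2wN, hNleq, ?_, hL2, ?_, ?_, hr1, ?_, ?_, ?_⟩
  · have : Q - 1 + 1 = Q := by omega
    rw [this]; exact hQq
  · have e3 : (4 : ℕ) = 2 ^ 2 := by norm_num
    calc (n + 1) ^ (2 * w) * 4 ^ w ≤ (2 ^ l) ^ (2 * w) * 4 ^ w :=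
          Nat.mul_le_mul_right _ (Nat.pow_le_pow_left hnl.le _)
      _ = 4 ^ k := by
          rw [e3, ← pow_mul, ← pow_mul, ← pow_mul, ← pow_add, hk]
          congr 1; ring
  · have : Q - 1 + 1 = Q := by omega
    rw [this]
    calc 2 * (L * k * r) = 2 * (L * k) * r := by ring
      _ ≤ Q := hr2
  · calc 2 * r * q ^ (2 * w) ≤ q * q ^ (2 * w) := Nat.mul_le_mul_right _ (by omega)
      _ = q ^ (2 * w + 1) := by rw [pow_succ]; ring
      _ ≤ 2 ^ N := hpow
  · -- the lower bound for r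
    have hm1 : n < N * (X + 1) := Nat.lt_mul_div_succ n hNpos
    have hmr : n ≤ 2 ^ 14 * l ^ 2 * (N * w) * r := by
      calc n ≤ N * (X + 1) := hm1.le
        _ ≤ N * (4 * q) := Nat.mul_le_mul_left N (by omega)
        _ ≤ N * (4 * (512 * (4 * (L * k) * r))) := by
            apply Nat.mul_le_mul_left
            apply Nat.mul_le_mul_left
            exact hqQ.trans (Nat.mul_le_mul_left _ hQr)
        _ ≤ N * (4 * (512 * (4 * (2 * (l ^ 2 * w)) * r))) := by
            apply Nat.mul_le_mul_left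
            apply Nat.mul_le_mul_left
            apply Nat.mul_le_mul_left
            apply Nat.mul_le_mul_right
            exact Nat.mul_le_mul_left 4 hLk
        _ = 2 ^ 14 * l ^ 2 * (N * w) * r := by ring
    calc n ≤ 2 ^ 14 * l ^ 2 * (N * w) * r := hmr
      _ = 4 * (2 ^ 12 * l ^ 2) * (N * w) * r := by ring
      _ ≤ 4 * R * (N * w) * r := by
          apply Nat.mul_le_mul_right
          apply Nat.mul_le_mul_right
          exact Nat.mul_le_mul_left _ hlarge
      _ = 4 * R ^ (2 * a + 2) * r := by rw [hN, hw]; ring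
  · omega

end Pool.Agent.NegLim.NPL
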