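import Mathlib

/-!
# The noise operator on functions of subsets

`Z` is a random subset of `V` in which every element is present independently with
probability `1/(M+1)`; `nz M g x = 𝔼 g (x ∪ Z)`.
-/

namespace Pool.Agent.NegLim

open Finset
open scoped BigOperators

set_option linter.unusedSectionVars false

variable {V : Type} [Fintype V] [DecidableEq V]

/-- The set of zeros of `ω`. -/
def zset (M : ℕ) (ω : V → Fin (M + 1)) : Finset V := univ.filter (fun v => ω v = 0)

lemma subset_zset {M : ℕ} {ω : V → Fin (M + 1)} {R : Finset V} :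
    R ⊆ zset M ω ↔ ∀ v ∈ R, ω v = 0 := by
  simp [zset, Finset.subset_iff]

/-- The noise operator. -/
noncomputable def nz (M : ℕ) : Module.End ℝ (Finset V → ℝ) where
  toFun g x := 𝔼 ω : V → Fin (M + 1), g (x ∪ zset M ω)
  map_add' g h := by
    funext x
    simp only [Pi.add_apply, Finset.expect_add_distrib]
  map_smul' a g := by
    funext x
    simp only [Pi.smul_apply, smul_eq_mul, RingHom.id_apply, Finset.mul_expect]

lemma nz_apply (M : ℕ) (g : Finset V → ℝ) (x : Finset V) :
    nz M g x = 𝔼 ω : V → Fin (M + 1), g (x ∪ zset M ω) := rfl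

lemma nz_mono (M : ℕ) {g h : Finset V → ℝ} (hgh : g ≤ h) : nz M g ≤ nz M h := by
  intro x
  rw [nz_apply, nz_apply]
  exact Finset.expect_le_expect fun ω _ => hgh _

lemma nz_const (M : ℕ) (a : ℝ) : nz M (fun _ : Finset V => a) = fun _ => a := by
  funext x
  rw [nz_apply]
  exact Fintype.expect_const a

lemma nz_pow_mono (M k : ℕ) {g h : Finset V → ℝ} (hgh : g ≤ h) :
    (nz M ^ k) g ≤ (nz M ^ k) h := by
  induction k with
  | zero => simpa using hgh
  | succ k ih =>
    rw [pow_succ']
    simp only [Module.End.mul_apply]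
    exact nz_mono M ih

lemma nz_pow_const (M k : ℕ) (a : ℝ) :
    (nz M ^ k) (fun _ : Finset V => a) = fun _ => a := by
  induction k with
  | zero => simp
  | succ k ih =>
    rw [pow_succ']
    simp only [Module.End.mul_apply, ih, nz_const]

/-- Local comparison: only the values above `x` matter. -/
lemma nz_le_of (M : ℕ) {g h : Finset V → ℝ} {x : Finset V} (hgh : ∀ y, x ⊆ y → g y ≤ h y) :
    nz M g x ≤ nz M h x := by
  rw [nz_apply, nz_apply]
  exact Finset.expect_le_expect fun ω _ => hgh _ subset_union_left

lemma nz_pow_le_of (M k : ℕ) {g h : Finset V → ℝ} {x : Finset V}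
    (hgh : ∀ y, x ⊆ y → g y ≤ h y) : (nz M ^ k) g x ≤ (nz M ^ k) h x := by
  induction k generalizing x with
  | zero => simpa using hgh x (Subset.refl _)
  | succ k ih =>
    rw [pow_succ']
    simp only [Module.End.mul_apply]
    exact nz_le_of M fun y hy => ih fun z hz => hgh z (hy.trans hz)

/-- Translation. -/
lemma nz_pow_shift (M k : ℕ) (g : Finset V → ℝ) (a x : Finset V) :
    (nz M ^ k) (fun y => g (a ∪ y)) x = (nz M ^ k) g (a ∪ x) := by
  induction k generalizing x with
  | zero => simp
  | succ k ih =>
    rw [pow_succ']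
    simp only [Module.End.mul_apply, nz_apply]
    refine Finset.expect_congr rfl fun ω _ => ?_
    rw [ih, Finset.union_assoc]

/-- Real indicator function of a family of sets. -/
noncomputable def ind (S : Set (Finset V)) : Finset V → ℝ := S.indicator 1

lemma ind_of_mem {S : Set (Finset V)} {x : Finset V} (h : x ∈ S) : ind S x = 1 := by
  simp [ind, h]

lemma ind_of_notMem {S : Set (Finset V)} {x : Finset V} (h : x ∉ S) : ind S x = 0 := by
  simp [ind, h]

lemma ind_nonneg (S : Set (Finset V)) (x : Finset V) : 0 ≤ ind S x := by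
  by_cases h : x ∈ S
  · simp [ind_of_mem h]
  · simp [ind_of_notMem h]

lemma ind_le_one (S : Set (Finset V)) (x : Finset V) : ind S x ≤ 1 := by
  by_cases h : x ∈ S
  · simp [ind_of_mem h]
  · simp [ind_of_notMem h]

lemma ind_mono {S T : Set (Finset V)} (h : S ⊆ T) : ind S ≤ ind T := by
  intro x
  by_cases hx : x ∈ S
  · rw [ind_of_mem hx, ind_of_mem (h hx)]
  · rw [ind_of_notMem hx]; exact ind_nonneg _ _

lemma ind_monotone {S : Set (Finset V)} (h : IsUpperSet S) {x y : Finset V} (hxy : x ⊆ y) :
    ind S x ≤ ind S y := by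
  by_cases hx : x ∈ S
  · rw [ind_of_mem hx, ind_of_mem (h hxy hx)]
  · rw [ind_of_notMem hx]; exact ind_nonneg _ _

/-- A function monotone under inclusion only grows under noise. -/
lemma le_nz_pow (M k : ℕ) {g : Finset V → ℝ} (hg : ∀ x y, x ⊆ y → g x ≤ g y) (x : Finset V) :
    g x ≤ (nz M ^ k) g x := by
  have h := nz_pow_le_of M k (g := fun _ => g x) (h := g) (x := x) (fun y hy => hg x y hy)
  rw [nz_pow_const] at h
  exact h

lemma nz_pow_ind_mono_exp (M : ℕ) {k l : ℕ} (hkl : k ≤ l) {S : Set (Finset V)}
    (hS : IsUpperSet S) (x : Finset V) :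
    (nz M ^ k) (ind S) x ≤ (nz M ^ l) (ind S) x := by
  obtain ⟨j, rfl⟩ := Nat.exists_eq_add_of_le hkl
  rw [pow_add]
  simp only [Module.End.mul_apply]
  apply nz_pow_mono
  intro y
  exact le_nz_pow M j (fun x y hxy => ind_monotone hS hxy) y

/-- Monotonicity is preserved by noise. -/
lemma nz_pow_monotone (M k : ℕ) {g : Finset V → ℝ} (hg : ∀ x y, x ⊆ y → g x ≤ g y)
    {x y : Finset V} (hxy : x ⊆ y) : (nz M ^ k) g x ≤ (nz M ^ k) g y := by
  induction k generalizing x y with
  | zero => simpa using hg x y hxy
  | succ k ih =>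
    rw [pow_succ']
    simp only [Module.End.mul_apply, nz_apply]
    exact Finset.expect_le_expect fun ω _ => ih (Finset.union_subset_union_left hxy)

/-- `k` rounds of noise amplify a hitting probability `1/2` to `1 - 2^(-k)`. -/
lemma amplify (M k : ℕ) {S : Set (Finset V)} (hS : IsUpperSet S) {B : Finset V}
    (h : ∀ x, B ⊆ x → 1 / 2 ≤ nz M (ind S) x) :
    ∀ x, B ⊆ x → 1 - (1 / 2) ^ k ≤ (nz M ^ k) (ind S) x := by
  induction k with
  | zero => intro x _; simpa using ind_nonneg S x
  | succ k ih =>
    intro x hx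
    rw [pow_succ' (nz M)]
    simp only [Module.End.mul_apply]
    have h1 : nz M (fun y => 1 - (1 / 2) ^ k * (1 - ind S y)) x ≤ nz M ((nz M ^ k) (ind S)) x := by
      apply nz_le_of
      intro y hy
      by_cases hyS : y ∈ S
      · have := le_nz_pow M k (g := ind S) (fun x y hxy => ind_monotone hS hxy) y
        rw [ind_of_mem hyS] at this ⊢
        simpa using this
      · rw [ind_of_notMem hyS]
        have := ih y (hx.trans hy)
        simpa using this
    refine le_trans ?_ h1
    have h2 : nz M (fun y => 1 - (1 / 2) ^ k * (1 - ind S y)) x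
        = 1 - (1 / 2) ^ k * (1 - nz M (ind S) x) := by
      have e : (fun y => 1 - (1 / 2) ^ k * (1 - ind S y))
          = (fun _ : Finset V => (1 - (1 / 2 : ℝ) ^ k)) + ((1 / 2 : ℝ) ^ k) • ind S := by
        funext y; simp only [Pi.add_apply, Pi.smul_apply, smul_eq_mul]; ring
      rw [e, map_add, map_smul, nz_const]
      simp only [Pi.add_apply, Pi.smul_apply, smul_eq_mul]; ring
    rw [h2]
    have h3 := h x hx
    have h4 : (0 : ℝ) ≤ (1 / 2) ^ k := by positivity
    rw [pow_succ]
    nlinarith

/-- Probability that a given set is contained in `Z`. -/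
lemma expect_subset_zset (M : ℕ) (R : Finset V) :
    (𝔼 ω : V → Fin (M + 1), (if R ⊆ zset M ω then (1 : ℝ) else 0)) = (1 / (M + 1 : ℝ)) ^ R.card := by
  classical
  rw [Fintype.expect_eq_sum_div_card, Finset.sum_boole]
  have h1 : (univ.filter (fun ω : V → Fin (M + 1) => R ⊆ zset M ω))
      = Fintype.piFinset (fun v => if v ∈ R then ({0} : Finset (Fin (M + 1))) else univ) := by
    ext ω
    simp only [mem_filter, mem_univ, true_and, subset_zset, Fintype.mem_piFinset]
    constructor
    · intro h v
      by_cases hv : v ∈ R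
      · simp [hv, h v hv]
      · simp [hv]
    · intro h v hv
      have := h v
      simpa [hv] using this
  rw [h1, Fintype.card_piFinset]
  have h2 : ∏ i : V, #(if i ∈ R then ({0} : Finset (Fin (M + 1))) else univ)
      = (M + 1) ^ (Fintype.card V - R.card) := by
    have : ∀ i : V, #(if i ∈ R then ({0} : Finset (Fin (M + 1))) else univ)
        = if i ∈ R then 1 else (M + 1) := by
      intro i; split_ifs <;> simp
    rw [Finset.prod_congr rfl fun i _ => this i, Finset.prod_ite]
    simp only [prod_const_one, one_mul, prod_const]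
    congr 1
    have : univ.filter (fun x => x ∉ R) = univ \ R := by ext; simp
    rw [this, Finset.card_sdiff_of_subset (subset_univ R), Finset.card_univ]
  rw [h2, Fintype.card_fun, Fintype.card_fin]
  have h3 : R.card ≤ Fintype.card V := Finset.card_le_univ R
  have h4 : ((M : ℝ) + 1) ≠ 0 := by positivity
  push_cast
  rw [div_eq_iff (by positivity), one_div, inv_pow, ← div_eq_inv_mul, eq_div_iff (by positivity),
    ← pow_add]
  congr 1
  omega

end Pool.Agent.NegLim
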