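import Pool.Agent.NegLim.Noise

/-!
# Second moment bound for families of sets with bounded links
-/

namespace Pool.Agent.NegLim

open Finset
open scoped BigOperators Nat

set_option linter.unusedSectionVars false

variable {V : Type} [Fintype V] [DecidableEq V]

/-- The threshold `d! (2(M+1))^d`. -/
noncomputable def Dk (M d : ℕ) : ℝ := (d ! : ℝ) * (2 * ((M : ℝ) + 1)) ^ d

lemma Dk_pos (M d : ℕ) : 0 < Dk M d := by
  unfold Dk
  have : (0 : ℝ) < d ! := by exact_mod_cast Nat.factorial_pos d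
  positivity

lemma Dk_zero (M : ℕ) : Dk M 0 = 1 := by simp [Dk]

lemma geo_half (d : ℕ) : ∑ k ∈ range d, (1 / 2 : ℝ) ^ (k + 1) = 1 - (1 / 2) ^ d := by
  induction d with
  | zero => simp
  | succ n ih => rw [Finset.sum_range_succ, ih]; ring

/-- The numerical sum in the second moment. -/
lemma sum_links (M d : ℕ) :
    ∑ j ∈ range (d + 1), (d.choose j : ℝ) * (if j = 0 then 0 else ((M : ℝ) + 1) ^ j * Dk M (d - j))
      ≤ Dk M d := by
  have hμ : (0 : ℝ) < (M : ℝ) + 1 := by positivity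
  have hterm : ∀ j ∈ range (d + 1),
      (d.choose j : ℝ) * (if j = 0 then 0 else ((M : ℝ) + 1) ^ j * Dk M (d - j))
        ≤ Dk M d * (if j = 0 then 0 else (1 / 2 : ℝ) ^ j) := by
    intro j hj
    have hjd : j ≤ d := Nat.lt_succ_iff.mp (mem_range.mp hj)
    by_cases h0 : j = 0
    · simp [h0]
    · simp only [h0, if_false]
      have e1 : ((d.choose j : ℝ)) * ((d - j) ! : ℝ) ≤ (d ! : ℝ) := by
        have := Nat.choose_mul_factorial_mul_factorial hjd
        have h1 : d.choose j * (d - j)! ≤ d ! := by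
          calc d.choose j * (d - j)! = d.choose j * 1 * (d - j)! := by ring
            _ ≤ d.choose j * j ! * (d - j)! := by
                apply Nat.mul_le_mul_right
                apply Nat.mul_le_mul_left
                exact Nat.factorial_pos j
            _ = d ! := this
        exact_mod_cast h1
      have e2 : ((M : ℝ) + 1) ^ j * (2 * ((M : ℝ) + 1)) ^ (d - j)
          = (2 * ((M : ℝ) + 1)) ^ d * (1 / 2 : ℝ) ^ j := by
        obtain ⟨i, rfl⟩ := Nat.exists_eq_add_of_le hjd
        rw [Nat.add_sub_cancel_left, pow_add, mul_pow 2 _ j]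
        have : (2 : ℝ) ^ j * (1 / 2) ^ j = 1 := by rw [← mul_pow]; norm_num
        calc ((M : ℝ) + 1) ^ j * (2 * ((M : ℝ) + 1)) ^ i
            = ((2 : ℝ) ^ j * (1 / 2) ^ j) * (((M : ℝ) + 1) ^ j * (2 * ((M : ℝ) + 1)) ^ i) := by
              rw [this, one_mul]
          _ = _ := by ring
      unfold Dk
      calc (d.choose j : ℝ) * (((M : ℝ) + 1) ^ j * (((d - j)! : ℝ) * (2 * ((M : ℝ) + 1)) ^ (d - j)))
          = ((d.choose j : ℝ) * ((d - j)! : ℝ)) *
              (((M : ℝ) + 1) ^ j * (2 * ((M : ℝ) + 1)) ^ (d - j)) := by ring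
        _ = ((d.choose j : ℝ) * ((d - j)! : ℝ)) *
              ((2 * ((M : ℝ) + 1)) ^ d * (1 / 2 : ℝ) ^ j) := by rw [e2]
        _ ≤ (d ! : ℝ) * ((2 * ((M : ℝ) + 1)) ^ d * (1 / 2 : ℝ) ^ j) := by
              apply mul_le_mul_of_nonneg_right e1; positivity
        _ = _ := by ring
  refine (Finset.sum_le_sum hterm).trans ?_
  rw [← Finset.mul_sum]
  have hgeo : ∑ j ∈ range (d + 1), (if j = 0 then 0 else (1 / 2 : ℝ) ^ j) ≤ 1 := by
    rw [Finset.sum_range_succ']
    simp only [Nat.add_eq_zero_iff, one_ne_zero, and_false, if_false, if_true, add_zero]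
    rw [geo_half d]
    have : (0 : ℝ) ≤ (1 / 2) ^ d := by positivity
    linarith
  calc Dk M d * _ ≤ Dk M d * 1 := mul_le_mul_of_nonneg_left hgeo (Dk_pos M d).le
    _ = Dk M d := mul_one _

/-- For a fixed set `R`, the sum over the family of `(M+1)^{|intersection|}`. -/
lemma sum_inter (M d : ℕ) (F : Finset (Finset V)) (B R : Finset V) (hR : R.card = d)
    (hRB : Disjoint R B) (hB : ∀ T ∈ F, B ⊆ T)
    (hlink : ∀ J : Finset V, J.Nonempty → Disjoint J B → J.card ≤ d →
      ((F.filter (fun T => B ∪ J ⊆ T)).card : ℝ) ≤ Dk M (d - J.card)) :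
    ∑ T ∈ F, ((M : ℝ) + 1) ^ (R ∩ (T \ B)).card ≤ F.card + Dk M d := by
  have hμ : (0 : ℝ) < (M : ℝ) + 1 := by positivity
  have h1 : ∀ T ∈ F, ((M : ℝ) + 1) ^ (R ∩ (T \ B)).card
      ≤ 1 + ∑ J ∈ R.powerset, (if B ∪ J ⊆ T then
          (if J.card = 0 then 0 else ((M : ℝ) + 1) ^ J.card) else 0) := by
    intro T hT
    have hnn : ∀ J ∈ R.powerset, (0 : ℝ) ≤ (if B ∪ J ⊆ T then
          (if J.card = 0 then 0 else ((M : ℝ) + 1) ^ J.card) else 0) := by
      intro J _
      split_ifs <;> positivity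
    by_cases h0 : (R ∩ (T \ B)).card = 0
    · rw [h0, pow_zero]
      linarith [Finset.sum_nonneg hnn]
    · have hmem : R ∩ (T \ B) ∈ R.powerset := mem_powerset.mpr inter_subset_left
      have := Finset.single_le_sum hnn hmem
      have hsub : B ∪ (R ∩ (T \ B)) ⊆ T :=
        union_subset (hB T hT) (inter_subset_right.trans sdiff_subset)
      rw [if_pos hsub, if_neg h0] at this
      linarith
  refine (Finset.sum_le_sum h1).trans ?_
  rw [Finset.sum_add_distrib, Finset.sum_const, nsmul_eq_mul, mul_one]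
  have h2 : ∑ T ∈ F, ∑ J ∈ R.powerset, (if B ∪ J ⊆ T then
          (if J.card = 0 then 0 else ((M : ℝ) + 1) ^ J.card) else 0)
      ≤ ∑ J ∈ R.powerset, (if J.card = 0 then 0 else ((M : ℝ) + 1) ^ J.card * Dk M (d - J.card)) := by
    rw [Finset.sum_comm]
    refine Finset.sum_le_sum fun J hJ => ?_
    rw [← Finset.sum_filter, Finset.sum_const, nsmul_eq_mul]
    by_cases h0 : J.card = 0
    · simp [h0]
    · rw [if_neg h0, if_neg h0, mul_comm]
      apply mul_le_mul_of_nonneg_left _ (by positivity)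
      have hJR := mem_powerset.mp hJ
      exact hlink J (card_pos.mp (Nat.pos_of_ne_zero h0)) (disjoint_of_subset_left hJR hRB)
        ((card_le_card hJR).trans_eq hR)
  have h3 := Finset.sum_powerset_apply_card
    (fun j => (if j = 0 then (0 : ℝ) else ((M : ℝ) + 1) ^ j * Dk M (d - j))) (x := R)
  rw [h3, hR] at h2
  have h4 : ∑ m ∈ range (d + 1), d.choose m •
      (if m = 0 then (0 : ℝ) else ((M : ℝ) + 1) ^ m * Dk M (d - m)) ≤ Dk M d := by
    simp only [nsmul_eq_mul]
    exact sum_links M d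
  linarith

/-- Second moment: a family of sets `T ⊇ B`, all of size `|B| + d`, with links bounded by
`Dk M`, is hit with probability at least `F/(F + Dk M d)`. -/
lemma second_moment (M d : ℕ) (F : Finset (Finset V)) (B : Finset V)
    (hB : ∀ T ∈ F, B ⊆ T) (hd : ∀ T ∈ F, (T \ B).card = d)
    (hlink : ∀ J : Finset V, J.Nonempty → Disjoint J B → J.card ≤ d →
      ((F.filter (fun T => B ∪ J ⊆ T)).card : ℝ) ≤ Dk M (d - J.card))
    {x : Finset V} (hx : B ⊆ x) :
    (F.card : ℝ) ≤ nz M (ind {y | ∃ T ∈ F, T ⊆ y}) x * (F.card + Dk M d) := by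
  classical
  set S : Set (Finset V) := {y | ∃ T ∈ F, T ⊆ y} with hS
  set ρ : ℝ := 1 / ((M : ℝ) + 1) with hρ
  have hμ : (0 : ℝ) < (M : ℝ) + 1 := by positivity
  have hρpos : 0 < ρ := by positivity
  have hρμ : ρ * ((M : ℝ) + 1) = 1 := by rw [hρ]; field_simp
  set N : (V → Fin (M + 1)) → ℝ :=
    fun ω => ∑ T ∈ F, (if T \ B ⊆ zset M ω then (1 : ℝ) else 0) with hN
  set I : (V → Fin (M + 1)) → ℝ := fun ω => ind S (x ∪ zset M ω) with hI
  have hNI : ∀ ω, I ω * N ω = N ω := by
    intro ω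
    by_cases h : x ∪ zset M ω ∈ S
    · simp only [hI]; rw [ind_of_mem h, one_mul]
    · have : N ω = 0 := by
        simp only [hN]
        refine Finset.sum_eq_zero fun T hT => ?_
        rw [if_neg]
        intro hsub
        apply h
        refine ⟨T, hT, ?_⟩
        intro v hv
        by_cases hvB : v ∈ B
        · exact mem_union_left _ (hx hvB)
        · exact mem_union_right _ (hsub (mem_sdiff.mpr ⟨hv, hvB⟩))
      rw [this, mul_zero]
  have hI2 : ∀ ω, I ω ^ 2 = I ω := by
    intro ω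
    by_cases h : x ∪ zset M ω ∈ S
    · simp only [hI]; rw [ind_of_mem h]; norm_num
    · simp only [hI]; rw [ind_of_notMem h]; norm_num
  have hCS := Finset.expect_mul_sq_le_sq_mul_sq (univ : Finset (V → Fin (M + 1))) I N
  simp only [hNI, hI2] at hCS
  have hEN : (𝔼 ω, N ω) = F.card * ρ ^ d := by
    simp only [hN]
    rw [Finset.expect_sum_comm]
    rw [Finset.sum_congr rfl (fun T hT => by
      rw [expect_subset_zset M (T \ B), hd T hT])]
    rw [Finset.sum_const, nsmul_eq_mul]
  have hEN2 : (𝔼 ω, N ω ^ 2) ≤ ρ ^ (2 * d) * (F.card * (F.card + Dk M d)) := by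
    have e1 : ∀ ω, N ω ^ 2 = ∑ T ∈ F, ∑ T' ∈ F,
        (if (T \ B) ∪ (T' \ B) ⊆ zset M ω then (1 : ℝ) else 0) := by
      intro ω
      simp only [hN, sq, Finset.sum_mul_sum]
      refine Finset.sum_congr rfl fun T _ => Finset.sum_congr rfl fun T' _ => ?_
      by_cases h1 : T \ B ⊆ zset M ω
      · by_cases h2 : T' \ B ⊆ zset M ω
        · rw [if_pos h1, if_pos h2, if_pos (union_subset h1 h2)]; norm_num
        · rw [if_neg h2, if_neg (fun h => h2 (subset_union_right.trans h))]; norm_num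
      · rw [if_neg h1, if_neg (fun h => h1 (subset_union_left.trans h))]; norm_num
    simp only [e1]
    rw [Finset.expect_sum_comm]
    have e2 : ∀ T ∈ F, (𝔼 ω : V → Fin (M + 1), ∑ T' ∈ F,
        (if (T \ B) ∪ (T' \ B) ⊆ zset M ω then (1 : ℝ) else 0))
        ≤ ρ ^ (2 * d) * (F.card + Dk M d) := by
      intro T hT
      rw [Finset.expect_sum_comm]
      have e3 : ∀ T' ∈ F, (𝔼 ω : V → Fin (M + 1),
          (if (T \ B) ∪ (T' \ B) ⊆ zset M ω then (1 : ℝ) else 0))
          = ρ ^ (2 * d) * ((M : ℝ) + 1) ^ ((T \ B) ∩ (T' \ B)).card := by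
        intro T' hT'
        rw [expect_subset_zset]
        have hc := Finset.card_union_add_card_inter (T \ B) (T' \ B)
        rw [hd T hT, hd T' hT'] at hc
        have : 2 * d = ((T \ B) ∪ (T' \ B)).card + ((T \ B) ∩ (T' \ B)).card := by omega
        rw [this, pow_add, mul_assoc, ← mul_pow, hρμ, one_pow, mul_one]
      rw [Finset.sum_congr rfl e3, ← Finset.mul_sum]
      apply mul_le_mul_of_nonneg_left _ (by positivity)
      exact sum_inter M d F B (T \ B) (hd T hT) sdiff_disjoint hB hlink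
    refine (Finset.sum_le_sum e2).trans ?_
    rw [Finset.sum_const, nsmul_eq_mul]
    apply le_of_eq; ring
  rw [hEN] at hCS
  have hEI : (𝔼 ω, I ω) = nz M (ind S) x := rfl
  rw [hEI] at hCS
  have hnn : 0 ≤ nz M (ind S) x := by
    have := nz_mono M (g := fun _ => 0) (h := ind S) (fun y => ind_nonneg S y) x
    rwa [nz_const] at this
  have hfin : (F.card * ρ ^ d : ℝ) ^ 2
      ≤ nz M (ind S) x * (ρ ^ (2 * d) * (F.card * (F.card + Dk M d))) :=
    hCS.trans (mul_le_mul_of_nonneg_left hEN2 hnn)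
  have hp : (0 : ℝ) < ρ ^ (2 * d) := by positivity
  have e : (F.card * ρ ^ d : ℝ) ^ 2 = ρ ^ (2 * d) * ((F.card : ℝ) * F.card) := by
    rw [mul_pow, ← pow_mul, mul_comm d 2]; ring
  rw [e] at hfin
  have h5 : ((F.card : ℝ) * F.card) ≤ nz M (ind S) x * (F.card * (F.card + Dk M d)) := by
    have : ρ ^ (2 * d) * ((F.card : ℝ) * F.card)
        ≤ ρ ^ (2 * d) * (nz M (ind S) x * (F.card * (F.card + Dk M d))) := by
      calc _ ≤ _ := hfin
        _ = _ := by ring
    exact le_of_mul_le_mul_left this hp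
  rcases Nat.eq_zero_or_pos F.card with h0 | h0
  · rw [h0]
    push_cast
    have := Dk_pos M d
    positivity
  · have hF : (0 : ℝ) < F.card := by exact_mod_cast h0
    have : (F.card : ℝ) * F.card ≤ F.card * (nz M (ind S) x * (F.card + Dk M d)) := by
      calc _ ≤ _ := h5
        _ = _ := by ring
    exact le_of_mul_le_mul_left this hF

end Pool.Agent.NegLim
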