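import Pool.Agent.NegLim.Noise

/-!
# The spread lemma (Alweiss, Lovett, Wu, Zhang; proof after Rao)

A family of sets of size less than `2^L` which is `R`-spread, `R ≥ 64 (M + 1)`, is hit by `L`
rounds of noise of density `1/(M+1)` with probability at least `3/4`.
-/

namespace Pool.Agent.NegLim

open Finset
open scoped BigOperators

set_option linter.unusedSectionVars false

variable {V : Type} [Fintype V] [DecidableEq V]

/-- The weight of a set `W`: the probability that the random zero set equals `W`. -/
noncomputable def wt (M : ℕ) (W : Finset V) : ℝ :=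
  (M : ℝ) ^ (Fintype.card V - W.card) / ((M : ℝ) + 1) ^ Fintype.card V

lemma wt_nonneg (M : ℕ) (W : Finset V) : 0 ≤ wt M W := by
  unfold wt; positivity

lemma card_zset_eq (M : ℕ) (W : Finset V) :
    (univ.filter (fun ω : V → Fin (M + 1) => zset M ω = W)).card
      = M ^ (Fintype.card V - W.card) := by
  classical
  have h1 : univ.filter (fun ω : V → Fin (M + 1) => zset M ω = W)
      = Fintype.piFinset (fun v => if v ∈ W then ({0} : Finset (Fin (M + 1)))
          else univ.erase 0) := by
    ext ω
    simp only [mem_filter, mem_univ, true_and, Fintype.mem_piFinset]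
    constructor
    · intro h v
      by_cases hv : v ∈ W
      · have : v ∈ zset M ω := by rw [h]; exact hv
        simp only [zset, mem_filter, mem_univ, true_and] at this
        simp [hv, this]
      · have : v ∉ zset M ω := by rw [h]; exact hv
        simp only [zset, mem_filter, mem_univ, true_and] at this
        simp [hv, this]
    · intro h
      ext v
      have hv := h v
      simp only [zset, mem_filter, mem_univ, true_and]
      by_cases hvW : v ∈ W
      · simp only [hvW, if_true, mem_singleton] at hv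
        simp [hv, hvW]
      · simp only [hvW, if_false, mem_erase, mem_univ, and_true] at hv
        simp [hv, hvW]
  rw [h1, Fintype.card_piFinset]
  have h2 : ∀ i : V, #(if i ∈ W then ({0} : Finset (Fin (M + 1))) else univ.erase 0)
        = if i ∈ W then 1 else M := by
      intro i; split_ifs <;> simp
  rw [Finset.prod_congr rfl fun i _ => h2 i, Finset.prod_ite]
  simp only [prod_const_one, one_mul, prod_const]
  congr 1
  have : univ.filter (fun x => x ∉ W) = univ \ W := by ext; simp
  rw [this, Finset.card_sdiff_of_subset (subset_univ W), Finset.card_univ]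

lemma expect_zset (M : ℕ) (G : Finset V → ℝ) :
    (𝔼 ω : V → Fin (M + 1), G (zset M ω)) = ∑ W : Finset V, wt M W * G W := by
  classical
  rw [Fintype.expect_eq_sum_div_card, Fintype.card_fun, Fintype.card_fin]
  rw [← Finset.sum_fiberwise_of_maps_to (g := zset M) (t := univ) (fun ω _ => mem_univ _)]
  rw [Finset.sum_div]
  refine Finset.sum_congr rfl fun W _ => ?_
  have h1 : ∑ ω ∈ univ.filter (fun ω : V → Fin (M + 1) => zset M ω = W), G (zset M ω)
      = ∑ ω ∈ univ.filter (fun ω : V → Fin (M + 1) => zset M ω = W), G W := by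
    refine Finset.sum_congr rfl fun ω hω => ?_
    rw [(mem_filter.mp hω).2]
  rw [h1, Finset.sum_const, nsmul_eq_mul, card_zset_eq]
  unfold wt
  push_cast
  ring

lemma nz_eq_sum (M : ℕ) (g : Finset V → ℝ) (x : Finset V) :
    nz M g x = ∑ W : Finset V, wt M W * g (x ∪ W) := by
  rw [nz_apply, expect_zset M (fun W => g (x ∪ W))]

lemma sum_wt (M : ℕ) : ∑ W : Finset V, wt M W = 1 := by
  have h := expect_zset (V := V) M (fun _ => 1)
  rw [Fintype.expect_const] at h
  simpa using h.symm

/-- Removing a set of size `j` multiplies the weight by `M^j`. -/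
lemma wt_sdiff (M : ℕ) {W U : Finset V} (hd : Disjoint W U) :
    wt M W = wt M (W ∪ U) * (M : ℝ) ^ U.card := by
  unfold wt
  have h1 : (W ∪ U).card = W.card + U.card := card_union_of_disjoint hd
  have h2 : (W ∪ U).card ≤ Fintype.card V := card_le_univ _
  have h3 : Fintype.card V - W.card = (Fintype.card V - (W ∪ U).card) + U.card := by omega
  rw [h3, pow_add]
  ring

section round

variable {I : Type} [DecidableEq I] (S : I → Finset V) (s : Finset I)

/-- The sets containing some `S i`, `i ∈ s`. -/
def hitSet : Set (Finset V) := {y | ∃ i ∈ s, S i ⊆ y}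

lemma hitSet_upper : IsUpperSet (hitSet S s) := by
  rintro a b hab ⟨i, hi, h⟩
  exact ⟨i, hi, h.trans hab⟩

/-- A member of the family inside `S i ∪ W` with smallest part outside `W`. -/
lemma exists_res (W : Finset V) (i : I) (hi : i ∈ s) :
    ∃ j ∈ s, S j ⊆ S i ∪ W ∧ ∀ j' ∈ s, S j' ⊆ S i ∪ W → (S j \ W).card ≤ (S j' \ W).card := by
  classical
  obtain ⟨j, hj, hmin⟩ := Finset.exists_min_image (s.filter (fun j => S j ⊆ S i ∪ W))
    (fun j => (S j \ W).card) ⟨i, mem_filter.mpr ⟨hi, subset_union_left⟩⟩
  rw [mem_filter] at hj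
  exact ⟨j, hj.1, hj.2, fun j' h1 h2 => hmin j' (mem_filter.mpr ⟨h1, h2⟩)⟩

/-- The residual of `S i` after `W`. -/
noncomputable def res (W : Finset V) (i : I) : Finset V :=
  if hi : i ∈ s then S (Classical.choose (exists_res S s W i hi)) \ W else ∅

lemma res_spec (W : Finset V) (i : I) (hi : i ∈ s) :
    res S s W i ⊆ S i ∧ Disjoint W (res S s W i) ∧
      (∃ j ∈ s, S j ⊆ W ∪ res S s W i) ∧
      (∀ j ∈ s, S j ⊆ W ∪ res S s W i → S j \ W = res S s W i) := by
  classical
  have hs := Classical.choose_spec (exists_res S s W i hi)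
  set j0 := Classical.choose (exists_res S s W i hi) with hj0
  have hres : res S s W i = S j0 \ W := by
    unfold res
    rw [dif_pos hi]
  rw [hres]
  have hsub : S j0 \ W ⊆ S i := by
    intro v hv
    rw [mem_sdiff] at hv
    rcases mem_union.mp (hs.2.1 hv.1) with h | h
    · exact h
    · exact absurd h hv.2
  refine ⟨hsub, disjoint_sdiff, ⟨j0, hs.1, ?_⟩, ?_⟩
  · intro v hv
    by_cases hvW : v ∈ W
    · exact mem_union_left _ hvW
    · exact mem_union_right _ (mem_sdiff.mpr ⟨hv, hvW⟩)
  · intro j hj hjs
    have h1 : S j \ W ⊆ S j0 \ W := by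
      intro v hv
      rw [mem_sdiff] at hv
      rcases mem_union.mp (hjs hv.1) with h | h
      · exact absurd h hv.2
      · exact h
    have h2 : S j ⊆ S i ∪ W := by
      intro v hv
      rcases mem_union.mp (hjs hv) with h | h
      · exact mem_union_right _ h
      · exact mem_union_left _ (hsub h)
    exact Finset.eq_of_subset_of_card_le h1 (hs.2.2 j hj h2)

/-- A member of the family inside `Z`, if there is one. -/
noncomputable def can (Z : Finset V) : Finset V :=
  open Classical in if h : ∃ j ∈ s, S j ⊆ Z then S (Classical.choose h) else ∅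

lemma can_spec {Z : Finset V} (h : ∃ j ∈ s, S j ⊆ Z) : ∃ j ∈ s, S j = can S s Z ∧ S j ⊆ Z := by
  unfold can
  rw [dif_pos h]
  have := Classical.choose_spec h
  exact ⟨Classical.choose h, this.1, rfl, this.2⟩

lemma can_card {Z : Finset V} {d : ℕ} (hd : ∀ i ∈ s, (S i).card ≤ d) : (can S s Z).card ≤ d := by
  by_cases h : ∃ j ∈ s, S j ⊆ Z
  · obtain ⟨j, hj, h1, _⟩ := can_spec S s h
    rw [← h1]; exact hd j hj
  · unfold can
    rw [dif_neg h]; simp

/-- The residual is a subset of the canonical member of `W ∪ res`. -/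
lemma res_subset_can (W : Finset V) (i : I) (hi : i ∈ s) :
    res S s W i ⊆ can S s (W ∪ res S s W i) := by
  obtain ⟨_, _, h3, h4⟩ := res_spec S s W i hi
  obtain ⟨j, hj, h5, h6⟩ := can_spec S s h3
  rw [← h5, ← h4 j hj h6]
  exact sdiff_subset

/-- **One round.** The expected number of indices with residual of size at least `t`. -/
lemma round_bad (M d t : ℕ) (A R : ℝ) (hA : 0 ≤ A) (hR : 0 < R) (hMR : (M : ℝ) ≤ R)
    (hd : ∀ i ∈ s, (S i).card ≤ d)
    (hsp : ∀ J : Finset V, ((s.filter (fun i => J ⊆ S i)).card : ℝ) ≤ A * (1 / R) ^ J.card) :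
    ∑ W : Finset V, wt M W * ((s.filter (fun i => t ≤ (res S s W i).card)).card : ℝ)
      ≤ A * 2 ^ d * ((M : ℝ) / R) ^ t := by
  classical
  -- the set of bad pairs
  set B : Finset (Finset V × I) :=
    (univ ×ˢ s).filter (fun p => t ≤ (res S s p.1 p.2).card) with hB
  have hBmem : ∀ p : Finset V × I, p ∈ B ↔ p.2 ∈ s ∧ t ≤ (res S s p.1 p.2).card := by
    intro p; simp [hB]
  have h1 : ∑ W : Finset V, wt M W * ((s.filter (fun i => t ≤ (res S s W i).card)).card : ℝ)
      = ∑ p ∈ B, wt M p.1 := by
    rw [hB, Finset.sum_filter, Finset.sum_product]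
    refine Finset.sum_congr rfl fun W _ => ?_
    show _ = ∑ i ∈ s, (if t ≤ (res S s W i).card then wt M W else 0)
    rw [← Finset.sum_filter, Finset.sum_const, nsmul_eq_mul, mul_comm]
  -- the encoding
  let φ : Finset V × I → Finset V × (Finset V × I) :=
    fun p => (p.1 ∪ res S s p.1 p.2, (res S s p.1 p.2, p.2))
  have hφ : Set.InjOn φ (B : Set (Finset V × I)) := by
    intro p hp p' hp' hpp
    have hp1 := (hBmem p).mp hp
    have hp2 := (hBmem p').mp hp'
    have e1 : p.1 ∪ res S s p.1 p.2 = p'.1 ∪ res S s p'.1 p'.2 := (Prod.ext_iff.mp hpp).1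
    have e2 := (Prod.ext_iff.mp (Prod.ext_iff.mp hpp).2)
    have e3 : res S s p.1 p.2 = res S s p'.1 p'.2 := e2.1
    have e4 : p.2 = p'.2 := e2.2
    have d1 := (res_spec S s p.1 p.2 hp1.1).2.1
    have d2 := (res_spec S s p'.1 p'.2 hp2.1).2.1
    have f1 : p.1 = (p.1 ∪ res S s p.1 p.2) \ res S s p.1 p.2 := by
      rw [union_sdiff_right]; exact (sdiff_eq_self_of_disjoint d1).symm
    have f2 : p'.1 = (p'.1 ∪ res S s p'.1 p'.2) \ res S s p'.1 p'.2 := by
      rw [union_sdiff_right]; exact (sdiff_eq_self_of_disjoint d2).symm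
    apply Prod.ext _ e4
    rw [f1, f2, e1, e3]
  set Tg : Finset (Finset V × (Finset V × I)) :=
    (univ ×ˢ (univ ×ˢ s)).filter
      (fun q => q.2.1 ⊆ can S s q.1 ∧ t ≤ q.2.1.card ∧ q.2.1 ⊆ S q.2.2) with hTg
  have hwt : ∀ p ∈ B, wt M p.1 = wt M (φ p).1 * (M : ℝ) ^ (φ p).2.1.card := by
    intro p hp
    exact wt_sdiff M (res_spec S s p.1 p.2 ((hBmem p).mp hp).1).2.1
  have himg : B.image φ ⊆ Tg := by
    intro q hq
    rw [mem_image] at hq
    obtain ⟨p, hp, rfl⟩ := hq
    have hp1 := (hBmem p).mp hp
    rw [hTg, mem_filter]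
    refine ⟨by simp [φ, hp1.1], res_subset_can S s p.1 p.2 hp1.1, hp1.2,
      (res_spec S s p.1 p.2 hp1.1).1⟩
  have h2 : ∑ p ∈ B, wt M p.1 ≤ ∑ q ∈ Tg, wt M q.1 * (M : ℝ) ^ q.2.1.card := by
    calc ∑ p ∈ B, wt M p.1 = ∑ p ∈ B, wt M (φ p).1 * (M : ℝ) ^ (φ p).2.1.card :=
          Finset.sum_congr rfl hwt
      _ = ∑ q ∈ B.image φ, wt M q.1 * (M : ℝ) ^ q.2.1.card := by
          rw [Finset.sum_image hφ]
      _ ≤ _ := by
          apply Finset.sum_le_sum_of_subset_of_nonneg himg
          intro q _ _
          have := wt_nonneg M q.1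
          positivity
  rw [h1]
  refine h2.trans ?_
  -- evaluate the sum over the target
  rw [hTg, Finset.sum_filter, Finset.sum_product]
  have h3 : ∀ Z ∈ (univ : Finset (Finset V)),
      ∑ c ∈ (univ ×ˢ s : Finset (Finset V × I)),
        (if c.1 ⊆ can S s Z ∧ t ≤ c.1.card ∧ c.1 ⊆ S c.2 then wt M Z * (M : ℝ) ^ c.1.card else 0)
      ≤ wt M Z * (A * 2 ^ d * ((M : ℝ) / R) ^ t) := by
    intro Z _
    rw [Finset.sum_product]
    have h4 : ∀ U ∈ (univ : Finset (Finset V)),
        ∑ i ∈ s, (if U ⊆ can S s Z ∧ t ≤ U.card ∧ U ⊆ S i then wt M Z * (M : ℝ) ^ U.card else 0)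
        ≤ (if U ⊆ can S s Z then wt M Z * (A * ((M : ℝ) / R) ^ t) else 0) := by
      intro U _
      by_cases hU : U ⊆ can S s Z
      · by_cases ht : t ≤ U.card
        · simp only [hU, ht, true_and, if_true]
          rw [← Finset.sum_filter, Finset.sum_const, nsmul_eq_mul]
          have h5 := hsp U
          have h6 : (0 : ℝ) ≤ wt M Z * (M : ℝ) ^ U.card := by
            have := wt_nonneg M Z
            positivity
          calc ((s.filter (fun i => U ⊆ S i)).card : ℝ) * (wt M Z * (M : ℝ) ^ U.card)
              ≤ (A * (1 / R) ^ U.card) * (wt M Z * (M : ℝ) ^ U.card) :=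
                mul_le_mul_of_nonneg_right h5 h6
            _ = wt M Z * (A * ((M : ℝ) / R) ^ U.card) := by
                rw [div_eq_mul_one_div (M : ℝ) R, mul_pow]; ring
            _ ≤ wt M Z * (A * ((M : ℝ) / R) ^ t) := by
                apply mul_le_mul_of_nonneg_left _ (wt_nonneg M Z)
                apply mul_le_mul_of_nonneg_left _ hA
                apply pow_le_pow_of_le_one (by positivity) _ ht
                rw [div_le_one hR]; exact hMR
        · have : ∀ i ∈ s, (if U ⊆ can S s Z ∧ t ≤ U.card ∧ U ⊆ S i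
              then wt M Z * (M : ℝ) ^ U.card else 0) = 0 := by
            intro i _
            rw [if_neg]
            exact fun h => ht h.2.1
          rw [Finset.sum_congr rfl this, Finset.sum_const_zero, if_pos hU]
          have := wt_nonneg M Z
          positivity
      · have : ∀ i ∈ s, (if U ⊆ can S s Z ∧ t ≤ U.card ∧ U ⊆ S i
            then wt M Z * (M : ℝ) ^ U.card else 0) = 0 := by
          intro i _
          rw [if_neg]
          exact fun h => hU h.1
        rw [Finset.sum_congr rfl this, Finset.sum_const_zero, if_neg hU]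
    refine (Finset.sum_le_sum h4).trans ?_
    rw [← Finset.sum_filter, Finset.sum_const, nsmul_eq_mul]
    have h7 : ((univ.filter (fun U => U ⊆ can S s Z)).card : ℝ) ≤ 2 ^ d := by
      have e : univ.filter (fun U => U ⊆ can S s Z) = (can S s Z).powerset := by
        ext U; simp
      rw [e, card_powerset]
      have : 2 ^ (can S s Z).card ≤ 2 ^ d := Nat.pow_le_pow_right (by norm_num) (can_card S s hd)
      exact_mod_cast this
    have h8 : (0 : ℝ) ≤ wt M Z * (A * ((M : ℝ) / R) ^ t) := by
      have := wt_nonneg M Z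
      positivity
    calc ((univ.filter (fun U => U ⊆ can S s Z)).card : ℝ) * (wt M Z * (A * ((M : ℝ) / R) ^ t))
        ≤ 2 ^ d * (wt M Z * (A * ((M : ℝ) / R) ^ t)) := mul_le_mul_of_nonneg_right h7 h8
      _ = _ := by ring
  refine (Finset.sum_le_sum h3).trans ?_
  rw [← Finset.sum_mul, sum_wt, one_mul]

end round

/-- **The spread lemma.** -/
theorem spread_hit (M : ℕ) (R : ℝ) (hR : 64 * ((M : ℝ) + 1) ≤ R) :
    ∀ (L d : ℕ), d < 2 ^ L → ∀ (I : Type) [DecidableEq I] (S : I → Finset V) (s : Finset I)
      (A : ℝ), 0 < A → (∀ i ∈ s, (S i).card ≤ d) →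
      (∀ J : Finset V, ((s.filter (fun i => J ⊆ S i)).card : ℝ) ≤ A * (1 / R) ^ J.card) →
      ∀ x : Finset V, (s.card : ℝ) / A - (1 / 4) * (1 - (1 / 4) ^ d)
        ≤ (nz M ^ L) (ind (hitSet S s)) x := by
  classical
  have hM0 : (0 : ℝ) ≤ M := Nat.cast_nonneg M
  have hRpos : 0 < R := by linarith
  have zero : ∀ (L : ℕ) (I : Type) [DecidableEq I] (S : I → Finset V) (s : Finset I) (A : ℝ),
      0 < A → (∀ i ∈ s, (S i).card ≤ 0) →
      (∀ J : Finset V, ((s.filter (fun i => J ⊆ S i)).card : ℝ) ≤ A * (1 / R) ^ J.card) →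
      ∀ x : Finset V, (s.card : ℝ) / A - (1 / 4) * (1 - (1 / 4) ^ 0)
        ≤ (nz M ^ L) (ind (hitSet S s)) x := by
    intro L I _ S s A hA hd hsp x
    rcases s.eq_empty_or_nonempty with h | ⟨i, hi⟩
    · subst h
      simp only [card_empty, Nat.cast_zero, zero_div, pow_zero, sub_self, mul_zero]
      have := nz_pow_mono M L (g := fun _ => 0) (h := ind (hitSet S (∅ : Finset I)))
        (fun y => ind_nonneg _ y) x
      rwa [nz_pow_const] at this
    · have h0 : S i = ∅ := card_eq_zero.mp (Nat.le_zero.mp (hd i hi))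
      have h1 : (1 : ℝ) ≤ (nz M ^ L) (ind (hitSet S s)) x := by
        have := nz_pow_mono M L (g := fun _ => 1) (h := ind (hitSet S s)) (fun y => by
          rw [ind_of_mem]
          exact ⟨i, hi, by rw [h0]; exact empty_subset y⟩) x
        rwa [nz_pow_const] at this
      have h2 : (s.card : ℝ) ≤ A := by
        have := hsp ∅
        simpa using this
      have h3 : (s.card : ℝ) / A ≤ 1 := by rw [div_le_one hA]; exact h2
      simp only [pow_zero, sub_self, mul_zero, sub_zero]
      linarith
  intro L
  induction L with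
  | zero =>
    intro d hd I _ S s A hA hSd hsp x
    have h0 : d = 0 := by simpa using hd
    subst h0
    exact zero 0 I S s A hA hSd hsp x
  | succ L ih =>
    intro d hd I _ S s A hA hSd hsp x
    rcases Nat.eq_zero_or_pos d with h0 | hdpos
    · subst h0
      exact zero (L + 1) I S s A hA hSd hsp x
    · have hd2 : d / 2 < 2 ^ L := by
        rw [pow_succ] at hd
        omega
      -- the inequality for each outcome of the first round
      have hround : ∀ W : Finset V,
          ((s.filter (fun i => (res S s W i).card ≤ d / 2)).card : ℝ) / A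
            - (1 / 4) * (1 - (1 / 4) ^ (d / 2))
          ≤ (nz M ^ L) (ind (hitSet S s)) (x ∪ W) := by
        intro W
        set s' := s.filter (fun i => (res S s W i).card ≤ d / 2) with hs'
        have h1 := ih (d / 2) hd2 I (fun i => res S s W i) s' A hA
          (fun i hi => (mem_filter.mp hi).2) (by
            intro J
            refine le_trans ?_ (hsp J)
            have : s'.filter (fun i => J ⊆ res S s W i) ⊆ s.filter (fun i => J ⊆ S i) := by
              intro i hi
              rw [mem_filter] at hi ⊢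
              have hi1 := (mem_filter.mp hi.1).1
              exact ⟨hi1, hi.2.trans (res_spec S s W i hi1).1⟩
            exact_mod_cast card_le_card this) (x ∪ W)
        refine h1.trans ?_
        apply nz_pow_le_of
        intro y hy
        by_cases hyH : y ∈ hitSet (fun i => res S s W i) s'
        · obtain ⟨i, hi, hiy⟩ := hyH
          have hi1 := (mem_filter.mp hi).1
          obtain ⟨j, hj, hjs⟩ := (res_spec S s W i hi1).2.2.1
          have : y ∈ hitSet S s := by
            refine ⟨j, hj, hjs.trans (union_subset ?_ hiy)⟩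
            exact subset_union_right.trans hy
          rw [ind_of_mem this]
          exact ind_le_one _ _
        · rw [ind_of_notMem hyH]
          exact ind_nonneg _ _
      rw [pow_succ']
      simp only [Module.End.mul_apply]
      rw [nz_eq_sum]
      have h2 : ∑ W : Finset V, wt M W *
          (((s.filter (fun i => (res S s W i).card ≤ d / 2)).card : ℝ) / A
            - (1 / 4) * (1 - (1 / 4) ^ (d / 2)))
          ≤ ∑ W : Finset V, wt M W * (nz M ^ L) (ind (hitSet S s)) (x ∪ W) := by
        refine Finset.sum_le_sum fun W _ => ?_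
        exact mul_le_mul_of_nonneg_left (hround W) (wt_nonneg M W)
      refine le_trans ?_ h2
      -- bad indices
      set t := d / 2 + 1 with ht
      have hbad := round_bad S s M d t A R hA.le hRpos (by linarith) hSd hsp
      have hcompl : ∀ W : Finset V,
          ((s.filter (fun i => (res S s W i).card ≤ d / 2)).card : ℝ)
            = s.card - ((s.filter (fun i => t ≤ (res S s W i).card)).card : ℝ) := by
        intro W
        have h3 := Finset.card_filter_add_card_filter_not (s := s)
          (fun i => (res S s W i).card ≤ d / 2)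
        have h4 : s.filter (fun i => ¬ (res S s W i).card ≤ d / 2)
            = s.filter (fun i => t ≤ (res S s W i).card) := by
          apply Finset.filter_congr
          intro i _
          rw [ht]; omega
        rw [h4] at h3
        have h5 : ((s.filter (fun i => (res S s W i).card ≤ d / 2)).card : ℝ)
            + ((s.filter (fun i => t ≤ (res S s W i).card)).card : ℝ) = s.card := by
          exact_mod_cast h3
        linarith
      have h6 : ∑ W : Finset V, wt M W *
          (((s.filter (fun i => (res S s W i).card ≤ d / 2)).card : ℝ) / A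
            - (1 / 4) * (1 - (1 / 4) ^ (d / 2)))
          = ((s.card : ℝ) / A - (1 / 4) * (1 - (1 / 4) ^ (d / 2)))
            - (∑ W : Finset V, wt M W *
                ((s.filter (fun i => t ≤ (res S s W i).card)).card : ℝ)) / A := by
        have e : ∀ W : Finset V, wt M W *
            (((s.filter (fun i => (res S s W i).card ≤ d / 2)).card : ℝ) / A
              - (1 / 4) * (1 - (1 / 4) ^ (d / 2)))
            = wt M W * ((s.card : ℝ) / A - (1 / 4) * (1 - (1 / 4) ^ (d / 2)))
              - wt M W * ((s.filter (fun i => t ≤ (res S s W i).card)).card : ℝ) / A := by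
          intro W
          rw [hcompl W]
          ring
        rw [Finset.sum_congr rfl fun W _ => e W, Finset.sum_sub_distrib, ← Finset.sum_mul,
          sum_wt, one_mul, ← Finset.sum_div]
      rw [h6]
      have h7 : (∑ W : Finset V, wt M W *
          ((s.filter (fun i => t ≤ (res S s W i).card)).card : ℝ)) / A
          ≤ 2 ^ d * ((M : ℝ) / R) ^ t := by
        rw [div_le_iff₀ hA]
        calc _ ≤ A * 2 ^ d * ((M : ℝ) / R) ^ t := hbad
          _ = _ := by ring
      have h8 : (2 : ℝ) ^ d * ((M : ℝ) / R) ^ t ≤ (1 / 4) * (1 / 4) ^ d := by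
        have h9 : (M : ℝ) / R ≤ 1 / 64 := by
          rw [div_le_iff₀ hRpos]; linarith
        have h10 : ((M : ℝ) / R) ^ t ≤ (1 / 64 : ℝ) ^ t :=
          pow_le_pow_left₀ (by positivity) h9 t
        have h11 : (1 / 64 : ℝ) ^ t ≤ (1 / 8 : ℝ) ^ (d + 1) := by
          have e : (1 / 64 : ℝ) ^ t = (1 / 8 : ℝ) ^ (2 * t) := by
            rw [pow_mul]; norm_num
          rw [e]
          apply pow_le_pow_of_le_one (by norm_num) (by norm_num)
          omega
        calc (2 : ℝ) ^ d * ((M : ℝ) / R) ^ t ≤ 2 ^ d * (1 / 8 : ℝ) ^ (d + 1) :=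
              mul_le_mul_of_nonneg_left (h10.trans h11) (by positivity)
          _ = (1 / 8) * (2 * (1 / 8)) ^ d := by rw [mul_pow, pow_succ]; ring
          _ ≤ (1 / 4) * (1 / 4) ^ d := by
              have : (2 * (1 / 8) : ℝ) = 1 / 4 := by norm_num
              rw [this]
              have : (0 : ℝ) ≤ (1 / 4) ^ d := by positivity
              linarith
      have h12 : (1 / 4 : ℝ) ^ d ≤ (1 / 4) * (1 / 4) ^ (d / 2) := by
        rw [← pow_succ']
        apply pow_le_pow_of_le_one (by norm_num) (by norm_num)
        omega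
      have h13 : (0 : ℝ) ≤ (1 / 4) ^ d := by positivity
      linarith

end Pool.Agent.NegLim
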